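import Pool.Agent.H54.RF.AsmD

/-!
# Project RG (MP_35eb49): assembly from a statement about lines
-/

set_option autoImplicit false

namespace Pool.Agent.H54.RF

open NC

/-- The assembly, from the properties of the germ. -/
theorem asmL {n : ℕ} (M : CoxeterMatrix (Fin n)) (hn : 0 < n) {S : Type} [NC S]
    (hB : NC.Basic S) (hC : NC.Conn S) (hne : bo S ≠ ⊤) (hrk : 2 ≤ NC.rk (⊤ : S))
    (a : Fin n → S) (ol : List (Fin n)) (h : ℕ)
    (hR : Rz M a ol h) (hcone : SpCone) (O : Ops) (reps : List ℕ) (ix : S → ℕ) (sf : ℕ → S)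
    (na : ℕ) (hE : Enc O reps ix sf) (hN : Na ix O na) 
    (hL : ∀ (F : (Fin 3 → ℤ) → Fin 3 → S) (D : ℕ), Fl F D → ∃ v d, ∃ w : S, w ≠ ⊤ ∧
      ((∀ n : ℕ, aa F (v + (n : ℤ) • e d) d ≤ w) ∨
        ∀ n : ℕ, F (v + (n : ℤ) • e d) d ≤ tau^[n] w))
    (hK : ∀ J ∈ reps, ∃ cp bd : ℕ → ℕ, O.ckK na J cp bd = true)
    (at_ : ℕ → ℕ) (ha : ∀ i : Fin n, ix (a i) = at_ i)
    (hX : ∀ J ∈ reps, ∃ mv k s, O.ckX na n at_ J mv k s = true) : Concl M := by
  intro g hg hidx
  obtain ⟨val, hgrp, hval, htop⟩ := sp_rz n M S a ol h hB hC hR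
  obtain ⟨gr, hδ, hgrk, hlen, hinj, hsimple, hle, hinf⟩ := gar S (Art M) val hgrp hne
  let _ := gr
  have hG : Gv val := ⟨hgrp.mult, hinj, hδ, hsimple, hle, hinf, hlen⟩
  have hP : PJt val := sp_pJ S (Art M) val hB hC hG
  have hS : Sut val := sp_su S (Art M) val hB hC hG hP
  have hKL : KL S := sp_kL S O reps ix sf na hB hE hN hK
  have himg : ∀ l : List (Fin n), val '' (a '' {i | i ∈ l}) =
      (PresentedGroup.of '' {i : Fin n | i ∈ l} : Set (Art M)) := by
    intro l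
    rw [Set.image_image]
    exact Set.image_congr fun i _ => hval i
  -- parabolic subgroups of the germ are parabolic
  have hpar : ∀ J : S, J ≠ bo S → J ≠ ⊤ → ∀ y : Art M,
      (∃ (X : Set (Fin n)) (b : Art M), (GJ val J).map (MulAut.conj y).toMonoidHom =
        (Subgroup.closure (PresentedGroup.of '' X)).map (MulAut.conj b).toMonoidHom) ∧
      (GJ val J).map (MulAut.conj y).toMonoidHom ≠ ⊤ ∧
      (GJ val J).map (MulAut.conj y).toMonoidHom ≠ ⊥ := by
    intro J hJ1 hJ2 y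
    obtain ⟨l, c, z, hch, hz⟩ := sp_par sp_mv S (Art M) val O reps ix sf na hB hG hE hN n a at_ ha
      hX J hJ1 hJ2
    have hstd := sp_std S (Art M) val hB hC hG n a hR.rk_a l c hch
    obtain ⟨hne1, hne2⟩ := hP.ne J hJ2 hJ1
    refine ⟨⟨{i | i ∈ l}, y * z, ?_⟩, ?_, ?_⟩
    · rw [hz, hstd, himg, asm_map_map]
    · intro h3
      apply hne1
      rw [eq_top_iff]
      intro x _
      have h4 : y * x * y⁻¹ ∈ (GJ val J).map (MulAut.conj y).toMonoidHom := by rw [h3]; trivial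
      obtain ⟨w, hw, hw2⟩ := h4
      have h5 : y * w * y⁻¹ = y * x * y⁻¹ := by simpa using hw2
      have h6 : w = x := by
        have := mul_right_cancel h5
        exact mul_left_cancel this
      exact h6 ▸ hw
    · intro h3
      apply hne2
      rw [eq_bot_iff]
      intro x hx
      have h4 : (MulAut.conj y).toMonoidHom x ∈ (GJ val J).map (MulAut.conj y).toMonoidHom :=
        ⟨x, hx, rfl⟩
      rw [h3, Subgroup.mem_bot] at h4
      have h5 : y * x * y⁻¹ = 1 := by simpa using h4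
      rw [Subgroup.mem_bot]
      have h6 : y * x = y := by rw [mul_inv_eq_one] at h5; exact h5
      exact mul_eq_left.mp h6
  -- `g` is not periodic
  have hper : ∀ m : ℕ, 0 < m → ∀ k : ℤ, g ^ m ≠ Gar.δ ^ k := by
    intro m hm k hk
    let i0 : Fin n := ⟨0, hn⟩
    have hai1 : a i0 ≠ bo S := by
      intro h3
      have := hR.rk_a i0
      rw [h3, hB.rk_bo] at this
      omega
    have hai2 : a i0 ≠ ⊤ := by
      intro h3
      have := hR.rk_a i0
      rw [h3] at this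
      omega
    obtain ⟨hp1, hp2, hp3⟩ := hpar (a i0) hai1 hai2 1
    refine hg _ hp1 hp2 hp3 (m * ord (Art M)) (Nat.mul_pos hm Gar.ord_pos) ?_
    have hcen : ∀ x : Art M, g ^ (m * ord (Art M)) * x = x * g ^ (m * ord (Art M)) := by
      intro x
      rw [pow_mul, hk, ← zpow_natCast, ← zpow_mul, mul_comm k, zpow_mul, zpow_natCast]
      have h4 := Gar.central_zpow k x
      rw [zpow_mul, zpow_natCast] at h4
      exact h4
    ext x
    constructor
    · rintro ⟨w, hw, rfl⟩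
      have : (MulAut.conj (g ^ (m * ord (Art M)))).toMonoidHom w = w := by
        simp only [MulEquiv.coe_toMonoidHom, MulAut.conj_apply]
        rw [hcen w, mul_assoc, mul_inv_cancel, mul_one]
      rw [this]
      exact hw
    · intro hx
      refine ⟨x, hx, ?_⟩
      simp only [MulEquiv.coe_toMonoidHom, MulAut.conj_apply]
      rw [hcen x, mul_assoc, mul_inv_cancel, mul_one]
  obtain ⟨Y, D, Z, N, hF, hN0, hcomm⟩ := flat3_of hcone (Art M) g hper hidx
  obtain ⟨F, hFl, hF1, hF2⟩ := sp_flOf S (Art M) val hB hgrp.mult hinj hδ hsimple hle hinf Y D Z hF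
  obtain ⟨v, d, w, hw, hline⟩ := hL F D hFl
  obtain ⟨v', l, J, hJ1, hJ2, hJl, hu⟩ := sp_rowJ S (Art M) val hB hC hG Y D Z hF F hFl hF1 hF2 v d
    w hw hline
  have hSu : Su val (l.map val).prod J := hS.prod l J hJl
  have hcom := hu (g ^ N) (hcomm d)
  have hnorm := sp_norm (sp_step sp_wk) S (Art M) val hB hC hG hP hS hKL (l.map val).prod J
    ((Y v')⁻¹ * g ^ N * Y v') (hP.one_le J _ hSu.1) hSu hcom
  obtain ⟨hp1, hp2, hp3⟩ := hpar J hJ2 hJ1 (Y v')
  refine hg _ hp1 hp2 hp3 N hN0 ?_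
  rw [asm_map_map]
  have h3 : g ^ N * Y v' = Y v' * ((Y v')⁻¹ * g ^ N * Y v') := by group
  rw [h3, ← asm_map_map, hnorm]

/-- The assembly, from the checks. -/
theorem asmDL (hcone : SpCone) {n : ℕ} (M : CoxeterMatrix (Fin n)) (hn : 0 < n)
    (D : Dat) (hD : D.check = true) (X : Cert) (hX : X.check D = true) (hm : X.m.length = n)
    (hM : ∀ i j : Fin n, M i j = Wd.en X.m i j) (hr : Nat.ble 2 (Dat.rf D.L D.full) = true)
    (O : Ops) (el : ℕ → ℕ) (reps : List ℕ) (hA : O.ckA D el = true) (hB : O.ckB D el = true)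
    (hC : O.ckC D el reps = true) (hP : O.ckP = true) (na : ℕ) (hN : O.ckN D el na = true)
    (hL : ∀ (S : Type) [NC S] (ix : S → ℕ) (sf : ℕ → S) (F : (Fin 3 → ℤ) → Fin 3 → S) (D : ℕ),
      NC.Basic S → Enc O reps ix sf → Fl F D → ∃ v d, ∃ w : S, w ≠ ⊤ ∧
      ((∀ n : ℕ, aa F (v + (n : ℤ) • e d) d ≤ w) ∨
        ∀ n : ℕ, F (v + (n : ℤ) • e d) d ≤ tau^[n] w))
    (hK : ∀ J ∈ reps, ∃ cp bd : ℕ → ℕ, O.ckK na J cp bd = true)
    (at_ : ℕ → ℕ) (hat : Ops.allR n (fun i => Ops.ba (Nat.ble (at_ i) O.top)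
      (Nat.beq (el (at_ i)) (Nat.pow 2 (X.a.getD i 0)))) = true)
    (hXX : ∀ J ∈ reps, ∃ mv k s, O.ckX na n at_ J mv k s = true) : Concl M := by
  obtain ⟨inst, hOk, hConn⟩ := sp_dat (fun S _ => NC.basic S) D hD
  have hBas : NC.Basic D.S := NC.basic D.S
  obtain ⟨a, ol, hR, ha, -⟩ := sp_cert D hBas hOk hD X hX n M hm hM
  obtain ⟨ix, sf, hE, hsf⟩ := sp_enc D hBas hOk hD O el reps hA hB hC hP
  have hNa := sp_na D hBas hOk O el reps ix sf na hE hsf hN
  have hrk : 2 ≤ NC.rk (⊤ : D.S) := by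
    rw [hOk.rk, hOk.top]
    exact Nat.le_of_ble_eq_true hr
  have hne : bo D.S ≠ ⊤ := by
    intro h3
    rw [← h3, hBas.rk_bo] at hrk
    omega
  have hai : ∀ i : Fin n, ix (a i) = at_ i := by
    intro i
    have h6 := (Ops.allR_iff _ _).mp hat i i.2
    have h7 : Nat.ble (at_ i) O.top = true ∧
        Nat.beq (el (at_ i)) (Nat.pow 2 (X.a.getD i 0)) = true := by
      cases h8 : Nat.ble (at_ i) O.top with
      | false => rw [h8] at h6; exact absurd h6 (by simp [Ops.ba, Ops.bi])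
      | true => rw [h8] at h6; exact ⟨rfl, h6⟩
    have h3 := Nat.le_of_ble_eq_true h7.1
    have h4 : el (at_ i) = 2 ^ X.a.getD i 0 := Nat.eq_of_beq_eq_true h7.2
    have h5 : sf (at_ i) = a i := by
      apply Dat.S.ext
      rw [hsf _ h3, h4, ha i]
    rw [← h5, hE.ix_sf _ h3]
  exact asmL M hn hBas hConn hne hrk a ol X.h hR hcone O reps ix sf na hE hNa
    (fun F D' hF => hL D.S ix sf F D' hBas hE hF) hK at_ hai hXX

end Pool.Agent.H54.RF
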