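import Pool.Agent.H54.RF.SpecB
import Pool.Agent.H54.RF.NCB

/-!
# Project RG (MP_35eb49): the parabolic subgroups with another numbering of the simple elements

Copies of `NaL.lean`, `KLL.lean` and `Par.lean` with fewer assumptions on the numbering.
-/

set_option autoImplicit false

namespace Pool.Agent.H54.RF

namespace E0

open NC

/-- The operations `O` describe the germ `S` (without the conditions for free orbits). -/
structure Enc0 {S : Type} [NC S] (O : Ops) (reps : List ℕ) (ix : S → ℕ) (sf : ℕ → S) : Prop where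
  m : O.m = O.top + 1
  h_pos : 0 < O.h
  ix_sf : ∀ i ≤ O.top, ix (sf i) = i
  sf_ix : ∀ s, sf (ix s) = s
  lt : ∀ s, ix s ≤ O.top
  bo : ix (bo S) = 0
  top : ix ⊤ = O.top
  mt : ∀ s t : S, O.mt (ix s) (ix t) = ix (s ⊓ t)
  kk : ∀ s : S, O.kk (ix s) = ix (K s)
  tt : ∀ (k : ℕ) (s : S), k < O.h → O.tt k (ix s) = ix (tau^[k] s)
  t1 : ∀ s : S, O.tt 1 (ix s) = ix (tau s)
  per : ∀ s : S, tau^[O.h] s = s
  pr : ∀ b R : S, K b ⊓ R ≠ NC.bo S → O.pr (ix b) (ix R) = ix (N1 b R)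
  orb : ∀ s : S, O.orb (ix (tau s)) = O.orb (ix s)
  rep : ∀ s : S, s ≠ NC.bo S → s ≠ ⊤ → ∃ k < O.h, ix (tau^[k] s) ∈ reps

/-- The check of the atoms is sound. -/
def SpNa0 : Prop := ∀ (D : Dat) [NC D.S], NC.Basic D.S → D.Ok →
  ∀ (O : Ops) (el : ℕ → ℕ) (reps : List ℕ) (ix : D.S → ℕ) (sf : ℕ → D.S) (na : ℕ),
    Enc0 O reps ix sf → (∀ i ≤ O.top, (sf i).1 = el i) → O.ckN D el na = true → Na ix O na

/-- The check of the finite property is sound. -/
def SpKL0 : Prop := ∀ (S : Type) [NC S] (O : Ops) (reps : List ℕ) (ix : S → ℕ) (sf : ℕ → S)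
  (na : ℕ), NC.Basic S → Enc0 O reps ix sf → Na ix O na →
  (∀ J ∈ reps, ∃ cp bd : ℕ → ℕ, O.ckK na J cp bd = true) → KL S

/-- Every proper parabolic subgroup of the germ is conjugate to a standard one. -/
def SpPar0 : Prop := ∀ (S : Type) [NC S] (G : Type) [Group G] [Gar G] (val : S → G)
  (O : Ops) (reps : List ℕ) (ix : S → ℕ) (sf : ℕ → S) (na : ℕ),
  NC.Basic S → Gv val → Enc0 O reps ix sf → Na ix O na →
  ∀ (n : ℕ) (a : Fin n → S) (at_ : ℕ → ℕ), (∀ i : Fin n, ix (a i) = at_ i) →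
  (∀ J ∈ reps, ∃ mv k s, O.ckX na n at_ J mv k s = true) →
  ∀ J : S, J ≠ bo S → J ≠ ⊤ → ∃ (l : List (Fin n)) (c : S) (y : G), Chain a l c ∧
    GJ val J = (GJ val c).map (MulAut.conj y).toMonoidHom


theorem b7_ba {a b : Bool} (h : Ops.ba a b = true) : a = true ∧ b = true := by
  cases a <;> cases b <;> simp_all [Ops.ba, Ops.bi]

theorem b7_bo {a b : Bool} (h : Ops.bo a b = true) : a = true ∨ b = true := by
  cases a <;> cases b <;> simp_all [Ops.bo, Ops.bi]

theorem b7_allR (f : ℕ → Bool) : ∀ (n : ℕ), Ops.allR n f = true → ∀ k < n, f k = true := by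
  intro n
  induction n with
  | zero => intro _ k hk; exact absurd hk (Nat.not_lt_zero k)
  | succ n ih =>
    intro h k hk
    have h' : Ops.bi (f n) (Ops.allR n f) false = true := h
    have h1 : f n = true ∧ Ops.allR n f = true := b7_ba h'
    rcases Nat.lt_succ_iff_lt_or_eq.1 hk with h2 | h2
    · exact ih h1.2 k h2
    · rw [h2]
      exact h1.1

/-- The check of the atoms is sound. -/
theorem sp_na0 : SpNa0 := by
  intro D _ _ hD O el reps ix sf na hE hel hck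
  unfold Ops.ckN at hck
  obtain ⟨h1, hck⟩ := b7_ba hck
  obtain ⟨h2, h3⟩ := b7_ba hck
  refine ⟨Nat.le_of_ble_eq_true h1, Nat.le_of_ble_eq_true h2, fun s => ?_⟩
  have h4 : ix s < O.m := by
    rw [hE.m]
    exact Nat.lt_succ_of_le (hE.lt s)
  have h5 := b7_allR _ _ h3 (ix s) h4
  have h6 : s.1 = el (ix s) := by
    rw [← hel (ix s) (hE.lt s), hE.sf_ix]
  have h7 : NC.rk s = Dat.rf D.L (el (ix s)) := by
    rw [hD.rk s, h6]
  rw [h7]
  cases h8 : Nat.beq (Dat.rf D.L (el (ix s))) 1 with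
  | true =>
    rw [h8] at h5
    have h9 : Ops.ba (Nat.blt 0 (ix s)) (Nat.ble (ix s) na) = true := h5
    obtain ⟨h10, h11⟩ := b7_ba h9
    have h12 := Nat.eq_of_beq_eq_true h8
    have h13 : 0 < ix s := Nat.le_of_ble_eq_true h10
    have h14 : ix s ≤ na := Nat.le_of_ble_eq_true h11
    exact ⟨fun _ => ⟨h13, h14⟩, fun _ => h12⟩
  | false =>
    rw [h8] at h5
    have h9 : Ops.bo (Nat.beq (ix s) 0) (Nat.blt na (ix s)) = true := h5
    have h12 : Dat.rf D.L (el (ix s)) ≠ 1 := Nat.ne_of_beq_eq_false h8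
    constructor
    · intro h
      exact absurd h h12
    · rintro ⟨h13, h14⟩
      rcases b7_bo h9 with h10 | h10
      · have := Nat.eq_of_beq_eq_true h10
        omega
      · have h15 : na < ix s := Nat.le_of_ble_eq_true h10
        omega


theorem b8_frc {α : Type} (x : ℕ) (f : ℕ → α) : Ops.frc x f = f x := by
  cases x <;> rfl

theorem b8_bi {c t e : Bool} : Ops.bi c t e = true ↔ (c = true → t = true) ∧
    (c = false → e = true) := by
  cases c <;> simp [Ops.bi]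

theorem b8_ba {a b : Bool} : Ops.ba a b = true ↔ a = true ∧ b = true := by
  cases a <;> simp [Ops.ba, Ops.bi]

theorem b8_bo {a b : Bool} : Ops.bo a b = true ↔ a = true ∨ b = true := by
  cases a <;> simp [Ops.bo, Ops.bi]

theorem b8_not {a : Bool} : Ops.bi a false true = true ↔ ¬ a = true := by
  cases a <;> simp [Ops.bi]

theorem b8_imp {a b : Bool} : Ops.bi a b true = true ↔ (a = true → b = true) := by
  cases a <;> simp [Ops.bi]

theorem b8_allR {n : ℕ} {f : ℕ → Bool} : Ops.allR n f = true ↔ ∀ k < n, f k = true := by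
  induction n with
  | zero => simp [Ops.allR]
  | succ n ih =>
    have h1 : Ops.allR (n + 1) f = Ops.bi (f n) (Ops.allR n f) false := rfl
    rw [h1]
    constructor
    · intro h k hk
      have h2 : f n = true ∧ Ops.allR n f = true := by
        cases h3 : f n
        · rw [h3] at h
          exact absurd h Bool.false_ne_true
        · rw [h3] at h
          exact ⟨rfl, h⟩
      rcases Nat.lt_succ_iff_lt_or_eq.1 hk with h4 | h4
      · exact ih.1 h2.2 k h4
      · rw [h4]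
        exact h2.1
    · intro h
      rw [h n (Nat.lt_succ_self n)]
      exact ih.2 fun k hk => h k (Nat.lt_succ_of_lt hk)

theorem b8_ck {O : Ops} {na J : ℕ} {cp bd : ℕ → ℕ} (h : O.ckK na J cp bd = true) :
    (∀ d < O.m, bd (cp d) ≤ O.top ∧ ∀ r, 0 < r → r ≤ na → O.mt r J = r →
      cp (O.tj r d) ≤ cp d ∧ (cp d = cp (O.tj r d) → O.mt r (bd (cp d)) = r)) ∧
    (∀ c < O.m, c ≠ 0 → O.mt c J = 0 → O.mt J (bd (cp c)) = J →
      O.mt c (O.kk J) = c ∧ ∀ r, 0 < r → r ≤ na → O.mt r J = r →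
        O.mt (O.tj r c) c = O.tj r c) := by
  unfold Ops.ckK at h
  rw [b8_ba, b8_allR, b8_allR] at h
  obtain ⟨h1, h2⟩ := h
  constructor
  · intro d hd
    have h3 := h1 d hd
    rw [b8_frc, b8_frc, b8_ba, b8_allR, Nat.ble_eq] at h3
    refine ⟨h3.1, fun r hr hr' hm => ?_⟩
    have h4 := h3.2 (r - 1) (by omega)
    have hs : Nat.succ (r - 1) = r := by omega
    rw [b8_frc, hs, b8_imp, Nat.beq_eq] at h4
    have h5 := h4 hm
    rw [b8_frc, b8_frc, b8_ba, b8_imp, Nat.ble_eq, Nat.beq_eq, Nat.beq_eq] at h5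
    exact h5
  · intro c hc h0 hJ hB
    have h3 := h2 c hc
    rw [b8_bo, b8_bo, b8_bo, b8_not, b8_not, b8_ba, b8_allR, Nat.beq_eq, Nat.beq_eq, Nat.beq_eq,
      Nat.beq_eq] at h3
    rcases h3 with h3 | h3 | h3 | h3
    · exact absurd h3 h0
    · exact absurd hJ h3
    · exact absurd hB h3
    · refine ⟨h3.1, fun r hr hr' hm => ?_⟩
      have h4 := h3.2 (r - 1) (by omega)
      have hs : Nat.succ (r - 1) = r := by omega
      rw [b8_frc, hs, b8_imp, Nat.beq_eq] at h4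
      have h5 := h4 hm
      rw [b8_frc, Nat.beq_eq] at h5
      exact h5

section

variable {S : Type} [NC S] {O : Ops} {reps : List ℕ} {ix : S → ℕ} {sf : ℕ → S}

theorem b8_ix_inj (he : Enc0 O reps ix sf) : Function.Injective ix := fun a b h => by
  rw [← he.sf_ix a, ← he.sf_ix b, h]

theorem b8_join (hb : Basic S) {r d j : S} (h : K j = K r ⊓ K d) : IsJ r d j := by
  refine ⟨(K_le r j).1 ?_, (K_le d j).1 ?_, fun u h1 h2 => (K_le j u).1 ?_⟩
  · rw [h]
    exact inf_le_left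
  · rw [h]
    exact inf_le_right
  · rw [h]
    exact le_inf (hb.K_anti h1) (hb.K_anti h2)

theorem b8_ts (hb : Basic S) (he : Enc0 O reps ix sf) {r d d' : S} (h : Ts r d d') :
    O.tj (ix r) (ix d) = ix d' := by
  obtain ⟨j', hj', rfl⟩ := h
  obtain ⟨j, hj⟩ := hb.K_bij.2 (K r ⊓ K d)
  have h1 := b8_join hb hj
  have h2 : j' = j := le_antisymm (hj'.2.2 j h1.1 h1.2.1) (h1.2.2 j' hj'.1 hj'.2.1)
  rw [h2]
  have hh : Nat.sub O.h 1 < O.h := Nat.sub_lt he.h_pos one_pos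
  unfold Ops.tj
  rw [he.kk, he.kk, he.mt, he.kk, he.tt _ _ hh, he.mt, ← hj]
  have h3 : tau^[Nat.sub O.h 1] (K (K j)) = j := by
    have h4 := he.per j
    obtain ⟨n, hn⟩ : ∃ n, O.h = n + 1 := ⟨O.h - 1, by have := he.h_pos; omega⟩
    rw [hn] at h4 ⊢
    rw [Function.iterate_succ_apply] at h4
    exact h4
  rw [h3]
  rfl

theorem b8_ts_tau (hb : Basic S) {r d d' : S} (h : Ts r d d') : Ts (tau r) (tau d) (tau d') := by
  obtain ⟨j, hj, rfl⟩ := h
  refine ⟨tau j, ⟨(hb.tau_le _ _).2 hj.1, (hb.tau_le _ _).2 hj.2.1, fun u h1 h2 => ?_⟩,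
    hb.dv_tau r j⟩
  obtain ⟨v, rfl⟩ := hb.tau_bij.2 u
  exact (hb.tau_le _ _).2 (hj.2.2 v ((hb.tau_le _ _).1 h1) ((hb.tau_le _ _).1 h2))

theorem b8_wk_tau (hb : Basic S) {c d : S} {l : List S} (h : Wk c l d) :
    Wk (tau c) (l.map tau) (tau d) := by
  induction h with
  | nil d => exact Wk.nil _
  | cons h h' ih =>
    rw [List.map_cons]
    exact Wk.cons (b8_ts_tau hb h) ih

/-- the property for one `J` -/
def b8_P (J : S) : Prop := ∀ (c : S) (l : List S), c ≠ NC.bo S → c ⊓ J = NC.bo S →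
  (∀ r ∈ l, NC.rk r = 1) → Jn l J → Wk c l c →
    c ≤ K J ∧ ∀ r, NC.rk r = 1 → r ≤ J → ∀ d, Ts r c d → d ≤ c

theorem b8_P_tau (hb : Basic S) {J : S} (h : b8_P (tau J)) : b8_P J := by
  intro c l hc hcJ hl hJ hw
  have h1 := h (tau c) (l.map tau) (fun h1 => hc (hb.tau_bij.1 (h1.trans hb.tau_bo.symm)))
    (by rw [← hb.tau_inf, hcJ, hb.tau_bo]) (fun r hr => by
      obtain ⟨s, hs, rfl⟩ := List.mem_map.1 hr
      rw [hb.rk_tau]
      exact hl s hs) (by
      constructor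
      · intro r hr
        obtain ⟨s, hs, rfl⟩ := List.mem_map.1 hr
        exact (hb.tau_le _ _).2 (hJ.1 s hs)
      · intro J' hJ'
        obtain ⟨J'', rfl⟩ := hb.tau_bij.2 J'
        refine (hb.tau_le _ _).2 (hJ.2 J'' fun r hr => ?_)
        exact (hb.tau_le _ _).1 (hJ' _ (List.mem_map_of_mem hr))) (b8_wk_tau hb hw)
  refine ⟨(hb.tau_le _ _).1 h1.1, fun r hr hrJ d hd => ?_⟩
  refine (hb.tau_le _ _).1 (h1.2 (tau r) ?_ ((hb.tau_le _ _).2 hrJ) (tau d) (b8_ts_tau hb hd))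
  rw [hb.rk_tau]
  exact hr

theorem b8_P_iter (hb : Basic S) (k : ℕ) {J : S} (h : b8_P (tau^[k] J)) : b8_P J := by
  induction k with
  | zero => exact h
  | succ k ih =>
    rw [Function.iterate_succ_apply'] at h
    exact ih (b8_P_tau hb h)

theorem b8_le (he : Enc0 O reps ix sf) {s t : S} : O.mt (ix s) (ix t) = ix s ↔ s ≤ t := by
  rw [he.mt]
  constructor
  · intro h
    exact inf_eq_left.1 (b8_ix_inj he h)
  · intro h
    rw [inf_eq_left.2 h]

theorem b8_walk (hb : Basic S) (he : Enc0 O reps ix sf) {na : ℕ} (hna : Na ix O na) {J : S}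
    {cp bd : ℕ → ℕ} (h : O.ckK na (ix J) cp bd = true) {c d : S} {l : List S} (hw : Wk c l d)
    (hl : ∀ r ∈ l, NC.rk r = 1 ∧ r ≤ J) : cp (ix d) ≤ cp (ix c) ∧
      (cp (ix d) = cp (ix c) → ∀ r ∈ l, r ≤ sf (bd (cp (ix c)))) := by
  have hm : ∀ s : S, ix s < O.m := fun s => by
    rw [he.m]
    exact Nat.lt_succ_of_le (he.lt s)
  induction hw with
  | nil d =>
    refine ⟨le_rfl, fun _ r hr => ?_⟩
    exact absurd hr List.not_mem_nil
  | @cons r d d' d'' l h1 h2 ih =>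
    have h3 := ih fun r hr => hl r (List.mem_cons_of_mem _ hr)
    obtain ⟨h4, h5⟩ := hl r List.mem_cons_self
    obtain ⟨h6, h7⟩ := (b8_ck h).1 (ix d) (hm d)
    have h8 := h7 (ix r) ((hna.2.2 r).1 h4).1 ((hna.2.2 r).1 h4).2 ((b8_le he).2 h5)
    rw [b8_ts hb he h1] at h8
    refine ⟨h3.1.trans h8.1, fun h9 => ?_⟩
    have h10 : cp (ix d) = cp (ix d') := le_antisymm (h9 ▸ h3.1) h8.1
    have h11 : cp (ix d'') = cp (ix d') := by rw [h9, h10]
    intro s hs
    rcases List.mem_cons.1 hs with rfl | hs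
    · have h12 := h8.2 h10
      rw [← b8_le he, he.ix_sf _ h6]
      exact h12
    · rw [h10]
      exact h3.2 h11 s hs

theorem b8_rep (hb : Basic S) (he : Enc0 O reps ix sf) {na : ℕ} (hna : Na ix O na) {J : S}
    {cp bd : ℕ → ℕ} (h : O.ckK na (ix J) cp bd = true) : b8_P J := by
  have hm : ∀ s : S, ix s < O.m := fun s => by
    rw [he.m]
    exact Nat.lt_succ_of_le (he.lt s)
  intro c l hc hcJ hl hJ hw
  have h1 := (b8_walk hb he hna h hw fun r hr => ⟨hl r hr, hJ.1 r hr⟩).2 rfl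
  have h2 := hJ.2 _ h1
  have hbd := ((b8_ck h).1 (ix c) (hm c)).1
  have h0 : ix c ≠ 0 := by
    rw [← he.bo]
    exact fun h3 => hc (b8_ix_inj he h3)
  have h3 : O.mt (ix c) (ix J) = 0 := by
    rw [he.mt, hcJ, he.bo]
  have h4 : O.mt (ix J) (bd (cp (ix c))) = ix J := by
    rw [← b8_le he, he.ix_sf _ hbd] at h2
    exact h2
  obtain ⟨h5, h6⟩ := (b8_ck h).2 (ix c) (hm c) h0 h3 h4
  rw [he.kk, b8_le he] at h5
  refine ⟨h5, fun r hr hrJ d hd => ?_⟩
  have h7 := h6 (ix r) ((hna.2.2 r).1 hr).1 ((hna.2.2 r).1 hr).2 ((b8_le he).2 hrJ)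
  rw [b8_ts hb he hd, b8_le he] at h7
  exact h7

end

theorem sp_kL0 : SpKL0 := by
  intro S _ O reps ix sf na hb he hna h J
  change b8_P J
  by_cases hJ : J = NC.bo S
  · intro c l hc hcJ hl hJn hw
    rw [hJ]
    refine ⟨?_, fun r hr hrJ => ?_⟩
    · rw [hb.K_bo]
      exact le_top
    · have h1 := hb.rk_le hrJ
      rw [hr, hb.rk_bo] at h1
      omega
  by_cases hT : J = ⊤
  · intro c l hc hcJ
    rw [hT, inf_top_eq] at hcJ
    exact absurd hcJ hc
  obtain ⟨k, -, hk⟩ := he.rep J hJ hT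
  obtain ⟨cp, bd, h1⟩ := h _ hk
  exact b8_P_iter hb k (b8_rep hb he hna h1)


theorem p3_frc {α : Type} (x : ℕ) (f : ℕ → α) : Ops.frc x f = f x := by
  cases x <;> rfl

theorem p3_bi {c t : Bool} (h : Ops.bi c t false = true) : c = true ∧ t = true := by
  cases c
  · exact absurd (show false = true from h) Bool.false_ne_true
  · exact ⟨rfl, h⟩

theorem p3_ba {a b : Bool} (h : Ops.ba a b = true) : a = true ∧ b = true := p3_bi h

theorem p3_allL (f : ℕ → Bool) : ∀ l : List ℕ, Ops.allL l f = true → ∀ x ∈ l, f x = true := by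
  intro l
  induction l with
  | nil => intro _ x hx; exact absurd hx List.not_mem_nil
  | cons y l ih =>
    intro h x hx
    have h1 : Ops.bi (f y) (Ops.allL l f) false = true := h
    obtain ⟨h2, h3⟩ := p3_bi h1
    rcases List.mem_cons.mp hx with rfl | hx
    · exact h2
    · exact ih h3 x hx

section

variable {S : Type} [NC S] {G : Type} [Group G]

theorem p3_conj_conj (H : Subgroup G) (x y : G) :
    (H.map (MulAut.conj y).toMonoidHom).map (MulAut.conj x).toMonoidHom =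
      H.map (MulAut.conj (x * y)).toMonoidHom := by
  rw [Subgroup.map_map]
  congr 1
  ext z
  simp [mul_assoc]

theorem p3_conj_one (H : Subgroup G) : H.map (MulAut.conj (1 : G)).toMonoidHom = H := by
  have h : (MulAut.conj (1 : G)).toMonoidHom = MonoidHom.id G := by
    ext z
    simp
  rw [h, Subgroup.map_id]

/-- `GJ J` is conjugate to `GJ c`. -/
def p3_C (val : S → G) (J c : S) : Prop :=
  ∃ y : G, GJ val J = (GJ val c).map (MulAut.conj y).toMonoidHom

theorem p3_refl (val : S → G) (J : S) : p3_C val J J := ⟨1, (p3_conj_one _).symm⟩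

theorem p3_trans {val : S → G} {J c d : S} (h : p3_C val J c) (h' : p3_C val c d) :
    p3_C val J d := by
  obtain ⟨x, hx⟩ := h
  obtain ⟨y, hy⟩ := h'
  exact ⟨x * y, by rw [hx, hy, p3_conj_conj]⟩

theorem p3_tau {val : S → G}
    (h : ∀ J : S, GJ val J = (GJ val (tau J)).map (MulAut.conj (val ⊤)).toMonoidHom) (k : ℕ)
    (J : S) : p3_C val J (tau^[k] J) := by
  induction k with
  | zero => exact p3_refl val J
  | succ k ih =>
    refine p3_trans ih ?_
    rw [Function.iterate_succ_apply']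
    exact ⟨val ⊤, h _⟩

variable {O : Ops} {reps : List ℕ} {ix : S → ℕ} {sf : ℕ → S} {na : ℕ}

theorem p3_inj (hE : Enc0 O reps ix sf) {s t : S} (h : ix s = ix t) : s = t := by
  rw [← hE.sf_ix s, ← hE.sf_ix t, h]

theorem p3_le (hE : Enc0 O reps ix sf) {s t : S} (h : O.mt (ix s) (ix t) = ix s) : s ≤ t := by
  rw [hE.mt] at h
  exact inf_eq_left.mp (p3_inj hE h)

theorem p3_mvs (hB : NC.Basic S) (hE : Enc0 O reps ix sf) (hN : Na ix O na) {val : S → G}
    (h : ∀ r J J' : S, Mv r J J' → GJ val J = (GJ val J').map (MulAut.conj (val r)).toMonoidHom) :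
    ∀ (mv : List ℕ), (∀ r ∈ mv, 0 < r ∧ r ≤ na) → ∀ J : S, O.mvs mv (ix J) < O.top →
      ∃ c : S, O.mvs mv (ix J) = ix c ∧ p3_C val J c := by
  intro mv
  induction mv with
  | nil => intro _ J _; exact ⟨J, rfl, p3_refl val J⟩
  | cons r l ih =>
    intro hr J hlt
    have e1 : O.mvs (r :: l) (ix J) = Bool.rec (motive := fun _ => ℕ) O.top
        (O.mvs l (O.mt (O.kk r) (O.pr (ix J) r))) (Nat.beq (O.mt r (O.kk (ix J))) r) := rfl
    rw [e1] at hlt ⊢
    cases hb : Nat.beq (O.mt r (O.kk (ix J))) r with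
    | false =>
      rw [hb] at hlt
      exact absurd hlt (lt_irrefl _)
    | true =>
      rw [hb] at hlt
      have h1 : O.mt r (O.kk (ix J)) = r := Nat.eq_of_beq_eq_true hb
      obtain ⟨hr0, hrn⟩ := hr r List.mem_cons_self
      have h2 : ix (sf r) = r := hE.ix_sf r (hrn.trans hN.1)
      have hrk : NC.rk (sf r) = 1 := (hN.2.2 (sf r)).mpr (by rw [h2]; exact ⟨hr0, hrn⟩)
      have h3 : sf r ≤ K J := by
        refine p3_le hE ?_
        rw [← hE.kk, h2, h1]
      have h4 : K J ⊓ sf r = sf r := inf_eq_right.mpr h3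
      have h5 : K J ⊓ sf r ≠ NC.bo S := by
        rw [h4]
        intro h6
        rw [h6, hB.rk_bo] at hrk
        exact absurd hrk (by decide)
      have h6 : O.mt (O.kk r) (O.pr (ix J) r) = ix (dv (sf r) (mu J (sf r))) := by
        have h7 := hE.pr J (sf r) h5
        rw [h2] at h7
        rw [h7]
        have h8 := hE.kk (sf r)
        rw [h2] at h8
        rw [h8, hE.mt]
        unfold N1 dv
        rw [h4]
      have hlt' : O.mvs l (ix (dv (sf r) (mu J (sf r)))) < O.top := by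
        rw [← h6]
        exact hlt
      obtain ⟨c, hc1, hc2⟩ := ih (fun r' hr' => hr r' (List.mem_cons_of_mem _ hr')) _ hlt'
      refine ⟨c, ?_, p3_trans ⟨val (sf r), h (sf r) J _ ⟨hrk, h3, rfl⟩⟩ hc2⟩
      show O.mvs l (O.mt (O.kk r) (O.pr (ix J) r)) = ix c
      rw [h6]
      exact hc1

theorem p3_chn (hE : Enc0 O reps ix sf) {n : ℕ} (a : Fin n → S) (at_ : ℕ → ℕ)
    (ha : ∀ i : Fin n, ix (a i) = at_ i) : ∀ (s : List ℕ), (∀ i ∈ s, i < n) → ∀ c : S,
      O.chn (s.map at_) (ix c) = true → ∃ l : List (Fin n), Chain a l c := by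
  intro s
  induction s with
  | nil =>
    intro _ c hc
    have h1 : Nat.beq (ix c) 0 = true := hc
    have h2 : ix c = 0 := Nat.eq_of_beq_eq_true h1
    refine ⟨[], ?_⟩
    show c = NC.bo S
    refine p3_inj hE ?_
    rw [h2, hE.bo]
  | cons i s ih =>
    intro hs c hc
    have hi : i < n := hs i List.mem_cons_self
    have hai : at_ i = ix (a ⟨i, hi⟩) := (ha ⟨i, hi⟩).symm
    have h1 : Ops.bi (Nat.beq (O.mt (at_ i) (ix c)) (at_ i))
        (O.chn (s.map at_) (O.mt (O.kk (at_ i)) (ix c))) false = true := hc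
    obtain ⟨h2, h3⟩ := p3_bi h1
    have h4 : O.mt (at_ i) (ix c) = at_ i := Nat.eq_of_beq_eq_true h2
    rw [hai] at h4 h3
    rw [hE.kk, hE.mt] at h3
    obtain ⟨l, hl⟩ := ih (fun j hj => hs j (List.mem_cons_of_mem _ hj)) _ h3
    exact ⟨⟨i, hi⟩ :: l, p3_le hE h4, hl⟩

end

theorem sp_par0 (h : SpMv) : SpPar0 := by
  intro S _ G _ _ val O reps ix sf na hB hG hE hN n a at_ ha hck J hJ0 hJ1
  obtain ⟨hm, ht⟩ := h S G val hB hG
  obtain ⟨k, -, hk⟩ := hE.rep J hJ0 hJ1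
  obtain ⟨mv, k', s, hc⟩ := hck _ hk
  unfold Ops.ckX at hc
  obtain ⟨c1, hc⟩ := p3_ba hc
  obtain ⟨c2, hc⟩ := p3_ba hc
  obtain ⟨c3, hc⟩ := p3_ba hc
  rw [p3_frc] at hc
  obtain ⟨c4, c5⟩ := p3_ba hc
  have d1 : ∀ r ∈ mv, 0 < r ∧ r ≤ na := by
    intro r hr
    obtain ⟨e1, e2⟩ := p3_ba (p3_allL _ mv c1 r hr)
    exact ⟨Nat.le_of_ble_eq_true e1, Nat.le_of_ble_eq_true e2⟩
  have d2 : k' < O.h := Nat.le_of_ble_eq_true c2
  have d3 : ∀ i ∈ s, i < n := fun i hi => Nat.le_of_ble_eq_true (p3_allL _ s c3 i hi)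
  have d4 : O.mvs mv (ix (tau^[k] J)) < O.top := Nat.le_of_ble_eq_true c4
  obtain ⟨c, e1, e2⟩ := p3_mvs hB hE hN hm mv d1 _ d4
  rw [e1, hE.tt k' c d2] at c5
  obtain ⟨l, hl⟩ := p3_chn hE a at_ ha s d3 _ c5
  obtain ⟨y, hy⟩ := p3_trans (p3_trans (p3_tau ht k J) e2) (p3_tau ht k' c)
  exact ⟨l, tau^[k'] c, y, hl, hy⟩

end E0

end Pool.Agent.H54.RF
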