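import Pool.Agent.H54.RG.AsmL
import Pool.Agent.H54.RG.Enc0

/-!
# Project RG (MP_35eb49): assembly with a second numbering for the parabolic subgroups
-/

set_option autoImplicit false

namespace Pool.Agent.H54.RF

open NC

/-- The operations with another numbering. -/
noncomputable def Ops.ren (O : Ops) (p q : ℕ → ℕ) : Ops where
  m := O.m
  h := O.h
  top := O.top
  nf := 0
  mt := fun i j => p (O.mt (q i) (q j))
  kk := fun i => p (O.kk (q i))
  tt := fun k i => p (O.tt k (q i))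
  pr := fun i j => p (O.pr (q i) (q j))
  orb := fun i => O.orb (q i)
  f1 := O.f1
  f2 := O.f2

/-- The check of a renumbering. -/
noncomputable def Ops.ckR (O : Ops) (p q : ℕ → ℕ) : Bool :=
  Ops.ba (Nat.beq (p 0) 0) <| Ops.ba (Nat.beq (p O.top) O.top) <| Ops.allR O.m fun i =>
    Ops.ba (Ops.ba (Nat.beq (q (p i)) i) (Nat.ble (p i) O.top))
      (Ops.ba (Nat.beq (p (q i)) i) (Nat.ble (q i) O.top))

theorem ba_spec {a b : Bool} (h : Ops.ba a b = true) : a = true ∧ b = true := by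
  cases a <;> cases b <;> simp_all [Ops.ba, Ops.bi]

theorem ren_enc {S : Type} [NC S] {O : Ops} {reps : List ℕ} {ix : S → ℕ} {sf : ℕ → S}
    (hE : Enc O reps ix sf) (p q : ℕ → ℕ) (h : O.ckR p q = true) :
    E0.Enc0 (O.ren p q) (reps.map p) (fun s => p (ix s)) (fun i => sf (q i)) := by
  obtain ⟨h1, h⟩ := ba_spec h
  obtain ⟨h2, h⟩ := ba_spec h
  have hp0 : p 0 = 0 := Nat.eq_of_beq_eq_true h1
  have hpt : p O.top = O.top := Nat.eq_of_beq_eq_true h2
  have hq : ∀ i ≤ O.top, q (p i) = i ∧ p i ≤ O.top ∧ p (q i) = i ∧ q i ≤ O.top := by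
    intro i hi
    have h3 := (Ops.allR_iff _ _).mp h i (by rw [hE.m]; omega)
    obtain ⟨h4, h5⟩ := ba_spec h3
    obtain ⟨h6, h7⟩ := ba_spec h4
    obtain ⟨h8, h9⟩ := ba_spec h5
    exact ⟨Nat.eq_of_beq_eq_true h6, Nat.le_of_ble_eq_true h7, Nat.eq_of_beq_eq_true h8,
      Nat.le_of_ble_eq_true h9⟩
  have hqp : ∀ s : S, q (p (ix s)) = ix s := fun s => (hq _ (hE.lt s)).1
  exact
    { m := hE.m
      h_pos := hE.h_pos
      ix_sf := fun i hi => by
        show p (ix (sf (q i))) = i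
        rw [hE.ix_sf _ (hq i hi).2.2.2, (hq i hi).2.2.1]
      sf_ix := fun s => by
        show sf (q (p (ix s))) = s
        rw [hqp, hE.sf_ix]
      lt := fun s => (hq _ (hE.lt s)).2.1
      bo := by
        show p (ix (NC.bo S)) = 0
        rw [hE.bo, hp0]
      top := by
        show p (ix (⊤ : S)) = O.top
        rw [hE.top, hpt]
      mt := fun s t => by
        show p (O.mt (q (p (ix s))) (q (p (ix t)))) = p (ix (s ⊓ t))
        rw [hqp, hqp, hE.mt]
      kk := fun s => by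
        show p (O.kk (q (p (ix s)))) = p (ix (K s))
        rw [hqp, hE.kk]
      tt := fun k s hk => by
        show p (O.tt k (q (p (ix s)))) = p (ix (tau^[k] s))
        rw [hqp, hE.tt k s hk]
      t1 := fun s => by
        show p (O.tt 1 (q (p (ix s)))) = p (ix (tau s))
        rw [hqp, hE.t1]
      per := hE.per
      pr := fun b R hbR => by
        show p (O.pr (q (p (ix b))) (q (p (ix R)))) = p (ix (N1 b R))
        rw [hqp, hqp, hE.pr b R hbR]
      orb := fun s => by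
        show O.orb (q (p (ix (tau s)))) = O.orb (q (p (ix s)))
        rw [hqp, hqp, hE.orb]
      rep := fun s h1 h2 => by
        obtain ⟨k, hk, hm⟩ := hE.rep s h1 h2
        exact ⟨k, hk, List.mem_map_of_mem hm⟩ }

theorem ren_q {O : Ops} (hm : O.m = O.top + 1) (p q : ℕ → ℕ) (h : O.ckR p q = true) (i : ℕ)
    (hi : i ≤ O.top) : q i ≤ O.top := by
  obtain ⟨_, h⟩ := ba_spec h
  obtain ⟨_, h⟩ := ba_spec h
  have h3 := (Ops.allR_iff _ _).mp h i (by rw [hm]; omega)
  exact Nat.le_of_ble_eq_true (ba_spec (ba_spec h3).2).2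

/-- The assembly, from the properties of the germ. -/
theorem asmL0 {n : ℕ} (M : CoxeterMatrix (Fin n)) (hn : 0 < n) {S : Type} [NC S]
    (hB : NC.Basic S) (hC : NC.Conn S) (hne : bo S ≠ ⊤) (hrk : 2 ≤ NC.rk (⊤ : S))
    (a : Fin n → S) (ol : List (Fin n)) (h : ℕ)
    (hR : Rz M a ol h) (hcone : SpCone) (O : Ops) (reps : List ℕ) (ix : S → ℕ) (sf : ℕ → S)
    (na : ℕ) (hE : E0.Enc0 O reps ix sf) (hN : Na ix O na) 
    (hL : ∀ (F : (Fin 3 → ℤ) → Fin 3 → S) (D : ℕ), Fl F D → ∃ v d, ∃ w : S, w ≠ ⊤ ∧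
      ((∀ n : ℕ, aa F (v + (n : ℤ) • e d) d ≤ w) ∨
        ∀ n : ℕ, F (v + (n : ℤ) • e d) d ≤ tau^[n] w))
    (hK : ∀ J ∈ reps, ∃ cp bd : ℕ → ℕ, O.ckK na J cp bd = true)
    (at_ : ℕ → ℕ) (ha : ∀ i : Fin n, ix (a i) = at_ i)
    (hX : ∀ J ∈ reps, ∃ mv k s, O.ckX na n at_ J mv k s = true) : Concl M := by
  intro g hg hidx
  obtain ⟨val, hgrp, hval, htop⟩ := sp_rz n M S a ol h hB hC hR
  obtain ⟨gr, hδ, hgrk, hlen, hinj, hsimple, hle, hinf⟩ := gar S (Art M) val hgrp hne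
  let _ := gr
  have hG : Gv val := ⟨hgrp.mult, hinj, hδ, hsimple, hle, hinf, hlen⟩
  have hP : PJt val := sp_pJ S (Art M) val hB hC hG
  have hS : Sut val := sp_su S (Art M) val hB hC hG hP
  have hKL : KL S := E0.sp_kL0 S O reps ix sf na hB hE hN hK
  have himg : ∀ l : List (Fin n), val '' (a '' {i | i ∈ l}) =
      (PresentedGroup.of '' {i : Fin n | i ∈ l} : Set (Art M)) := by
    intro l
    rw [Set.image_image]
    exact Set.image_congr fun i _ => hval i
  -- parabolic subgroups of the germ are parabolic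
  have hpar : ∀ J : S, J ≠ bo S → J ≠ ⊤ → ∀ y : Art M,
      (∃ (X : Set (Fin n)) (b : Art M), (GJ val J).map (MulAut.conj y).toMonoidHom =
        (Subgroup.closure (PresentedGroup.of '' X)).map (MulAut.conj b).toMonoidHom) ∧
      (GJ val J).map (MulAut.conj y).toMonoidHom ≠ ⊤ ∧
      (GJ val J).map (MulAut.conj y).toMonoidHom ≠ ⊥ := by
    intro J hJ1 hJ2 y
    obtain ⟨l, c, z, hch, hz⟩ := E0.sp_par0 sp_mv S (Art M) val O reps ix sf na hB hG hE hN n a at_ ha
      hX J hJ1 hJ2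
    have hstd := sp_std S (Art M) val hB hC hG n a hR.rk_a l c hch
    obtain ⟨hne1, hne2⟩ := hP.ne J hJ2 hJ1
    refine ⟨⟨{i | i ∈ l}, y * z, ?_⟩, ?_, ?_⟩
    · rw [hz, hstd, himg, asm_map_map]
    · intro h3
      apply hne1
      rw [eq_top_iff]
      intro x _
      have h4 : y * x * y⁻¹ ∈ (GJ val J).map (MulAut.conj y).toMonoidHom := by rw [h3]; trivial
      obtain ⟨w, hw, hw2⟩ := h4
      have h5 : y * w * y⁻¹ = y * x * y⁻¹ := by simpa using hw2
      have h6 : w = x := by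
        have := mul_right_cancel h5
        exact mul_left_cancel this
      exact h6 ▸ hw
    · intro h3
      apply hne2
      rw [eq_bot_iff]
      intro x hx
      have h4 : (MulAut.conj y).toMonoidHom x ∈ (GJ val J).map (MulAut.conj y).toMonoidHom :=
        ⟨x, hx, rfl⟩
      rw [h3, Subgroup.mem_bot] at h4
      have h5 : y * x * y⁻¹ = 1 := by simpa using h4
      rw [Subgroup.mem_bot]
      have h6 : y * x = y := by rw [mul_inv_eq_one] at h5; exact h5
      exact mul_eq_left.mp h6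
  -- `g` is not periodic
  have hper : ∀ m : ℕ, 0 < m → ∀ k : ℤ, g ^ m ≠ Gar.δ ^ k := by
    intro m hm k hk
    let i0 : Fin n := ⟨0, hn⟩
    have hai1 : a i0 ≠ bo S := by
      intro h3
      have := hR.rk_a i0
      rw [h3, hB.rk_bo] at this
      omega
    have hai2 : a i0 ≠ ⊤ := by
      intro h3
      have := hR.rk_a i0
      rw [h3] at this
      omega
    obtain ⟨hp1, hp2, hp3⟩ := hpar (a i0) hai1 hai2 1
    refine hg _ hp1 hp2 hp3 (m * ord (Art M)) (Nat.mul_pos hm Gar.ord_pos) ?_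
    have hcen : ∀ x : Art M, g ^ (m * ord (Art M)) * x = x * g ^ (m * ord (Art M)) := by
      intro x
      rw [pow_mul, hk, ← zpow_natCast, ← zpow_mul, mul_comm k, zpow_mul, zpow_natCast]
      have h4 := Gar.central_zpow k x
      rw [zpow_mul, zpow_natCast] at h4
      exact h4
    ext x
    constructor
    · rintro ⟨w, hw, rfl⟩
      have : (MulAut.conj (g ^ (m * ord (Art M)))).toMonoidHom w = w := by
        simp only [MulEquiv.coe_toMonoidHom, MulAut.conj_apply]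
        rw [hcen w, mul_assoc, mul_inv_cancel, mul_one]
      rw [this]
      exact hw
    · intro hx
      refine ⟨x, hx, ?_⟩
      simp only [MulEquiv.coe_toMonoidHom, MulAut.conj_apply]
      rw [hcen x, mul_assoc, mul_inv_cancel, mul_one]
  obtain ⟨Y, D, Z, N, hF, hN0, hcomm⟩ := flat3_of hcone (Art M) g hper hidx
  obtain ⟨F, hFl, hF1, hF2⟩ := sp_flOf S (Art M) val hB hgrp.mult hinj hδ hsimple hle hinf Y D Z hF
  obtain ⟨v, d, w, hw, hline⟩ := hL F D hFl
  obtain ⟨v', l, J, hJ1, hJ2, hJl, hu⟩ := sp_rowJ S (Art M) val hB hC hG Y D Z hF F hFl hF1 hF2 v d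
    w hw hline
  have hSu : Su val (l.map val).prod J := hS.prod l J hJl
  have hcom := hu (g ^ N) (hcomm d)
  have hnorm := sp_norm (sp_step sp_wk) S (Art M) val hB hC hG hP hS hKL (l.map val).prod J
    ((Y v')⁻¹ * g ^ N * Y v') (hP.one_le J _ hSu.1) hSu hcom
  obtain ⟨hp1, hp2, hp3⟩ := hpar J hJ2 hJ1 (Y v')
  refine hg _ hp1 hp2 hp3 N hN0 ?_
  rw [asm_map_map]
  have h3 : g ^ N * Y v' = Y v' * ((Y v')⁻¹ * g ^ N * Y v') := by group
  rw [h3, ← asm_map_map, hnorm]

/-- The assembly, from the checks. -/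
theorem asmDR (hcone : SpCone) {n : ℕ} (M : CoxeterMatrix (Fin n)) (hn : 0 < n)
    (D : Dat) (hD : D.check = true) (X : Cert) (hX : X.check D = true) (hm : X.m.length = n)
    (hM : ∀ i j : Fin n, M i j = Wd.en X.m i j) (hr : Nat.ble 2 (Dat.rf D.L D.full) = true)
    (O : Ops) (el : ℕ → ℕ) (reps : List ℕ) (hA : O.ckA D el = true) (hB : O.ckB D el = true)
    (hC : O.ckC D el reps = true) (hP : O.ckP = true) (p q : ℕ → ℕ) (hR' : O.ckR p q = true)
    (na : ℕ) (hN : (O.ren p q).ckN D (fun i => el (q i)) na = true)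
    (hL : ∀ (S : Type) [NC S] (ix : S → ℕ) (sf : ℕ → S) (F : (Fin 3 → ℤ) → Fin 3 → S) (D : ℕ),
      NC.Basic S → Enc O reps ix sf → Fl F D → ∃ v d, ∃ w : S, w ≠ ⊤ ∧
      ((∀ n : ℕ, aa F (v + (n : ℤ) • e d) d ≤ w) ∨
        ∀ n : ℕ, F (v + (n : ℤ) • e d) d ≤ tau^[n] w))
    (hK : ∀ J ∈ reps.map p, ∃ cp bd : ℕ → ℕ, (O.ren p q).ckK na J cp bd = true)
    (at_ : ℕ → ℕ) (hat : Ops.allR n (fun i => Ops.ba (Nat.ble (at_ i) O.top)
      (Nat.beq (el (q (at_ i))) (Nat.pow 2 (X.a.getD i 0)))) = true)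
    (hXX : ∀ J ∈ reps.map p, ∃ mv k s, (O.ren p q).ckX na n at_ J mv k s = true) : Concl M := by
  obtain ⟨inst, hOk, hConn⟩ := sp_dat (fun S _ => NC.basic S) D hD
  have hBas : NC.Basic D.S := NC.basic D.S
  obtain ⟨a, ol, hR, ha, -⟩ := sp_cert D hBas hOk hD X hX n M hm hM
  obtain ⟨ix, sf, hE, hsf⟩ := sp_enc D hBas hOk hD O el reps hA hB hC hP
  have hE' := ren_enc hE p q hR'
  have hsf' : ∀ i ≤ O.top, (sf (q i)).1 = el (q i) := fun i hi =>
    hsf _ (ren_q hE.m p q hR' i hi)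
  have hNa := E0.sp_na0 D hBas hOk (O.ren p q) (fun i => el (q i)) (reps.map p)
    (fun s => p (ix s)) (fun i => sf (q i)) na hE' hsf' hN
  have hrk : 2 ≤ NC.rk (⊤ : D.S) := by
    rw [hOk.rk, hOk.top]
    exact Nat.le_of_ble_eq_true hr
  have hne : bo D.S ≠ ⊤ := by
    intro h3
    rw [← h3, hBas.rk_bo] at hrk
    omega
  have hai : ∀ i : Fin n, p (ix (a i)) = at_ i := by
    intro i
    have h6 := (Ops.allR_iff _ _).mp hat i i.2
    have h7 : Nat.ble (at_ i) O.top = true ∧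
        Nat.beq (el (q (at_ i))) (Nat.pow 2 (X.a.getD i 0)) = true := by
      cases h8 : Nat.ble (at_ i) O.top with
      | false => rw [h8] at h6; exact absurd h6 (by simp [Ops.ba, Ops.bi])
      | true => rw [h8] at h6; exact ⟨rfl, h6⟩
    have h3 := Nat.le_of_ble_eq_true h7.1
    have h4 : el (q (at_ i)) = 2 ^ X.a.getD i 0 := Nat.eq_of_beq_eq_true h7.2
    have h5 : sf (q (at_ i)) = a i := by
      apply Dat.S.ext
      rw [hsf' _ h3, h4, ha i]
    rw [← h5]
    exact hE'.ix_sf _ h3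
  exact asmL0 M hn hBas hConn hne hrk a ol X.h hR hcone (O.ren p q) (reps.map p)
    (fun s => p (ix s)) (fun i => sf (q i)) na hE' hNa
    (fun F D' hF => hL D.S ix sf F D' hBas hE hF) hK at_ hai hXX

end Pool.Agent.H54.RF
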