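import Pool.Agent.H54.RF.Art

/-!
# Project RG (MP_35eb49): the checks of the lattice and of the realisation in pieces
-/

set_option autoImplicit false

namespace Pool.Agent.H54.RG

open Pool.Agent.H54.RF Dat Cert

theorem allL_app {α : Type} (p : α → Bool) (xs ys : List α) (h1 : allL p xs = true)
    (h2 : allL p ys = true) : allL p (xs ++ ys) = true := by
  induction xs with
  | nil => exact h2
  | cons x xs ih =>
    change cond (p x) (allL p (xs ++ ys)) false = true
    change cond (p x) (allL p xs) false = true at h1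
    cases h3 : p x
    · rw [h3] at h1
      exact absurd h1 Bool.false_ne_true
    · rw [h3] at h1
      exact ih h1

/-- A test of all elements of a list, in two parts. -/
theorem allL_cut {α : Type} (p : α → Bool) (L : List α) (n : ℕ) (h1 : allL p (L.take n) = true)
    (h2 : allL p (L.drop n) = true) : allL p L = true := by
  have h := allL_app p (L.take n) (L.drop n) h1 h2
  rwa [List.take_append_drop] at h

/-- The elements of a list from position `a` to position `a + b`. -/
def sl {α : Type} (a b : ℕ) (L : List α) : List α := (L.drop a).take b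

/-- One step of a test in pieces. -/
theorem allL_st {α : Type} (p : α → Bool) (L : List α) (a b c : ℕ) (hc : a + b = c)
    (h1 : allL p (sl a b L) = true) (h2 : allL p (L.drop c) = true) :
    allL p (L.drop a) = true := by
  subst hc
  apply allL_cut p (L.drop a) b h1
  rwa [List.drop_drop]

theorem allI_app (p : ℕ → ℕ → Bool) (xs ys : List ℕ) : ∀ s : ℕ, allI p s xs = true →
    allI p (s + xs.length) ys = true → allI p s (xs ++ ys) = true := by
  induction xs with
  | nil => intro s _ h2; exact h2
  | cons x xs ih =>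
    intro s h1 h2
    change cond (p s x) (allI p (Nat.succ s) (xs ++ ys)) false = true
    change cond (p s x) (allI p (Nat.succ s) xs) false = true at h1
    cases h3 : p s x
    · rw [h3] at h1
      exact absurd h1 Bool.false_ne_true
    · rw [h3] at h1
      refine ih _ h1 ?_
      have h4 : Nat.succ s + xs.length = s + (x :: xs).length := by
        simp only [List.length_cons]
        omega
      rwa [h4]

/-- One step of a test with positions in pieces. -/
theorem allI_st (p : ℕ → ℕ → Bool) (L : List ℕ) (a b c : ℕ) (hc : a + b = c)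
    (hb : Nat.ble c L.length = true)
    (h1 : allI p a (sl a b L) = true) (h2 : allI p c (L.drop c) = true) :
    allI p a (L.drop a) = true := by
  subst hc
  rw [Nat.ble_eq] at hb
  have h3 : ((L.drop a).take b).length = b := by
    simp only [List.length_take, List.length_drop]
    omega
  have h := allI_app p ((L.drop a).take b) (L.drop (a + b)) a h1 (by rwa [h3])
  rwa [← List.drop_drop, List.take_append_drop] at h

/-! ### The lattice -/

/-- The test of closedness. -/
def pcl (D : Dat) (p : ℕ × ℕ) : Bool :=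
  Nat.blt p.1 (Nat.pow 2 D.N) && Nat.beq (D.Km (D.Km p.1)) (D.tm p.1) &&
    (cond (Nat.beq p.2 1) (exI (fun r _ => Nat.beq p.1 (Nat.pow 2 r)) 0 D.Kr) true) &&
    allL (fun k => mem D.L (Nat.land p.1 k)) D.Kr

/-- The test of the complements. -/
def ps1 (D : Dat) (p : ℕ × ℕ) : Bool :=
  allI (fun r k => cond (bt p.1 r)
    (Nat.beq (Nat.land (D.Km (Nat.land k p.1)) k) (D.Km p.1) &&
      Nat.beq (Nat.succ (rf D.L (Nat.land k p.1))) p.2) true) 0 D.Kr

/-- The test of the ranks. -/
def ps2 (D : Dat) (p : ℕ × ℕ) : Bool :=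
  (Nat.beq p.1 0 || Nat.blt 0 p.2) && Nat.beq (rf D.L p.1) p.2

/-- The remaining tests of the ranks. -/
def ps3 (D : Dat) : Bool :=
  Nat.beq (rf D.L 0) 0 && mem D.L 0 &&
  allI (fun r _ => mem D.L (Nat.pow 2 r) && Nat.beq (rf D.L (Nat.pow 2 r)) 1) 0 D.Kr

/-- The test of the connectedness. -/
def pcn (D : Dat) (p : ℕ × ℕ) : Bool :=
  cond (Nat.ble 3 p.2) (
    allI (fun r k => cond (bt p.1 r)
      (allI (fun r1 k1 => cond (bt p.1 r1)
        (exI (fun r2 k2 => bt p.1 r2 && !(Nat.beq (Nat.land k k2) (D.Km p.1)) &&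
          !(Nat.beq (Nat.land k1 k2) (D.Km p.1))) 0 D.Kr) true) 0 D.Kr) true) 0 D.Kr)
    (cond (Nat.beq p.2 2) (allI (fun r _ => cond (bt p.1 r)
      (Nat.beq (orb D p.1 8 (Nat.pow 2 r) 0) p.1) true) 0 D.Kr) true)

theorem and4 {a b : Bool} (h1 : a = true) (h2 : b = true) : (a && b) = true := by
  rw [h1, h2]; rfl

/-- The check of the lattice from its pieces. -/
theorem check_of (D : Dat) (h0 : ckSym D = true) (h1 : mem D.L D.full = true)
    (h2 : allL (pcl D) (D.L.drop 0) = true) (h3 : allL (ps1 D) (D.L.drop 0) = true)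
    (h4 : allL (ps2 D) (D.L.drop 0) = true) (h5 : ps3 D = true)
    (h6 : allL (pcn D) (D.L.drop 0) = true) : D.check = true := by
  rw [List.drop_zero] at h2 h3 h4 h6
  have hc : ckCl D = true := and4 h1 h2
  have hs : ckStar D = (allL (ps1 D) D.L && allL (ps2 D) D.L && Nat.beq (rf D.L 0) 0 &&
    mem D.L 0 && allI (fun r _ => mem D.L (Nat.pow 2 r) &&
      Nat.beq (rf D.L (Nat.pow 2 r)) 1) 0 D.Kr) := rfl
  have h5' : (Nat.beq (rf D.L 0) 0 && mem D.L 0 && allI (fun r _ => mem D.L (Nat.pow 2 r) &&
    Nat.beq (rf D.L (Nat.pow 2 r)) 1) 0 D.Kr) = true := h5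
  have hs' : ckStar D = true := by
    rw [hs, h3, h4]
    exact h5'
  have hn : ckConn D = true := h6
  exact and4 (and4 (and4 h0 hc) hs') hn

/-! ### The realisation -/

/-- One pair of generators and a power for the relations `P`. -/
def pp3 (X : Cert) (D : Dat) (j q i q' k : ℕ) : Bool :=
  !(Nat.beq (it (fun x => D.tb.getD x 0) (k + 1) q) q') || anyL (fun e : PE =>
      Nat.beq e.j j && Nat.beq e.i i && Nat.beq e.k (k + 1) &&
      Wd.eqL (Wd.run X.m e.mv (j :: Wd.pw X.ol (k + 1))) (Wd.pw X.ol (k + 1) ++ [i])) X.P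

/-- The relations `P` for one generator. -/
def pc3 (X : Cert) (D : Dat) (j q : ℕ) : Bool :=
  allI (fun i q' => allN X.h fun k => pp3 X D j q i q' k) 0 X.a

/-- One atom for the relations `R`. -/
def pp4 (X : Cert) (D : Dat) (i q r _k : ℕ) : Bool :=
  !(bt (D.Kr.getD q 0) r) || anyL (fun e : RE =>
      Nat.beq e.i i && Nat.beq e.r r && mem D.L e.w && bt e.w q &&
      Nat.blt e.j X.m.length && Nat.blt e.l X.m.length &&
      Nat.beq (Nat.land (D.Kr.getD q 0) e.w) (Nat.pow 2 r) &&
      Nat.beq (it (fun x => D.tb.getD x 0) e.b r) (X.a.getD e.j 0) &&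
      (bt e.w (it (fun x => D.tb.getD x 0) e.c (X.a.getD e.l 0))) &&
      Nat.beq (Nat.land (D.Kr.getD (it (fun x => D.tb.getD x 0) e.c (X.a.getD e.l 0)) 0) e.w)
        (Nat.pow 2 q) &&
      Wd.eqL (Wd.run X.m e.mv (Wd.pw X.ol e.c ++ i :: (Wd.pw X.ol e.b ++ [e.j])))
        (e.l :: (Wd.pw X.ol e.c ++ i :: Wd.pw X.ol e.b))) X.R

/-- The relations `R` for one generator. -/
def pc4 (X : Cert) (D : Dat) (i q : ℕ) : Bool := allI (pp4 X D i q) 0 D.Kr

theorem pc4_of (X : Cert) (D : Dat) (i q : ℕ) (h : allI (pp4 X D i q) 0 (D.Kr.drop 0) = true) :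
    pc4 X D i q = true := by
  rwa [List.drop_zero] at h

/-- A test of four numbers. -/
theorem allI_four (p : ℕ → ℕ → Bool) (L : List ℕ) (a b c d : ℕ) (hL : L = [a, b, c, d])
    (h0 : p 0 a = true) (h1 : p 1 b = true) (h2 : p 2 c = true) (h3 : p 3 d = true) :
    allI p 0 L = true := by
  subst hL
  change cond (p 0 a) (cond (p 1 b) (cond (p 2 c) (cond (p 3 d) true false) false) false) false
    = true
  rw [h0, h1, h2, h3]
  rfl

/-- The check of the realisation from its pieces. -/
theorem cert_of (X : Cert) (D : Dat) (h1 : ck1 X D = true) (h2 : ck2 X D = true)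
    (h3 : allI (pc3 X D) 0 X.a = true) (h4 : allI (pc4 X D) 0 X.a = true) :
    X.check D = true := by
  have h3' : ck3 X D = true := h3
  have h4' : ck4 X D = true := h4
  exact and4 (and4 (and4 h1 h2) h3') h4'

end Pool.Agent.H54.RG
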