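import Pool.Agent.H54.RG.DtH4
import Pool.Agent.H54.RG.DatP

/-!
# Project RG (MP_35eb49): check of the lattice of type H4, second part
-/

set_option autoImplicit false
set_option maxRecDepth 100000
set_option maxHeartbeats 0

namespace Pool.Agent.H54.RG

open Pool.Agent.H54.RF

/-- The checks of this file. They are in one theorem, so that they are done one after the other. -/
theorem qbH4 :
    Dat.allL (pcl dH4) (sl 205 10 dH4.L) = true ∧
    Dat.allL (pcl dH4) (sl 215 10 dH4.L) = true ∧
    Dat.allL (pcl dH4) (sl 225 10 dH4.L) = true ∧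
    Dat.allL (pcl dH4) (sl 235 10 dH4.L) = true ∧
    Dat.allL (pcl dH4) (sl 245 7 dH4.L) = true ∧
    Dat.allL (pcl dH4) (sl 252 7 dH4.L) = true ∧
    Dat.allL (pcl dH4) (sl 259 7 dH4.L) = true ∧
    Dat.allL (pcl dH4) (sl 266 7 dH4.L) = true ∧
    Dat.allL (pcl dH4) (sl 273 7 dH4.L) = true := by
  refine ⟨?_, ?_, ?_, ?_, ?_, ?_, ?_, ?_, ?_⟩
  · decide +kernel
  · decide +kernel
  · decide +kernel
  · decide +kernel
  · decide +kernel
  · decide +kernel
  · decide +kernel
  · decide +kernel
  · decide +kernel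

end Pool.Agent.H54.RG
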