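import Pool.Agent.H54.RG.DtH4
import Pool.Agent.H54.RG.DatP

/-!
# Project RG (MP_35eb49): check of the lattice of type H4, third part
-/

set_option autoImplicit false
set_option maxRecDepth 100000
set_option maxHeartbeats 0

namespace Pool.Agent.H54.RG

open Pool.Agent.H54.RF

/-- The checks of this file. They are in one theorem, so that they are done one after the other. -/
theorem qcH4 :
    dH4.ckSym = true ∧
    Dat.mem dH4.L dH4.full = true ∧
    Dat.allL (ps1 dH4) (sl 0 100 dH4.L) = true ∧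
    Dat.allL (ps1 dH4) (sl 100 80 dH4.L) = true ∧
    Dat.allL (ps1 dH4) (sl 180 50 dH4.L) = true ∧
    Dat.allL (ps1 dH4) (sl 230 30 dH4.L) = true ∧
    Dat.allL (ps1 dH4) (sl 260 20 dH4.L) = true ∧
    Dat.allL (ps2 dH4) (sl 0 280 dH4.L) = true ∧
    ps3 dH4 = true ∧
    Dat.allL (pcn dH4) (sl 0 70 dH4.L) = true ∧
    Dat.allL (pcn dH4) (sl 70 70 dH4.L) = true ∧
    Dat.allL (pcn dH4) (sl 140 40 dH4.L) = true ∧
    Dat.allL (pcn dH4) (sl 180 40 dH4.L) = true ∧
    Dat.allL (pcn dH4) (sl 220 20 dH4.L) = true ∧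
    Dat.allL (pcn dH4) (sl 240 20 dH4.L) = true ∧
    Dat.allL (pcn dH4) (sl 260 10 dH4.L) = true ∧
    Dat.allL (pcn dH4) (sl 270 9 dH4.L) = true ∧
    Dat.allL (pcn dH4) (sl 279 1 dH4.L) = true ∧
    Dat.allL (pcl dH4) (dH4.L.drop 280) = true ∧
    Dat.allL (ps1 dH4) (dH4.L.drop 280) = true ∧
    Dat.allL (ps2 dH4) (dH4.L.drop 280) = true ∧
    Dat.allL (pcn dH4) (dH4.L.drop 280) = true := by
  refine ⟨?_, ?_, ?_, ?_, ?_, ?_, ?_, ?_, ?_, ?_, ?_, ?_, ?_, ?_, ?_, ?_, ?_, ?_, ?_, ?_, ?_, ?_⟩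
  · decide +kernel
  · decide +kernel
  · decide +kernel
  · decide +kernel
  · decide +kernel
  · decide +kernel
  · decide +kernel
  · decide +kernel
  · decide +kernel
  · decide +kernel
  · decide +kernel
  · decide +kernel
  · decide +kernel
  · decide +kernel
  · decide +kernel
  · decide +kernel
  · decide +kernel
  · decide +kernel
  · decide +kernel
  · decide +kernel
  · decide +kernel
  · decide +kernel

end Pool.Agent.H54.RG
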