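import Pool.Agent.H54.RG.CaH4a
import Pool.Agent.H54.RG.CaH4b
import Pool.Agent.H54.RG.CaH4c

/-!
# Project RG (MP_35eb49): check of the lattice of type H4
-/

set_option autoImplicit false
set_option maxRecDepth 100000
set_option maxHeartbeats 0

namespace Pool.Agent.H54.RG

open Pool.Agent.H54.RF

theorem clH4 : Dat.allL (pcl dH4) (dH4.L.drop 0) = true := by
  have h : Dat.allL (pcl dH4) (dH4.L.drop 280) = true := qcH4.2.2.2.2.2.2.2.2.2.2.2.2.2.2.2.2.2.2.1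
  replace h := allL_st (pcl dH4) dH4.L 273 7 280 rfl qbH4.2.2.2.2.2.2.2.2 h
  replace h := allL_st (pcl dH4) dH4.L 266 7 273 rfl qbH4.2.2.2.2.2.2.2.1 h
  replace h := allL_st (pcl dH4) dH4.L 259 7 266 rfl qbH4.2.2.2.2.2.2.1 h
  replace h := allL_st (pcl dH4) dH4.L 252 7 259 rfl qbH4.2.2.2.2.2.1 h
  replace h := allL_st (pcl dH4) dH4.L 245 7 252 rfl qbH4.2.2.2.2.1 h
  replace h := allL_st (pcl dH4) dH4.L 235 10 245 rfl qbH4.2.2.2.1 h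
  replace h := allL_st (pcl dH4) dH4.L 225 10 235 rfl qbH4.2.2.1 h
  replace h := allL_st (pcl dH4) dH4.L 215 10 225 rfl qbH4.2.1 h
  replace h := allL_st (pcl dH4) dH4.L 205 10 215 rfl qbH4.1 h
  replace h := allL_st (pcl dH4) dH4.L 190 15 205 rfl qaH4.2.2.2.2.2.2.2.2.2 h
  replace h := allL_st (pcl dH4) dH4.L 175 15 190 rfl qaH4.2.2.2.2.2.2.2.2.1 h
  replace h := allL_st (pcl dH4) dH4.L 160 15 175 rfl qaH4.2.2.2.2.2.2.2.1 h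
  replace h := allL_st (pcl dH4) dH4.L 145 15 160 rfl qaH4.2.2.2.2.2.2.1 h
  replace h := allL_st (pcl dH4) dH4.L 130 15 145 rfl qaH4.2.2.2.2.2.1 h
  replace h := allL_st (pcl dH4) dH4.L 115 15 130 rfl qaH4.2.2.2.2.1 h
  replace h := allL_st (pcl dH4) dH4.L 95 20 115 rfl qaH4.2.2.2.1 h
  replace h := allL_st (pcl dH4) dH4.L 70 25 95 rfl qaH4.2.2.1 h
  replace h := allL_st (pcl dH4) dH4.L 40 30 70 rfl qaH4.2.1 h
  replace h := allL_st (pcl dH4) dH4.L 0 40 40 rfl qaH4.1 h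
  exact h

theorem s1H4 : Dat.allL (ps1 dH4) (dH4.L.drop 0) = true := by
  have h : Dat.allL (ps1 dH4) (dH4.L.drop 280) = true := qcH4.2.2.2.2.2.2.2.2.2.2.2.2.2.2.2.2.2.2.2.1
  replace h := allL_st (ps1 dH4) dH4.L 260 20 280 rfl qcH4.2.2.2.2.2.2.1 h
  replace h := allL_st (ps1 dH4) dH4.L 230 30 260 rfl qcH4.2.2.2.2.2.1 h
  replace h := allL_st (ps1 dH4) dH4.L 180 50 230 rfl qcH4.2.2.2.2.1 h
  replace h := allL_st (ps1 dH4) dH4.L 100 80 180 rfl qcH4.2.2.2.1 h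
  replace h := allL_st (ps1 dH4) dH4.L 0 100 100 rfl qcH4.2.2.1 h
  exact h

theorem s2H4 : Dat.allL (ps2 dH4) (dH4.L.drop 0) = true := by
  have h : Dat.allL (ps2 dH4) (dH4.L.drop 280) = true := qcH4.2.2.2.2.2.2.2.2.2.2.2.2.2.2.2.2.2.2.2.2.1
  replace h := allL_st (ps2 dH4) dH4.L 0 280 280 rfl qcH4.2.2.2.2.2.2.2.1 h
  exact h

theorem cnH4 : Dat.allL (pcn dH4) (dH4.L.drop 0) = true := by
  have h : Dat.allL (pcn dH4) (dH4.L.drop 280) = true := qcH4.2.2.2.2.2.2.2.2.2.2.2.2.2.2.2.2.2.2.2.2.2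
  replace h := allL_st (pcn dH4) dH4.L 279 1 280 rfl qcH4.2.2.2.2.2.2.2.2.2.2.2.2.2.2.2.2.2.1 h
  replace h := allL_st (pcn dH4) dH4.L 270 9 279 rfl qcH4.2.2.2.2.2.2.2.2.2.2.2.2.2.2.2.2.1 h
  replace h := allL_st (pcn dH4) dH4.L 260 10 270 rfl qcH4.2.2.2.2.2.2.2.2.2.2.2.2.2.2.2.1 h
  replace h := allL_st (pcn dH4) dH4.L 240 20 260 rfl qcH4.2.2.2.2.2.2.2.2.2.2.2.2.2.2.1 h
  replace h := allL_st (pcn dH4) dH4.L 220 20 240 rfl qcH4.2.2.2.2.2.2.2.2.2.2.2.2.2.1 h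
  replace h := allL_st (pcn dH4) dH4.L 180 40 220 rfl qcH4.2.2.2.2.2.2.2.2.2.2.2.2.1 h
  replace h := allL_st (pcn dH4) dH4.L 140 40 180 rfl qcH4.2.2.2.2.2.2.2.2.2.2.2.1 h
  replace h := allL_st (pcn dH4) dH4.L 70 70 140 rfl qcH4.2.2.2.2.2.2.2.2.2.2.1 h
  replace h := allL_st (pcn dH4) dH4.L 0 70 70 rfl qcH4.2.2.2.2.2.2.2.2.2.1 h
  exact h

theorem dcH4 : dH4.check = true :=
  check_of dH4 qcH4.1 qcH4.2.1 clH4 s1H4 s2H4 qcH4.2.2.2.2.2.2.2.2.1 cnH4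

end Pool.Agent.H54.RG
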