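import Pool.Agent.H54.RG.DtH4
import Pool.Agent.H54.RG.DatP

/-!
# Project RG (MP_35eb49): check of the lattice of type H4, first part
-/

set_option autoImplicit false
set_option maxRecDepth 100000
set_option maxHeartbeats 0

namespace Pool.Agent.H54.RG

open Pool.Agent.H54.RF

/-- The checks of this file. They are in one theorem, so that they are done one after the other. -/
theorem qaH4 :
    Dat.allL (pcl dH4) (sl 0 40 dH4.L) = true ∧
    Dat.allL (pcl dH4) (sl 40 30 dH4.L) = true ∧
    Dat.allL (pcl dH4) (sl 70 25 dH4.L) = true ∧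
    Dat.allL (pcl dH4) (sl 95 20 dH4.L) = true ∧
    Dat.allL (pcl dH4) (sl 115 15 dH4.L) = true ∧
    Dat.allL (pcl dH4) (sl 130 15 dH4.L) = true ∧
    Dat.allL (pcl dH4) (sl 145 15 dH4.L) = true ∧
    Dat.allL (pcl dH4) (sl 160 15 dH4.L) = true ∧
    Dat.allL (pcl dH4) (sl 175 15 dH4.L) = true ∧
    Dat.allL (pcl dH4) (sl 190 15 dH4.L) = true := by
  refine ⟨?_, ?_, ?_, ?_, ?_, ?_, ?_, ?_, ?_, ?_⟩
  · decide +kernel
  · decide +kernel
  · decide +kernel
  · decide +kernel
  · decide +kernel
  · decide +kernel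
  · decide +kernel
  · decide +kernel
  · decide +kernel
  · decide +kernel

end Pool.Agent.H54.RG
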