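import Pool.Agent.H54.RG.DtB4

/-!
# Project RG (MP_35eb49): check of the realisation of type B4
-/

set_option autoImplicit false
set_option maxRecDepth 100000
set_option maxHeartbeats 0

namespace Pool.Agent.H54.RG

open Pool.Agent.H54.RF

theorem xcB4 : xB4.check dB4 = true := by decide +kernel

end Pool.Agent.H54.RG
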