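import Pool.Agent.H54.RG.CbH4a

/-!
# Project RG (MP_35eb49): check of the realisation of type H4
-/

set_option autoImplicit false
set_option maxRecDepth 100000
set_option maxHeartbeats 0

namespace Pool.Agent.H54.RG

open Pool.Agent.H54.RF

theorem r0H4 : pc4 xH4 dH4 0 45 = true := by
  have h : Dat.allI (pp4 xH4 dH4 0 45) 60 (dH4.Kr.drop 60) = true := qdH4.2.2.2.2.2.2.2.2.2.2.2.2.1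
  replace h := allI_st (pp4 xH4 dH4 0 45) dH4.Kr 50 10 60 rfl
    qdH4.2.2.2.2.2.2.2.2.2.2.2.2.2.2.2.2.2.2.2.2.2.2.2.2.2.2.2.2.2.2.2.2.2.2
    qdH4.2.2.2.2.2.2.2.2.2.2.2.1 h
  replace h := allI_st (pp4 xH4 dH4 0 45) dH4.Kr 40 10 50 rfl
    qdH4.2.2.2.2.2.2.2.2.2.2.2.2.2.2.2.2.2.2.2.2.2.2.2.2.2.2.2.2.2.2.2.2.2.1
    qdH4.2.2.2.2.2.2.2.2.2.2.1 h
  replace h := allI_st (pp4 xH4 dH4 0 45) dH4.Kr 30 10 40 rfl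
    qdH4.2.2.2.2.2.2.2.2.2.2.2.2.2.2.2.2.2.2.2.2.2.2.2.2.2.2.2.2.2.2.2.1
    qdH4.2.2.2.2.2.2.2.2.2.1 h
  replace h := allI_st (pp4 xH4 dH4 0 45) dH4.Kr 20 10 30 rfl
    qdH4.2.2.2.2.2.2.2.2.2.2.2.2.2.2.2.2.2.2.2.2.2.2.2.2.2.2.2.2.2.2.1
    qdH4.2.2.2.2.2.2.2.2.1 h
  replace h := allI_st (pp4 xH4 dH4 0 45) dH4.Kr 10 10 20 rfl
    qdH4.2.2.2.2.2.2.2.2.2.2.2.2.2.2.2.2.2.2.2.2.2.2.2.2.2.2.2.2.2.1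
    qdH4.2.2.2.2.2.2.2.1 h
  replace h := allI_st (pp4 xH4 dH4 0 45) dH4.Kr 0 10 10 rfl
    qdH4.2.2.2.2.2.2.2.2.2.2.2.2.2.2.2.2.2.2.2.2.2.2.2.2.2.2.2.1
    qdH4.2.2.2.2.2.2.1 h
  exact pc4_of xH4 dH4 0 45 h

theorem r1H4 : pc4 xH4 dH4 1 30 = true := by
  have h : Dat.allI (pp4 xH4 dH4 1 30) 60 (dH4.Kr.drop 60) = true := qdH4.2.2.2.2.2.2.2.2.2.2.2.2.2.2.2.2.2.1
  replace h := allI_st (pp4 xH4 dH4 1 30) dH4.Kr 45 15 60 rfl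
    qdH4.2.2.2.2.2.2.2.2.2.2.2.2.2.2.2.2.2.2.2.2.2.2.2.2.2.2.2.2.2.2.2.2.2.2
    qdH4.2.2.2.2.2.2.2.2.2.2.2.2.2.2.2.2.1 h
  replace h := allI_st (pp4 xH4 dH4 1 30) dH4.Kr 30 15 45 rfl
    qdH4.2.2.2.2.2.2.2.2.2.2.2.2.2.2.2.2.2.2.2.2.2.2.2.2.2.2.2.2.2.2.2.2.1
    qdH4.2.2.2.2.2.2.2.2.2.2.2.2.2.2.2.1 h
  replace h := allI_st (pp4 xH4 dH4 1 30) dH4.Kr 15 15 30 rfl
    qdH4.2.2.2.2.2.2.2.2.2.2.2.2.2.2.2.2.2.2.2.2.2.2.2.2.2.2.2.2.2.2.1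
    qdH4.2.2.2.2.2.2.2.2.2.2.2.2.2.2.1 h
  replace h := allI_st (pp4 xH4 dH4 1 30) dH4.Kr 0 15 15 rfl
    qdH4.2.2.2.2.2.2.2.2.2.2.2.2.2.2.2.2.2.2.2.2.2.2.2.2.2.2.2.2.1
    qdH4.2.2.2.2.2.2.2.2.2.2.2.2.2.1 h
  exact pc4_of xH4 dH4 1 30 h

theorem r2H4 : pc4 xH4 dH4 2 15 = true := by
  have h : Dat.allI (pp4 xH4 dH4 2 15) 60 (dH4.Kr.drop 60) = true := qdH4.2.2.2.2.2.2.2.2.2.2.2.2.2.2.2.2.2.2.2.2.2.1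
  replace h := allI_st (pp4 xH4 dH4 2 15) dH4.Kr 40 20 60 rfl
    qdH4.2.2.2.2.2.2.2.2.2.2.2.2.2.2.2.2.2.2.2.2.2.2.2.2.2.2.2.2.2.2.2.2.2.2
    qdH4.2.2.2.2.2.2.2.2.2.2.2.2.2.2.2.2.2.2.2.2.1 h
  replace h := allI_st (pp4 xH4 dH4 2 15) dH4.Kr 20 20 40 rfl
    qdH4.2.2.2.2.2.2.2.2.2.2.2.2.2.2.2.2.2.2.2.2.2.2.2.2.2.2.2.2.2.2.2.1
    qdH4.2.2.2.2.2.2.2.2.2.2.2.2.2.2.2.2.2.2.2.1 h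
  replace h := allI_st (pp4 xH4 dH4 2 15) dH4.Kr 0 20 20 rfl
    qdH4.2.2.2.2.2.2.2.2.2.2.2.2.2.2.2.2.2.2.2.2.2.2.2.2.2.2.2.2.2.1
    qdH4.2.2.2.2.2.2.2.2.2.2.2.2.2.2.2.2.2.2.1 h
  exact pc4_of xH4 dH4 2 15 h

theorem r3H4 : pc4 xH4 dH4 3 0 = true := by
  have h : Dat.allI (pp4 xH4 dH4 3 0) 60 (dH4.Kr.drop 60) = true := qdH4.2.2.2.2.2.2.2.2.2.2.2.2.2.2.2.2.2.2.2.2.2.2.2.2.2.2.1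
  replace h := allI_st (pp4 xH4 dH4 3 0) dH4.Kr 45 15 60 rfl
    qdH4.2.2.2.2.2.2.2.2.2.2.2.2.2.2.2.2.2.2.2.2.2.2.2.2.2.2.2.2.2.2.2.2.2.2
    qdH4.2.2.2.2.2.2.2.2.2.2.2.2.2.2.2.2.2.2.2.2.2.2.2.2.2.1 h
  replace h := allI_st (pp4 xH4 dH4 3 0) dH4.Kr 30 15 45 rfl
    qdH4.2.2.2.2.2.2.2.2.2.2.2.2.2.2.2.2.2.2.2.2.2.2.2.2.2.2.2.2.2.2.2.2.1
    qdH4.2.2.2.2.2.2.2.2.2.2.2.2.2.2.2.2.2.2.2.2.2.2.2.2.1 h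
  replace h := allI_st (pp4 xH4 dH4 3 0) dH4.Kr 15 15 30 rfl
    qdH4.2.2.2.2.2.2.2.2.2.2.2.2.2.2.2.2.2.2.2.2.2.2.2.2.2.2.2.2.2.2.1
    qdH4.2.2.2.2.2.2.2.2.2.2.2.2.2.2.2.2.2.2.2.2.2.2.2.1 h
  replace h := allI_st (pp4 xH4 dH4 3 0) dH4.Kr 0 15 15 rfl
    qdH4.2.2.2.2.2.2.2.2.2.2.2.2.2.2.2.2.2.2.2.2.2.2.2.2.2.2.2.2.1
    qdH4.2.2.2.2.2.2.2.2.2.2.2.2.2.2.2.2.2.2.2.2.2.2.1 h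
  exact pc4_of xH4 dH4 3 0 h

theorem xcH4 : xH4.check dH4 = true :=
  cert_of xH4 dH4 qdH4.1 qdH4.2.1
    (allI_four (pc3 xH4 dH4) xH4.a 45 30 15 0 rfl qdH4.2.2.1 qdH4.2.2.2.1 qdH4.2.2.2.2.1
      qdH4.2.2.2.2.2.1)
    (allI_four (pc4 xH4 dH4) xH4.a 45 30 15 0 rfl r0H4 r1H4 r2H4 r3H4)

end Pool.Agent.H54.RG
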