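import Pool.Agent.H54.RG.DtH4
import Pool.Agent.H54.RG.DatP

/-!
# Project RG (MP_35eb49): check of the realisation of type H4, parts
-/

set_option autoImplicit false
set_option maxRecDepth 100000
set_option maxHeartbeats 0

namespace Pool.Agent.H54.RG

open Pool.Agent.H54.RF

/-- The checks of this file. They are in one theorem, so that they are done one after the other. -/
theorem qdH4 :
    Cert.ck1 xH4 dH4 = true ∧
    Cert.ck2 xH4 dH4 = true ∧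
    pc3 xH4 dH4 0 45 = true ∧
    pc3 xH4 dH4 1 30 = true ∧
    pc3 xH4 dH4 2 15 = true ∧
    pc3 xH4 dH4 3 0 = true ∧
    Dat.allI (pp4 xH4 dH4 0 45) 0 (sl 0 10 dH4.Kr) = true ∧
    Dat.allI (pp4 xH4 dH4 0 45) 10 (sl 10 10 dH4.Kr) = true ∧
    Dat.allI (pp4 xH4 dH4 0 45) 20 (sl 20 10 dH4.Kr) = true ∧
    Dat.allI (pp4 xH4 dH4 0 45) 30 (sl 30 10 dH4.Kr) = true ∧
    Dat.allI (pp4 xH4 dH4 0 45) 40 (sl 40 10 dH4.Kr) = true ∧
    Dat.allI (pp4 xH4 dH4 0 45) 50 (sl 50 10 dH4.Kr) = true ∧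
    Dat.allI (pp4 xH4 dH4 0 45) 60 (dH4.Kr.drop 60) = true ∧
    Dat.allI (pp4 xH4 dH4 1 30) 0 (sl 0 15 dH4.Kr) = true ∧
    Dat.allI (pp4 xH4 dH4 1 30) 15 (sl 15 15 dH4.Kr) = true ∧
    Dat.allI (pp4 xH4 dH4 1 30) 30 (sl 30 15 dH4.Kr) = true ∧
    Dat.allI (pp4 xH4 dH4 1 30) 45 (sl 45 15 dH4.Kr) = true ∧
    Dat.allI (pp4 xH4 dH4 1 30) 60 (dH4.Kr.drop 60) = true ∧
    Dat.allI (pp4 xH4 dH4 2 15) 0 (sl 0 20 dH4.Kr) = true ∧
    Dat.allI (pp4 xH4 dH4 2 15) 20 (sl 20 20 dH4.Kr) = true ∧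
    Dat.allI (pp4 xH4 dH4 2 15) 40 (sl 40 20 dH4.Kr) = true ∧
    Dat.allI (pp4 xH4 dH4 2 15) 60 (dH4.Kr.drop 60) = true ∧
    Dat.allI (pp4 xH4 dH4 3 0) 0 (sl 0 15 dH4.Kr) = true ∧
    Dat.allI (pp4 xH4 dH4 3 0) 15 (sl 15 15 dH4.Kr) = true ∧
    Dat.allI (pp4 xH4 dH4 3 0) 30 (sl 30 15 dH4.Kr) = true ∧
    Dat.allI (pp4 xH4 dH4 3 0) 45 (sl 45 15 dH4.Kr) = true ∧
    Dat.allI (pp4 xH4 dH4 3 0) 60 (dH4.Kr.drop 60) = true ∧
    Nat.ble 10 dH4.Kr.length = true ∧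
    Nat.ble 15 dH4.Kr.length = true ∧
    Nat.ble 20 dH4.Kr.length = true ∧
    Nat.ble 30 dH4.Kr.length = true ∧
    Nat.ble 40 dH4.Kr.length = true ∧
    Nat.ble 45 dH4.Kr.length = true ∧
    Nat.ble 50 dH4.Kr.length = true ∧
    Nat.ble 60 dH4.Kr.length = true := by
  refine ⟨?_, ?_, ?_, ?_, ?_, ?_, ?_, ?_, ?_, ?_, ?_, ?_, ?_, ?_, ?_, ?_, ?_, ?_, ?_, ?_, ?_, ?_, ?_, ?_, ?_, ?_, ?_, ?_, ?_, ?_, ?_, ?_, ?_, ?_, ?_⟩
  · decide +kernel
  · decide +kernel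
  · decide +kernel
  · decide +kernel
  · decide +kernel
  · decide +kernel
  · decide +kernel
  · decide +kernel
  · decide +kernel
  · decide +kernel
  · decide +kernel
  · decide +kernel
  · decide +kernel
  · decide +kernel
  · decide +kernel
  · decide +kernel
  · decide +kernel
  · decide +kernel
  · decide +kernel
  · decide +kernel
  · decide +kernel
  · decide +kernel
  · decide +kernel
  · decide +kernel
  · decide +kernel
  · decide +kernel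
  · decide +kernel
  · decide +kernel
  · decide +kernel
  · decide +kernel
  · decide +kernel
  · decide +kernel
  · decide +kernel
  · decide +kernel
  · decide +kernel

end Pool.Agent.H54.RG
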