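import Pool.Agent.H54.RF.Art

/-!
# Project RG (MP_35eb49): data of type A3
-/

set_option autoImplicit false
set_option maxRecDepth 100000
set_option maxHeartbeats 0

namespace Pool.Agent.H54.RG

open Pool.Agent.H54.RF

/-- Data of type `A3`. -/
def dA3 : Dat where
  N := 6
  Kr := [
    0x1c, 0x29, 0x13, 0x26, 0xa, 0x5]
  tb := [
    1, 2, 3, 0, 5, 4]
  L := [
    (0x0, 0), (0x1, 1), (0x2, 1), (0x4, 1), (0x8, 1), (0x10, 1), (0x20, 1), (0x5, 2), (0xa, 2),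
    (0x13, 2), (0x1c, 2), (0x26, 2), (0x29, 2), (0x3f, 3)]

/-- Certificates of type `A3`. -/
def xA3 : Cert where
  m := [[1, 3, 2], [3, 1, 3], [2, 3, 1]]
  a := [0, 4, 2]
  ol := [0, 2, 1]
  h := 4
  dh := [
    (0, 1, 0x13), (0, 2, 0x5), (1, 0, 0x13), (1, 2, 0x1c), (2, 0, 0x5), (2, 1, 0x1c)]
  P := [
    ⟨0, 2, 2, [1, 2, 4]⟩, ⟨0, 4, 0, [1, 2, 4, 6, 10, 8, 10, 9]⟩,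
    ⟨1, 2, 1, [4, 2, 0, 2, 3, 1, 3]⟩, ⟨1, 4, 1, [4, 2, 0, 2, 3, 1, 3, 10, 8, 6, 8, 9, 7, 9]⟩,
    ⟨2, 2, 0, [0, 4, 2, 4, 3]⟩, ⟨2, 4, 2, [0, 4, 2, 4, 3, 7, 8, 10]⟩]
  R := [
    ⟨0, 2, 0x5, 0, 2, 0, 2, [0]⟩, ⟨0, 3, 0x29, 1, 0, 1, 1, [4, 3, 1, 5, 3, 2, 0, 2, 4, 5]⟩,
    ⟨0, 4, 0x13, 0, 1, 1, 0, [2, 1]⟩, ⟨1, 1, 0x13, 1, 2, 0, 0, [2, 0]⟩,
    ⟨1, 3, 0x1c, 1, 0, 0, 2, [1, 2, 0, 2]⟩, ⟨2, 0, 0x5, 0, 0, 0, 0, [0]⟩,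
    ⟨2, 1, 0x26, 1, 2, 1, 1, [1, 5, 3, 2, 0, 2]⟩, ⟨2, 4, 0x1c, 0, 1, 1, 2, [0, 2]⟩]

end Pool.Agent.H54.RG
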