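import Pool.Agent.H54.RG.OpsA3
import Pool.Agent.H54.RG.DtA3
import Pool.Agent.H54.RG.AsmR

/-!
# Project RG (MP_35eb49): checks of the operations of type A3
-/

set_option autoImplicit false
set_option maxRecDepth 100000
set_option maxHeartbeats 0

namespace Pool.Agent.H54.RG

open Pool.Agent.H54.RF

theorem oaA3 : oA3.ckA dA3 eA3 = true := by decide +kernel

theorem obA3 : oA3.ckB dA3 eA3 = true := by decide +kernel

theorem ocA3 : oA3.ckC dA3 eA3 rA3 = true := by decide +kernel

theorem opA3 : oA3.ckP = true := by decide +kernel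

/-- new number -/
noncomputable def pA3 (i : ℕ) : ℕ := Ops.g8 264625474410102790678913103298816 i

/-- old number -/
noncomputable def qA3 (i : ℕ) : ℕ := Ops.g8 264625476837325088232388729897216 i

/-- renumbered operations -/
noncomputable def wA3 : Ops := oA3.ren pA3 qA3

theorem or2A3 : oA3.ckR pA3 qA3 = true := by decide +kernel

theorem onA3 : wA3.ckN dA3 (fun i => eA3 (qA3 i)) 6 = true := by decide +kernel

theorem orA3 : Nat.ble 2 (Dat.rf dA3.L dA3.full) = true := by decide +kernel

/-- the indices of the generators -/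
def atA3 (i : ℕ) : ℕ := [1, 5, 3].getD i 0

theorem ogA3 : Ops.allR 3 (fun i => Ops.ba (Nat.ble (atA3 i) oA3.top)
    (Nat.beq (eA3 (qA3 (atA3 i))) (Nat.pow 2 (xA3.a.getD i 0)))) = true := by decide +kernel

end Pool.Agent.H54.RG
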