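import Pool.Agent.H54.RF.Art

/-!
# Project RG (MP_35eb49): data of type A4
-/

set_option autoImplicit false
set_option maxRecDepth 100000
set_option maxHeartbeats 0

namespace Pool.Agent.H54.RG

open Pool.Agent.H54.RF

/-- Data of type `A4`. -/
def dA4 : Dat where
  N := 10
  Kr := [
    0x1bc, 0x359, 0x2b3, 0x167, 0x2ce, 0x11a, 0x215, 0x2b, 0x56, 0x8d]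
  tb := [
    1, 2, 3, 4, 0, 6, 7, 8, 9, 5]
  L := [
    (0x0, 0), (0x1, 1), (0x2, 1), (0x4, 1), (0x8, 1), (0x10, 1), (0x20, 1), (0x40, 1), (0x80, 1),
    (0x100, 1), (0x200, 1), (0x5, 2), (0x9, 2), (0xa, 2), (0x12, 2), (0x14, 2), (0x23, 2),
    (0x28, 2), (0x46, 2), (0x50, 2), (0x81, 2), (0x8c, 2), (0xb0, 2), (0x102, 2), (0x118, 2),
    (0x124, 2), (0x141, 2), (0x204, 2), (0x211, 2), (0x248, 2), (0x282, 2), (0x2b, 3), (0x56, 3),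
    (0x8d, 3), (0x11a, 3), (0x167, 3), (0x1bc, 3), (0x215, 3), (0x2b3, 3), (0x2ce, 3),
    (0x359, 3), (0x3ff, 4)]

/-- Certificates of type `A4`. -/
def xA4 : Cert where
  m := [[1, 3, 2, 2], [3, 1, 3, 2], [2, 3, 1, 3], [2, 2, 3, 1]]
  a := [0, 5, 7, 3]
  ol := [0, 2, 1, 3]
  h := 5
  dh := [
    (0, 1, 0x23), (0, 2, 0x81), (0, 3, 0x9), (1, 0, 0x23), (1, 2, 0xb0), (1, 3, 0x28),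
    (2, 0, 0x81), (2, 1, 0xb0), (2, 3, 0x8c), (3, 0, 0x9), (3, 1, 0x28), (3, 2, 0x8c)]
  P := [
    ⟨0, 3, 3, [1, 4, 2, 4, 3, 5, 9, 7, 9, 8, 10]⟩,
    ⟨0, 5, 0, [1, 4, 2, 4, 3, 5, 9, 7, 9, 8, 10, 12, 15, 13, 17, 15, 14, 17, 16, 19]⟩,
    ⟨1, 2, 2, [5, 7, 6, 4, 2, 0, 2, 6, 5, 3, 1, 5, 4, 6, 5, 3, 5, 4, 6]⟩,
    ⟨1, 5, 1, [5, 7, 6, 4, 2, 0, 2, 6, 5, 3, 1, 5, 4, 6, 5, 3, 5, 4, 6, 8, 13, 15, 14, 12, 10,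
    12, 15, 13, 11, 15, 16, 14, 13, 12, 14, 19]⟩,
    ⟨2, 3, 1, [0, 5, 7, 6, 4, 2, 4, 7, 5, 3, 7, 8, 6, 5, 4, 6, 11]⟩,
    ⟨2, 5, 2, [0, 5, 7, 6, 4, 2, 4, 7, 5, 3, 7, 8, 6, 5, 4, 6, 11, 17, 19, 18, 16, 14, 12, 14,
    18, 17, 15, 13, 17, 16, 18, 17, 15, 17, 16, 18]⟩, ⟨3, 2, 0, [0, 3, 1, 5, 3, 2, 5, 4, 7]⟩,
    ⟨3, 5, 3, [0, 3, 1, 5, 3, 2, 5, 4, 7, 9, 12, 10, 12, 11, 13, 17, 15, 17, 16, 18]⟩]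
  R := [
    ⟨0, 2, 0x5, 1, 3, 2, 0, [3, 9, 8, 11, 10, 9, 7, 5, 4, 2, 1, 4, 9, 10]⟩,
    ⟨0, 3, 0x9, 0, 3, 0, 3, [0]⟩,
    ⟨0, 4, 0x211, 1, 0, 2, 2, [0, 4, 6, 5, 3, 6, 9, 12, 10, 8, 7, 5, 4, 2, 4, 7, 6, 5, 7, 10]⟩,
    ⟨0, 5, 0x23, 0, 1, 1, 0, [3, 4, 2, 1, 4]⟩, ⟨0, 7, 0x81, 0, 2, 0, 2, [0]⟩,
    ⟨0, 8, 0x141, 2, 1, 1, 1, [5, 4, 7, 6, 5, 3, 1, 5, 4, 7, 9, 8, 6, 5, 3, 2, 0, 2, 5, 6, 4, 6,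
    5, 8, 7, 6, 8, 12]⟩, ⟨1, 1, 0x23, 2, 3, 0, 0, [5, 7, 6, 4, 2, 0, 6]⟩,
    ⟨1, 3, 0x28, 0, 3, 0, 3, [0]⟩, ⟨1, 4, 0xb0, 1, 0, 0, 2, [1, 4, 2, 0, 2]⟩,
    ⟨1, 8, 0x124, 2, 1, 2, 0, [3, 9, 12, 10, 8, 12, 11, 13, 12, 10, 9, 7, 5, 4, 2, 1, 4, 9, 12,
    13, 11, 10, 13, 16]⟩, ⟨2, 0, 0x81, 0, 0, 0, 0, [0]⟩,
    ⟨2, 1, 0x282, 2, 3, 2, 2, [0, 4, 6, 5, 3, 8, 6, 13, 15, 14, 12, 10, 8, 7, 5, 4, 2, 4, 7, 6,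
    5, 7, 9, 14]⟩, ⟨2, 3, 0x8c, 0, 3, 2, 0, [3, 7, 5, 4, 2, 1, 4]⟩,
    ⟨2, 5, 0xb0, 0, 1, 1, 3, [2, 3, 1, 0, 3]⟩, ⟨3, 0, 0x9, 0, 0, 0, 0, [0]⟩,
    ⟨3, 1, 0xa, 2, 3, 1, 0, [4, 3, 9, 11, 10, 8, 6, 5, 4, 2, 1, 4, 5, 10]⟩,
    ⟨3, 2, 0x8c, 1, 3, 0, 2, [1, 3, 2, 0, 2]⟩, ⟨3, 5, 0x28, 0, 1, 0, 1, [0]⟩,
    ⟨3, 6, 0x248, 1, 2, 2, 2, [0, 4, 6, 5, 3, 8, 6, 11, 9, 11, 10, 8, 7, 5, 4, 2, 4, 7, 6, 5, 7,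
    10, 9, 12]⟩,
    ⟨3, 8, 0x118, 2, 1, 1, 3, [2, 5, 7, 6, 4, 7, 9, 8, 6, 5, 3, 1, 0, 3, 5, 8, 7, 6, 8, 12]⟩]

end Pool.Agent.H54.RG
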