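import Pool.Agent.H54.RG.OpsA4
import Pool.Agent.H54.RG.DtA4
import Pool.Agent.H54.RF.SpecB

/-!
# Project RG (MP_35eb49): checks of the operations of type A4
-/

set_option autoImplicit false
set_option maxRecDepth 100000
set_option maxHeartbeats 0

namespace Pool.Agent.H54.RG

open Pool.Agent.H54.RF

theorem oaA4 : oA4.ckA dA4 eA4 = true := by decide +kernel

theorem obA4 : oA4.ckB dA4 eA4 = true := by decide +kernel

theorem ocA4 : oA4.ckC dA4 eA4 rA4 = true := by decide +kernel

theorem opA4 : oA4.ckP = true := by decide +kernel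

theorem onA4 : oA4.ckN dA4 eA4 10 = true := by decide +kernel

theorem orA4 : Nat.ble 2 (Dat.rf dA4.L dA4.full) = true := by decide +kernel

/-- the indices of the generators -/
def atA4 (i : ℕ) : ℕ := [1, 6, 8, 4].getD i 0

theorem ogA4 : Ops.allR 4 (fun i => Ops.ba (Nat.ble (atA4 i) oA4.top)
    (Nat.beq (eA4 (atA4 i)) (Nat.pow 2 (xA4.a.getD i 0)))) = true := by decide +kernel

end Pool.Agent.H54.RG
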