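import Pool.Agent.H54.RF.Art

/-!
# Project RG (MP_35eb49): data of type B3
-/

set_option autoImplicit false
set_option maxRecDepth 100000
set_option maxHeartbeats 0

namespace Pool.Agent.H54.RG

open Pool.Agent.H54.RF

/-- Data of type `B3`. -/
def dB3 : Dat where
  N := 9
  Kr := [
    0xc8, 0x190, 0x160, 0x82, 0x104, 0x41, 0x10b, 0x56, 0xa5]
  tb := [
    1, 2, 0, 4, 5, 3, 7, 8, 6]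
  L := [
    (0x0, 0), (0x1, 1), (0x2, 1), (0x4, 1), (0x8, 1), (0x10, 1), (0x20, 1), (0x40, 1), (0x80, 1),
    (0x100, 1), (0x41, 2), (0x56, 2), (0x82, 2), (0xa5, 2), (0xc8, 2), (0x104, 2), (0x10b, 2),
    (0x160, 2), (0x190, 2), (0x1ff, 3)]

/-- Certificates of type `B3`. -/
def xB3 : Cert where
  m := [[1, 3, 2], [3, 1, 4], [2, 4, 1]]
  a := [6, 3, 0]
  ol := [2, 0, 1]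
  h := 3
  dh := [
    (2, 1, 0x10b), (2, 0, 0x41), (1, 2, 0x10b), (1, 0, 0xc8), (0, 2, 0x41), (0, 1, 0xc8)]
  P := [
    ⟨2, 3, 2, [1, 7, 5, 2, 5, 6, 4, 6]⟩, ⟨1, 3, 1, [4, 2, 4, 3, 0, 3, 2, 5, 6, 3, 1, 3]⟩,
    ⟨0, 3, 0, [0, 4, 2, 4, 3, 7]⟩]
  R := [
    ⟨2, 3, 0x10b, 0, 1, 2, 0, [0, 3, 4, 2, 4]⟩, ⟨2, 6, 0x41, 0, 0, 0, 0, [0]⟩,
    ⟨2, 7, 0xa5, 2, 0, 2, 1, [3, 1, 3, 2, 7, 11, 8, 6, 5, 3, 0, 3, 4, 2, 4, 8]⟩,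
    ⟨1, 1, 0x10b, 2, 2, 0, 2, [4, 2, 4, 3, 0, 3, 5]⟩, ⟨1, 7, 0xc8, 2, 0, 0, 0, [1, 5, 2, 0, 2]⟩,
    ⟨0, 0, 0x41, 0, 2, 0, 2, [0]⟩,
    ⟨0, 1, 0x56, 2, 2, 2, 2, [4, 10, 8, 10, 9, 6, 5, 2, 1, 5, 9, 11]⟩,
    ⟨0, 3, 0xc8, 0, 1, 1, 0, [0, 2]⟩,
    ⟨0, 8, 0x160, 1, 0, 2, 1, [3, 1, 6, 3, 2, 8, 6, 5, 3, 0, 3, 4, 2, 4, 7]⟩]

end Pool.Agent.H54.RG
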