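import Pool.Agent.H54.RG.OpsB3
import Pool.Agent.H54.RG.DtB3
import Pool.Agent.H54.RF.SpecB

/-!
# Project RG (MP_35eb49): checks of the operations of type B3
-/

set_option autoImplicit false
set_option maxRecDepth 100000
set_option maxHeartbeats 0

namespace Pool.Agent.H54.RG

open Pool.Agent.H54.RF

theorem oaB3 : oB3.ckA dB3 eB3 = true := by decide +kernel

theorem obB3 : oB3.ckB dB3 eB3 = true := by decide +kernel

theorem ocB3 : oB3.ckC dB3 eB3 rB3 = true := by decide +kernel

theorem opB3 : oB3.ckP = true := by decide +kernel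

theorem onB3 : oB3.ckN dB3 eB3 9 = true := by decide +kernel

theorem orB3 : Nat.ble 2 (Dat.rf dB3.L dB3.full) = true := by decide +kernel

/-- the indices of the generators -/
def atB3 (i : ℕ) : ℕ := [7, 4, 1].getD i 0

theorem ogB3 : Ops.allR 3 (fun i => Ops.ba (Nat.ble (atB3 i) oB3.top)
    (Nat.beq (eB3 (atB3 i)) (Nat.pow 2 (xB3.a.getD i 0)))) = true := by decide +kernel

end Pool.Agent.H54.RG
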