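import Pool.Agent.H54.RG.OpsB4
import Pool.Agent.H54.RG.DtB4
import Pool.Agent.H54.RF.SpecB

/-!
# Project RG (MP_35eb49): checks of the operations of type B4
-/

set_option autoImplicit false
set_option maxRecDepth 100000
set_option maxHeartbeats 0

namespace Pool.Agent.H54.RG

open Pool.Agent.H54.RF

theorem oaB4 : oB4.ckA dB4 eB4 = true := by decide +kernel

theorem obB4 : oB4.ckB dB4 eB4 = true := by decide +kernel

theorem ocB4 : oB4.ckC dB4 eB4 rB4 = true := by decide +kernel

theorem opB4 : oB4.ckP = true := by decide +kernel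

theorem onB4 : oB4.ckN dB4 eB4 16 = true := by decide +kernel

theorem orB4 : Nat.ble 2 (Dat.rf dB4.L dB4.full) = true := by decide +kernel

/-- the indices of the generators -/
def atB4 (i : ℕ) : ℕ := [13, 9, 5, 1].getD i 0

theorem ogB4 : Ops.allR 4 (fun i => Ops.ba (Nat.ble (atB4 i) oB4.top)
    (Nat.beq (eB4 (atB4 i)) (Nat.pow 2 (xB4.a.getD i 0)))) = true := by decide +kernel

end Pool.Agent.H54.RG
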