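import Pool.Agent.H54.RG.OpsD4
import Pool.Agent.H54.RG.DtD4
import Pool.Agent.H54.RF.SpecB

/-!
# Project RG (MP_35eb49): checks of the operations of type D4
-/

set_option autoImplicit false
set_option maxRecDepth 100000
set_option maxHeartbeats 0

namespace Pool.Agent.H54.RG

open Pool.Agent.H54.RF

theorem oaD4 : oD4.ckA dD4 eD4 = true := by decide +kernel

theorem obD4 : oD4.ckB dD4 eD4 = true := by decide +kernel

theorem ocD4 : oD4.ckC dD4 eD4 rD4 = true := by decide +kernel

theorem opD4 : oD4.ckP = true := by decide +kernel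

theorem onD4 : oD4.ckN dD4 eD4 12 = true := by decide +kernel

theorem orD4 : Nat.ble 2 (Dat.rf dD4.L dD4.full) = true := by decide +kernel

/-- the indices of the generators -/
def atD4 (i : ℕ) : ℕ := [1, 4, 7, 10].getD i 0

theorem ogD4 : Ops.allR 4 (fun i => Ops.ba (Nat.ble (atD4 i) oD4.top)
    (Nat.beq (eD4 (atD4 i)) (Nat.pow 2 (xD4.a.getD i 0)))) = true := by decide +kernel

end Pool.Agent.H54.RG
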