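import Pool.Agent.H54.RF.Art

/-!
# Project RG (MP_35eb49): data of type H3
-/

set_option autoImplicit false
set_option maxRecDepth 100000
set_option maxHeartbeats 0

namespace Pool.Agent.H54.RG

open Pool.Agent.H54.RF

/-- Data of type `H3`. -/
def dH3 : Dat where
  N := 15
  Kr := [
    0xc20, 0x1840, 0x3080, 0x6100, 0x4600, 0x802, 0x1004, 0x2008, 0x4010, 0x401, 0x5023, 0x2446,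
    0x488c, 0x1518, 0x2a11]
  tb := [
    1, 2, 3, 4, 0, 6, 7, 8, 9, 5, 11, 12, 13, 14, 10]
  L := [
    (0x0, 0), (0x1, 1), (0x2, 1), (0x4, 1), (0x8, 1), (0x10, 1), (0x20, 1), (0x40, 1), (0x80, 1),
    (0x100, 1), (0x200, 1), (0x400, 1), (0x800, 1), (0x1000, 1), (0x2000, 1), (0x4000, 1),
    (0x401, 2), (0x802, 2), (0xc20, 2), (0x1004, 2), (0x1518, 2), (0x1840, 2), (0x2008, 2),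
    (0x2446, 2), (0x2a11, 2), (0x3080, 2), (0x4010, 2), (0x4600, 2), (0x488c, 2), (0x5023, 2),
    (0x6100, 2), (0x7fff, 3)]

/-- Certificates of type `H3`. -/
def xH3 : Cert where
  m := [[1, 3, 2], [3, 1, 5], [2, 5, 1]]
  a := [10, 5, 0]
  ol := [2, 0, 1]
  h := 5
  dh := [
    (2, 1, 0x5023), (2, 0, 0x401), (1, 2, 0x5023), (1, 0, 0xc20), (0, 2, 0x401), (0, 1, 0xc20)]
  P := [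
    ⟨2, 5, 2, [1, 7, 5, 13, 11, 7, 6, 2, 6, 5, 8, 11, 9, 11, 10, 6, 4, 6, 10, 12]⟩,
    ⟨1, 5, 1, [4, 2, 10, 8, 4, 3, 8, 9, 7, 6, 4, 0, 4, 9, 5, 3, 2, 5, 9, 8, 6, 11, 12, 8, 7, 3,
    1, 3, 7, 9]⟩, ⟨0, 5, 0, [0, 4, 2, 10, 8, 4, 3, 8, 9, 7, 9, 13]⟩]
  R := [
    ⟨2, 5, 0x5023, 0, 1, 4, 0, [0, 3, 9, 7, 9, 8, 4, 2, 4, 8, 10]⟩,
    ⟨2, 10, 0x401, 0, 0, 0, 0, [0]⟩,
    ⟨2, 11, 0x2a11, 4, 0, 4, 1, [3, 1, 9, 7, 3, 2, 7, 8, 6, 5, 3, 8, 13, 19, 17, 23, 19, 18, 14,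
    12, 11, 9, 5, 4, 0, 4, 3, 6, 9, 7, 9, 8, 4, 2, 4, 8, 10, 14, 18, 20]⟩,
    ⟨1, 1, 0x5023, 4, 2, 0, 2, [4, 2, 10, 8, 4, 3, 8, 9, 7, 6, 4, 0, 4, 9, 5, 3, 5, 9, 11]⟩,
    ⟨1, 11, 0xc20, 4, 0, 0, 0, [1, 7, 5, 11, 7, 6, 2, 0, 2, 6, 8]⟩,
    ⟨0, 0, 0x401, 0, 2, 0, 2, [0]⟩,
    ⟨0, 1, 0x2446, 4, 2, 3, 0, [0, 3, 7, 13, 11, 19, 17, 13, 12, 17, 18, 16, 15, 13, 9, 8, 4, 2,
    4, 8, 13, 18, 14, 12, 14, 18, 20]⟩, ⟨0, 5, 0xc20, 0, 1, 1, 0, [0, 2]⟩,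
    ⟨0, 12, 0x1518, 3, 0, 4, 2, [6, 4, 10, 6, 5, 10, 16, 14, 20, 16, 15, 11, 9, 8, 6, 2, 1, 6,
    11, 7, 5, 7, 11, 15, 17]⟩,
    ⟨0, 14, 0x4600, 1, 0, 4, 1, [3, 1, 9, 7, 3, 2, 7, 12, 8, 6, 5, 3, 8, 14, 12, 11, 9, 5, 4, 0,
    4, 3, 6, 9, 7, 9, 8, 4, 2, 4, 8, 10, 13]⟩]

end Pool.Agent.H54.RG
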