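import Pool.Agent.H54.RG.OpsH3
import Pool.Agent.H54.RG.DtH3
import Pool.Agent.H54.RF.SpecB

/-!
# Project RG (MP_35eb49): checks of the operations of type H3
-/

set_option autoImplicit false
set_option maxRecDepth 100000
set_option maxHeartbeats 0

namespace Pool.Agent.H54.RG

open Pool.Agent.H54.RF

theorem oaH3 : oH3.ckA dH3 eH3 = true := by decide +kernel

theorem obH3 : oH3.ckB dH3 eH3 = true := by decide +kernel

theorem ocH3 : oH3.ckC dH3 eH3 rH3 = true := by decide +kernel

theorem opH3 : oH3.ckP = true := by decide +kernel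

theorem onH3 : oH3.ckN dH3 eH3 15 = true := by decide +kernel

theorem orH3 : Nat.ble 2 (Dat.rf dH3.L dH3.full) = true := by decide +kernel

/-- the indices of the generators -/
def atH3 (i : ℕ) : ℕ := [11, 6, 1].getD i 0

theorem ogH3 : Ops.allR 3 (fun i => Ops.ba (Nat.ble (atH3 i) oH3.top)
    (Nat.beq (eH3 (atH3 i)) (Nat.pow 2 (xH3.a.getD i 0)))) = true := by decide +kernel

end Pool.Agent.H54.RG
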