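import Pool.Agent.H54.RG.OpsH4
import Pool.Agent.H54.RG.DtH4
import Pool.Agent.H54.RF.SpecB

/-!
# Project RG (MP_35eb49): checks of the operations of type H4
-/

set_option autoImplicit false
set_option maxRecDepth 100000
set_option maxHeartbeats 0

namespace Pool.Agent.H54.RG

open Pool.Agent.H54.RF

theorem oaH4 : oH4.ckA dH4 eH4 = true := by decide +kernel

theorem obH4 : oH4.ckB dH4 eH4 = true := by decide +kernel

theorem ocH4 : oH4.ckC dH4 eH4 rH4 = true := by decide +kernel

theorem opH4 : oH4.ckP = true := by decide +kernel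

theorem onH4 : oH4.ckN dH4 eH4 60 = true := by decide +kernel

theorem orH4 : Nat.ble 2 (Dat.rf dH4.L dH4.full) = true := by decide +kernel

/-- the indices of the generators -/
def atH4 (i : ℕ) : ℕ := [46, 31, 16, 1].getD i 0

theorem ogH4 : Ops.allR 4 (fun i => Ops.ba (Nat.ble (atH4 i) oH4.top)
    (Nat.beq (eH4 (atH4 i)) (Nat.pow 2 (xH4.a.getD i 0)))) = true := by decide +kernel

end Pool.Agent.H54.RG
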