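import Pool.Agent.H54.RF.SpecD

/-!
# Project RG (MP_35eb49): faster kernel checks

The potentials of live edges are even. The strips are grouped by their steps, and the cubes are
built from live edges only.
-/

set_option autoImplicit false

namespace Pool.Agent.H54.RF

namespace Ops

/-- filter of a list -/
noncomputable def fll (l : List ℕ) (f : ℕ → Bool) : List ℕ :=
  List.rec (motive := fun _ => List ℕ) []
    (fun x _ ih => Bool.rec (motive := fun _ => List ℕ) ih (x :: ih) (f x)) l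

/-- empty list -/
noncomputable def nil (l : List ℕ) : Bool :=
  List.rec (motive := fun _ => Bool) true (fun _ _ _ => false) l

/-- maximum -/
noncomputable def mx2 (a b : ℕ) : ℕ :=
  frc a fun a => frc b fun b => Bool.rec (motive := fun _ => ℕ) a b (Nat.ble a b)

/-- maximum over a list -/
noncomputable def mxl (l : List ℕ) (f : ℕ → ℕ) : ℕ :=
  List.rec (motive := fun _ => ℕ) 0 (fun x _ ih => mx2 (f x) ih) l

variable (O : Ops)

/-- the largest potential after a step -/
noncomputable def mq (k b P R : ℕ) : ℕ :=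
  mxl (O.ql k b) fun q => Bool.rec (motive := fun _ => ℕ) (O.phi k q P R) 0 (Nat.beq (O.mt q P) 0)

/-- the strips with the step `a0` at the states with third element `X2` -/
noncomputable def chk3 (a0 X2 : ℕ) : Bool :=
  bi (Nat.beq (O.mt a0 X2) a0) (frc (O.kk a0) fun k0 =>
    allL (fl O.top fun R => O.co1 X2 a0 R) fun R => frc (O.pp a0 X2 R) fun P2 =>
      allL (fl O.top fun X1 => Nat.beq (O.mt X1 X2) a0) fun X1 =>
        frc (O.mt k0 X1) fun b => frc (O.mq k0 b P2 R) fun w => bi (Nat.beq w 0) true <|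
          allL (fll (fl O.top fun X0 => bi (Nat.beq (O.mt a0 X0) 0)
            (bi (Nat.beq (O.mt X0 X2) 0) false true) false) fun X0 =>
              O.co1 X2 (O.mt X0 X2) R) fun X0 =>
            bi (Nat.beq (O.mt X0 X1) 0) true
              (frc (O.pp (O.mt X0 X2) X2 R) fun P => frc (O.phi X0 X1 X2 P) fun u =>
                Nat.ble (Nat.add w (Nat.land u 1)) u)) true

/-- the edge is live -/
noncomputable def lv (Xd Xe Xg ae R : ℕ) : Bool :=
  Nat.beq (Nat.land (O.phi Xd Xe Xg (O.pp ae Xg R)) 1) 0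

/-- the list of live cores -/
noncomputable def cll (Xd Xe Xg ad ae : ℕ) : List ℕ :=
  fll (O.cl Xg ad ae) fun R => bi (O.lv Xd Xe Xg ae R) (O.lv Xe Xd Xg ad R) false

/-- the third cores compatible with the second one in direction `0` -/
noncomputable def l2 (X0 X1 X2 a0 a1 a2 R1 : ℕ) : List ℕ :=
  fll (frc (O.pp a0 X1 R1) fun Q =>
    fll (O.cll X0 X1 X2 a0 a1) fun R2 => O.pc1 X0 X1 X2 a0 a1 R2 Q) fun R2 =>
      frc (O.pp a0 X2 R2) fun P => O.pc1 X0 X2 X1 a0 a2 R1 P

/-- the conditions for the cubes at the states with given first two elements -/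
noncomputable def chk4 (X0 X1 : ℕ) : Bool :=
  frc (O.mt X0 X1) fun a2 => bi (Nat.beq a2 0) true <|
  allR O.top fun X2 => bi (Nat.ble X2 X1) true <| bi (Nat.blt (O.orb X2) (O.orb X0)) true <|
  frc (O.mt X0 X2) fun a1 => bi (Nat.beq a1 0) true <|
  frc (O.mt X1 X2) fun a0 => bi (Nat.beq a0 0) true <| bi (Nat.beq (O.mt a0 X0) 0) (
    bi (nil (O.cll X0 X1 X2 a0 a1)) true <| bi (nil (O.cll X0 X2 X1 a0 a2)) true <|
    allL (O.cll X1 X2 X0 a1 a2) fun R0 => frc (O.pp a2 X0 R0) fun Q =>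
      allL (fll (O.cll X0 X2 X1 a0 a2) fun R1 => O.pc1 X2 X0 X1 a2 a0 R1 Q) fun R1 =>
        frc (O.pp a2 X1 R1) fun P => bi (O.pc1 X2 X1 X0 a2 a1 R0 P)
          (allL (O.l2 X0 X1 X2 a0 a1 a2 R1) fun R2 => bi (O.pc X1 X2 X0 a1 a2 a0 R2 R0)
            (O.cb X0 X1 X2 a0 a1 a2 R0 R1 R2) true) true) true

/-- the checks of the strips for the third elements `lo + 1, …, lo + n` -/
noncomputable def t3 (a0 lo n : ℕ) : Bool :=
  allR n fun i => frc (Nat.succ (Nat.add lo i)) fun X2 => O.chk3 a0 X2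

/-- the checks of the cubes for the second elements `lo + 1, …, lo + n` -/
noncomputable def t4 (X0 lo n : ℕ) : Bool :=
  allR n fun i => frc (Nat.succ (Nat.add lo i)) fun X1 =>
    bi (Nat.blt (O.orb X1) (O.orb X0)) true (O.chk4 X0 X1)

end Ops

/-- The checks of the strips. -/
def Ck3 (O : Ops) (reps : List ℕ) : Prop := ∀ a0 ∈ reps, ∀ X2, 0 < X2 → X2 < O.top →
  O.chk3 a0 X2 = true

/-- The checks of the cubes. -/
def Ck4 (O : Ops) (reps : List ℕ) : Prop := ∀ X0 ∈ reps, ∀ X1, 0 < X1 → X1 < O.top →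
  O.orb X0 ≤ O.orb X1 → O.chk4 X0 X1 = true

/-- Some line of a flat is contained in a proper element. -/
def SpLine3 : Prop := ∀ (S : Type) [NC S] (O : Ops) (reps : List ℕ) (ix : S → ℕ) (sf : ℕ → S)
  (F : (Fin 3 → ℤ) → Fin 3 → S) (D : ℕ), NC.Basic S → Enc O reps ix sf → Fl F D → Ck3 O reps →
  Ck4 O reps → ∃ v d, ∃ w : S, w ≠ ⊤ ∧ ((∀ n : ℕ, aa F (v + (n : ℤ) • e d) d ≤ w) ∨
    ∀ n : ℕ, F (v + (n : ℤ) • e d) d ≤ NC.tau^[n] w)

end Pool.Agent.H54.RF
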