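import Pool.Agent.H54.RF.SpecD

/-!
# Project RG (MP_35eb49): checks of the cubes with labels in both directions
-/

set_option autoImplicit false

namespace Pool.Agent.H54.RF

namespace Ops

variable (O : Ops)

/-- the condition for the labels, four types: `u` is the value of the near face, `v` the one of
the far face -/
noncomputable def lbW (Xd Xe Xg ad Re Rg u v : ℕ) : Bool :=
  frc (Nat.sub O.h (O.cs Xd Xe Xg)) fun cu =>
  frc (O.pp ad Xe Re) fun Q => frc (O.pp ad Xg Rg) fun P =>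
  frc (Nat.sub O.h (O.cs (O.kk ad) Q P)) fun cv =>
  frc (Nat.div u 32) fun lu => frc (Nat.div v 32) fun lv =>
  bi (Nat.blt lu O.top) (bi (Nat.blt lv O.top) (
  frc (O.tt (Nat.mod cu O.h) lu) fun wu => frc (O.tt (Nat.mod cv O.h) lv) fun wv =>
  frc (O.tt 1 wu) fun wt => frc (Nat.land u 3) fun t =>
  bi (Nat.beq t 0) (bi (Nat.beq (O.mt ad wu) ad) (Nat.beq (O.mt wv wu) wv) false)
  (bi (Nat.beq t 1) (bi (Nat.beq (O.mt Xd wu) Xd) (Nat.beq (O.mt wv wt) wv) false)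
  (bi (Nat.beq t 2) (frc (O.mt Q P) fun a => bi (Nat.beq (O.mt a wv) a)
    (Nat.beq (O.mt wu wv) wu) false)
  (frc (O.kk ad) fun k => bi (Nat.beq (O.mt k wv) k) (Nat.beq (O.mt wt wv) wt) false)))) false)
  false

/-- forward condition -/
noncomputable def cdW (Xd Xe Xg ad Re Rg u v r : ℕ) : Bool :=
  bi (Nat.beq (rh u) r) (bi (Nat.beq (rh v) r) (O.lbW Xd Xe Xg ad Re Rg u v) false) true

/-- backward condition -/
noncomputable def ceW (Xd Xe Xg ad Re Rg u v r : ℕ) : Bool :=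
  bi (Nat.beq (rh v) r) (bi (Nat.beq (rh u) r) (O.lbW Xd Xe Xg ad Re Rg u v) false) true

/-- the condition for a cube -/
noncomputable def cbW (X0 X1 X2 a0 a1 a2 R0 R1 R2 : ℕ) : Bool :=
  frc (O.nr X0 X1 X2 a1 a2 R0 R1 R2) fun u1 => frc (O.nr X0 X2 X1 a2 a1 R0 R2 R1) fun u2 =>
  frc (O.nr X1 X0 X2 a0 a2 R1 R0 R2) fun u3 => frc (O.nr X1 X2 X0 a2 a0 R1 R2 R0) fun u4 =>
  frc (O.nr X2 X0 X1 a0 a1 R2 R0 R1) fun u5 => frc (O.nr X2 X1 X0 a1 a0 R2 R1 R0) fun u6 =>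
  frc (O.fr X0 X1 X2 a0 R1 R2) fun v1 => frc (O.fr X0 X2 X1 a0 R2 R1) fun v2 =>
  frc (O.fr X1 X0 X2 a1 R0 R2) fun v3 => frc (O.fr X1 X2 X0 a1 R2 R0) fun v4 =>
  frc (O.fr X2 X0 X1 a2 R0 R1) fun v5 => frc (O.fr X2 X1 X0 a2 R1 R0) fun v6 =>
  frc (mn (rh u1) (mn (rh u2) (mn (rh u3) (mn (rh u4) (mn (rh u5) (rh u6)))))) fun ru =>
  frc (mn (rh v1) (mn (rh v2) (mn (rh v3) (mn (rh v4) (mn (rh v5) (rh v6)))))) fun rv =>
  frc (mn ru rv) fun r =>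
  bi (Nat.blt r 31) (bi (Nat.blt (Nat.land r 3) 2)
    (bi (O.cdW X0 X1 X2 a0 R1 R2 u1 v1 r) (bi (O.cdW X0 X2 X1 a0 R2 R1 u2 v2 r)
    (bi (O.cdW X1 X0 X2 a1 R0 R2 u3 v3 r) (bi (O.cdW X1 X2 X0 a1 R2 R0 u4 v4 r)
    (bi (O.cdW X2 X0 X1 a2 R0 R1 u5 v5 r) (O.cdW X2 X1 X0 a2 R1 R0 u6 v6 r) false)
      false) false) false) false)
    (bi (O.ceW X0 X1 X2 a0 R1 R2 u1 v1 r) (bi (O.ceW X0 X2 X1 a0 R2 R1 u2 v2 r)
    (bi (O.ceW X1 X0 X2 a1 R0 R2 u3 v3 r) (bi (O.ceW X1 X2 X0 a1 R2 R0 u4 v4 r)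
    (bi (O.ceW X2 X0 X1 a2 R0 R1 u5 v5 r) (O.ceW X2 X1 X0 a2 R1 R0 u6 v6 r) false)
      false) false) false) false)) false

/-- the conditions for the cubes at the states with given first two elements -/
noncomputable def chk2W (X0 X1 : ℕ) : Bool :=
  frc (O.mt X0 X1) fun a2 => bi (Nat.beq a2 0) true <|
  allR O.top fun X2 => bi (Nat.ble X2 X1) true <| bi (Nat.blt (O.orb X2) (O.orb X0)) true <|
  frc (O.mt X0 X2) fun a1 => bi (Nat.beq a1 0) true <|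
  frc (O.mt X1 X2) fun a0 => bi (Nat.beq a0 0) true <| bi (Nat.beq (O.mt a0 X0) 0) (
    allL (O.cl X0 a1 a2) fun R0 => allL (O.cl X1 a0 a2) fun R1 =>
      bi (O.pc X2 X0 X1 a2 a0 a1 R0 R1) (allL (O.cl X2 a0 a1) fun R2 =>
        bi (O.pc X0 X1 X2 a0 a1 a2 R1 R2) (bi (O.pc X1 X2 X0 a1 a2 a0 R2 R0)
          (O.cbW X0 X1 X2 a0 a1 a2 R0 R1 R2) true) true) true) true

/-- the checks of the cubes for the second elements `lo + 1, …, lo + n` -/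
noncomputable def t2W (X0 lo n : ℕ) : Bool :=
  allR n fun i => frc (Nat.succ (Nat.add lo i)) fun X1 =>
    bi (Nat.blt (O.orb X1) (O.orb X0)) true (O.chk2W X0 X1)

end Ops

/-- The checks of the cubes with four types of labels. -/
def Ck2W (O : Ops) (reps : List ℕ) : Prop := ∀ X0 ∈ reps, ∀ X1, 0 < X1 → X1 < O.top →
  O.orb X0 ≤ O.orb X1 → O.chk2W X0 X1 = true

/-- Some line of a flat is contained in a proper element (labels in both directions). -/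
def SpLineW : Prop := ∀ (S : Type) [NC S] (O : Ops) (reps : List ℕ) (ix : S → ℕ) (sf : ℕ → S)
  (F : (Fin 3 → ℤ) → Fin 3 → S) (D : ℕ), NC.Basic S → Enc O reps ix sf → Fl F D → Ck1 O reps →
  Ck2W O reps → ∃ v d, ∃ w : S, w ≠ ⊤ ∧ ((∀ n : ℕ, aa F (v + (n : ℤ) • e d) d ≤ w) ∨
    ∀ n : ℕ, F (v + (n : ℤ) • e d) d ≤ NC.tau^[n] w)

end Pool.Agent.H54.RF
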