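import Pool.Agent.H54.RG.CcA3

/-!
# Project RG (MP_35eb49): checks of the parabolic subgroups of type A3
-/

set_option autoImplicit false
set_option maxRecDepth 100000
set_option maxHeartbeats 0

namespace Pool.Agent.H54.RG

open Pool.Agent.H54.RF

/-- components -/
noncomputable def cpA3_1 : ℕ := 0xd000c000b000a0008000900070006000200050004000300010000

/-- bounds -/
noncomputable def bdA3_1 : ℕ := 0x100000000000100010000000100000001

theorem kA3_1 : wA3.ckK 6 1 (Ops.g16 cpA3_1) (Ops.g16 bdA3_1) = true := by decide +kernel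

theorem xA3_1 : wA3.ckX 6 3 atA3 1 [] 0 [0] = true := by decide +kernel

/-- components -/
noncomputable def cpA3_7 : ℕ := 0x90003000800030003000700060004000100020005000100010000

/-- bounds -/
noncomputable def bdA3_7 : ℕ := 0x100020007000700070007

theorem kA3_7 : wA3.ckK 6 7 (Ops.g16 cpA3_7) (Ops.g16 bdA3_7) = true := by decide +kernel

theorem xA3_7 : wA3.ckX 6 3 atA3 7 [] 0 [0, 1] = true := by decide +kernel

/-- components -/
noncomputable def cpA3_5 : ℕ := 0xd0006000c000b000a000900080007000500030004000100020000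

/-- bounds -/
noncomputable def bdA3_5 : ℕ := 0x5000000000005000000050005

theorem kA3_5 : wA3.ckK 6 5 (Ops.g16 cpA3_5) (Ops.g16 bdA3_5) = true := by decide +kernel

theorem xA3_5 : wA3.ckX 6 3 atA3 5 [] 0 [1] = true := by decide +kernel

/-- components -/
noncomputable def cpA3_11 : ℕ := 0xd000c000b000a0008000900070006000200050004000300010000

/-- bounds -/
noncomputable def bdA3_11 : ℕ := 0x100030000000100010003000b0003000b

theorem kA3_11 : wA3.ckK 6 11 (Ops.g16 cpA3_11) (Ops.g16 bdA3_11) = true := by decide +kernel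

theorem xA3_11 : wA3.ckX 6 3 atA3 11 [] 0 [0, 2] = true := by decide +kernel

theorem rrA3 : rA3.map pA3 = [1, 7, 5, 11] := by decide +kernel

theorem kkA3 : ∀ J ∈ rA3.map pA3, ∃ cp bd : ℕ → ℕ, (oA3.ren pA3 qA3).ckK 6 J cp bd = true := by
  intro J hJ
  rw [rrA3] at hJ
  simp only [List.mem_cons, List.not_mem_nil, or_false] at hJ
  rcases hJ with rfl | rfl | rfl | rfl
  · exact ⟨_, _, kA3_1⟩
  · exact ⟨_, _, kA3_7⟩
  · exact ⟨_, _, kA3_5⟩
  · exact ⟨_, _, kA3_11⟩

theorem xxA3 : ∀ J ∈ rA3.map pA3, ∃ mv k s, (oA3.ren pA3 qA3).ckX 6 3 atA3 J mv k s = true := by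
  intro J hJ
  rw [rrA3] at hJ
  simp only [List.mem_cons, List.not_mem_nil, or_false] at hJ
  rcases hJ with rfl | rfl | rfl | rfl
  · exact ⟨_, _, _, xA3_1⟩
  · exact ⟨_, _, _, xA3_7⟩
  · exact ⟨_, _, _, xA3_5⟩
  · exact ⟨_, _, _, xA3_11⟩

end Pool.Agent.H54.RG
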