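import Pool.Agent.H54.RG.CcA4

/-!
# Project RG (MP_35eb49): checks of the parabolic subgroups of type A4
-/

set_option autoImplicit false
set_option maxRecDepth 100000
set_option maxHeartbeats 0

namespace Pool.Agent.H54.RG

open Pool.Agent.H54.RF

/-- components -/
noncomputable def cpA4_1 : ℕ := 0x29002800270020002600250024002300220021001f001e0013001d001c0010001b001a00190018000c001700160015001400120011000f000e000d000b000a0007000900080002000600050004000300010000

/-- bounds -/
noncomputable def bdA4_1 : ℕ := 0x100000000000000000000000000000000000000010001000000010000000000010000000100000001000000000001000000010001000100010000000100000001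

theorem kA4_1 : oA4.ckK 10 1 (Ops.g16 cpA4_1) (Ops.g16 bdA4_1) = true := by decide +kernel

theorem xA4_1 : oA4.ckX 10 4 atA4 1 [] 0 [0] = true := by decide +kernel

/-- components -/
noncomputable def cpA4_6 : ℕ := 0x290028002700260025002400230017002200210020001f001e001d001c001b001a00080019001800160015000f001400130012000b00110010000e000d000c0003000a00090007000600050004000100020000

/-- bounds -/
noncomputable def bdA4_6 : ℕ := 0x600000000000000000000000000000006000600000000000600000000000600000006000600000006000000060006

theorem kA4_6 : oA4.ckK 10 6 (Ops.g16 cpA4_6) (Ops.g16 bdA4_6) = true := by decide +kernel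

theorem xA4_6 : oA4.ckX 10 4 atA4 6 [] 0 [1] = true := by decide +kernel

/-- components -/
noncomputable def cpA4_11 : ℕ := 0x29001f002800210027002600250024002300220020001e0015000e001d000c001c001b0011001a000d00190018001700160014001300120010000f000b000a0008000500090002000700060004000300010000

/-- bounds -/
noncomputable def bdA4_11 : ℕ := 0x100000003000000000000000000000003000100010000000100030003000000030001000000030001000b0000000300000001000b0001000b00010003000b0003000b

theorem kA4_11 : oA4.ckK 10 11 (Ops.g16 cpA4_11) (Ops.g16 bdA4_11) = true := by decide +kernel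

theorem xA4_11 : oA4.ckX 10 4 atA4 11 [] 3 [0, 3] = true := by decide +kernel

/-- components -/
noncomputable def cpA4_16 : ℕ := 0x1f001e000e000e001d001c001b000e001a0019001800130003001700030008001600030015000f000c0008000d0014001200110008000c0010000c000b00090002000a00040001000700060005000100010000

/-- bounds -/
noncomputable def bdA4_16 : ℕ := 0x100020000000000010002001000100010000000010002001000100010000100020010001000100010

theorem kA4_16 : oA4.ckK 10 16 (Ops.g16 cpA4_16) (Ops.g16 bdA4_16) = true := by decide +kernel

theorem xA4_16 : oA4.ckX 10 4 atA4 16 [] 0 [0, 1] = true := by decide +kernel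

/-- components -/
noncomputable def cpA4_21 : ℕ := 0x290028002700260025002100240019002300220020001f000f001e0016001d001c0008001b001a001800170010001500140013000b00120011000e000d000c0003000a00090007000600050004000100020000

/-- bounds -/
noncomputable def bdA4_21 : ℕ := 0x4000000000000000000000000000000060000000000040000000400040000000000060004000600040000000600000004001500040006000600040015000400150015

theorem kA4_21 : oA4.ckK 10 21 (Ops.g16 cpA4_21) (Ops.g16 bdA4_21) = true := by decide +kernel

theorem xA4_21 : oA4.ckX 10 4 atA4 21 [] 0 [1, 3] = true := by decide +kernel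

/-- components -/
noncomputable def cpA4_26 : ℕ := 0x210020001f001e000b001d001c000b001b001a000b000f0019000200180017000e000c00160015000600140006000600130002000200100012000a0011000300070009000d0009000900050008000100040000

/-- bounds -/
noncomputable def bdA4_26 : ℕ := 0x50000000000080005000500050006001a001a001a00050006001a001a00080005001a001a001a

theorem kA4_26 : oA4.ckK 10 26 (Ops.g16 cpA4_26) (Ops.g16 bdA4_26) = true := by decide +kernel

theorem xA4_26 : oA4.ckX 10 4 atA4 26 [] 0 [2, 1] = true := by decide +kernel

/-- components -/
noncomputable def cpA4_31 : ℕ := 0x1f001e000e000e001d0019001c000e001b001a001800130003001700030008001600030015000f000c0008000d0014001200110008000c0010000c000b00090002000a00040001000700060005000100010000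

/-- bounds -/
noncomputable def bdA4_31 : ℕ := 0x40000000000000000000100020004000400010002001000100010000400010002001000100010000e000c001f001f001f001f

theorem kA4_31 : oA4.ckK 10 31 (Ops.g16 cpA4_31) (Ops.g16 bdA4_31) = true := by decide +kernel

theorem xA4_31 : oA4.ckX 10 4 atA4 31 [] 0 [0, 1, 3] = true := by decide +kernel

/-- components -/
noncomputable def cpA4_36 : ℕ := 0xf000300030003000e000d00030003000c0003000b000500010005000100030005000100080003000900030003000a000100010003000900030009000100040001000600010001000200070001000100010000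

/-- bounds -/
noncomputable def bdA4_36 : ℕ := 0x1001000030010000b001100110024002400240024

theorem kA4_36 : oA4.ckK 10 36 (Ops.g16 cpA4_36) (Ops.g16 bdA4_36) = true := by decide +kernel

theorem xA4_36 : oA4.ckX 10 4 atA4 36 [] 2 [2, 1, 3] = true := by decide +kernel

theorem kkA4 : ∀ J ∈ rA4, ∃ cp bd : ℕ → ℕ, oA4.ckK 10 J cp bd = true := by
  intro J hJ
  simp only [rA4, List.mem_cons, List.not_mem_nil, or_false] at hJ
  rcases hJ with rfl | rfl | rfl | rfl | rfl | rfl | rfl | rfl
  · exact ⟨_, _, kA4_1⟩
  · exact ⟨_, _, kA4_6⟩
  · exact ⟨_, _, kA4_11⟩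
  · exact ⟨_, _, kA4_16⟩
  · exact ⟨_, _, kA4_21⟩
  · exact ⟨_, _, kA4_26⟩
  · exact ⟨_, _, kA4_31⟩
  · exact ⟨_, _, kA4_36⟩

theorem xxA4 : ∀ J ∈ rA4, ∃ mv k s, oA4.ckX 10 4 atA4 J mv k s = true := by
  intro J hJ
  simp only [rA4, List.mem_cons, List.not_mem_nil, or_false] at hJ
  rcases hJ with rfl | rfl | rfl | rfl | rfl | rfl | rfl | rfl
  · exact ⟨_, _, _, xA4_1⟩
  · exact ⟨_, _, _, xA4_6⟩
  · exact ⟨_, _, _, xA4_11⟩
  · exact ⟨_, _, _, xA4_16⟩
  · exact ⟨_, _, _, xA4_21⟩
  · exact ⟨_, _, _, xA4_26⟩
  · exact ⟨_, _, _, xA4_31⟩
  · exact ⟨_, _, _, xA4_36⟩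

end Pool.Agent.H54.RG
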