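import Pool.Agent.H54.RG.CcB3

/-!
# Project RG (MP_35eb49): checks of the parabolic subgroups of type B3
-/

set_option autoImplicit false
set_option maxRecDepth 100000
set_option maxHeartbeats 0

namespace Pool.Agent.H54.RG

open Pool.Agent.H54.RF

/-- components -/
noncomputable def cpB3_1 : ℕ := 0x130012001100060010000f000e000d000c000b000a000400090008000700020005000300010000

/-- bounds -/
noncomputable def bdB3_1 : ℕ := 0x1000000000001000000010000000100000001

theorem kB3_1 : oB3.ckK 9 1 (Ops.g16 cpB3_1) (Ops.g16 bdB3_1) = true := by decide +kernel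

theorem xB3_1 : oB3.ckX 9 3 atB3 1 [] 0 [2] = true := by decide +kernel

/-- components -/
noncomputable def cpB3_4 : ℕ := 0x13001200110010000f000e000d000c0003000b000a000800090007000600050004000100020000

/-- bounds -/
noncomputable def bdB3_4 : ℕ := 0x400000000000000000004000000040004

theorem kB3_4 : oB3.ckK 9 4 (Ops.g16 cpB3_4) (Ops.g16 bdB3_4) = true := by decide +kernel

theorem xB3_4 : oB3.ckX 9 3 atB3 4 [] 0 [1] = true := by decide +kernel

/-- components -/
noncomputable def cpB3_7 : ℕ := 0x13001200110010000b000f000e000d000c000a0006000900080007000500040003000200010000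

/-- bounds -/
noncomputable def bdB3_7 : ℕ := 0x700000000000000000007000000070000000700070007

theorem kB3_7 : oB3.ckK 9 7 (Ops.g16 cpB3_7) (Ops.g16 bdB3_7) = true := by decide +kernel

theorem xB3_7 : oB3.ckX 9 3 atB3 7 [] 0 [0] = true := by decide +kernel

/-- components -/
noncomputable def cpB3_10 : ℕ := 0x13001200110006000c0010000f000e000d000b00080004000a0009000700020005000300010000

/-- bounds -/
noncomputable def bdB3_10 : ℕ := 0x7000000010000000700000001000000010007000a0007000a

theorem kB3_10 : oB3.ckK 9 10 (Ops.g16 cpB3_10) (Ops.g16 bdB3_10) = true := by decide +kernel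

theorem xB3_10 : oB3.ckX 9 3 atB3 10 [] 0 [2, 0] = true := by decide +kernel

/-- components -/
noncomputable def cpB3_13 : ℕ := 0xd00020002000c0002000b000a0002000900080001000700050003000500060005000500040000

/-- bounds -/
noncomputable def bdB3_13 : ℕ := 0x20007000d00070003000d000d000d

theorem kB3_13 : oB3.ckK 9 13 (Ops.g16 cpB3_13) (Ops.g16 bdB3_13) = true := by decide +kernel

theorem xB3_13 : oB3.ckX 9 3 atB3 13 [] 2 [2, 1] = true := by decide +kernel

/-- components -/
noncomputable def cpB3_16 : ℕ := 0xf000e000d000c0002000b0002000a000200090007000500050008000600050003000100040000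

/-- bounds -/
noncomputable def bdB3_16 : ℕ := 0x70008001000070008001000100010

theorem kB3_16 : oB3.ckK 9 16 (Ops.g16 cpB3_16) (Ops.g16 bdB3_16) = true := by decide +kernel

theorem xB3_16 : oB3.ckX 9 3 atB3 16 [] 0 [0, 1] = true := by decide +kernel

theorem kkB3 : ∀ J ∈ rB3, ∃ cp bd : ℕ → ℕ, oB3.ckK 9 J cp bd = true := by
  intro J hJ
  simp only [rB3, List.mem_cons, List.not_mem_nil, or_false] at hJ
  rcases hJ with rfl | rfl | rfl | rfl | rfl | rfl
  · exact ⟨_, _, kB3_1⟩
  · exact ⟨_, _, kB3_4⟩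
  · exact ⟨_, _, kB3_7⟩
  · exact ⟨_, _, kB3_10⟩
  · exact ⟨_, _, kB3_13⟩
  · exact ⟨_, _, kB3_16⟩

theorem xxB3 : ∀ J ∈ rB3, ∃ mv k s, oB3.ckX 9 3 atB3 J mv k s = true := by
  intro J hJ
  simp only [rB3, List.mem_cons, List.not_mem_nil, or_false] at hJ
  rcases hJ with rfl | rfl | rfl | rfl | rfl | rfl
  · exact ⟨_, _, _, xB3_1⟩
  · exact ⟨_, _, _, xB3_4⟩
  · exact ⟨_, _, _, xB3_7⟩
  · exact ⟨_, _, _, xB3_10⟩
  · exact ⟨_, _, _, xB3_13⟩
  · exact ⟨_, _, _, xB3_16⟩

end Pool.Agent.H54.RG
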