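import Pool.Agent.H54.RG.CcH3

/-!
# Project RG (MP_35eb49): checks of the parabolic subgroups of type H3
-/

set_option autoImplicit false
set_option maxRecDepth 100000
set_option maxHeartbeats 0

namespace Pool.Agent.H54.RG

open Pool.Agent.H54.RF

/-- components -/
noncomputable def cpH3_1 : ℕ := 0x1f001e001d001c001b001a00190018001700160004001500140013001200110010000f000e0007000d000c000b000a00090002000800060005000300010000

/-- bounds -/
noncomputable def bdH3_1 : ℕ := 0x10000000000000000000000010000000000010000000100000001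

theorem kH3_1 : oH3.ckK 15 1 (Ops.g16 cpH3_1) (Ops.g16 bdH3_1) = true := by decide +kernel

theorem xH3_1 : oH3.ckX 15 3 atH3 1 [] 0 [2] = true := by decide +kernel

/-- components -/
noncomputable def cpH3_6 : ℕ := 0x1f001e001d001c001b001a00190018001700160015001400130012000300110010000f000e000c000d000b000a000900080007000600050004000100020000

/-- bounds -/
noncomputable def bdH3_6 : ℕ := 0x6000000000000000000000000000000000006000000060006

theorem kH3_6 : oH3.ckK 15 6 (Ops.g16 cpH3_6) (Ops.g16 bdH3_6) = true := by decide +kernel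

theorem xH3_6 : oH3.ckX 15 3 atH3 6 [] 0 [1] = true := by decide +kernel

/-- components -/
noncomputable def cpH3_11 : ℕ := 0x1f001e001d0009001c001b001a001900180017001600150014001300120011000c00100004000f000e000d000b000a00080007000600050003000200010000

/-- bounds -/
noncomputable def bdH3_11 : ℕ := 0xb00000000000b0000000b00000000000b0000000b000b000b

theorem kH3_11 : oH3.ckK 15 11 (Ops.g16 cpH3_11) (Ops.g16 bdH3_11) = true := by decide +kernel

theorem xH3_11 : oH3.ckX 15 3 atH3 11 [] 0 [0] = true := by decide +kernel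

/-- components -/
noncomputable def cpH3_16 : ℕ := 0x1f001e001d000b001c001b001a001900180017000400160015001400130012000e0011000600080010000f000d000c000a0002000900070005000300010000

/-- bounds -/
noncomputable def bdH3_16 : ℕ := 0x10000000b00000000000b0000000000010000000b00000001000b0010000b0010

theorem kH3_16 : oH3.ckK 15 16 (Ops.g16 cpH3_16) (Ops.g16 bdH3_16) = true := by decide +kernel

theorem xH3_16 : oH3.ckX 15 3 atH3 16 [] 0 [2, 0] = true := by decide +kernel

/-- components -/
noncomputable def cpH3_21 : ℕ := 0x1b001a0002000200190018001700160015001400130012001100100002000f000d00030007000a000a000e000c000b0006000a000900080005000100040000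

/-- bounds -/
noncomputable def bdH3_21 : ℕ := 0xb00000000001500000000000b000c000c000b000c001500150015

theorem kH3_21 : oH3.ckK 15 21 (Ops.g16 cpH3_21) (Ops.g16 bdH3_21) = true := by decide +kernel

theorem xH3_21 : oH3.ckX 15 3 atH3 21 [] 0 [0, 1] = true := by decide +kernel

/-- components -/
noncomputable def cpH3_26 : ℕ := 0x17000200160002001500140002000200130012001100020010000f000e000d0001000c00070009000700030007000b000a0008000700070006000500040000

/-- bounds -/
noncomputable def bdH3_26 : ℕ := 0x4000d0000000d000b001a000d000b000b0005001a001a001a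

theorem kH3_26 : oH3.ckK 15 26 (Ops.g16 cpH3_26) (Ops.g16 bdH3_26) = true := by decide +kernel

theorem xH3_26 : oH3.ckX 15 3 atH3 26 [] 2 [2, 1] = true := by decide +kernel

theorem kkH3 : ∀ J ∈ rH3, ∃ cp bd : ℕ → ℕ, oH3.ckK 15 J cp bd = true := by
  intro J hJ
  simp only [rH3, List.mem_cons, List.not_mem_nil, or_false] at hJ
  rcases hJ with rfl | rfl | rfl | rfl | rfl | rfl
  · exact ⟨_, _, kH3_1⟩
  · exact ⟨_, _, kH3_6⟩
  · exact ⟨_, _, kH3_11⟩
  · exact ⟨_, _, kH3_16⟩
  · exact ⟨_, _, kH3_21⟩
  · exact ⟨_, _, kH3_26⟩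

theorem xxH3 : ∀ J ∈ rH3, ∃ mv k s, oH3.ckX 15 3 atH3 J mv k s = true := by
  intro J hJ
  simp only [rH3, List.mem_cons, List.not_mem_nil, or_false] at hJ
  rcases hJ with rfl | rfl | rfl | rfl | rfl | rfl
  · exact ⟨_, _, _, xH3_1⟩
  · exact ⟨_, _, _, xH3_6⟩
  · exact ⟨_, _, _, xH3_11⟩
  · exact ⟨_, _, _, xH3_16⟩
  · exact ⟨_, _, _, xH3_21⟩
  · exact ⟨_, _, _, xH3_26⟩

end Pool.Agent.H54.RG
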