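import Pool.Agent.H54.RG.Chk3
import Pool.Agent.H54.RF.CoreF
import Pool.Agent.H54.RF.Inv
import Pool.Agent.H54.RF.V2

/-!
# Project RG (MP_35eb49): soundness of the faster checks
-/

set_option autoImplicit false

namespace Pool.Agent.H54.RF

open NC

/-! ### the recursors -/

private theorem l3_fll (l : List ℕ) (f : ℕ → Bool) (x : ℕ) :
    x ∈ Ops.fll l f ↔ x ∈ l ∧ f x = true := by
  induction l with
  | nil => simp [Ops.fll]
  | cons a l ih =>
    have h : Ops.fll (a :: l) f = Bool.rec (motive := fun _ => List ℕ) (Ops.fll l f)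
      (a :: Ops.fll l f) (f a) := rfl
    rw [h]
    cases ha : f a
    · show x ∈ Ops.fll l f ↔ _
      rw [ih, List.mem_cons]
      constructor
      · rintro ⟨h1, h2⟩
        exact ⟨Or.inr h1, h2⟩
      · rintro ⟨h1 | h1, h2⟩
        · rw [h1, ha] at h2
          exact absurd h2 (by decide)
        · exact ⟨h1, h2⟩
    · show x ∈ a :: Ops.fll l f ↔ _
      rw [List.mem_cons, ih, List.mem_cons]
      constructor
      · rintro (h1 | ⟨h1, h2⟩)
        · exact ⟨Or.inl h1, by rw [h1]; exact ha⟩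
        · exact ⟨Or.inr h1, h2⟩
      · rintro ⟨h1 | h1, h2⟩
        · exact Or.inl h1
        · exact Or.inr ⟨h1, h2⟩

private theorem l3_nil {l : List ℕ} {x : ℕ} (h : x ∈ l) : Ops.nil l = false := by
  cases l with
  | nil => exact absurd h (by simp)
  | cons a l => rfl

private theorem l3_mx2 (a b : ℕ) : a ≤ Ops.mx2 a b ∧ b ≤ Ops.mx2 a b := by
  unfold Ops.mx2
  rw [d5_frc, d5_frc]
  cases h : Nat.ble a b
  · show a ≤ a ∧ b ≤ a
    exact ⟨le_rfl, ((d5_blef _ _).1 h).le⟩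
  · show a ≤ b ∧ b ≤ b
    exact ⟨(d5_ble _ _).1 h, le_rfl⟩

private theorem l3_mxl (l : List ℕ) (f : ℕ → ℕ) (x : ℕ) (hx : x ∈ l) : f x ≤ Ops.mxl l f := by
  induction l with
  | nil => exact absurd hx (by simp)
  | cons a l ih =>
    have h : Ops.mxl (a :: l) f = Ops.mx2 (f a) (Ops.mxl l f) := rfl
    rw [h]
    rcases List.mem_cons.1 hx with h1 | h1
    · rw [h1]
      exact (l3_mx2 _ _).1
    · exact (ih h1).trans (l3_mx2 _ _).2

section

variable {S : Type} [NC S] {O : Ops} {reps : List ℕ} {ix : S → ℕ} {sf : ℕ → S}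
  {F : (Fin 3 → ℤ) → Fin 3 → S} {D : ℕ}

private theorem l3_th {d f g : Fin 3} (h : Di d f g) : th d g = f := by
  obtain ⟨h1, h2, h3⟩ := h
  revert d f g
  decide

/-! ### the strips -/

private theorem l3_key (hC : SpCore) (hB : NC.Basic S) (hE : Enc O reps ix sf) (hF : Fl F D)
    (hk : Ck3 O reps) {v : Fin 3 → ℤ} {d f g : Fin 3} (hd : Di d f g)
    (hr : ix (aa F v d) ∈ reps) :
    nod O ix F (v + e d) d f g + nod O ix F v d f g % 2 ≤ nod O ix F v d f g := by
  have hd1 : Di f d g := d5_swap (d5_rot hd)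
  have hd2 : Di g d f := d5_rot (d5_rot hd)
  have hg0 : 0 < ix (F v g) := Nat.pos_of_ne_zero (d5_ne0 hE (d5_nebo hB hF v g))
  have hgt : ix (F v g) < O.top := d5_lt hE (hF.ne_top v g)
  have h := hk _ hr _ hg0 hgt
  have ht0 : O.mt (ix (aa F v d)) (ix (F v g)) = ix (aa F v d) := by
    rw [hE.mt, d5_aa v hd, inf_assoc, inf_idem]
  unfold Ops.chk3 at h
  rw [ht0, d5_bi] at h
  have h := h.1 ((d5_beq _ _).2 rfl)
  rw [d5_frc, hE.kk, ← hF.F_step, d5_allL] at h
  have hC1 := hC S O reps ix sf F D hB hE hF v d f g hd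
  have hC2 := hC S O reps ix sf F D hB hE hF v f d g hd1
  have hcomm : v + e f + e d = v + e d + e f := by abel
  rw [hcomm] at hC2
  have hco := hC1.2
  unfold Ops.core at hco
  rw [d5_and] at hco
  have hRt : ix (F (v + e d + e f) g) < O.top := d5_lt hE (hF.ne_top _ g)
  have h := h _ ((d5_fl _ _ _).2 ⟨hRt, hco.1⟩)
  rw [d5_frc, hC2.1, d5_allL] at h
  have h := h (ix (F v f)) ((d5_fl _ _ _).2 ⟨d5_lt hE (hF.ne_top v f), by
    rw [d5_beq, hE.mt, d5_aa v hd]⟩)
  have hb : F (v + e d) d ⊓ F v f = aa F (v + e d) g := by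
    rw [hF.a_step v d g hd.2.1, l3_th hd, hF.F_step]
    rfl
  rw [d5_frc, hE.mt, hb, d5_frc, d5_or] at h
  have hle : nod O ix F (v + e d) d f g ≤ O.mq (ix (F (v + e d) d)) (ix (aa F (v + e d) g))
      (ix (F (v + e d) g)) (ix (F (v + e d + e f) g)) := by
    have hq : ix (F (v + e d) f) ∈ O.ql (ix (F (v + e d) d)) (ix (aa F (v + e d) g)) := by
      refine (d5_fl _ _ _).2 ⟨d5_lt hE (hF.ne_top _ f), ?_⟩
      rw [hE.mt, ← d5_aa (v + e d) hd2, d5_beq]
    have h1 := l3_mxl _ (fun q => Bool.rec (motive := fun _ => ℕ)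
      (O.phi (ix (F (v + e d) d)) q (ix (F (v + e d) g)) (ix (F (v + e d + e f) g))) 0
      (Nat.beq (O.mt q (ix (F (v + e d) g))) 0)) _ hq
    have h2 : Nat.beq (O.mt (ix (F (v + e d) f)) (ix (F (v + e d) g))) 0 = false := by
      rw [hE.mt, ← d5_aa (v + e d) hd, d5_beqf]
      exact d5_ne0 hE (hF.st_ne _ d)
    simp only [h2] at h1
    exact h1
  rcases h with h | h
  · rw [d5_beq] at h
    rw [h] at hle
    have := Nat.mod_le (nod O ix F v d f g) 2
    omega
  · rw [d5_allL] at h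
    have ha1 : O.mt (ix (F v d)) (ix (F v g)) = ix (aa F v f) := by
      rw [hE.mt, ← d5_aa v hd1]
    have h := h (ix (F v d)) (by
      rw [l3_fll, d5_fl]
      refine ⟨⟨d5_lt hE (hF.ne_top v d), ?_⟩, ?_⟩
      · rw [d5_and, hE.mt, hF.tri, hE.bo, d5_beq]
        refine ⟨rfl, ?_⟩
        rw [ha1, d5_bi]
        exact ⟨fun h3 => absurd ((d5_beq _ _).1 h3) (d5_ne0 hE (hF.st_ne _ _)), fun _ => rfl⟩
      · rw [ha1]
        exact hco.2)
    have ha2 : O.mt (ix (F v d)) (ix (F v f)) = ix (aa F v g) := by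
      rw [hE.mt, ← d5_aa v hd2]
    rw [d5_or, ha2, d5_beq] at h
    rcases h with h | h
    · exact absurd h (d5_ne0 hE (hF.st_ne _ _))
    · rw [ha1, d5_frc, hC1.1, d5_frc, d5_ble, d5_one] at h
      have h3 : nod O ix F v d f g = O.phi (ix (F v d)) (ix (F v f)) (ix (F v g))
        (ix (F (v + e f) g)) := rfl
      rw [← h3] at h
      have h4 : O.mq (ix (F (v + e d) d)) (ix (aa F (v + e d) g))
        (ix (F (v + e d) g)) (ix (F (v + e d + e f) g)) + nod O ix F v d f g % 2 ≤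
        nod O ix F v d f g := h
      omega

private theorem l3_ndiag (hb : NC.Basic S) (hF : Fl F D) (v : Fin 3 → ℤ) (d : Fin 3) (k : ℕ) :
    aa F (v + (k : ℤ) • 1) d = tau^[k] (aa F v d) := by
  unfold aa
  rw [d5_diag hF, d5_diag hF]
  induction k with
  | zero => rfl
  | succ k ih =>
    rw [Function.iterate_succ_apply', Function.iterate_succ_apply',
      Function.iterate_succ_apply', ← ih, hb.tau_inf]

/-- The potentials are constant and even. -/
private theorem l3_v1 (hC : SpCore) (hI : SpInv) (hB : NC.Basic S) (hE : Enc O reps ix sf)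
    (hF : Fl F D) (hk : Ck3 O reps) (v : Fin 3 → ℤ) (d f g : Fin 3) (hd : Di d f g) :
    nod O ix F (v + e d) d f g = nod O ix F v d f g ∧ nod O ix F v d f g % 2 = 0 := by
  -- the inequality
  have hle2 : ∀ v d f g, Di d f g →
      nod O ix F (v + e d) d f g + nod O ix F v d f g % 2 ≤ nod O ix F v d f g := by
    intro v d f g hd
    have hnt : aa F v d ≠ ⊤ := by
      intro h
      apply hF.ne_top v f
      rw [d5_aa v hd] at h
      exact top_le_iff.1 (h ▸ inf_le_left)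
    obtain ⟨k, _, hr⟩ := hE.rep (aa F v d) (hF.st_ne v d) hnt
    rw [← l3_ndiag hB hF] at hr
    have h1 := l3_key hC hB hE hF hk hd hr
    have h2 := (hI S O reps ix sf F D hB hE hF k v d f g hd).1
    have h3 := (hI S O reps ix sf F D hB hE hF k (v + e d) d f g hd).1
    have h4 : v + e d + (k : ℤ) • (1 : Fin 3 → ℤ) = v + (k : ℤ) • 1 + e d := by abel
    rw [h4] at h3
    rw [← h2, ← h3]
    exact h1
  have hle : ∀ v d f g, Di d f g → nod O ix F (v + e d) d f g ≤ nod O ix F v d f g :=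
    fun v d f g hd => (Nat.le_add_right _ _).trans (hle2 v d f g hd)
  have heq : nod O ix F (v + e d) d f g = nod O ix F v d f g := by
    refine le_antisymm (hle v d f g hd) ?_
    -- iterates
    have hit : ∀ n : ℕ, nod O ix F (v + e d + (n : ℤ) • e d) d f g ≤
        nod O ix F (v + e d) d f g := by
      intro n
      induction n with
      | zero => simp
      | succ n ih =>
        have h1 := hle (v + e d + (n : ℤ) • e d) d f g hd
        have h2 : v + e d + ((n + 1 : ℕ) : ℤ) • e d = v + e d + (n : ℤ) • e d + e d := by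
          push_cast
          rw [add_smul, one_smul]
          abel
        rw [h2]
        exact h1.trans ih
    obtain ⟨n, hn⟩ : ∃ n, D = n + 1 := ⟨D - 1, by have := hF.pos; omega⟩
    have h1 := hit n
    have h2 : v + e d + (n : ℤ) • e d = v + (D : ℤ) • e d := by
      rw [hn]
      push_cast
      rw [add_smul, one_smul]
      abel
    rw [h2] at h1
    have h3 : nod O ix F (v + (D : ℤ) • e d) d f g = nod O ix F v d f g := by
      unfold nod
      have h4 : v + (D : ℤ) • e d + e f = v + e f + (D : ℤ) • e d := by abel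
      rw [h4, hF.per, hF.per]
    rw [h3] at h1
    exact h1
  refine ⟨heq, ?_⟩
  have h1 := hle2 v d f g hd
  rw [heq] at h1
  omega

/-! ### the cubes -/

private theorem l3_lv (hb : NC.Basic S) (hE : Enc O reps ix sf) (hF : Fl F D) (hC : SpCore)
    (hV : ∀ v d f g, Di d f g → nod O ix F v d f g % 2 = 0)
    (v : Fin 3 → ℤ) {d f g : Fin 3} (h : Di d f g) :
    O.lv (ix (F v d)) (ix (F v f)) (ix (F v g)) (ix (aa F v f)) (d5_R ix F v g) = true := by
  unfold Ops.lv
  rw [d5_p hb hE hF hC v h, d5_one, d5_beq]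
  exact hV v d f g h

private theorem l3_cll (hb : NC.Basic S) (hE : Enc O reps ix sf) (hF : Fl F D) (hC : SpCore)
    (hV : ∀ v d f g, Di d f g → nod O ix F v d f g % 2 = 0)
    (v : Fin 3 → ℤ) {d f g : Fin 3} (h : Di d f g) :
    d5_R ix F v g ∈ O.cll (ix (F v d)) (ix (F v f)) (ix (F v g)) (ix (aa F v d))
      (ix (aa F v f)) := by
  unfold Ops.cll
  rw [l3_fll, d5_and]
  exact ⟨d5_mem hb hE hF hC v h, l3_lv hb hE hF hC hV v h,
    l3_lv hb hE hF hC hV v (d5_swap (d5_rot h))⟩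

/-- the check of the cube at `v` -/
private theorem l3_chk (hb : NC.Basic S) (hE : Enc O reps ix sf) (hF : Fl F D) (hC : SpCore)
    (hV : ∀ v d f g, Di d f g → nod O ix F (v + e d) d f g = nod O ix F v d f g)
    (hV2 : ∀ v d f g, Di d f g → nod O ix F v d f g % 2 = 0)
    (v : Fin 3 → ℤ) {i j l : Fin 3} (h : Di i j l) (hlt : ix (F v j) < ix (F v l))
    (ho : O.orb (ix (F v i)) ≤ O.orb (ix (F v l)))
    (hk : O.chk4 (ix (F v i)) (ix (F v j)) = true) :
    O.cb (ix (F v i)) (ix (F v j)) (ix (F v l)) (ix (aa F v i)) (ix (aa F v j))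
      (ix (aa F v l)) (d5_R ix F v i) (d5_R ix F v j) (d5_R ix F v l) = true := by
  have h1 : Di i j l := h
  have h2 : Di i l j := d5_swap h
  have h4 : Di j l i := d5_rot h
  have h3 : Di j i l := d5_swap h4
  have h5 : Di l i j := d5_rot h4
  have h6 : Di l j i := d5_swap h5
  unfold Ops.chk4 at hk
  rw [d5_frc, hE.mt, ← d5_aa v h5, d5_bi] at hk
  have k1 := hk.2 ((d5_beqf _ _).2 (d5_ne0 hE (hF.st_ne _ _)))
  rw [d5_allR] at k1
  have k2 := k1 (ix (F v l)) (d5_lt hE (hF.ne_top _ _))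
  rw [d5_bi] at k2
  have k3 := k2.2 ((d5_blef _ _).2 hlt)
  rw [d5_bi] at k3
  have k4 := k3.2 ((d5_bltf _ _).2 ho)
  rw [d5_frc, hE.mt, ← d5_aa v h3, d5_bi] at k4
  have k5 := k4.2 ((d5_beqf _ _).2 (d5_ne0 hE (hF.st_ne _ _)))
  rw [d5_frc, hE.mt, ← d5_aa v h1, d5_bi] at k5
  have k6 := k5.2 ((d5_beqf _ _).2 (d5_ne0 hE (hF.st_ne _ _)))
  rw [hE.mt, hF.tri, hE.bo, d5_bi] at k6
  have k7 := k6.1 rfl
  rw [d5_bi] at k7
  have k8 := k7.2 (l3_nil (l3_cll hb hE hF hC hV2 v h1))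
  rw [d5_bi] at k8
  have k9 := k8.2 (l3_nil (l3_cll hb hE hF hC hV2 v h2))
  rw [d5_allL] at k9
  have k10 := k9 _ (l3_cll hb hE hF hC hV2 v h4)
  rw [d5_frc, d5_p hb hE hF hC v (f := l) (g := i) h4, d5_allL] at k10
  have k11 := k10 (d5_R ix F v j) (by
    rw [l3_fll]
    exact ⟨l3_cll hb hE hF hC hV2 v h2, d5_pc1 hb hE hF hC hV v h5⟩)
  rw [d5_frc, d5_p hb hE hF hC v (f := l) (g := j) h2, d5_bi] at k11
  have k12 := k11.1 (d5_pc1 hb hE hF hC hV v h6)
  rw [d5_allL] at k12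
  have k13 := k12 (d5_R ix F v l) (by
    unfold Ops.l2
    rw [l3_fll]
    refine ⟨?_, ?_⟩
    · rw [d5_frc, l3_fll, d5_p hb hE hF hC v (f := i) (g := j) h5]
      exact ⟨l3_cll hb hE hF hC hV2 v h1, d5_pc1 hb hE hF hC hV v h1⟩
    · rw [d5_frc, d5_p hb hE hF hC v (f := i) (g := l) h3]
      exact d5_pc1 hb hE hF hC hV v h2)
  rw [d5_bi] at k13
  exact k13.1 (d5_pc hb hE hF hC hV v h4)

private theorem l3_main (hC : SpCore) (hI : SpInv) (hb : NC.Basic S) (hE : Enc O reps ix sf)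
    (hF : Fl F D) (hk1 : Ck3 O reps) (hk2 : Ck4 O reps) (r : ℕ)
    (hr : ∀ v d f g, Di d f g → r ≤ fac O ix F v d f g % 32) (v : Fin 3 → ℤ) (d f g : Fin 3)
    (hd : Di d f g) (hv : fac O ix F v d f g % 32 = r) :
    fac O ix F (v + e d) d f g % 32 = r ∧ Lab O ix F v d f g := by
  have hV' := fun v d f g hd => (l3_v1 hC hI hb hE hF hk1 v d f g hd).1
  have hV2 := fun v d f g hd => (l3_v1 hC hI hb hE hF hk1 v d f g hd).2
  have hI' := hI S O reps ix sf F D hb hE hF
  -- a direction with minimal orbit, and the two others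
  obtain ⟨i, j, l, h, hj, hl, -⟩ : ∃ i j l : Fin 3, Di i j l ∧
      O.orb (ix (F v i)) ≤ O.orb (ix (F v j)) ∧ O.orb (ix (F v i)) ≤ O.orb (ix (F v l)) ∧
      True := by
    obtain ⟨i, -, hi⟩ := Finset.exists_min_image (Finset.univ : Finset (Fin 3))
      (fun i => O.orb (ix (F v i))) ⟨0, Finset.mem_univ 0⟩
    exact ⟨i, i + 1, i + 2, d5_123 i, hi _ (Finset.mem_univ _), hi _ (Finset.mem_univ _),
      trivial⟩
  obtain ⟨k, hk, hrep⟩ := hE.rep (F v i) (d5_nebo hb hF v i) (hF.ne_top v i)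
  have hF' : ∀ x, F (v + (k : ℤ) • 1) x = tau^[k] (F v x) := fun x => d5_diag hF v x k
  rw [← hF'] at hrep
  have hj' : O.orb (ix (F (v + (k : ℤ) • 1) i)) ≤ O.orb (ix (F (v + (k : ℤ) • 1) j)) := by
    rw [hF', hF', d5_orb hE, d5_orb hE]
    exact hj
  have hl' : O.orb (ix (F (v + (k : ℤ) • 1) i)) ≤ O.orb (ix (F (v + (k : ℤ) • 1) l)) := by
    rw [hF', hF', d5_orb hE, d5_orb hE]
    exact hl
  have hvk : fac O ix F (v + (k : ℤ) • 1) d f g % 32 = r := by
    rw [(hI' k v d f g hd).2.1]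
    exact hv
  obtain ⟨w, hw⟩ : ∃ w, w = v + (k : ℤ) • (1 : Fin 3 → ℤ) := ⟨_, rfl⟩
  have hpos : ∀ x, 0 < ix (F w x) := fun x => Nat.pos_of_ne_zero (d5_ne0 hE (d5_nebo hb hF w x))
  have htop : ∀ x, ix (F w x) < O.top := fun x => d5_lt hE (hF.ne_top w x)
  rw [← hw] at hrep hj' hl' hvk
  have key : fac O ix F (w + e d) d f g % 32 = r ∧ Lab O ix F w d f g := by
    rcases lt_trichotomy (ix (F w j)) (ix (F w l)) with h1 | h1 | h1
    · exact d5_cb hb hE hF hC hr w h (l3_chk hb hE hF hC hV' hV2 w h h1 hl'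
        (hk2 _ hrep _ (hpos j) (htop j) hj')) hd hvk
    · exact absurd (d5_ix hE h1) (d5_dist hF w h)
    · exact d5_cb hb hE hF hC hr w (d5_swap h) (l3_chk hb hE hF hC hV' hV2 w (d5_swap h) h1 hj'
        (hk2 _ hrep _ (hpos l) (htop l) hl')) hd hvk
  refine ⟨?_, ?_⟩
  · have h3 := key.1
    rw [hw, add_right_comm, (hI' k (v + e d) d f g hd).2.1] at h3
    exact h3
  · have h3 := key.2
    rw [hw] at h3
    exact (hI' k v d f g hd).2.2 h3

/-! ### the line -/

private theorem l3_iter_top (hb : NC.Basic S) (c : ℕ) (s : S) (h : tau^[c] s = ⊤) : s = ⊤ := by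
  induction c with
  | zero => exact h
  | succ c ih =>
    apply ih
    rw [Function.iterate_succ_apply'] at h
    exact hb.tau_bij.1 (h.trans hb.tau_top.symm)

private theorem l3_le (hE : Enc O reps ix sf) {s t : S} (h : O.mt (ix s) (ix t) = ix s) :
    s ≤ t := by
  rw [hE.mt] at h
  have h2 : s ⊓ t = s := by
    rw [← hE.sf_ix (s ⊓ t), h, hE.sf_ix]
  exact inf_eq_left.1 h2

private theorem l3_lab (hb : NC.Basic S) (hE : Enc O reps ix sf) (F : (Fin 3 → ℤ) → Fin 3 → S)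
    (v : Fin 3 → ℤ) (d f g : Fin 3) (h : fac O ix F v d f g / 32 < O.top) :
    ∃ w : S, w ≠ ⊤ ∧ lab O ix F v d f g = ix w := by
  refine ⟨tau^[(O.h - O.cs (ix (F v d)) (ix (F v f)) (ix (F v g))) % O.h]
    (sf (fac O ix F v d f g / 32)), ?_, ?_⟩
  · intro h2
    have h3 := l3_iter_top hb _ _ h2
    have h4 := hE.ix_sf _ h.le
    rw [h3, hE.top] at h4
    omega
  · rw [← hE.tt _ _ (Nat.mod_lt _ hE.h_pos), hE.ix_sf _ h.le]
    rfl

private theorem l3_line (hb : NC.Basic S) (hE : Enc O reps ix sf)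
    (F : (Fin 3 → ℤ) → Fin 3 → S) (v : Fin 3 → ℤ) (d f g : Fin 3) (r : ℕ)
    (h : ∀ n : ℕ, fac O ix F (v + (n : ℤ) • e d) d f g % 32 = r ∧
      Lab O ix F (v + (n : ℤ) • e d) d f g) :
    ∃ w : S, w ≠ ⊤ ∧ ((∀ n : ℕ, aa F (v + (n : ℤ) • e d) d ≤ w) ∨
      ∀ n : ℕ, F (v + (n : ℤ) • e d) d ≤ tau^[n] w) := by
  have hs : ∀ n : ℕ, v + ((n + 1 : ℕ) : ℤ) • e d = v + (n : ℤ) • e d + e d := by
    intro n
    rw [Nat.cast_add, Nat.cast_one, add_smul, one_smul, add_assoc]
  have hw : ∀ n : ℕ, ∃ w : S, w ≠ ⊤ ∧ lab O ix F (v + (n : ℤ) • e d) d f g = ix w :=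
    fun n => l3_lab hb hE F _ d f g (h n).2.1
  choose w hw1 hw2 using hw
  have hmod : ∀ n : ℕ, fac O ix F (v + (n : ℤ) • e d) d f g % 2 = r % 2 := by
    intro n
    have := (h n).1
    omega
  refine ⟨w 0, hw1 0, ?_⟩
  rcases Nat.mod_two_eq_zero_or_one r with hr | hr
  · left
    have h2 : ∀ n : ℕ, aa F (v + (n : ℤ) • e d) d ≤ w n ∧ w (n + 1) ≤ w n := by
      intro n
      obtain ⟨h3, h4⟩ := (h n).2.2.2.1 ((hmod n).trans hr)
      constructor
      · apply l3_le hE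
        rw [hw2 n] at h3
        exact h3
      · apply l3_le hE
        rw [← hs n, hw2 n, hw2 (n + 1)] at h4
        exact h4
    have h3 : ∀ n : ℕ, w n ≤ w 0 := by
      intro n
      induction n with
      | zero => exact le_rfl
      | succ n ih => exact (h2 n).2.trans ih
    intro n
    exact (h2 n).1.trans (h3 n)
  · right
    have h2 : ∀ n : ℕ, F (v + (n : ℤ) • e d) d ≤ w n ∧ w (n + 1) ≤ tau (w n) := by
      intro n
      obtain ⟨h3, h4⟩ := (h n).2.2.2.2 ((hmod n).trans hr)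
      constructor
      · apply l3_le hE
        rw [hw2 n] at h3
        exact h3
      · apply l3_le hE
        rw [← hs n, hw2 n, hw2 (n + 1), hE.t1] at h4
        exact h4
    have h3 : ∀ n : ℕ, w n ≤ tau^[n] (w 0) := by
      intro n
      induction n with
      | zero => exact le_rfl
      | succ n ih =>
        rw [Function.iterate_succ_apply']
        exact (h2 n).2.trans ((hb.tau_le _ _).2 ih)
    intro n
    exact (h2 n).1.trans (h3 n)

end

open Classical in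
/-- **Row RG-L3.** -/
theorem sp_line3 : SpLine3 := by
  intro S _ O reps ix sf F D hb hE hF hc1 hc2
  have hne : ∃ r : ℕ, ∃ v d f g, Di d f g ∧ fac O ix F v d f g % 32 = r :=
    ⟨_, 0, 0, 1, 2, ⟨by decide, by decide, by decide⟩, rfl⟩
  obtain ⟨v, d, f, g, hD, hr⟩ := Nat.find_spec hne
  have hmin : ∀ v d f g, Di d f g → Nat.find hne ≤ fac O ix F v d f g % 32 :=
    fun v d f g hD => Nat.find_min' hne ⟨v, d, f, g, hD, rfl⟩
  have hall : ∀ n : ℕ, fac O ix F (v + (n : ℤ) • e d) d f g % 32 = Nat.find hne := by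
    intro n
    induction n with
    | zero =>
      rw [Nat.cast_zero, zero_smul, add_zero]
      exact hr
    | succ n ih =>
      have h2 := (l3_main sp_core sp_inv hb hE hF hc1 hc2 _ hmin _ d f g hD ih).1
      rw [Nat.cast_add, Nat.cast_one, add_smul, one_smul, ← add_assoc]
      exact h2
  obtain ⟨w, hw⟩ := l3_line hb hE F v d f g (Nat.find hne) fun n =>
    ⟨hall n, (l3_main sp_core sp_inv hb hE hF hc1 hc2 _ hmin _ d f g hD (hall n)).2⟩
  exact ⟨v, d, w, hw⟩

end Pool.Agent.H54.RF
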