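import Pool.Agent.H54.RG.ChkW
import Pool.Agent.H54.RF.CoreF
import Pool.Agent.H54.RF.Inv
import Pool.Agent.H54.RF.V1
import Pool.Agent.H54.RF.V2

/-!
# Project RG (MP_35eb49): soundness of the checks with labels in both directions
-/

set_option autoImplicit false

namespace Pool.Agent.H54.RF

open NC

private theorem lw_three (x : ℕ) : Nat.land x 3 = x % 4 := Nat.and_two_pow_sub_one_eq_mod x 2

private theorem lw_min6 {a b c d f g r : ℕ}
    (h : a = r ∨ b = r ∨ c = r ∨ d = r ∨ f = r ∨ g = r) :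
    min a (min b (min c (min d (min f g)))) ≤ r := by
  simp only [min_le_iff]
  rcases h with h | h | h | h | h | h
  · exact Or.inl h.le
  · exact Or.inr (Or.inl h.le)
  · exact Or.inr (Or.inr (Or.inl h.le))
  · exact Or.inr (Or.inr (Or.inr (Or.inl h.le)))
  · exact Or.inr (Or.inr (Or.inr (Or.inr (Or.inl h.le))))
  · exact Or.inr (Or.inr (Or.inr (Or.inr (Or.inr h.le))))

private theorem lw_min12 {a b c d f g a' b' c' d' f' g' r : ℕ}
    (h1 : r ≤ a) (h2 : r ≤ b) (h3 : r ≤ c) (h4 : r ≤ d) (h5 : r ≤ f) (h6 : r ≤ g)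
    (k1 : r ≤ a') (k2 : r ≤ b') (k3 : r ≤ c') (k4 : r ≤ d') (k5 : r ≤ f') (k6 : r ≤ g')
    (h : (a = r ∨ b = r ∨ c = r ∨ d = r ∨ f = r ∨ g = r) ∨
      (a' = r ∨ b' = r ∨ c' = r ∨ d' = r ∨ f' = r ∨ g' = r)) :
    min (min a (min b (min c (min d (min f g)))))
      (min a' (min b' (min c' (min d' (min f' g'))))) = r := by
  refine le_antisymm ?_ (le_min
    (le_min h1 (le_min h2 (le_min h3 (le_min h4 (le_min h5 h6)))))
    (le_min k1 (le_min k2 (le_min k3 (le_min k4 (le_min k5 k6))))))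
  rcases h with h | h
  · exact (min_le_left _ _).trans (lw_min6 h)
  · exact (min_le_right _ _).trans (lw_min6 h)

section

variable {S : Type} [NC S]

/-- The condition for the labels, four types. -/
private def LabW (O : Ops) (ix : S → ℕ) (F : (Fin 3 → ℤ) → Fin 3 → S) (v : Fin 3 → ℤ)
    (d f g : Fin 3) : Prop :=
  fac O ix F v d f g / 32 < O.top ∧ fac O ix F (v + e d) d f g / 32 < O.top ∧
  (fac O ix F v d f g % 4 = 0 → O.mt (ix (aa F v d)) (lab O ix F v d f g) = ix (aa F v d) ∧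
    O.mt (lab O ix F (v + e d) d f g) (lab O ix F v d f g) = lab O ix F (v + e d) d f g) ∧
  (fac O ix F v d f g % 4 = 1 → O.mt (ix (F v d)) (lab O ix F v d f g) = ix (F v d) ∧
    O.mt (lab O ix F (v + e d) d f g) (O.tt 1 (lab O ix F v d f g)) =
      lab O ix F (v + e d) d f g) ∧
  (fac O ix F v d f g % 4 = 2 →
    O.mt (ix (aa F (v + e d) d)) (lab O ix F (v + e d) d f g) = ix (aa F (v + e d) d) ∧
    O.mt (lab O ix F v d f g) (lab O ix F (v + e d) d f g) = lab O ix F v d f g) ∧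
  (fac O ix F v d f g % 4 = 3 →
    O.mt (ix (F (v + e d) d)) (lab O ix F (v + e d) d f g) = ix (F (v + e d) d) ∧
    O.mt (O.tt 1 (lab O ix F v d f g)) (lab O ix F (v + e d) d f g) =
      O.tt 1 (lab O ix F v d f g))

variable {O : Ops} {reps : List ℕ} {ix : S → ℕ} {sf : ℕ → S}
  {F : (Fin 3 → ℤ) → Fin 3 → S} {D : ℕ}

/-! ### the check of a cube -/

private theorem lw_lb (hb : NC.Basic S) (hE : Enc O reps ix sf) (hF : Fl F D) (hC : SpCore)
    (v : Fin 3 → ℤ) {d f g : Fin 3} (h : Di d f g)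
    (hl : O.lbW (ix (F v d)) (ix (F v f)) (ix (F v g)) (ix (aa F v d)) (d5_R ix F v f)
      (d5_R ix F v g) (fac O ix F v d f g) (fac O ix F (v + e d) d f g) = true) :
    LabW O ix F v d f g := by
  have h1 : Di g d f := d5_rot (d5_rot h)
  have h2 : Di f d g := d5_swap (d5_rot h)
  unfold Ops.lbW at hl
  simp only [d5_frc] at hl
  rw [d5_p hb hE hF hC v h1, d5_p hb hE hF hC v h2, hE.kk, ← hF.F_step, d5_and, d5_blt,
    d5_and, d5_blt, lw_three] at hl
  obtain ⟨hl1, hl0, hl2⟩ := hl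
  refine ⟨hl1, hl0, fun hp => ?_, fun hp => ?_, fun hp => ?_, fun hp => ?_⟩
  · have hl3 := ((d5_bi _ _ _).1 hl2).1 ((d5_beq _ _).2 hp)
    rw [d5_and, d5_beq, d5_beq] at hl3
    exact hl3
  · have hl3 := ((d5_bi _ _ _).1 hl2).2 ((d5_beqf _ _).2 (by omega))
    have hl4 := ((d5_bi _ _ _).1 hl3).1 ((d5_beq _ _).2 hp)
    rw [d5_and, d5_beq, d5_beq] at hl4
    exact hl4
  · have hl3 := ((d5_bi _ _ _).1 hl2).2 ((d5_beqf _ _).2 (by omega))
    have hl4 := ((d5_bi _ _ _).1 hl3).2 ((d5_beqf _ _).2 (by omega))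
    have hl5 := ((d5_bi _ _ _).1 hl4).1 ((d5_beq _ _).2 hp)
    rw [hE.mt (F (v + e d) f), ← d5_aa (v + e d) h, d5_and, d5_beq, d5_beq] at hl5
    exact hl5
  · have hl3 := ((d5_bi _ _ _).1 hl2).2 ((d5_beqf _ _).2 (by omega))
    have hl4 := ((d5_bi _ _ _).1 hl3).2 ((d5_beqf _ _).2 (by omega))
    have hl5 := ((d5_bi _ _ _).1 hl4).2 ((d5_beqf _ _).2 (by omega))
    rw [d5_and, d5_beq, d5_beq] at hl5
    exact hl5

private theorem lw_cd (hb : NC.Basic S) (hE : Enc O reps ix sf) (hF : Fl F D) (hC : SpCore)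
    {r : ℕ} (v : Fin 3 → ℤ) {d f g : Fin 3} (h : Di d f g)
    (hv : fac O ix F v d f g % 32 = r)
    (hl : O.cdW (ix (F v d)) (ix (F v f)) (ix (F v g)) (ix (aa F v d)) (d5_R ix F v f)
      (d5_R ix F v g) (fac O ix F v d f g) (fac O ix F (v + e d) d f g) r = true) :
    fac O ix F v d f g % 32 = r ∧ fac O ix F (v + e d) d f g % 32 = r ∧
      LabW O ix F v d f g := by
  unfold Ops.cdW at hl
  rw [d5_bi, d5_rh, d5_rh, d5_beq] at hl
  have h1 := hl.1 hv
  rw [d5_and, d5_beq] at h1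
  exact ⟨hv, h1.1, lw_lb hb hE hF hC v h h1.2⟩

private theorem lw_ce (hb : NC.Basic S) (hE : Enc O reps ix sf) (hF : Fl F D) (hC : SpCore)
    {r : ℕ} (v : Fin 3 → ℤ) {d f g : Fin 3} (h : Di d f g)
    (hv : fac O ix F (v + e d) d f g % 32 = r)
    (hl : O.ceW (ix (F v d)) (ix (F v f)) (ix (F v g)) (ix (aa F v d)) (d5_R ix F v f)
      (d5_R ix F v g) (fac O ix F v d f g) (fac O ix F (v + e d) d f g) r = true) :
    fac O ix F v d f g % 32 = r ∧ fac O ix F (v + e d) d f g % 32 = r ∧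
      LabW O ix F v d f g := by
  unfold Ops.ceW at hl
  rw [d5_bi, d5_rh, d5_rh, d5_beq] at hl
  have h1 := hl.1 hv
  rw [d5_and, d5_beq] at h1
  exact ⟨h1.1, hv, lw_lb hb hE hF hC v h h1.2⟩

private theorem lw_cb (hb : NC.Basic S) (hE : Enc O reps ix sf) (hF : Fl F D) (hC : SpCore)
    {r : ℕ} (hr : ∀ v d f g, Di d f g → r ≤ fac O ix F v d f g % 32)
    (v : Fin 3 → ℤ) {i j l : Fin 3} (h : Di i j l)
    (hc : O.cbW (ix (F v i)) (ix (F v j)) (ix (F v l)) (ix (aa F v i)) (ix (aa F v j))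
      (ix (aa F v l)) (d5_R ix F v i) (d5_R ix F v j) (d5_R ix F v l) = true)
    {d f g : Fin 3} (h' : Di d f g)
    (hv : (r % 4 < 2 ∧ fac O ix F v d f g % 32 = r) ∨
      (2 ≤ r % 4 ∧ fac O ix F (v + e d) d f g % 32 = r)) :
    fac O ix F v d f g % 32 = r ∧ fac O ix F (v + e d) d f g % 32 = r ∧
      LabW O ix F v d f g := by
  have h1 : Di i j l := h
  have h2 : Di i l j := d5_swap h
  have h4 : Di j l i := d5_rot h
  have h3 : Di j i l := d5_swap h4
  have h5 : Di l i j := d5_rot h4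
  have h6 : Di l j i := d5_swap h5
  unfold Ops.cbW at hc
  simp only [d5_frc] at hc
  rw [d5_nr hb hE hF hC v h1, d5_nr hb hE hF hC v h2, d5_nr hb hE hF hC v h3,
    d5_nr hb hE hF hC v h4, d5_nr hb hE hF hC v h5, d5_nr hb hE hF hC v h6,
    d5_fr hb hE hF hC v h1, d5_fr hb hE hF hC v h2, d5_fr hb hE hF hC v h3,
    d5_fr hb hE hF hC v h4, d5_fr hb hE hF hC v h5, d5_fr hb hE hF hC v h6] at hc
  simp only [d5_rh, d5_mn] at hc
  have hm : min (min (fac O ix F v i j l % 32) (min (fac O ix F v i l j % 32)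
      (min (fac O ix F v j i l % 32) (min (fac O ix F v j l i % 32)
      (min (fac O ix F v l i j % 32) (fac O ix F v l j i % 32))))))
      (min (fac O ix F (v + e i) i j l % 32) (min (fac O ix F (v + e i) i l j % 32)
      (min (fac O ix F (v + e j) j i l % 32) (min (fac O ix F (v + e j) j l i % 32)
      (min (fac O ix F (v + e l) l i j % 32) (fac O ix F (v + e l) l j i % 32)))))) = r := by
    refine lw_min12 (hr v i j l h1) (hr v i l j h2) (hr v j i l h3) (hr v j l i h4)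
      (hr v l i j h5) (hr v l j i h6) (hr (v + e i) i j l h1) (hr (v + e i) i l j h2)
      (hr (v + e j) j i l h3) (hr (v + e j) j l i h4) (hr (v + e l) l i j h5)
      (hr (v + e l) l j i h6) ?_
    rcases hv with ⟨-, hv⟩ | ⟨-, hv⟩
    · left
      rcases d5_six h h' with ⟨rfl, rfl, rfl⟩ | ⟨rfl, rfl, rfl⟩ | ⟨rfl, rfl, rfl⟩ |
        ⟨rfl, rfl, rfl⟩ | ⟨rfl, rfl, rfl⟩ | ⟨rfl, rfl, rfl⟩
      · exact Or.inl hv
      · exact Or.inr (Or.inl hv)
      · exact Or.inr (Or.inr (Or.inl hv))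
      · exact Or.inr (Or.inr (Or.inr (Or.inl hv)))
      · exact Or.inr (Or.inr (Or.inr (Or.inr (Or.inl hv))))
      · exact Or.inr (Or.inr (Or.inr (Or.inr (Or.inr hv))))
    · right
      rcases d5_six h h' with ⟨rfl, rfl, rfl⟩ | ⟨rfl, rfl, rfl⟩ | ⟨rfl, rfl, rfl⟩ |
        ⟨rfl, rfl, rfl⟩ | ⟨rfl, rfl, rfl⟩ | ⟨rfl, rfl, rfl⟩
      · exact Or.inl hv
      · exact Or.inr (Or.inl hv)
      · exact Or.inr (Or.inr (Or.inl hv))
      · exact Or.inr (Or.inr (Or.inr (Or.inl hv)))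
      · exact Or.inr (Or.inr (Or.inr (Or.inr (Or.inl hv))))
      · exact Or.inr (Or.inr (Or.inr (Or.inr (Or.inr hv))))
  rw [hm, d5_and, d5_bi, lw_three] at hc
  obtain ⟨-, hc1, hc2⟩ := hc
  rcases hv with ⟨hr2, hv⟩ | ⟨hr2, hv⟩
  · have c := hc1 ((d5_blt _ _).2 hr2)
    rw [d5_and, d5_and, d5_and, d5_and, d5_and] at c
    obtain ⟨c1, c2, c3, c4, c5, c6⟩ := c
    rcases d5_six h h' with ⟨rfl, rfl, rfl⟩ | ⟨rfl, rfl, rfl⟩ | ⟨rfl, rfl, rfl⟩ |
      ⟨rfl, rfl, rfl⟩ | ⟨rfl, rfl, rfl⟩ | ⟨rfl, rfl, rfl⟩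
    · exact lw_cd hb hE hF hC v h1 hv c1
    · exact lw_cd hb hE hF hC v h2 hv c2
    · exact lw_cd hb hE hF hC v h3 hv c3
    · exact lw_cd hb hE hF hC v h4 hv c4
    · exact lw_cd hb hE hF hC v h5 hv c5
    · exact lw_cd hb hE hF hC v h6 hv c6
  · have c := hc2 ((d5_bltf _ _).2 hr2)
    rw [d5_and, d5_and, d5_and, d5_and, d5_and] at c
    obtain ⟨c1, c2, c3, c4, c5, c6⟩ := c
    rcases d5_six h h' with ⟨rfl, rfl, rfl⟩ | ⟨rfl, rfl, rfl⟩ | ⟨rfl, rfl, rfl⟩ |
      ⟨rfl, rfl, rfl⟩ | ⟨rfl, rfl, rfl⟩ | ⟨rfl, rfl, rfl⟩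
    · exact lw_ce hb hE hF hC v h1 hv c1
    · exact lw_ce hb hE hF hC v h2 hv c2
    · exact lw_ce hb hE hF hC v h3 hv c3
    · exact lw_ce hb hE hF hC v h4 hv c4
    · exact lw_ce hb hE hF hC v h5 hv c5
    · exact lw_ce hb hE hF hC v h6 hv c6

private theorem lw_chk (hb : NC.Basic S) (hE : Enc O reps ix sf) (hF : Fl F D) (hC : SpCore)
    (hV : ∀ v d f g, Di d f g → nod O ix F (v + e d) d f g = nod O ix F v d f g)
    (v : Fin 3 → ℤ) {i j l : Fin 3} (h : Di i j l) (hlt : ix (F v j) < ix (F v l))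
    (ho : O.orb (ix (F v i)) ≤ O.orb (ix (F v l)))
    (hk : O.chk2W (ix (F v i)) (ix (F v j)) = true) :
    O.cbW (ix (F v i)) (ix (F v j)) (ix (F v l)) (ix (aa F v i)) (ix (aa F v j))
      (ix (aa F v l)) (d5_R ix F v i) (d5_R ix F v j) (d5_R ix F v l) = true := by
  have h1 : Di i j l := h
  have h2 : Di i l j := d5_swap h
  have h4 : Di j l i := d5_rot h
  have h3 : Di j i l := d5_swap h4
  have h5 : Di l i j := d5_rot h4
  have h6 : Di l j i := d5_swap h5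
  unfold Ops.chk2W at hk
  simp only [d5_frc] at hk
  rw [hE.mt, ← d5_aa v h5, d5_bi] at hk
  have k1 := hk.2 ((d5_beqf _ _).2 (d5_ne0 hE (hF.st_ne _ _)))
  rw [d5_allR] at k1
  have k2 := k1 (ix (F v l)) (d5_lt hE (hF.ne_top _ _))
  rw [d5_bi] at k2
  have k3 := k2.2 ((d5_blef _ _).2 hlt)
  rw [d5_bi] at k3
  have k4 := k3.2 ((d5_bltf _ _).2 ho)
  rw [hE.mt, ← d5_aa v h3, d5_bi] at k4
  have k5 := k4.2 ((d5_beqf _ _).2 (d5_ne0 hE (hF.st_ne _ _)))
  rw [hE.mt, ← d5_aa v h1, d5_bi] at k5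
  have k6 := k5.2 ((d5_beqf _ _).2 (d5_ne0 hE (hF.st_ne _ _)))
  rw [hE.mt, hF.tri, hE.bo, d5_bi] at k6
  have k7 := k6.1 rfl
  rw [d5_allL] at k7
  have k8 := k7 _ (d5_mem hb hE hF hC v h4)
  rw [d5_allL] at k8
  have k9 := k8 _ (d5_mem hb hE hF hC v h2)
  rw [d5_bi] at k9
  have k10 := k9.1 (d5_pc hb hE hF hC hV v h5)
  rw [d5_allL] at k10
  have k11 := k10 _ (d5_mem hb hE hF hC v h1)
  rw [d5_bi] at k11
  have k12 := k11.1 (d5_pc hb hE hF hC hV v h1)
  rw [d5_bi] at k12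
  exact k12.1 (d5_pc hb hE hF hC hV v h4)

/-! ### invariance -/

private theorem lw_step (hb : Basic S) (he : Enc O reps ix sf)
    (hF : Fl F D) (v : Fin 3 → ℤ) {d f g : Fin 3} (h : Di d f g)
    (hL : LabW O ix F (v + 1) d f g) : LabW O ix F v d f g := by
  have hfac : ∀ w, fac O ix F (w + 1) d f g = fac O ix F w d f g :=
    fun w => (d3_step hb he hF w h).2.1
  have haa : ∀ w, aa F (w + 1) d = tau (aa F w d) := by
    intro w
    unfold aa
    rw [hF.diag, hF.diag, hb.tau_inf]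
  have hlab : ∀ w, fac O ix F w d f g / 32 < O.top → ∃ s : S, lab O ix F w d f g = ix s ∧
      lab O ix F (w + 1) d f g = ix (tau s) := by
    intro w hw
    unfold lab
    rw [hfac, hF.diag, hF.diag, hF.diag]
    exact d3_lab he (d3_cs_lt he _ _ _) (d3_cs_lt he _ _ _) (d3_cs hb he (d3_st hb hF w h)) hw
  have hmt : ∀ s t : S, O.mt (ix (tau s)) (ix (tau t)) = ix (tau s) →
      O.mt (ix s) (ix t) = ix s := by
    intro s t hst
    rw [he.mt, ← hb.tau_inf] at hst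
    rw [he.mt, hb.tau_bij.1 (d3_ix_inj he hst)]
  have hv1 : v + 1 + e d = v + e d + 1 := by abel
  unfold LabW at hL ⊢
  rw [hv1, hfac, hfac, haa, haa, hF.diag, hF.diag] at hL
  obtain ⟨h3, h4, h5, h6, h7, h8⟩ := hL
  obtain ⟨s, hs1, hs2⟩ := hlab v h3
  obtain ⟨t, ht1, ht2⟩ := hlab (v + e d) h4
  rw [hs2, ht2] at h5 h6 h7 h8
  rw [he.t1] at h6 h8
  rw [hs1, ht1, he.t1]
  refine ⟨h3, h4, fun h9 => ?_, fun h9 => ?_, fun h9 => ?_, fun h9 => ?_⟩
  · exact ⟨hmt _ _ (h5 h9).1, hmt _ _ (h5 h9).2⟩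
  · exact ⟨hmt _ _ (h6 h9).1, hmt _ _ (h6 h9).2⟩
  · exact ⟨hmt _ _ (h7 h9).1, hmt _ _ (h7 h9).2⟩
  · exact ⟨hmt _ _ (h8 h9).1, hmt _ _ (h8 h9).2⟩

private theorem lw_inv (hb : Basic S) (he : Enc O reps ix sf)
    (hF : Fl F D) (k : ℕ) (v : Fin 3 → ℤ) {d f g : Fin 3} (h : Di d f g)
    (hL : LabW O ix F (v + (k : ℤ) • 1) d f g) : LabW O ix F v d f g := by
  induction k with
  | zero => simpa using hL
  | succ k ih =>
    have h2 : v + ((k + 1 : ℕ) : ℤ) • (1 : Fin 3 → ℤ) = v + (k : ℤ) • 1 + 1 := by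
      push_cast
      rw [add_smul, one_smul, add_assoc]
    rw [h2] at hL
    exact ih (lw_step hb he hF _ h hL)

/-! ### the cubes -/

private theorem lw_main (hC : SpCore) (hI : SpInv) (hV : SpV1) (hb : NC.Basic S)
    (hE : Enc O reps ix sf) (hF : Fl F D) (hk1 : Ck1 O reps) (hk2 : Ck2W O reps) (r : ℕ)
    (hr : ∀ v d f g, Di d f g → r ≤ fac O ix F v d f g % 32) (v : Fin 3 → ℤ) (d f g : Fin 3)
    (hd : Di d f g)
    (hv : (r % 4 < 2 ∧ fac O ix F v d f g % 32 = r) ∨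
      (2 ≤ r % 4 ∧ fac O ix F (v + e d) d f g % 32 = r)) :
    fac O ix F v d f g % 32 = r ∧ fac O ix F (v + e d) d f g % 32 = r ∧
      LabW O ix F v d f g := by
  have hV' := hV S O reps ix sf F D hb hE hF hk1
  have hI' := hI S O reps ix sf F D hb hE hF
  -- a direction with minimal orbit, and the two others
  obtain ⟨i, j, l, h, hj, hl, -⟩ : ∃ i j l : Fin 3, Di i j l ∧
      O.orb (ix (F v i)) ≤ O.orb (ix (F v j)) ∧ O.orb (ix (F v i)) ≤ O.orb (ix (F v l)) ∧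
      True := by
    obtain ⟨i, -, hi⟩ := Finset.exists_min_image (Finset.univ : Finset (Fin 3))
      (fun i => O.orb (ix (F v i))) ⟨0, Finset.mem_univ 0⟩
    exact ⟨i, i + 1, i + 2, d5_123 i, hi _ (Finset.mem_univ _), hi _ (Finset.mem_univ _),
      trivial⟩
  obtain ⟨k, hk, hrep⟩ := hE.rep (F v i) (d5_nebo hb hF v i) (hF.ne_top v i)
  have hF' : ∀ x, F (v + (k : ℤ) • 1) x = tau^[k] (F v x) := fun x => d5_diag hF v x k
  rw [← hF'] at hrep
  have hj' : O.orb (ix (F (v + (k : ℤ) • 1) i)) ≤ O.orb (ix (F (v + (k : ℤ) • 1) j)) := by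
    rw [hF', hF', d5_orb hE, d5_orb hE]
    exact hj
  have hl' : O.orb (ix (F (v + (k : ℤ) • 1) i)) ≤ O.orb (ix (F (v + (k : ℤ) • 1) l)) := by
    rw [hF', hF', d5_orb hE, d5_orb hE]
    exact hl
  have e1 := (hI' k v d f g hd).2.1
  have e2 : fac O ix F (v + (k : ℤ) • 1 + e d) d f g = fac O ix F (v + e d) d f g := by
    rw [add_right_comm, (hI' k (v + e d) d f g hd).2.1]
  have hvk : (r % 4 < 2 ∧ fac O ix F (v + (k : ℤ) • 1) d f g % 32 = r) ∨
      (2 ≤ r % 4 ∧ fac O ix F (v + (k : ℤ) • 1 + e d) d f g % 32 = r) := by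
    rw [e1, e2]
    exact hv
  have hL := lw_inv hb hE hF k v hd
  obtain ⟨w, hw⟩ : ∃ w, w = v + (k : ℤ) • (1 : Fin 3 → ℤ) := ⟨_, rfl⟩
  have hpos : ∀ x, 0 < ix (F w x) := fun x => Nat.pos_of_ne_zero (d5_ne0 hE (d5_nebo hb hF w x))
  have htop : ∀ x, ix (F w x) < O.top := fun x => d5_lt hE (hF.ne_top w x)
  rw [← hw] at hrep hj' hl' hvk e1 e2 hL
  have key : fac O ix F w d f g % 32 = r ∧ fac O ix F (w + e d) d f g % 32 = r ∧
      LabW O ix F w d f g := by
    rcases lt_trichotomy (ix (F w j)) (ix (F w l)) with h1 | h1 | h1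
    · exact lw_cb hb hE hF hC hr w h (lw_chk hb hE hF hC hV' w h h1 hl'
        (hk2 _ hrep _ (hpos j) (htop j) hj')) hd hvk
    · exact absurd (d5_ix hE h1) (d5_dist hF w h)
    · exact lw_cb hb hE hF hC hr w (d5_swap h) (lw_chk hb hE hF hC hV' w (d5_swap h) h1 hj'
        (hk2 _ hrep _ (hpos l) (htop l) hl')) hd hvk
  rw [e1, e2] at key
  exact ⟨key.1, key.2.1, hL key.2.2⟩

/-! ### the line -/

private theorem lw_iter_top (hb : NC.Basic S) (c : ℕ) (s : S) (h : tau^[c] s = ⊤) : s = ⊤ := by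
  induction c with
  | zero => exact h
  | succ c ih =>
    apply ih
    rw [Function.iterate_succ_apply'] at h
    exact hb.tau_bij.1 (h.trans hb.tau_top.symm)

private theorem lw_le (hE : Enc O reps ix sf) {s t : S} (h : O.mt (ix s) (ix t) = ix s) :
    s ≤ t := by
  rw [hE.mt] at h
  have h2 : s ⊓ t = s := by
    rw [← hE.sf_ix (s ⊓ t), h, hE.sf_ix]
  exact inf_eq_left.1 h2

private theorem lw_lab (hb : NC.Basic S) (hE : Enc O reps ix sf) (F : (Fin 3 → ℤ) → Fin 3 → S)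
    (v : Fin 3 → ℤ) (d f g : Fin 3) (h : fac O ix F v d f g / 32 < O.top) :
    ∃ w : S, w ≠ ⊤ ∧ lab O ix F v d f g = ix w := by
  refine ⟨tau^[(O.h - O.cs (ix (F v d)) (ix (F v f)) (ix (F v g))) % O.h]
    (sf (fac O ix F v d f g / 32)), ?_, ?_⟩
  · intro h2
    have h3 := lw_iter_top hb _ _ h2
    have h4 := hE.ix_sf _ h.le
    rw [h3, hE.top] at h4
    omega
  · rw [← hE.tt _ _ (Nat.mod_lt _ hE.h_pos), hE.ix_sf _ h.le]
    rfl

private theorem lw_iter_le (hb : NC.Basic S) (c : ℕ) {s t : S} (h : s ≤ t) :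
    tau^[c] s ≤ tau^[c] t := by
  induction c with
  | zero => exact h
  | succ c ih =>
    rw [Function.iterate_succ_apply', Function.iterate_succ_apply']
    exact (hb.tau_le _ _).2 ih

/-- Forward lines. -/
private theorem lw_fwd (hb : NC.Basic S) (hE : Enc O reps ix sf)
    (F : (Fin 3 → ℤ) → Fin 3 → S) (v : Fin 3 → ℤ) (d f g : Fin 3) (r : ℕ) (hr2 : r % 4 < 2)
    (h : ∀ n : ℕ, fac O ix F (v + (n : ℤ) • e d) d f g % 32 = r ∧
      LabW O ix F (v + (n : ℤ) • e d) d f g) :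
    ∃ w : S, w ≠ ⊤ ∧ ((∀ n : ℕ, aa F (v + (n : ℤ) • e d) d ≤ w) ∨
      ∀ n : ℕ, F (v + (n : ℤ) • e d) d ≤ tau^[n] w) := by
  have hs : ∀ n : ℕ, v + ((n + 1 : ℕ) : ℤ) • e d = v + (n : ℤ) • e d + e d := by
    intro n
    rw [Nat.cast_add, Nat.cast_one, add_smul, one_smul, add_assoc]
  have hw : ∀ n : ℕ, ∃ w : S, w ≠ ⊤ ∧ lab O ix F (v + (n : ℤ) • e d) d f g = ix w :=
    fun n => lw_lab hb hE F _ d f g (h n).2.1
  choose w hw1 hw2 using hw
  have hmod : ∀ n : ℕ, fac O ix F (v + (n : ℤ) • e d) d f g % 4 = r % 4 := by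
    intro n
    have := (h n).1
    omega
  refine ⟨w 0, hw1 0, ?_⟩
  rcases (show r % 4 = 0 ∨ r % 4 = 1 by omega) with hr | hr
  · left
    have h2 : ∀ n : ℕ, aa F (v + (n : ℤ) • e d) d ≤ w n ∧ w (n + 1) ≤ w n := by
      intro n
      obtain ⟨h3, h4⟩ := (h n).2.2.2.1 ((hmod n).trans hr)
      constructor
      · apply lw_le hE
        rw [hw2 n] at h3
        exact h3
      · apply lw_le hE
        rw [← hs n, hw2 n, hw2 (n + 1)] at h4
        exact h4
    have h3 : ∀ n : ℕ, w n ≤ w 0 := by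
      intro n
      induction n with
      | zero => exact le_rfl
      | succ n ih => exact (h2 n).2.trans ih
    intro n
    exact (h2 n).1.trans (h3 n)
  · right
    have h2 : ∀ n : ℕ, F (v + (n : ℤ) • e d) d ≤ w n ∧ w (n + 1) ≤ tau (w n) := by
      intro n
      obtain ⟨h3, h4⟩ := (h n).2.2.2.2.1 ((hmod n).trans hr)
      constructor
      · apply lw_le hE
        rw [hw2 n] at h3
        exact h3
      · apply lw_le hE
        rw [← hs n, hw2 n, hw2 (n + 1), hE.t1] at h4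
        exact h4
    have h3 : ∀ n : ℕ, w n ≤ tau^[n] (w 0) := by
      intro n
      induction n with
      | zero => exact le_rfl
      | succ n ih =>
        rw [Function.iterate_succ_apply']
        exact (h2 n).2.trans ((hb.tau_le _ _).2 ih)
    intro n
    exact (h2 n).1.trans (h3 n)

private theorem lw_per (hF : Fl F D) (v : Fin 3 → ℤ) (d : Fin 3) (k : ℕ) :
    F (v + ((k * D : ℕ) : ℤ) • e d) = F v := by
  induction k with
  | zero => simp
  | succ k ih =>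
    have h1 : v + (((k + 1) * D : ℕ) : ℤ) • e d = v + ((k * D : ℕ) : ℤ) • e d + (D : ℤ) • e d := by
      push_cast
      rw [add_mul, one_mul, add_smul, add_assoc]
    rw [h1, hF.per, ih]

/-- The period of the flat, backwards. -/
private theorem lw_back (hF : Fl F D) (v : Fin 3 → ℤ) (d : Fin 3) (n m k : ℕ)
    (h : n + m = k * D) : F (v + (n : ℤ) • e d) = F (v - (m : ℤ) • e d) := by
  have h1 : v + (n : ℤ) • e d = v - (m : ℤ) • e d + ((k * D : ℕ) : ℤ) • e d := by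
    rw [← h]
    push_cast
    rw [add_smul]
    abel
  rw [h1, lw_per hF]

private theorem lw_tper (hE : Enc O reps ix sf) (k : ℕ) (s : S) : tau^[k * O.h] s = s := by
  have hp : Function.IsPeriodicPt (tau : S → S) O.h s := hE.per s
  have := hp.const_mul k
  exact this

/-- Backward lines. -/
private theorem lw_bwd (hb : NC.Basic S) (hE : Enc O reps ix sf) (hF : Fl F D)
    (v : Fin 3 → ℤ) (d f g : Fin 3) (r : ℕ) (hr2 : 2 ≤ r % 4)
    (h : ∀ n : ℕ, fac O ix F (v - ((n + 1 : ℕ) : ℤ) • e d) d f g % 32 = r ∧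
      LabW O ix F (v - ((n + 1 : ℕ) : ℤ) • e d) d f g) :
    ∃ w : S, w ≠ ⊤ ∧ ((∀ n : ℕ, aa F (v + (n : ℤ) • e d) d ≤ w) ∨
      ∀ n : ℕ, F (v + (n : ℤ) • e d) d ≤ tau^[n] w) := by
  have hs : ∀ n : ℕ, v - ((n + 1 : ℕ) : ℤ) • e d + e d = v - (n : ℤ) • e d := by
    intro n
    rw [Nat.cast_add, Nat.cast_one, add_smul, one_smul]
    abel
  have hw : ∀ n : ℕ, ∃ w : S, w ≠ ⊤ ∧ lab O ix F (v - (n : ℤ) • e d) d f g = ix w := by
    intro n
    have h1 := (h n).2.2.1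
    rw [hs n] at h1
    exact lw_lab hb hE F _ d f g h1
  choose w hw1 hw2 using hw
  have hmod : ∀ n : ℕ, fac O ix F (v - ((n + 1 : ℕ) : ℤ) • e d) d f g % 4 = r % 4 := by
    intro n
    have := (h n).1
    omega
  have hpos := hF.pos
  have hhp := hE.h_pos
  refine ⟨w 0, hw1 0, ?_⟩
  rcases (show r % 4 = 2 ∨ r % 4 = 3 by omega) with hr | hr
  · left
    have h2 : ∀ n : ℕ, aa F (v - (n : ℤ) • e d) d ≤ w n ∧ w (n + 1) ≤ w n := by
      intro n
      obtain ⟨h3, h4⟩ := (h n).2.2.2.2.2.1 ((hmod n).trans hr)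
      constructor
      · apply lw_le hE
        rw [hs n, hw2 n] at h3
        exact h3
      · apply lw_le hE
        rw [hs n, hw2 n, hw2 (n + 1)] at h4
        exact h4
    have h3 : ∀ n : ℕ, w n ≤ w 0 := by
      intro n
      induction n with
      | zero => exact le_rfl
      | succ n ih => exact (h2 n).2.trans ih
    intro n
    obtain ⟨m, hm⟩ : ∃ m, n + m = n * D := by
      refine ⟨n * D - n, Nat.add_sub_cancel' ?_⟩
      exact Nat.le_mul_of_pos_right n hpos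
    have h4 : aa F (v + (n : ℤ) • e d) d = aa F (v - (m : ℤ) • e d) d := by
      unfold aa
      rw [lw_back hF v d n m n hm]
    rw [h4]
    exact (h2 m).1.trans (h3 m)
  · right
    have h2 : ∀ n : ℕ, F (v - (n : ℤ) • e d) d ≤ w n ∧ tau (w (n + 1)) ≤ w n := by
      intro n
      obtain ⟨h3, h4⟩ := (h n).2.2.2.2.2.2 ((hmod n).trans hr)
      constructor
      · apply lw_le hE
        rw [hs n, hw2 n] at h3
        exact h3
      · apply lw_le hE
        rw [hs n, hw2 n, hw2 (n + 1), hE.t1] at h4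
        exact h4
    have h3 : ∀ n : ℕ, tau^[n] (w n) ≤ w 0 := by
      intro n
      induction n with
      | zero => exact le_rfl
      | succ n ih =>
        rw [Function.iterate_succ_apply]
        exact (lw_iter_le hb n (h2 n).2).trans ih
    intro n
    obtain ⟨m, hm⟩ : ∃ m, n + m = n * O.h * D := by
      refine ⟨n * O.h * D - n, Nat.add_sub_cancel' ?_⟩
      exact (Nat.le_mul_of_pos_right n hhp).trans (Nat.le_mul_of_pos_right _ hpos)
    rw [lw_back hF v d n m (n * O.h) hm]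
    have h5 : tau^[n] (tau^[m] (w m)) = w m := by
      rw [← Function.iterate_add_apply, hm,
        show n * O.h * D = (n * D) * O.h by ring]
      exact lw_tper hE _ _
    calc F (v - (m : ℤ) • e d) d ≤ w m := (h2 m).1
      _ = tau^[n] (tau^[m] (w m)) := h5.symm
      _ ≤ tau^[n] (w 0) := lw_iter_le hb n (h3 m)

end

open Classical in
/-- **Row RG-W.** -/
theorem sp_lineW : SpLineW := by
  intro S _ O reps ix sf F D hb hE hF hc1 hc2
  have hne : ∃ r : ℕ, ∃ v d f g, Di d f g ∧ fac O ix F v d f g % 32 = r :=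
    ⟨_, 0, 0, 1, 2, ⟨by decide, by decide, by decide⟩, rfl⟩
  obtain ⟨v, d, f, g, hD, hr⟩ := Nat.find_spec hne
  have hmin : ∀ v d f g, Di d f g → Nat.find hne ≤ fac O ix F v d f g % 32 :=
    fun v d f g hD => Nat.find_min' hne ⟨v, d, f, g, hD, rfl⟩
  have hV := sp_v1 sp_core sp_inv
  have hm := lw_main sp_core sp_inv hV hb hE hF hc1 hc2 _ hmin
  rcases Nat.lt_or_ge (Nat.find hne % 4) 2 with h4 | h4
  · have hall : ∀ n : ℕ, fac O ix F (v + (n : ℤ) • e d) d f g % 32 = Nat.find hne := by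
      intro n
      induction n with
      | zero =>
        rw [Nat.cast_zero, zero_smul, add_zero]
        exact hr
      | succ n ih =>
        have h2 := (hm _ d f g hD (Or.inl ⟨h4, ih⟩)).2.1
        rw [Nat.cast_add, Nat.cast_one, add_smul, one_smul, ← add_assoc]
        exact h2
    obtain ⟨w, hw⟩ := lw_fwd hb hE F v d f g (Nat.find hne) h4 fun n =>
      ⟨hall n, (hm _ d f g hD (Or.inl ⟨h4, hall n⟩)).2.2⟩
    exact ⟨v, d, w, hw⟩
  · have hs : ∀ n : ℕ, v - ((n + 1 : ℕ) : ℤ) • e d + e d = v - (n : ℤ) • e d := by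
      intro n
      rw [Nat.cast_add, Nat.cast_one, add_smul, one_smul]
      abel
    have hall : ∀ n : ℕ, fac O ix F (v - (n : ℤ) • e d) d f g % 32 = Nat.find hne := by
      intro n
      induction n with
      | zero =>
        rw [Nat.cast_zero, zero_smul, sub_zero]
        exact hr
      | succ n ih =>
        rw [← hs n] at ih
        exact (hm _ d f g hD (Or.inr ⟨h4, ih⟩)).1
    obtain ⟨w, hw⟩ := lw_bwd hb hE hF v d f g (Nat.find hne) h4 fun n =>
      ⟨hall (n + 1), (hm _ d f g hD (Or.inr ⟨h4, by rw [hs n]; exact hall n⟩)).2.2⟩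
    exact ⟨v, d, w, hw⟩

end Pool.Agent.H54.RF
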