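import Pool.Agent.H54.RG.OpsA3
import Pool.Agent.H54.RG.Chk3

/-!
# Project RG (MP_35eb49): checks of the cubes of type A3
-/

set_option autoImplicit false
set_option maxRecDepth 100000
set_option maxHeartbeats 0

namespace Pool.Agent.H54.RG

open Pool.Agent.H54.RF

/-- The checks of this file. They are in one theorem, so that they are done one after the other. -/
theorem q4A3_0 :
    oA3.t4 1 0 12 = true ∧
    oA3.t4 5 0 12 = true ∧
    oA3.t4 9 0 12 = true ∧
    oA3.t4 11 0 12 = true := by
  refine ⟨?_, ?_, ?_, ?_⟩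
  · decide +kernel
  · decide +kernel
  · decide +kernel
  · decide +kernel

theorem s4A3_1_0 : oA3.t4 1 0 12 = true := q4A3_0.1

theorem s4A3_5_0 : oA3.t4 5 0 12 = true := q4A3_0.2.1

theorem s4A3_9_0 : oA3.t4 9 0 12 = true := q4A3_0.2.2.1

theorem s4A3_11_0 : oA3.t4 11 0 12 = true := q4A3_0.2.2.2

end Pool.Agent.H54.RG
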