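import Pool.Agent.H54.RF.Tst
import Pool.Agent.H54.RG.Chk3
import Pool.Agent.H54.RG.ChkW

/-!
# Project RG (MP_35eb49): ranges of checks
-/

set_option autoImplicit false

namespace Pool.Agent.H54.RF

namespace Ops

variable (O : Ops)

theorem t3_spec {a0 lo n : ℕ} (h : O.t3 a0 lo n = true) (X2 : ℕ) (h1 : lo < X2)
    (h2 : X2 ≤ lo + n) : O.chk3 a0 X2 = true := by
  have h3 := (allR_iff _ _).mp h (X2 - lo - 1) (by omega)
  rw [frc_eq] at h3
  have h4 : Nat.succ (Nat.add lo (X2 - lo - 1)) = X2 := by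
    show lo + (X2 - lo - 1) + 1 = X2
    omega
  rwa [h4] at h3

theorem blt_orb {X0 X1 : ℕ} (h5 : O.orb X0 ≤ O.orb X1) :
    Nat.blt (O.orb X1) (O.orb X0) = false := by
  rw [Bool.eq_false_iff]
  intro h7
  have h8 : O.orb X1 + 1 ≤ O.orb X0 := Nat.le_of_ble_eq_true h7
  omega

theorem t4_spec {X0 lo n : ℕ} (h : O.t4 X0 lo n = true) (X1 : ℕ) (h1 : lo < X1)
    (h2 : X1 ≤ lo + n) (h5 : O.orb X0 ≤ O.orb X1) : O.chk4 X0 X1 = true := by
  have h3 := (allR_iff _ _).mp h (X1 - lo - 1) (by omega)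
  rw [frc_eq] at h3
  have h4 : Nat.succ (Nat.add lo (X1 - lo - 1)) = X1 := by
    show lo + (X1 - lo - 1) + 1 = X1
    omega
  rw [h4, blt_orb O h5] at h3
  exact h3

theorem t2W_spec {X0 lo n : ℕ} (h : O.t2W X0 lo n = true) (X1 : ℕ) (h1 : lo < X1)
    (h2 : X1 ≤ lo + n) (h5 : O.orb X0 ≤ O.orb X1) : O.chk2W X0 X1 = true := by
  have h3 := (allR_iff _ _).mp h (X1 - lo - 1) (by omega)
  rw [frc_eq] at h3
  have h4 : Nat.succ (Nat.add lo (X1 - lo - 1)) = X1 := by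
    show lo + (X1 - lo - 1) + 1 = X1
    omega
  rw [h4, blt_orb O h5] at h3
  exact h3

end Ops

end Pool.Agent.H54.RF
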