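import Pool.Agent.H54.RK.Spec
import Pool.Agent.H54.RG.AsmL
import Pool.Agent.H54.RG.TstG
import Pool.Agent.H54.RG.CaA3
import Pool.Agent.H54.RG.CbA3
import Pool.Agent.H54.RG.CkA3
import Pool.Agent.H54.RG.S3A3_0
import Pool.Agent.H54.RG.S4A3_0

/-!
# Project RG (MP_35eb49): result of type A3
-/

set_option autoImplicit false
set_option maxHeartbeats 0
set_option maxRecDepth 100000

namespace Pool.Agent.H54.RG

open Pool.Agent.H54.RF

theorem ck3A3 : Ck3 oA3 rA3 := by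
  intro X0 hX X1 h1 h2
  have h3 : X1 < 13 := h2
  simp only [rA3, List.mem_cons, List.not_mem_nil, or_false] at hX
  rcases hX with rfl | rfl | rfl | rfl
  · exact Ops.t3_spec _ s3A3_1_0 X1 (by omega) (by omega)
  · exact Ops.t3_spec _ s3A3_5_0 X1 (by omega) (by omega)
  · exact Ops.t3_spec _ s3A3_9_0 X1 (by omega) (by omega)
  · exact Ops.t3_spec _ s3A3_11_0 X1 (by omega) (by omega)

theorem ck4A3 : Ck4 oA3 rA3 := by
  intro X0 hX X1 h1 h2 h4
  have h3 : X1 < 13 := h2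
  simp only [rA3, List.mem_cons, List.not_mem_nil, or_false] at hX
  rcases hX with rfl | rfl | rfl | rfl
  · exact Ops.t4_spec _ s4A3_1_0 X1 (by omega) (by omega) h4
  · exact Ops.t4_spec _ s4A3_5_0 X1 (by omega) (by omega) h4
  · exact Ops.t4_spec _ s4A3_9_0 X1 (by omega) (by omega) h4
  · exact Ops.t4_spec _ s4A3_11_0 X1 (by omega) (by omega) h4

theorem conclA3 (hL : SpLine3) (hcone : SpCone) : Concl Pool.Agent.H54.RK.MA3 :=
  asmDR hcone Pool.Agent.H54.RK.MA3 (by decide) dA3 dcA3 xA3 xcA3 rfl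
    (by intro i j; fin_cases i <;> fin_cases j <;> rfl) orA3 oA3 eA3 rA3 oaA3 obA3 ocA3
    opA3 pA3 qA3 or2A3 6 onA3
    (fun S _ ix sf F D h1 h2 h3 => hL S oA3 rA3 ix sf F D h1 h2 h3 ck3A3 ck4A3)
    kkA3 atA3 ogA3 xxA3

end Pool.Agent.H54.RG
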