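import Pool.Agent.H54.RG.OpsA4
import Pool.Agent.H54.RF.Tst
import Pool.Agent.H54.RG.ChkW

/-!
# Project RG (MP_35eb49): checks of the cubes of type A4
-/

set_option autoImplicit false
set_option maxRecDepth 100000
set_option maxHeartbeats 0

namespace Pool.Agent.H54.RG

open Pool.Agent.H54.RF

/-- The checks of this file. They are in one theorem, so that they are done one after the other. -/
theorem q4A4_0 :
    oA4.t2W 1 0 40 = true ∧
    oA4.t2W 6 0 40 = true ∧
    oA4.t2W 11 0 40 = true ∧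
    oA4.t2W 16 0 40 = true ∧
    oA4.t2W 21 0 40 = true ∧
    oA4.t2W 26 0 40 = true ∧
    oA4.t2W 31 0 40 = true ∧
    oA4.t2W 36 0 40 = true := by
  refine ⟨?_, ?_, ?_, ?_, ?_, ?_, ?_, ?_⟩
  · decide +kernel
  · decide +kernel
  · decide +kernel
  · decide +kernel
  · decide +kernel
  · decide +kernel
  · decide +kernel
  · decide +kernel

theorem s4A4_1_0 : oA4.t2W 1 0 40 = true := q4A4_0.1

theorem s4A4_6_0 : oA4.t2W 6 0 40 = true := q4A4_0.2.1

theorem s4A4_11_0 : oA4.t2W 11 0 40 = true := q4A4_0.2.2.1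

theorem s4A4_16_0 : oA4.t2W 16 0 40 = true := q4A4_0.2.2.2.1

theorem s4A4_21_0 : oA4.t2W 21 0 40 = true := q4A4_0.2.2.2.2.1

theorem s4A4_26_0 : oA4.t2W 26 0 40 = true := q4A4_0.2.2.2.2.2.1

theorem s4A4_31_0 : oA4.t2W 31 0 40 = true := q4A4_0.2.2.2.2.2.2.1

theorem s4A4_36_0 : oA4.t2W 36 0 40 = true := q4A4_0.2.2.2.2.2.2.2

end Pool.Agent.H54.RG
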