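import Pool.Agent.H54.RK.Spec
import Pool.Agent.H54.RG.AsmL
import Pool.Agent.H54.RG.TstG
import Pool.Agent.H54.RG.CaA4
import Pool.Agent.H54.RG.CbA4
import Pool.Agent.H54.RG.CkA4
import Pool.Agent.H54.RG.S3A4_0
import Pool.Agent.H54.RG.S4A4_0

/-!
# Project RG (MP_35eb49): result of type A4
-/

set_option autoImplicit false
set_option maxHeartbeats 0
set_option maxRecDepth 100000

namespace Pool.Agent.H54.RG

open Pool.Agent.H54.RF

theorem ck3A4 : Ck1 oA4 rA4 := by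
  intro X0 hX X1 h1 h2
  have h3 : X1 < 41 := h2
  simp only [rA4, List.mem_cons, List.not_mem_nil, or_false] at hX
  rcases hX with rfl | rfl | rfl | rfl | rfl | rfl | rfl | rfl
  · exact Ops.t1_spec _ s3A4_1_0 X1 (by omega) (by omega)
  · exact Ops.t1_spec _ s3A4_6_0 X1 (by omega) (by omega)
  · exact Ops.t1_spec _ s3A4_11_0 X1 (by omega) (by omega)
  · exact Ops.t1_spec _ s3A4_16_0 X1 (by omega) (by omega)
  · exact Ops.t1_spec _ s3A4_21_0 X1 (by omega) (by omega)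
  · exact Ops.t1_spec _ s3A4_26_0 X1 (by omega) (by omega)
  · exact Ops.t1_spec _ s3A4_31_0 X1 (by omega) (by omega)
  · exact Ops.t1_spec _ s3A4_36_0 X1 (by omega) (by omega)

theorem ck4A4 : Ck2W oA4 rA4 := by
  intro X0 hX X1 h1 h2 h4
  have h3 : X1 < 41 := h2
  simp only [rA4, List.mem_cons, List.not_mem_nil, or_false] at hX
  rcases hX with rfl | rfl | rfl | rfl | rfl | rfl | rfl | rfl
  · exact Ops.t2W_spec _ s4A4_1_0 X1 (by omega) (by omega) h4
  · exact Ops.t2W_spec _ s4A4_6_0 X1 (by omega) (by omega) h4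
  · exact Ops.t2W_spec _ s4A4_11_0 X1 (by omega) (by omega) h4
  · exact Ops.t2W_spec _ s4A4_16_0 X1 (by omega) (by omega) h4
  · exact Ops.t2W_spec _ s4A4_21_0 X1 (by omega) (by omega) h4
  · exact Ops.t2W_spec _ s4A4_26_0 X1 (by omega) (by omega) h4
  · exact Ops.t2W_spec _ s4A4_31_0 X1 (by omega) (by omega) h4
  · exact Ops.t2W_spec _ s4A4_36_0 X1 (by omega) (by omega) h4

theorem conclA4 (hL : SpLineW) (hcone : SpCone) : Concl Pool.Agent.H54.RK.MA4 :=
  asmDL hcone Pool.Agent.H54.RK.MA4 (by decide) dA4 dcA4 xA4 xcA4 rfl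
    (by intro i j; fin_cases i <;> fin_cases j <;> rfl) orA4 oA4 eA4 rA4 oaA4 obA4 ocA4
    opA4 10 onA4
    (fun S _ ix sf F D h1 h2 h3 => hL S oA4 rA4 ix sf F D h1 h2 h3 ck3A4 ck4A4)
    kkA4 atA4 ogA4 xxA4

end Pool.Agent.H54.RG
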