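import Pool.Agent.H54.RG.OpsB3
import Pool.Agent.H54.RG.Chk3

/-!
# Project RG (MP_35eb49): checks of the strips of type B3
-/

set_option autoImplicit false
set_option maxRecDepth 100000
set_option maxHeartbeats 0

namespace Pool.Agent.H54.RG

open Pool.Agent.H54.RF

/-- The checks of this file. They are in one theorem, so that they are done one after the other. -/
theorem q3B3_0 :
    oB3.t3 1 0 18 = true ∧
    oB3.t3 4 0 18 = true ∧
    oB3.t3 7 0 18 = true ∧
    oB3.t3 10 0 18 = true ∧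
    oB3.t3 13 0 18 = true ∧
    oB3.t3 16 0 18 = true := by
  refine ⟨?_, ?_, ?_, ?_, ?_, ?_⟩
  · decide +kernel
  · decide +kernel
  · decide +kernel
  · decide +kernel
  · decide +kernel
  · decide +kernel

theorem s3B3_1_0 : oB3.t3 1 0 18 = true := q3B3_0.1

theorem s3B3_4_0 : oB3.t3 4 0 18 = true := q3B3_0.2.1

theorem s3B3_7_0 : oB3.t3 7 0 18 = true := q3B3_0.2.2.1

theorem s3B3_10_0 : oB3.t3 10 0 18 = true := q3B3_0.2.2.2.1

theorem s3B3_13_0 : oB3.t3 13 0 18 = true := q3B3_0.2.2.2.2.1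

theorem s3B3_16_0 : oB3.t3 16 0 18 = true := q3B3_0.2.2.2.2.2

end Pool.Agent.H54.RG
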