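import Pool.Agent.H54.RK.Spec
import Pool.Agent.H54.RG.AsmL
import Pool.Agent.H54.RG.TstG
import Pool.Agent.H54.RG.CaB3
import Pool.Agent.H54.RG.CbB3
import Pool.Agent.H54.RG.CkB3
import Pool.Agent.H54.RG.S3B3_0
import Pool.Agent.H54.RG.S4B3_0

/-!
# Project RG (MP_35eb49): result of type B3
-/

set_option autoImplicit false
set_option maxHeartbeats 0
set_option maxRecDepth 100000

namespace Pool.Agent.H54.RG

open Pool.Agent.H54.RF

theorem ck3B3 : Ck3 oB3 rB3 := by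
  intro X0 hX X1 h1 h2
  have h3 : X1 < 19 := h2
  simp only [rB3, List.mem_cons, List.not_mem_nil, or_false] at hX
  rcases hX with rfl | rfl | rfl | rfl | rfl | rfl
  · exact Ops.t3_spec _ s3B3_1_0 X1 (by omega) (by omega)
  · exact Ops.t3_spec _ s3B3_4_0 X1 (by omega) (by omega)
  · exact Ops.t3_spec _ s3B3_7_0 X1 (by omega) (by omega)
  · exact Ops.t3_spec _ s3B3_10_0 X1 (by omega) (by omega)
  · exact Ops.t3_spec _ s3B3_13_0 X1 (by omega) (by omega)
  · exact Ops.t3_spec _ s3B3_16_0 X1 (by omega) (by omega)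

theorem ck4B3 : Ck4 oB3 rB3 := by
  intro X0 hX X1 h1 h2 h4
  have h3 : X1 < 19 := h2
  simp only [rB3, List.mem_cons, List.not_mem_nil, or_false] at hX
  rcases hX with rfl | rfl | rfl | rfl | rfl | rfl
  · exact Ops.t4_spec _ s4B3_1_0 X1 (by omega) (by omega) h4
  · exact Ops.t4_spec _ s4B3_4_0 X1 (by omega) (by omega) h4
  · exact Ops.t4_spec _ s4B3_7_0 X1 (by omega) (by omega) h4
  · exact Ops.t4_spec _ s4B3_10_0 X1 (by omega) (by omega) h4
  · exact Ops.t4_spec _ s4B3_13_0 X1 (by omega) (by omega) h4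
  · exact Ops.t4_spec _ s4B3_16_0 X1 (by omega) (by omega) h4

theorem conclB3 (hL : SpLine3) (hcone : SpCone) : Concl Pool.Agent.H54.RK.MB3 :=
  asmDL hcone Pool.Agent.H54.RK.MB3 (by decide) dB3 dcB3 xB3 xcB3 rfl
    (by intro i j; fin_cases i <;> fin_cases j <;> rfl) orB3 oB3 eB3 rB3 oaB3 obB3 ocB3
    opB3 9 onB3
    (fun S _ ix sf F D h1 h2 h3 => hL S oB3 rB3 ix sf F D h1 h2 h3 ck3B3 ck4B3)
    kkB3 atB3 ogB3 xxB3

end Pool.Agent.H54.RG
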