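import Pool.Agent.H54.RG.Chk3

/-!
# Project RG (MP_35eb49): the checks of strips and cubes in two parts
-/

set_option autoImplicit false

namespace Pool.Agent.H54.RG

open Pool.Agent.H54.RF

theorem frc_eq {α : Type} (x : ℕ) (f : ℕ → α) : Ops.frc x f = f x := by
  cases x <;> rfl

theorem allR_iff {n : ℕ} {f : ℕ → Bool} : Ops.allR n f = true ↔ ∀ k < n, f k = true := by
  induction n with
  | zero => simp [Ops.allR]
  | succ n ih =>
    have h1 : Ops.allR (n + 1) f = Ops.bi (f n) (Ops.allR n f) false := rfl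
    rw [h1]
    constructor
    · intro h k hk
      have h2 : f n = true ∧ Ops.allR n f = true := by
        cases h3 : f n
        · rw [h3] at h
          exact absurd h Bool.false_ne_true
        · rw [h3] at h
          exact ⟨rfl, h⟩
      rcases Nat.lt_succ_iff_lt_or_eq.1 hk with h4 | h4
      · exact ih.1 h2.2 k h4
      · rw [h4]
        exact h2.1
    · intro h
      rw [h n (Nat.lt_succ_self n)]
      exact ih.2 fun k hk => h k (Nat.lt_succ_of_lt hk)

/-- Two parts of a test. -/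
theorem allR_two (P : ℕ → Bool) (lo n1 n2 m n : ℕ) (hm : lo + n1 = m) (hn : n1 + n2 = n)
    (h1 : Ops.allR n1 (fun i => Ops.frc (Nat.succ (Nat.add lo i)) P) = true)
    (h2 : Ops.allR n2 (fun i => Ops.frc (Nat.succ (Nat.add m i)) P) = true) :
    Ops.allR n (fun i => Ops.frc (Nat.succ (Nat.add lo i)) P) = true := by
  subst hm hn
  rw [allR_iff] at h1 h2 ⊢
  intro k hk
  rcases Nat.lt_or_ge k n1 with h | h
  · exact h1 k h
  · obtain ⟨j, rfl⟩ := Nat.exists_eq_add_of_le h
    have h3 := h2 j (by omega)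
    rw [frc_eq] at h3 ⊢
    have e : Nat.add lo (n1 + j) = Nat.add (lo + n1) j := (Nat.add_assoc lo n1 j).symm
    rw [e]
    exact h3

/-- Two parts of a check of strips. -/
theorem t3_two (O : Ops) (a0 lo n1 n2 m n : ℕ) (hm : lo + n1 = m) (hn : n1 + n2 = n)
    (h1 : O.t3 a0 lo n1 = true) (h2 : O.t3 a0 m n2 = true) : O.t3 a0 lo n = true :=
  allR_two (fun X2 => O.chk3 a0 X2) lo n1 n2 m n hm hn h1 h2

/-- Two parts of a check of cubes. -/
theorem t4_two (O : Ops) (X0 lo n1 n2 m n : ℕ) (hm : lo + n1 = m) (hn : n1 + n2 = n)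
    (h1 : O.t4 X0 lo n1 = true) (h2 : O.t4 X0 m n2 = true) : O.t4 X0 lo n = true :=
  allR_two (fun X1 => Ops.bi (Nat.blt (O.orb X1) (O.orb X0)) true (O.chk4 X0 X1)) lo n1 n2 m n
    hm hn h1 h2

end Pool.Agent.H54.RG
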