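import Pool.Agent.H54.RG.OpsB4
import Pool.Agent.H54.RG.Spl

/-!
# Project RG (MP_35eb49): checks of the cubes of type B4
-/

set_option autoImplicit false
set_option maxRecDepth 100000
set_option maxHeartbeats 0

namespace Pool.Agent.H54.RG

open Pool.Agent.H54.RF

/-- The checks of this file. They are in one theorem, so that they are done one after the other. -/
theorem q4B4_1 :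
    oB4.t4 41 0 21 = true ∧
    oB4.t4 41 21 9 = true ∧
    oB4.t4 41 30 6 = true ∧
    oB4.t4 41 36 6 = true ∧
    oB4.t4 41 42 5 = true ∧
    oB4.t4 41 47 4 = true ∧
    oB4.t4 41 51 4 = true ∧
    oB4.t4 41 55 4 = true ∧
    oB4.t4 41 59 1 = true ∧
    oB4.t4 41 60 1 = true ∧
    oB4.t4 41 61 1 = true ∧
    oB4.t4 41 62 1 = true ∧
    oB4.t4 41 63 2 = true ∧
    oB4.t4 41 65 1 = true ∧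
    oB4.t4 41 66 1 = true ∧
    oB4.t4 41 67 1 = true ∧
    oB4.t4 45 0 24 = true ∧
    oB4.t4 45 24 10 = true ∧
    oB4.t4 45 34 8 = true ∧
    oB4.t4 45 42 6 = true ∧
    oB4.t4 45 48 6 = true ∧
    oB4.t4 45 54 5 = true ∧
    oB4.t4 45 59 5 = true ∧
    oB4.t4 45 64 4 = true ∧
    oB4.t4 49 0 19 = true ∧
    oB4.t4 49 19 9 = true ∧
    oB4.t4 49 28 6 = true ∧
    oB4.t4 49 34 5 = true ∧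
    oB4.t4 49 39 4 = true ∧
    oB4.t4 49 43 5 = true ∧
    oB4.t4 49 48 3 = true ∧
    oB4.t4 49 51 4 = true ∧
    oB4.t4 49 55 2 = true ∧
    oB4.t4 49 57 1 = true ∧
    oB4.t4 49 58 2 = true ∧
    oB4.t4 49 60 1 = true ∧
    oB4.t4 49 61 2 = true ∧
    oB4.t4 49 63 2 = true ∧
    oB4.t4 49 65 1 = true ∧
    oB4.t4 49 66 2 = true ∧
    oB4.t4 53 0 24 = true ∧
    oB4.t4 53 24 10 = true ∧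
    oB4.t4 53 34 8 = true ∧
    oB4.t4 53 42 6 = true ∧
    oB4.t4 53 48 6 = true ∧
    oB4.t4 53 54 5 = true ∧
    oB4.t4 53 59 5 = true ∧
    oB4.t4 53 64 4 = true ∧
    oB4.t4 57 0 24 = true ∧
    oB4.t4 57 24 10 = true ∧
    oB4.t4 57 34 8 = true ∧
    oB4.t4 57 42 6 = true ∧
    oB4.t4 57 48 6 = true ∧
    oB4.t4 57 54 5 = true ∧
    oB4.t4 57 59 5 = true ∧
    oB4.t4 57 64 4 = true ∧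
    oB4.t4 61 0 24 = true ∧
    oB4.t4 61 24 10 = true ∧
    oB4.t4 61 34 8 = true ∧
    oB4.t4 61 42 6 = true ∧
    oB4.t4 61 48 6 = true ∧
    oB4.t4 61 54 5 = true ∧
    oB4.t4 61 59 5 = true ∧
    oB4.t4 61 64 4 = true ∧
    oB4.t4 65 0 24 = true ∧
    oB4.t4 65 24 10 = true ∧
    oB4.t4 65 34 8 = true ∧
    oB4.t4 65 42 6 = true ∧
    oB4.t4 65 48 6 = true ∧
    oB4.t4 65 54 5 = true ∧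
    oB4.t4 65 59 5 = true ∧
    oB4.t4 65 64 4 = true ∧
    oB4.t4 67 0 24 = true ∧
    oB4.t4 67 24 10 = true ∧
    oB4.t4 67 34 8 = true ∧
    oB4.t4 67 42 6 = true ∧
    oB4.t4 67 48 6 = true ∧
    oB4.t4 67 54 5 = true ∧
    oB4.t4 67 59 5 = true ∧
    oB4.t4 67 64 4 = true := by
  refine ⟨?_, ?_, ?_, ?_, ?_, ?_, ?_, ?_, ?_, ?_, ?_, ?_, ?_, ?_, ?_, ?_, ?_, ?_, ?_, ?_,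
    ?_, ?_, ?_, ?_, ?_, ?_, ?_, ?_, ?_, ?_, ?_, ?_, ?_, ?_, ?_, ?_, ?_, ?_, ?_, ?_,
    ?_, ?_, ?_, ?_, ?_, ?_, ?_, ?_, ?_, ?_, ?_, ?_, ?_, ?_, ?_, ?_, ?_, ?_, ?_, ?_,
    ?_, ?_, ?_, ?_, ?_, ?_, ?_, ?_, ?_, ?_, ?_, ?_, ?_, ?_, ?_, ?_, ?_, ?_, ?_, ?_⟩
  · decide +kernel
  · decide +kernel
  · decide +kernel
  · decide +kernel
  · decide +kernel
  · decide +kernel
  · decide +kernel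
  · decide +kernel
  · decide +kernel
  · decide +kernel
  · decide +kernel
  · decide +kernel
  · decide +kernel
  · decide +kernel
  · decide +kernel
  · decide +kernel
  · decide +kernel
  · decide +kernel
  · decide +kernel
  · decide +kernel
  · decide +kernel
  · decide +kernel
  · decide +kernel
  · decide +kernel
  · decide +kernel
  · decide +kernel
  · decide +kernel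
  · decide +kernel
  · decide +kernel
  · decide +kernel
  · decide +kernel
  · decide +kernel
  · decide +kernel
  · decide +kernel
  · decide +kernel
  · decide +kernel
  · decide +kernel
  · decide +kernel
  · decide +kernel
  · decide +kernel
  · decide +kernel
  · decide +kernel
  · decide +kernel
  · decide +kernel
  · decide +kernel
  · decide +kernel
  · decide +kernel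
  · decide +kernel
  · decide +kernel
  · decide +kernel
  · decide +kernel
  · decide +kernel
  · decide +kernel
  · decide +kernel
  · decide +kernel
  · decide +kernel
  · decide +kernel
  · decide +kernel
  · decide +kernel
  · decide +kernel
  · decide +kernel
  · decide +kernel
  · decide +kernel
  · decide +kernel
  · decide +kernel
  · decide +kernel
  · decide +kernel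
  · decide +kernel
  · decide +kernel
  · decide +kernel
  · decide +kernel
  · decide +kernel
  · decide +kernel
  · decide +kernel
  · decide +kernel
  · decide +kernel
  · decide +kernel
  · decide +kernel
  · decide +kernel
  · decide +kernel

theorem s4B4_41_0 : oB4.t4 41 0 59 = true :=
  (t4_two oB4 41 0 21 38 21 59 rfl rfl
    q4B4_1.1
    (t4_two oB4 41 21 9 29 30 38 rfl rfl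
    q4B4_1.2.1
    (t4_two oB4 41 30 6 23 36 29 rfl rfl
    q4B4_1.2.2.1
    (t4_two oB4 41 36 6 17 42 23 rfl rfl
    q4B4_1.2.2.2.1
    (t4_two oB4 41 42 5 12 47 17 rfl rfl
    q4B4_1.2.2.2.2.1
    (t4_two oB4 41 47 4 8 51 12 rfl rfl
    q4B4_1.2.2.2.2.2.1
    (t4_two oB4 41 51 4 4 55 8 rfl rfl
    q4B4_1.2.2.2.2.2.2.1
    q4B4_1.2.2.2.2.2.2.2.1)))))))

theorem s4B4_41_59 : oB4.t4 41 59 9 = true :=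
  (t4_two oB4 41 59 1 8 60 9 rfl rfl
    q4B4_1.2.2.2.2.2.2.2.2.1
    (t4_two oB4 41 60 1 7 61 8 rfl rfl
    q4B4_1.2.2.2.2.2.2.2.2.2.1
    (t4_two oB4 41 61 1 6 62 7 rfl rfl
    q4B4_1.2.2.2.2.2.2.2.2.2.2.1
    (t4_two oB4 41 62 1 5 63 6 rfl rfl
    q4B4_1.2.2.2.2.2.2.2.2.2.2.2.1
    (t4_two oB4 41 63 2 3 65 5 rfl rfl
    q4B4_1.2.2.2.2.2.2.2.2.2.2.2.2.1
    (t4_two oB4 41 65 1 2 66 3 rfl rfl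
    q4B4_1.2.2.2.2.2.2.2.2.2.2.2.2.2.1
    (t4_two oB4 41 66 1 1 67 2 rfl rfl
    q4B4_1.2.2.2.2.2.2.2.2.2.2.2.2.2.2.1
    q4B4_1.2.2.2.2.2.2.2.2.2.2.2.2.2.2.2.1)))))))

theorem s4B4_45_0 : oB4.t4 45 0 68 = true :=
  (t4_two oB4 45 0 24 44 24 68 rfl rfl
    q4B4_1.2.2.2.2.2.2.2.2.2.2.2.2.2.2.2.2.1
    (t4_two oB4 45 24 10 34 34 44 rfl rfl
    q4B4_1.2.2.2.2.2.2.2.2.2.2.2.2.2.2.2.2.2.1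
    (t4_two oB4 45 34 8 26 42 34 rfl rfl
    q4B4_1.2.2.2.2.2.2.2.2.2.2.2.2.2.2.2.2.2.2.1
    (t4_two oB4 45 42 6 20 48 26 rfl rfl
    q4B4_1.2.2.2.2.2.2.2.2.2.2.2.2.2.2.2.2.2.2.2.1
    (t4_two oB4 45 48 6 14 54 20 rfl rfl
    q4B4_1.2.2.2.2.2.2.2.2.2.2.2.2.2.2.2.2.2.2.2.2.1
    (t4_two oB4 45 54 5 9 59 14 rfl rfl
    q4B4_1.2.2.2.2.2.2.2.2.2.2.2.2.2.2.2.2.2.2.2.2.2.1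
    (t4_two oB4 45 59 5 4 64 9 rfl rfl
    q4B4_1.2.2.2.2.2.2.2.2.2.2.2.2.2.2.2.2.2.2.2.2.2.2.1
    q4B4_1.2.2.2.2.2.2.2.2.2.2.2.2.2.2.2.2.2.2.2.2.2.2.2.1)))))))

theorem s4B4_49_0 : oB4.t4 49 0 55 = true :=
  (t4_two oB4 49 0 19 36 19 55 rfl rfl
    q4B4_1.2.2.2.2.2.2.2.2.2.2.2.2.2.2.2.2.2.2.2.2.2.2.2.2.1
    (t4_two oB4 49 19 9 27 28 36 rfl rfl
    q4B4_1.2.2.2.2.2.2.2.2.2.2.2.2.2.2.2.2.2.2.2.2.2.2.2.2.2.1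
    (t4_two oB4 49 28 6 21 34 27 rfl rfl
    q4B4_1.2.2.2.2.2.2.2.2.2.2.2.2.2.2.2.2.2.2.2.2.2.2.2.2.2.2.1
    (t4_two oB4 49 34 5 16 39 21 rfl rfl
    q4B4_1.2.2.2.2.2.2.2.2.2.2.2.2.2.2.2.2.2.2.2.2.2.2.2.2.2.2.2.1
    (t4_two oB4 49 39 4 12 43 16 rfl rfl
    q4B4_1.2.2.2.2.2.2.2.2.2.2.2.2.2.2.2.2.2.2.2.2.2.2.2.2.2.2.2.2.1
    (t4_two oB4 49 43 5 7 48 12 rfl rfl
    q4B4_1.2.2.2.2.2.2.2.2.2.2.2.2.2.2.2.2.2.2.2.2.2.2.2.2.2.2.2.2.2.1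
    (t4_two oB4 49 48 3 4 51 7 rfl rfl
    q4B4_1.2.2.2.2.2.2.2.2.2.2.2.2.2.2.2.2.2.2.2.2.2.2.2.2.2.2.2.2.2.2.1
    q4B4_1.2.2.2.2.2.2.2.2.2.2.2.2.2.2.2.2.2.2.2.2.2.2.2.2.2.2.2.2.2.2.2.1)))))))

theorem s4B4_49_55 : oB4.t4 49 55 13 = true :=
  (t4_two oB4 49 55 2 11 57 13 rfl rfl
    q4B4_1.2.2.2.2.2.2.2.2.2.2.2.2.2.2.2.2.2.2.2.2.2.2.2.2.2.2.2.2.2.2.2.2.1
    (t4_two oB4 49 57 1 10 58 11 rfl rfl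
    q4B4_1.2.2.2.2.2.2.2.2.2.2.2.2.2.2.2.2.2.2.2.2.2.2.2.2.2.2.2.2.2.2.2.2.2.1
    (t4_two oB4 49 58 2 8 60 10 rfl rfl
    q4B4_1.2.2.2.2.2.2.2.2.2.2.2.2.2.2.2.2.2.2.2.2.2.2.2.2.2.2.2.2.2.2.2.2.2.2.1
    (t4_two oB4 49 60 1 7 61 8 rfl rfl
    q4B4_1.2.2.2.2.2.2.2.2.2.2.2.2.2.2.2.2.2.2.2.2.2.2.2.2.2.2.2.2.2.2.2.2.2.2.2.1
    (t4_two oB4 49 61 2 5 63 7 rfl rfl
    q4B4_1.2.2.2.2.2.2.2.2.2.2.2.2.2.2.2.2.2.2.2.2.2.2.2.2.2.2.2.2.2.2.2.2.2.2.2.2.1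
    (t4_two oB4 49 63 2 3 65 5 rfl rfl
    q4B4_1.2.2.2.2.2.2.2.2.2.2.2.2.2.2.2.2.2.2.2.2.2.2.2.2.2.2.2.2.2.2.2.2.2.2.2.2.2.1
    (t4_two oB4 49 65 1 2 66 3 rfl rfl
    q4B4_1.2.2.2.2.2.2.2.2.2.2.2.2.2.2.2.2.2.2.2.2.2.2.2.2.2.2.2.2.2.2.2.2.2.2.2.2.2.2.1
    q4B4_1.2.2.2.2.2.2.2.2.2.2.2.2.2.2.2.2.2.2.2.2.2.2.2.2.2.2.2.2.2.2.2.2.2.2.2.2.2.2.2.1)))))))

theorem s4B4_53_0 : oB4.t4 53 0 68 = true :=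
  (t4_two oB4 53 0 24 44 24 68 rfl rfl
    q4B4_1.2.2.2.2.2.2.2.2.2.2.2.2.2.2.2.2.2.2.2.2.2.2.2.2.2.2.2.2.2.2.2.2.2.2.2.2.2.2.2.2.1
    (t4_two oB4 53 24 10 34 34 44 rfl rfl
    q4B4_1.2.2.2.2.2.2.2.2.2.2.2.2.2.2.2.2.2.2.2.2.2.2.2.2.2.2.2.2.2.2.2.2.2.2.2.2.2.2.2.2.2.1
    (t4_two oB4 53 34 8 26 42 34 rfl rfl
    q4B4_1.2.2.2.2.2.2.2.2.2.2.2.2.2.2.2.2.2.2.2.2.2.2.2.2.2.2.2.2.2.2.2.2.2.2.2.2.2.2.2.2.2.2.1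
    (t4_two oB4 53 42 6 20 48 26 rfl rfl
    q4B4_1.2.2.2.2.2.2.2.2.2.2.2.2.2.2.2.2.2.2.2.2.2.2.2.2.2.2.2.2.2.2.2.2.2.2.2.2.2.2.2.2.2.2.2.1
    (t4_two oB4 53 48 6 14 54 20 rfl rfl
    q4B4_1.2.2.2.2.2.2.2.2.2.2.2.2.2.2.2.2.2.2.2.2.2.2.2.2.2.2.2.2.2.2.2.2.2.2.2.2.2.2.2.2.2.2.2.2.1
    (t4_two oB4 53 54 5 9 59 14 rfl rfl
    q4B4_1.2.2.2.2.2.2.2.2.2.2.2.2.2.2.2.2.2.2.2.2.2.2.2.2.2.2.2.2.2.2.2.2.2.2.2.2.2.2.2.2.2.2.2.2.2.1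
    (t4_two oB4 53 59 5 4 64 9 rfl rfl
    q4B4_1.2.2.2.2.2.2.2.2.2.2.2.2.2.2.2.2.2.2.2.2.2.2.2.2.2.2.2.2.2.2.2.2.2.2.2.2.2.2.2.2.2.2.2.2.2.2.1
    q4B4_1.2.2.2.2.2.2.2.2.2.2.2.2.2.2.2.2.2.2.2.2.2.2.2.2.2.2.2.2.2.2.2.2.2.2.2.2.2.2.2.2.2.2.2.2.2.2.2.1)))))))

theorem s4B4_57_0 : oB4.t4 57 0 68 = true :=
  (t4_two oB4 57 0 24 44 24 68 rfl rfl
    q4B4_1.2.2.2.2.2.2.2.2.2.2.2.2.2.2.2.2.2.2.2.2.2.2.2.2.2.2.2.2.2.2.2.2.2.2.2.2.2.2.2.2.2.2.2.2.2.2.2.2.1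
    (t4_two oB4 57 24 10 34 34 44 rfl rfl
    q4B4_1.2.2.2.2.2.2.2.2.2.2.2.2.2.2.2.2.2.2.2.2.2.2.2.2.2.2.2.2.2.2.2.2.2.2.2.2.2.2.2.2.2.2.2.2.2.2.2.2.2.1
    (t4_two oB4 57 34 8 26 42 34 rfl rfl
    q4B4_1.2.2.2.2.2.2.2.2.2.2.2.2.2.2.2.2.2.2.2.2.2.2.2.2.2.2.2.2.2.2.2.2.2.2.2.2.2.2.2.2.2.2.2.2.2.2.2.2.2.2.1
    (t4_two oB4 57 42 6 20 48 26 rfl rfl
    q4B4_1.2.2.2.2.2.2.2.2.2.2.2.2.2.2.2.2.2.2.2.2.2.2.2.2.2.2.2.2.2.2.2.2.2.2.2.2.2.2.2.2.2.2.2.2.2.2.2.2.2.2.2.1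
    (t4_two oB4 57 48 6 14 54 20 rfl rfl
    q4B4_1.2.2.2.2.2.2.2.2.2.2.2.2.2.2.2.2.2.2.2.2.2.2.2.2.2.2.2.2.2.2.2.2.2.2.2.2.2.2.2.2.2.2.2.2.2.2.2.2.2.2.2.2.1
    (t4_two oB4 57 54 5 9 59 14 rfl rfl
    q4B4_1.2.2.2.2.2.2.2.2.2.2.2.2.2.2.2.2.2.2.2.2.2.2.2.2.2.2.2.2.2.2.2.2.2.2.2.2.2.2.2.2.2.2.2.2.2.2.2.2.2.2.2.2.2.1
    (t4_two oB4 57 59 5 4 64 9 rfl rfl
    q4B4_1.2.2.2.2.2.2.2.2.2.2.2.2.2.2.2.2.2.2.2.2.2.2.2.2.2.2.2.2.2.2.2.2.2.2.2.2.2.2.2.2.2.2.2.2.2.2.2.2.2.2.2.2.2.2.1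
    q4B4_1.2.2.2.2.2.2.2.2.2.2.2.2.2.2.2.2.2.2.2.2.2.2.2.2.2.2.2.2.2.2.2.2.2.2.2.2.2.2.2.2.2.2.2.2.2.2.2.2.2.2.2.2.2.2.2.1)))))))

theorem s4B4_61_0 : oB4.t4 61 0 68 = true :=
  (t4_two oB4 61 0 24 44 24 68 rfl rfl
    q4B4_1.2.2.2.2.2.2.2.2.2.2.2.2.2.2.2.2.2.2.2.2.2.2.2.2.2.2.2.2.2.2.2.2.2.2.2.2.2.2.2.2.2.2.2.2.2.2.2.2.2.2.2.2.2.2.2.2.1
    (t4_two oB4 61 24 10 34 34 44 rfl rfl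
    q4B4_1.2.2.2.2.2.2.2.2.2.2.2.2.2.2.2.2.2.2.2.2.2.2.2.2.2.2.2.2.2.2.2.2.2.2.2.2.2.2.2.2.2.2.2.2.2.2.2.2.2.2.2.2.2.2.2.2.2.1
    (t4_two oB4 61 34 8 26 42 34 rfl rfl
    q4B4_1.2.2.2.2.2.2.2.2.2.2.2.2.2.2.2.2.2.2.2.2.2.2.2.2.2.2.2.2.2.2.2.2.2.2.2.2.2.2.2.2.2.2.2.2.2.2.2.2.2.2.2.2.2.2.2.2.2.2.1
    (t4_two oB4 61 42 6 20 48 26 rfl rfl
    q4B4_1.2.2.2.2.2.2.2.2.2.2.2.2.2.2.2.2.2.2.2.2.2.2.2.2.2.2.2.2.2.2.2.2.2.2.2.2.2.2.2.2.2.2.2.2.2.2.2.2.2.2.2.2.2.2.2.2.2.2.2.1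
    (t4_two oB4 61 48 6 14 54 20 rfl rfl
    q4B4_1.2.2.2.2.2.2.2.2.2.2.2.2.2.2.2.2.2.2.2.2.2.2.2.2.2.2.2.2.2.2.2.2.2.2.2.2.2.2.2.2.2.2.2.2.2.2.2.2.2.2.2.2.2.2.2.2.2.2.2.2.1
    (t4_two oB4 61 54 5 9 59 14 rfl rfl
    q4B4_1.2.2.2.2.2.2.2.2.2.2.2.2.2.2.2.2.2.2.2.2.2.2.2.2.2.2.2.2.2.2.2.2.2.2.2.2.2.2.2.2.2.2.2.2.2.2.2.2.2.2.2.2.2.2.2.2.2.2.2.2.2.1
    (t4_two oB4 61 59 5 4 64 9 rfl rfl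
    q4B4_1.2.2.2.2.2.2.2.2.2.2.2.2.2.2.2.2.2.2.2.2.2.2.2.2.2.2.2.2.2.2.2.2.2.2.2.2.2.2.2.2.2.2.2.2.2.2.2.2.2.2.2.2.2.2.2.2.2.2.2.2.2.2.1
    q4B4_1.2.2.2.2.2.2.2.2.2.2.2.2.2.2.2.2.2.2.2.2.2.2.2.2.2.2.2.2.2.2.2.2.2.2.2.2.2.2.2.2.2.2.2.2.2.2.2.2.2.2.2.2.2.2.2.2.2.2.2.2.2.2.2.1)))))))

theorem s4B4_65_0 : oB4.t4 65 0 68 = true :=
  (t4_two oB4 65 0 24 44 24 68 rfl rfl
    q4B4_1.2.2.2.2.2.2.2.2.2.2.2.2.2.2.2.2.2.2.2.2.2.2.2.2.2.2.2.2.2.2.2.2.2.2.2.2.2.2.2.2.2.2.2.2.2.2.2.2.2.2.2.2.2.2.2.2.2.2.2.2.2.2.2.2.1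
    (t4_two oB4 65 24 10 34 34 44 rfl rfl
    q4B4_1.2.2.2.2.2.2.2.2.2.2.2.2.2.2.2.2.2.2.2.2.2.2.2.2.2.2.2.2.2.2.2.2.2.2.2.2.2.2.2.2.2.2.2.2.2.2.2.2.2.2.2.2.2.2.2.2.2.2.2.2.2.2.2.2.2.1
    (t4_two oB4 65 34 8 26 42 34 rfl rfl
    q4B4_1.2.2.2.2.2.2.2.2.2.2.2.2.2.2.2.2.2.2.2.2.2.2.2.2.2.2.2.2.2.2.2.2.2.2.2.2.2.2.2.2.2.2.2.2.2.2.2.2.2.2.2.2.2.2.2.2.2.2.2.2.2.2.2.2.2.2.1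
    (t4_two oB4 65 42 6 20 48 26 rfl rfl
    q4B4_1.2.2.2.2.2.2.2.2.2.2.2.2.2.2.2.2.2.2.2.2.2.2.2.2.2.2.2.2.2.2.2.2.2.2.2.2.2.2.2.2.2.2.2.2.2.2.2.2.2.2.2.2.2.2.2.2.2.2.2.2.2.2.2.2.2.2.2.1
    (t4_two oB4 65 48 6 14 54 20 rfl rfl
    q4B4_1.2.2.2.2.2.2.2.2.2.2.2.2.2.2.2.2.2.2.2.2.2.2.2.2.2.2.2.2.2.2.2.2.2.2.2.2.2.2.2.2.2.2.2.2.2.2.2.2.2.2.2.2.2.2.2.2.2.2.2.2.2.2.2.2.2.2.2.2.1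
    (t4_two oB4 65 54 5 9 59 14 rfl rfl
    q4B4_1.2.2.2.2.2.2.2.2.2.2.2.2.2.2.2.2.2.2.2.2.2.2.2.2.2.2.2.2.2.2.2.2.2.2.2.2.2.2.2.2.2.2.2.2.2.2.2.2.2.2.2.2.2.2.2.2.2.2.2.2.2.2.2.2.2.2.2.2.2.1
    (t4_two oB4 65 59 5 4 64 9 rfl rfl
    q4B4_1.2.2.2.2.2.2.2.2.2.2.2.2.2.2.2.2.2.2.2.2.2.2.2.2.2.2.2.2.2.2.2.2.2.2.2.2.2.2.2.2.2.2.2.2.2.2.2.2.2.2.2.2.2.2.2.2.2.2.2.2.2.2.2.2.2.2.2.2.2.2.1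
    q4B4_1.2.2.2.2.2.2.2.2.2.2.2.2.2.2.2.2.2.2.2.2.2.2.2.2.2.2.2.2.2.2.2.2.2.2.2.2.2.2.2.2.2.2.2.2.2.2.2.2.2.2.2.2.2.2.2.2.2.2.2.2.2.2.2.2.2.2.2.2.2.2.2.1)))))))

theorem s4B4_67_0 : oB4.t4 67 0 68 = true :=
  (t4_two oB4 67 0 24 44 24 68 rfl rfl
    q4B4_1.2.2.2.2.2.2.2.2.2.2.2.2.2.2.2.2.2.2.2.2.2.2.2.2.2.2.2.2.2.2.2.2.2.2.2.2.2.2.2.2.2.2.2.2.2.2.2.2.2.2.2.2.2.2.2.2.2.2.2.2.2.2.2.2.2.2.2.2.2.2.2.2.1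
    (t4_two oB4 67 24 10 34 34 44 rfl rfl
    q4B4_1.2.2.2.2.2.2.2.2.2.2.2.2.2.2.2.2.2.2.2.2.2.2.2.2.2.2.2.2.2.2.2.2.2.2.2.2.2.2.2.2.2.2.2.2.2.2.2.2.2.2.2.2.2.2.2.2.2.2.2.2.2.2.2.2.2.2.2.2.2.2.2.2.2.1
    (t4_two oB4 67 34 8 26 42 34 rfl rfl
    q4B4_1.2.2.2.2.2.2.2.2.2.2.2.2.2.2.2.2.2.2.2.2.2.2.2.2.2.2.2.2.2.2.2.2.2.2.2.2.2.2.2.2.2.2.2.2.2.2.2.2.2.2.2.2.2.2.2.2.2.2.2.2.2.2.2.2.2.2.2.2.2.2.2.2.2.2.1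
    (t4_two oB4 67 42 6 20 48 26 rfl rfl
    q4B4_1.2.2.2.2.2.2.2.2.2.2.2.2.2.2.2.2.2.2.2.2.2.2.2.2.2.2.2.2.2.2.2.2.2.2.2.2.2.2.2.2.2.2.2.2.2.2.2.2.2.2.2.2.2.2.2.2.2.2.2.2.2.2.2.2.2.2.2.2.2.2.2.2.2.2.2.1
    (t4_two oB4 67 48 6 14 54 20 rfl rfl
    q4B4_1.2.2.2.2.2.2.2.2.2.2.2.2.2.2.2.2.2.2.2.2.2.2.2.2.2.2.2.2.2.2.2.2.2.2.2.2.2.2.2.2.2.2.2.2.2.2.2.2.2.2.2.2.2.2.2.2.2.2.2.2.2.2.2.2.2.2.2.2.2.2.2.2.2.2.2.2.1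
    (t4_two oB4 67 54 5 9 59 14 rfl rfl
    q4B4_1.2.2.2.2.2.2.2.2.2.2.2.2.2.2.2.2.2.2.2.2.2.2.2.2.2.2.2.2.2.2.2.2.2.2.2.2.2.2.2.2.2.2.2.2.2.2.2.2.2.2.2.2.2.2.2.2.2.2.2.2.2.2.2.2.2.2.2.2.2.2.2.2.2.2.2.2.2.1
    (t4_two oB4 67 59 5 4 64 9 rfl rfl
    q4B4_1.2.2.2.2.2.2.2.2.2.2.2.2.2.2.2.2.2.2.2.2.2.2.2.2.2.2.2.2.2.2.2.2.2.2.2.2.2.2.2.2.2.2.2.2.2.2.2.2.2.2.2.2.2.2.2.2.2.2.2.2.2.2.2.2.2.2.2.2.2.2.2.2.2.2.2.2.2.2.1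
    q4B4_1.2.2.2.2.2.2.2.2.2.2.2.2.2.2.2.2.2.2.2.2.2.2.2.2.2.2.2.2.2.2.2.2.2.2.2.2.2.2.2.2.2.2.2.2.2.2.2.2.2.2.2.2.2.2.2.2.2.2.2.2.2.2.2.2.2.2.2.2.2.2.2.2.2.2.2.2.2.2.2)))))))

end Pool.Agent.H54.RG
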