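import Pool.Agent.H54.RK.Spec
import Pool.Agent.H54.RG.AsmL
import Pool.Agent.H54.RG.TstG
import Pool.Agent.H54.RG.CaB4
import Pool.Agent.H54.RG.CbB4
import Pool.Agent.H54.RG.CkB4
import Pool.Agent.H54.RG.S3B4_0
import Pool.Agent.H54.RG.S4B4_0
import Pool.Agent.H54.RG.S4B4_1

/-!
# Project RG (MP_35eb49): result of type B4
-/

set_option autoImplicit false
set_option maxHeartbeats 0
set_option maxRecDepth 100000

namespace Pool.Agent.H54.RG

open Pool.Agent.H54.RF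

theorem ck3B4 : Ck3 oB4 rB4 := by
  intro X0 hX X1 h1 h2
  have h3 : X1 < 69 := h2
  simp only [rB4, List.mem_cons, List.not_mem_nil, or_false] at hX
  rcases hX with rfl | rfl | rfl | rfl | rfl | rfl | rfl | rfl | rfl | rfl | rfl | rfl | rfl | rfl | rfl | rfl | rfl | rfl
  · exact Ops.t3_spec _ s3B4_1_0 X1 (by omega) (by omega)
  · exact Ops.t3_spec _ s3B4_5_0 X1 (by omega) (by omega)
  · exact Ops.t3_spec _ s3B4_9_0 X1 (by omega) (by omega)
  · exact Ops.t3_spec _ s3B4_13_0 X1 (by omega) (by omega)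
  · exact Ops.t3_spec _ s3B4_17_0 X1 (by omega) (by omega)
  · exact Ops.t3_spec _ s3B4_21_0 X1 (by omega) (by omega)
  · exact Ops.t3_spec _ s3B4_25_0 X1 (by omega) (by omega)
  · exact Ops.t3_spec _ s3B4_29_0 X1 (by omega) (by omega)
  · exact Ops.t3_spec _ s3B4_33_0 X1 (by omega) (by omega)
  · exact Ops.t3_spec _ s3B4_37_0 X1 (by omega) (by omega)
  · exact Ops.t3_spec _ s3B4_41_0 X1 (by omega) (by omega)
  · exact Ops.t3_spec _ s3B4_45_0 X1 (by omega) (by omega)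
  · exact Ops.t3_spec _ s3B4_49_0 X1 (by omega) (by omega)
  · exact Ops.t3_spec _ s3B4_53_0 X1 (by omega) (by omega)
  · exact Ops.t3_spec _ s3B4_57_0 X1 (by omega) (by omega)
  · exact Ops.t3_spec _ s3B4_61_0 X1 (by omega) (by omega)
  · exact Ops.t3_spec _ s3B4_65_0 X1 (by omega) (by omega)
  · exact Ops.t3_spec _ s3B4_67_0 X1 (by omega) (by omega)

theorem ck4B4 : Ck4 oB4 rB4 := by
  intro X0 hX X1 h1 h2 h4
  have h3 : X1 < 69 := h2
  simp only [rB4, List.mem_cons, List.not_mem_nil, or_false] at hX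
  rcases hX with rfl | rfl | rfl | rfl | rfl | rfl | rfl | rfl | rfl | rfl | rfl | rfl | rfl | rfl | rfl | rfl | rfl | rfl
  · exact Ops.t4_spec _ s4B4_1_0 X1 (by omega) (by omega) h4
  · exact Ops.t4_spec _ s4B4_5_0 X1 (by omega) (by omega) h4
  · exact Ops.t4_spec _ s4B4_9_0 X1 (by omega) (by omega) h4
  · exact Ops.t4_spec _ s4B4_13_0 X1 (by omega) (by omega) h4
  · exact Ops.t4_spec _ s4B4_17_0 X1 (by omega) (by omega) h4
  · rcases Nat.lt_or_ge 54 X1 with h5 | h5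
    swap
    · exact Ops.t4_spec _ s4B4_21_0 X1 (by omega) (by omega) h4
    exact Ops.t4_spec _ s4B4_21_54 X1 (by omega) (by omega) h4
  · rcases Nat.lt_or_ge 54 X1 with h5 | h5
    swap
    · exact Ops.t4_spec _ s4B4_25_0 X1 (by omega) (by omega) h4
    exact Ops.t4_spec _ s4B4_25_54 X1 (by omega) (by omega) h4
  · rcases Nat.lt_or_ge 53 X1 with h5 | h5
    swap
    · exact Ops.t4_spec _ s4B4_29_0 X1 (by omega) (by omega) h4
    exact Ops.t4_spec _ s4B4_29_53 X1 (by omega) (by omega) h4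
  · rcases Nat.lt_or_ge 57 X1 with h5 | h5
    swap
    · exact Ops.t4_spec _ s4B4_33_0 X1 (by omega) (by omega) h4
    exact Ops.t4_spec _ s4B4_33_57 X1 (by omega) (by omega) h4
  · rcases Nat.lt_or_ge 53 X1 with h5 | h5
    swap
    · exact Ops.t4_spec _ s4B4_37_0 X1 (by omega) (by omega) h4
    exact Ops.t4_spec _ s4B4_37_53 X1 (by omega) (by omega) h4
  · rcases Nat.lt_or_ge 59 X1 with h5 | h5
    swap
    · exact Ops.t4_spec _ s4B4_41_0 X1 (by omega) (by omega) h4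
    exact Ops.t4_spec _ s4B4_41_59 X1 (by omega) (by omega) h4
  · exact Ops.t4_spec _ s4B4_45_0 X1 (by omega) (by omega) h4
  · rcases Nat.lt_or_ge 55 X1 with h5 | h5
    swap
    · exact Ops.t4_spec _ s4B4_49_0 X1 (by omega) (by omega) h4
    exact Ops.t4_spec _ s4B4_49_55 X1 (by omega) (by omega) h4
  · exact Ops.t4_spec _ s4B4_53_0 X1 (by omega) (by omega) h4
  · exact Ops.t4_spec _ s4B4_57_0 X1 (by omega) (by omega) h4
  · exact Ops.t4_spec _ s4B4_61_0 X1 (by omega) (by omega) h4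
  · exact Ops.t4_spec _ s4B4_65_0 X1 (by omega) (by omega) h4
  · exact Ops.t4_spec _ s4B4_67_0 X1 (by omega) (by omega) h4

theorem conclB4 (hL : SpLine3) (hcone : SpCone) : Concl Pool.Agent.H54.RK.MB4 :=
  asmDL hcone Pool.Agent.H54.RK.MB4 (by decide) dB4 dcB4 xB4 xcB4 rfl
    (by intro i j; fin_cases i <;> fin_cases j <;> rfl) orB4 oB4 eB4 rB4 oaB4 obB4 ocB4
    opB4 16 onB4
    (fun S _ ix sf F D h1 h2 h3 => hL S oB4 rB4 ix sf F D h1 h2 h3 ck3B4 ck4B4)
    kkB4 atB4 ogB4 xxB4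

end Pool.Agent.H54.RG
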