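import Pool.Agent.H54.RG.OpsD4
import Pool.Agent.H54.RG.Chk3

/-!
# Project RG (MP_35eb49): checks of the strips of type D4
-/

set_option autoImplicit false
set_option maxRecDepth 100000
set_option maxHeartbeats 0

namespace Pool.Agent.H54.RG

open Pool.Agent.H54.RF

/-- The checks of this file. They are in one theorem, so that they are done one after the other. -/
theorem q3D4_0 :
    oD4.t3 1 0 48 = true ∧
    oD4.t3 4 0 48 = true ∧
    oD4.t3 7 0 48 = true ∧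
    oD4.t3 10 0 48 = true ∧
    oD4.t3 13 0 48 = true ∧
    oD4.t3 16 0 48 = true ∧
    oD4.t3 19 0 48 = true ∧
    oD4.t3 22 0 48 = true ∧
    oD4.t3 25 0 48 = true ∧
    oD4.t3 28 0 48 = true ∧
    oD4.t3 31 0 48 = true ∧
    oD4.t3 34 0 48 = true ∧
    oD4.t3 37 0 48 = true ∧
    oD4.t3 40 0 48 = true ∧
    oD4.t3 43 0 48 = true ∧
    oD4.t3 46 0 48 = true := by
  refine ⟨?_, ?_, ?_, ?_, ?_, ?_, ?_, ?_, ?_, ?_, ?_, ?_, ?_, ?_, ?_, ?_⟩
  · decide +kernel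
  · decide +kernel
  · decide +kernel
  · decide +kernel
  · decide +kernel
  · decide +kernel
  · decide +kernel
  · decide +kernel
  · decide +kernel
  · decide +kernel
  · decide +kernel
  · decide +kernel
  · decide +kernel
  · decide +kernel
  · decide +kernel
  · decide +kernel

theorem s3D4_1_0 : oD4.t3 1 0 48 = true := q3D4_0.1

theorem s3D4_4_0 : oD4.t3 4 0 48 = true := q3D4_0.2.1

theorem s3D4_7_0 : oD4.t3 7 0 48 = true := q3D4_0.2.2.1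

theorem s3D4_10_0 : oD4.t3 10 0 48 = true := q3D4_0.2.2.2.1

theorem s3D4_13_0 : oD4.t3 13 0 48 = true := q3D4_0.2.2.2.2.1

theorem s3D4_16_0 : oD4.t3 16 0 48 = true := q3D4_0.2.2.2.2.2.1

theorem s3D4_19_0 : oD4.t3 19 0 48 = true := q3D4_0.2.2.2.2.2.2.1

theorem s3D4_22_0 : oD4.t3 22 0 48 = true := q3D4_0.2.2.2.2.2.2.2.1

theorem s3D4_25_0 : oD4.t3 25 0 48 = true := q3D4_0.2.2.2.2.2.2.2.2.1

theorem s3D4_28_0 : oD4.t3 28 0 48 = true := q3D4_0.2.2.2.2.2.2.2.2.2.1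

theorem s3D4_31_0 : oD4.t3 31 0 48 = true := q3D4_0.2.2.2.2.2.2.2.2.2.2.1

theorem s3D4_34_0 : oD4.t3 34 0 48 = true := q3D4_0.2.2.2.2.2.2.2.2.2.2.2.1

theorem s3D4_37_0 : oD4.t3 37 0 48 = true := q3D4_0.2.2.2.2.2.2.2.2.2.2.2.2.1

theorem s3D4_40_0 : oD4.t3 40 0 48 = true := q3D4_0.2.2.2.2.2.2.2.2.2.2.2.2.2.1

theorem s3D4_43_0 : oD4.t3 43 0 48 = true := q3D4_0.2.2.2.2.2.2.2.2.2.2.2.2.2.2.1

theorem s3D4_46_0 : oD4.t3 46 0 48 = true := q3D4_0.2.2.2.2.2.2.2.2.2.2.2.2.2.2.2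

end Pool.Agent.H54.RG
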