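import Pool.Agent.H54.RG.OpsD4
import Pool.Agent.H54.RG.Chk3

/-!
# Project RG (MP_35eb49): checks of the cubes of type D4
-/

set_option autoImplicit false
set_option maxRecDepth 100000
set_option maxHeartbeats 0

namespace Pool.Agent.H54.RG

open Pool.Agent.H54.RF

/-- The checks of this file. They are in one theorem, so that they are done one after the other. -/
theorem q4D4_0 :
    oD4.t4 1 0 48 = true ∧
    oD4.t4 4 0 48 = true ∧
    oD4.t4 7 0 48 = true ∧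
    oD4.t4 10 0 48 = true ∧
    oD4.t4 13 0 48 = true ∧
    oD4.t4 16 0 48 = true ∧
    oD4.t4 19 0 48 = true ∧
    oD4.t4 22 0 48 = true ∧
    oD4.t4 25 0 48 = true ∧
    oD4.t4 28 0 48 = true ∧
    oD4.t4 31 0 48 = true ∧
    oD4.t4 34 0 48 = true ∧
    oD4.t4 37 0 48 = true ∧
    oD4.t4 40 0 48 = true ∧
    oD4.t4 43 0 48 = true ∧
    oD4.t4 46 0 48 = true := by
  refine ⟨?_, ?_, ?_, ?_, ?_, ?_, ?_, ?_, ?_, ?_, ?_, ?_, ?_, ?_, ?_, ?_⟩
  · decide +kernel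
  · decide +kernel
  · decide +kernel
  · decide +kernel
  · decide +kernel
  · decide +kernel
  · decide +kernel
  · decide +kernel
  · decide +kernel
  · decide +kernel
  · decide +kernel
  · decide +kernel
  · decide +kernel
  · decide +kernel
  · decide +kernel
  · decide +kernel

theorem s4D4_1_0 : oD4.t4 1 0 48 = true := q4D4_0.1

theorem s4D4_4_0 : oD4.t4 4 0 48 = true := q4D4_0.2.1

theorem s4D4_7_0 : oD4.t4 7 0 48 = true := q4D4_0.2.2.1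

theorem s4D4_10_0 : oD4.t4 10 0 48 = true := q4D4_0.2.2.2.1

theorem s4D4_13_0 : oD4.t4 13 0 48 = true := q4D4_0.2.2.2.2.1

theorem s4D4_16_0 : oD4.t4 16 0 48 = true := q4D4_0.2.2.2.2.2.1

theorem s4D4_19_0 : oD4.t4 19 0 48 = true := q4D4_0.2.2.2.2.2.2.1

theorem s4D4_22_0 : oD4.t4 22 0 48 = true := q4D4_0.2.2.2.2.2.2.2.1

theorem s4D4_25_0 : oD4.t4 25 0 48 = true := q4D4_0.2.2.2.2.2.2.2.2.1

theorem s4D4_28_0 : oD4.t4 28 0 48 = true := q4D4_0.2.2.2.2.2.2.2.2.2.1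

theorem s4D4_31_0 : oD4.t4 31 0 48 = true := q4D4_0.2.2.2.2.2.2.2.2.2.2.1

theorem s4D4_34_0 : oD4.t4 34 0 48 = true := q4D4_0.2.2.2.2.2.2.2.2.2.2.2.1

theorem s4D4_37_0 : oD4.t4 37 0 48 = true := q4D4_0.2.2.2.2.2.2.2.2.2.2.2.2.1

theorem s4D4_40_0 : oD4.t4 40 0 48 = true := q4D4_0.2.2.2.2.2.2.2.2.2.2.2.2.2.1

theorem s4D4_43_0 : oD4.t4 43 0 48 = true := q4D4_0.2.2.2.2.2.2.2.2.2.2.2.2.2.2.1

theorem s4D4_46_0 : oD4.t4 46 0 48 = true := q4D4_0.2.2.2.2.2.2.2.2.2.2.2.2.2.2.2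

end Pool.Agent.H54.RG
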