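import Pool.Agent.H54.RK.Spec
import Pool.Agent.H54.RG.AsmL
import Pool.Agent.H54.RG.TstG
import Pool.Agent.H54.RG.CaD4
import Pool.Agent.H54.RG.CbD4
import Pool.Agent.H54.RG.CkD4
import Pool.Agent.H54.RG.S3D4_0
import Pool.Agent.H54.RG.S4D4_0

/-!
# Project RG (MP_35eb49): result of type D4
-/

set_option autoImplicit false
set_option maxHeartbeats 0
set_option maxRecDepth 100000

namespace Pool.Agent.H54.RG

open Pool.Agent.H54.RF

theorem ck3D4 : Ck3 oD4 rD4 := by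
  intro X0 hX X1 h1 h2
  have h3 : X1 < 49 := h2
  simp only [rD4, List.mem_cons, List.not_mem_nil, or_false] at hX
  rcases hX with rfl | rfl | rfl | rfl | rfl | rfl | rfl | rfl | rfl | rfl | rfl | rfl | rfl | rfl | rfl | rfl
  · exact Ops.t3_spec _ s3D4_1_0 X1 (by omega) (by omega)
  · exact Ops.t3_spec _ s3D4_4_0 X1 (by omega) (by omega)
  · exact Ops.t3_spec _ s3D4_7_0 X1 (by omega) (by omega)
  · exact Ops.t3_spec _ s3D4_10_0 X1 (by omega) (by omega)
  · exact Ops.t3_spec _ s3D4_13_0 X1 (by omega) (by omega)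
  · exact Ops.t3_spec _ s3D4_16_0 X1 (by omega) (by omega)
  · exact Ops.t3_spec _ s3D4_19_0 X1 (by omega) (by omega)
  · exact Ops.t3_spec _ s3D4_22_0 X1 (by omega) (by omega)
  · exact Ops.t3_spec _ s3D4_25_0 X1 (by omega) (by omega)
  · exact Ops.t3_spec _ s3D4_28_0 X1 (by omega) (by omega)
  · exact Ops.t3_spec _ s3D4_31_0 X1 (by omega) (by omega)
  · exact Ops.t3_spec _ s3D4_34_0 X1 (by omega) (by omega)
  · exact Ops.t3_spec _ s3D4_37_0 X1 (by omega) (by omega)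
  · exact Ops.t3_spec _ s3D4_40_0 X1 (by omega) (by omega)
  · exact Ops.t3_spec _ s3D4_43_0 X1 (by omega) (by omega)
  · exact Ops.t3_spec _ s3D4_46_0 X1 (by omega) (by omega)

theorem ck4D4 : Ck4 oD4 rD4 := by
  intro X0 hX X1 h1 h2 h4
  have h3 : X1 < 49 := h2
  simp only [rD4, List.mem_cons, List.not_mem_nil, or_false] at hX
  rcases hX with rfl | rfl | rfl | rfl | rfl | rfl | rfl | rfl | rfl | rfl | rfl | rfl | rfl | rfl | rfl | rfl
  · exact Ops.t4_spec _ s4D4_1_0 X1 (by omega) (by omega) h4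
  · exact Ops.t4_spec _ s4D4_4_0 X1 (by omega) (by omega) h4
  · exact Ops.t4_spec _ s4D4_7_0 X1 (by omega) (by omega) h4
  · exact Ops.t4_spec _ s4D4_10_0 X1 (by omega) (by omega) h4
  · exact Ops.t4_spec _ s4D4_13_0 X1 (by omega) (by omega) h4
  · exact Ops.t4_spec _ s4D4_16_0 X1 (by omega) (by omega) h4
  · exact Ops.t4_spec _ s4D4_19_0 X1 (by omega) (by omega) h4
  · exact Ops.t4_spec _ s4D4_22_0 X1 (by omega) (by omega) h4
  · exact Ops.t4_spec _ s4D4_25_0 X1 (by omega) (by omega) h4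
  · exact Ops.t4_spec _ s4D4_28_0 X1 (by omega) (by omega) h4
  · exact Ops.t4_spec _ s4D4_31_0 X1 (by omega) (by omega) h4
  · exact Ops.t4_spec _ s4D4_34_0 X1 (by omega) (by omega) h4
  · exact Ops.t4_spec _ s4D4_37_0 X1 (by omega) (by omega) h4
  · exact Ops.t4_spec _ s4D4_40_0 X1 (by omega) (by omega) h4
  · exact Ops.t4_spec _ s4D4_43_0 X1 (by omega) (by omega) h4
  · exact Ops.t4_spec _ s4D4_46_0 X1 (by omega) (by omega) h4

theorem conclD4 (hL : SpLine3) (hcone : SpCone) : Concl Pool.Agent.H54.RK.MD4' :=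
  asmDL hcone Pool.Agent.H54.RK.MD4' (by decide) dD4 dcD4 xD4 xcD4 rfl
    (by intro i j; fin_cases i <;> fin_cases j <;> rfl) orD4 oD4 eD4 rD4 oaD4 obD4 ocD4
    opD4 12 onD4
    (fun S _ ix sf F D h1 h2 h3 => hL S oD4 rD4 ix sf F D h1 h2 h3 ck3D4 ck4D4)
    kkD4 atD4 ogD4 xxD4

end Pool.Agent.H54.RG
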