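import Pool.Agent.H54.RG.OpsF4
import Pool.Agent.H54.RG.Spl

/-!
# Project RG (MP_35eb49): checks of the cubes of type F4
-/

set_option autoImplicit false
set_option maxRecDepth 100000
set_option maxHeartbeats 0

namespace Pool.Agent.H54.RG

open Pool.Agent.H54.RF

/-- The checks of this file. They are in one theorem, so that they are done one after the other. -/
theorem q4F4_1 :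
    oF4.t4 43 88 2 = true ∧
    oF4.t4 43 90 2 = true ∧
    oF4.t4 43 92 2 = true ∧
    oF4.t4 43 94 2 = true ∧
    oF4.t4 43 96 1 = true ∧
    oF4.t4 43 97 2 = true ∧
    oF4.t4 43 99 2 = true ∧
    oF4.t4 43 101 2 = true ∧
    oF4.t4 49 0 31 = true ∧
    oF4.t4 49 31 13 = true ∧
    oF4.t4 49 44 10 = true ∧
    oF4.t4 49 54 8 = true ∧
    oF4.t4 49 62 8 = true ∧
    oF4.t4 49 70 6 = true ∧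
    oF4.t4 49 76 6 = true ∧
    oF4.t4 49 82 6 = true ∧
    oF4.t4 49 88 2 = true ∧
    oF4.t4 49 90 2 = true ∧
    oF4.t4 49 92 2 = true ∧
    oF4.t4 49 94 2 = true ∧
    oF4.t4 49 96 1 = true ∧
    oF4.t4 49 97 2 = true ∧
    oF4.t4 49 99 2 = true ∧
    oF4.t4 49 101 2 = true ∧
    oF4.t4 55 0 26 = true ∧
    oF4.t4 55 26 11 = true ∧
    oF4.t4 55 37 8 = true ∧
    oF4.t4 55 45 7 = true ∧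
    oF4.t4 55 52 7 = true ∧
    oF4.t4 55 59 5 = true ∧
    oF4.t4 55 64 5 = true ∧
    oF4.t4 55 69 5 = true ∧
    oF4.t4 55 74 2 = true ∧
    oF4.t4 55 76 1 = true ∧
    oF4.t4 55 77 2 = true ∧
    oF4.t4 55 79 1 = true ∧
    oF4.t4 55 80 2 = true ∧
    oF4.t4 55 82 2 = true ∧
    oF4.t4 55 84 1 = true ∧
    oF4.t4 55 85 2 = true ∧
    oF4.t4 55 87 2 = true ∧
    oF4.t4 55 89 2 = true ∧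
    oF4.t4 55 91 2 = true ∧
    oF4.t4 55 93 2 = true ∧
    oF4.t4 55 95 2 = true ∧
    oF4.t4 55 97 2 = true ∧
    oF4.t4 55 99 2 = true ∧
    oF4.t4 55 101 2 = true ∧
    oF4.t4 61 0 29 = true ∧
    oF4.t4 61 29 13 = true ∧
    oF4.t4 61 42 9 = true ∧
    oF4.t4 61 51 8 = true ∧
    oF4.t4 61 59 7 = true ∧
    oF4.t4 61 66 6 = true ∧
    oF4.t4 61 72 6 = true ∧
    oF4.t4 61 78 5 = true ∧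
    oF4.t4 61 83 2 = true ∧
    oF4.t4 61 85 1 = true ∧
    oF4.t4 61 86 1 = true ∧
    oF4.t4 61 87 2 = true ∧
    oF4.t4 61 89 2 = true ∧
    oF4.t4 61 91 1 = true ∧
    oF4.t4 61 92 1 = true ∧
    oF4.t4 61 93 2 = true ∧
    oF4.t4 61 95 1 = true ∧
    oF4.t4 61 96 1 = true ∧
    oF4.t4 61 97 1 = true ∧
    oF4.t4 61 98 1 = true ∧
    oF4.t4 61 99 1 = true ∧
    oF4.t4 61 100 1 = true ∧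
    oF4.t4 61 101 1 = true ∧
    oF4.t4 61 102 1 = true ∧
    oF4.t4 67 0 31 = true ∧
    oF4.t4 67 31 13 = true ∧
    oF4.t4 67 44 10 = true ∧
    oF4.t4 67 54 8 = true ∧
    oF4.t4 67 62 8 = true ∧
    oF4.t4 67 70 6 = true ∧
    oF4.t4 67 76 6 = true ∧
    oF4.t4 67 82 6 = true := by
  refine ⟨?_, ?_, ?_, ?_, ?_, ?_, ?_, ?_, ?_, ?_, ?_, ?_, ?_, ?_, ?_, ?_, ?_, ?_, ?_, ?_,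
    ?_, ?_, ?_, ?_, ?_, ?_, ?_, ?_, ?_, ?_, ?_, ?_, ?_, ?_, ?_, ?_, ?_, ?_, ?_, ?_,
    ?_, ?_, ?_, ?_, ?_, ?_, ?_, ?_, ?_, ?_, ?_, ?_, ?_, ?_, ?_, ?_, ?_, ?_, ?_, ?_,
    ?_, ?_, ?_, ?_, ?_, ?_, ?_, ?_, ?_, ?_, ?_, ?_, ?_, ?_, ?_, ?_, ?_, ?_, ?_, ?_⟩
  · decide +kernel
  · decide +kernel
  · decide +kernel
  · decide +kernel
  · decide +kernel
  · decide +kernel
  · decide +kernel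
  · decide +kernel
  · decide +kernel
  · decide +kernel
  · decide +kernel
  · decide +kernel
  · decide +kernel
  · decide +kernel
  · decide +kernel
  · decide +kernel
  · decide +kernel
  · decide +kernel
  · decide +kernel
  · decide +kernel
  · decide +kernel
  · decide +kernel
  · decide +kernel
  · decide +kernel
  · decide +kernel
  · decide +kernel
  · decide +kernel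
  · decide +kernel
  · decide +kernel
  · decide +kernel
  · decide +kernel
  · decide +kernel
  · decide +kernel
  · decide +kernel
  · decide +kernel
  · decide +kernel
  · decide +kernel
  · decide +kernel
  · decide +kernel
  · decide +kernel
  · decide +kernel
  · decide +kernel
  · decide +kernel
  · decide +kernel
  · decide +kernel
  · decide +kernel
  · decide +kernel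
  · decide +kernel
  · decide +kernel
  · decide +kernel
  · decide +kernel
  · decide +kernel
  · decide +kernel
  · decide +kernel
  · decide +kernel
  · decide +kernel
  · decide +kernel
  · decide +kernel
  · decide +kernel
  · decide +kernel
  · decide +kernel
  · decide +kernel
  · decide +kernel
  · decide +kernel
  · decide +kernel
  · decide +kernel
  · decide +kernel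
  · decide +kernel
  · decide +kernel
  · decide +kernel
  · decide +kernel
  · decide +kernel
  · decide +kernel
  · decide +kernel
  · decide +kernel
  · decide +kernel
  · decide +kernel
  · decide +kernel
  · decide +kernel
  · decide +kernel

theorem s4F4_43_88 : oF4.t4 43 88 15 = true :=
  (t4_two oF4 43 88 2 13 90 15 rfl rfl
    q4F4_1.1
    (t4_two oF4 43 90 2 11 92 13 rfl rfl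
    q4F4_1.2.1
    (t4_two oF4 43 92 2 9 94 11 rfl rfl
    q4F4_1.2.2.1
    (t4_two oF4 43 94 2 7 96 9 rfl rfl
    q4F4_1.2.2.2.1
    (t4_two oF4 43 96 1 6 97 7 rfl rfl
    q4F4_1.2.2.2.2.1
    (t4_two oF4 43 97 2 4 99 6 rfl rfl
    q4F4_1.2.2.2.2.2.1
    (t4_two oF4 43 99 2 2 101 4 rfl rfl
    q4F4_1.2.2.2.2.2.2.1
    q4F4_1.2.2.2.2.2.2.2.1)))))))

theorem s4F4_49_0 : oF4.t4 49 0 88 = true :=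
  (t4_two oF4 49 0 31 57 31 88 rfl rfl
    q4F4_1.2.2.2.2.2.2.2.2.1
    (t4_two oF4 49 31 13 44 44 57 rfl rfl
    q4F4_1.2.2.2.2.2.2.2.2.2.1
    (t4_two oF4 49 44 10 34 54 44 rfl rfl
    q4F4_1.2.2.2.2.2.2.2.2.2.2.1
    (t4_two oF4 49 54 8 26 62 34 rfl rfl
    q4F4_1.2.2.2.2.2.2.2.2.2.2.2.1
    (t4_two oF4 49 62 8 18 70 26 rfl rfl
    q4F4_1.2.2.2.2.2.2.2.2.2.2.2.2.1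
    (t4_two oF4 49 70 6 12 76 18 rfl rfl
    q4F4_1.2.2.2.2.2.2.2.2.2.2.2.2.2.1
    (t4_two oF4 49 76 6 6 82 12 rfl rfl
    q4F4_1.2.2.2.2.2.2.2.2.2.2.2.2.2.2.1
    q4F4_1.2.2.2.2.2.2.2.2.2.2.2.2.2.2.2.1)))))))

theorem s4F4_49_88 : oF4.t4 49 88 15 = true :=
  (t4_two oF4 49 88 2 13 90 15 rfl rfl
    q4F4_1.2.2.2.2.2.2.2.2.2.2.2.2.2.2.2.2.1
    (t4_two oF4 49 90 2 11 92 13 rfl rfl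
    q4F4_1.2.2.2.2.2.2.2.2.2.2.2.2.2.2.2.2.2.1
    (t4_two oF4 49 92 2 9 94 11 rfl rfl
    q4F4_1.2.2.2.2.2.2.2.2.2.2.2.2.2.2.2.2.2.2.1
    (t4_two oF4 49 94 2 7 96 9 rfl rfl
    q4F4_1.2.2.2.2.2.2.2.2.2.2.2.2.2.2.2.2.2.2.2.1
    (t4_two oF4 49 96 1 6 97 7 rfl rfl
    q4F4_1.2.2.2.2.2.2.2.2.2.2.2.2.2.2.2.2.2.2.2.2.1
    (t4_two oF4 49 97 2 4 99 6 rfl rfl
    q4F4_1.2.2.2.2.2.2.2.2.2.2.2.2.2.2.2.2.2.2.2.2.2.1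
    (t4_two oF4 49 99 2 2 101 4 rfl rfl
    q4F4_1.2.2.2.2.2.2.2.2.2.2.2.2.2.2.2.2.2.2.2.2.2.2.1
    q4F4_1.2.2.2.2.2.2.2.2.2.2.2.2.2.2.2.2.2.2.2.2.2.2.2.1)))))))

theorem s4F4_55_0 : oF4.t4 55 0 74 = true :=
  (t4_two oF4 55 0 26 48 26 74 rfl rfl
    q4F4_1.2.2.2.2.2.2.2.2.2.2.2.2.2.2.2.2.2.2.2.2.2.2.2.2.1
    (t4_two oF4 55 26 11 37 37 48 rfl rfl
    q4F4_1.2.2.2.2.2.2.2.2.2.2.2.2.2.2.2.2.2.2.2.2.2.2.2.2.2.1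
    (t4_two oF4 55 37 8 29 45 37 rfl rfl
    q4F4_1.2.2.2.2.2.2.2.2.2.2.2.2.2.2.2.2.2.2.2.2.2.2.2.2.2.2.1
    (t4_two oF4 55 45 7 22 52 29 rfl rfl
    q4F4_1.2.2.2.2.2.2.2.2.2.2.2.2.2.2.2.2.2.2.2.2.2.2.2.2.2.2.2.1
    (t4_two oF4 55 52 7 15 59 22 rfl rfl
    q4F4_1.2.2.2.2.2.2.2.2.2.2.2.2.2.2.2.2.2.2.2.2.2.2.2.2.2.2.2.2.1
    (t4_two oF4 55 59 5 10 64 15 rfl rfl
    q4F4_1.2.2.2.2.2.2.2.2.2.2.2.2.2.2.2.2.2.2.2.2.2.2.2.2.2.2.2.2.2.1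
    (t4_two oF4 55 64 5 5 69 10 rfl rfl
    q4F4_1.2.2.2.2.2.2.2.2.2.2.2.2.2.2.2.2.2.2.2.2.2.2.2.2.2.2.2.2.2.2.1
    q4F4_1.2.2.2.2.2.2.2.2.2.2.2.2.2.2.2.2.2.2.2.2.2.2.2.2.2.2.2.2.2.2.2.1)))))))

theorem s4F4_55_74 : oF4.t4 55 74 13 = true :=
  (t4_two oF4 55 74 2 11 76 13 rfl rfl
    q4F4_1.2.2.2.2.2.2.2.2.2.2.2.2.2.2.2.2.2.2.2.2.2.2.2.2.2.2.2.2.2.2.2.2.1
    (t4_two oF4 55 76 1 10 77 11 rfl rfl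
    q4F4_1.2.2.2.2.2.2.2.2.2.2.2.2.2.2.2.2.2.2.2.2.2.2.2.2.2.2.2.2.2.2.2.2.2.1
    (t4_two oF4 55 77 2 8 79 10 rfl rfl
    q4F4_1.2.2.2.2.2.2.2.2.2.2.2.2.2.2.2.2.2.2.2.2.2.2.2.2.2.2.2.2.2.2.2.2.2.2.1
    (t4_two oF4 55 79 1 7 80 8 rfl rfl
    q4F4_1.2.2.2.2.2.2.2.2.2.2.2.2.2.2.2.2.2.2.2.2.2.2.2.2.2.2.2.2.2.2.2.2.2.2.2.1
    (t4_two oF4 55 80 2 5 82 7 rfl rfl
    q4F4_1.2.2.2.2.2.2.2.2.2.2.2.2.2.2.2.2.2.2.2.2.2.2.2.2.2.2.2.2.2.2.2.2.2.2.2.2.1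
    (t4_two oF4 55 82 2 3 84 5 rfl rfl
    q4F4_1.2.2.2.2.2.2.2.2.2.2.2.2.2.2.2.2.2.2.2.2.2.2.2.2.2.2.2.2.2.2.2.2.2.2.2.2.2.1
    (t4_two oF4 55 84 1 2 85 3 rfl rfl
    q4F4_1.2.2.2.2.2.2.2.2.2.2.2.2.2.2.2.2.2.2.2.2.2.2.2.2.2.2.2.2.2.2.2.2.2.2.2.2.2.2.1
    q4F4_1.2.2.2.2.2.2.2.2.2.2.2.2.2.2.2.2.2.2.2.2.2.2.2.2.2.2.2.2.2.2.2.2.2.2.2.2.2.2.2.1)))))))

theorem s4F4_55_87 : oF4.t4 55 87 16 = true :=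
  (t4_two oF4 55 87 2 14 89 16 rfl rfl
    q4F4_1.2.2.2.2.2.2.2.2.2.2.2.2.2.2.2.2.2.2.2.2.2.2.2.2.2.2.2.2.2.2.2.2.2.2.2.2.2.2.2.2.1
    (t4_two oF4 55 89 2 12 91 14 rfl rfl
    q4F4_1.2.2.2.2.2.2.2.2.2.2.2.2.2.2.2.2.2.2.2.2.2.2.2.2.2.2.2.2.2.2.2.2.2.2.2.2.2.2.2.2.2.1
    (t4_two oF4 55 91 2 10 93 12 rfl rfl
    q4F4_1.2.2.2.2.2.2.2.2.2.2.2.2.2.2.2.2.2.2.2.2.2.2.2.2.2.2.2.2.2.2.2.2.2.2.2.2.2.2.2.2.2.2.1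
    (t4_two oF4 55 93 2 8 95 10 rfl rfl
    q4F4_1.2.2.2.2.2.2.2.2.2.2.2.2.2.2.2.2.2.2.2.2.2.2.2.2.2.2.2.2.2.2.2.2.2.2.2.2.2.2.2.2.2.2.2.1
    (t4_two oF4 55 95 2 6 97 8 rfl rfl
    q4F4_1.2.2.2.2.2.2.2.2.2.2.2.2.2.2.2.2.2.2.2.2.2.2.2.2.2.2.2.2.2.2.2.2.2.2.2.2.2.2.2.2.2.2.2.2.1
    (t4_two oF4 55 97 2 4 99 6 rfl rfl
    q4F4_1.2.2.2.2.2.2.2.2.2.2.2.2.2.2.2.2.2.2.2.2.2.2.2.2.2.2.2.2.2.2.2.2.2.2.2.2.2.2.2.2.2.2.2.2.2.1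
    (t4_two oF4 55 99 2 2 101 4 rfl rfl
    q4F4_1.2.2.2.2.2.2.2.2.2.2.2.2.2.2.2.2.2.2.2.2.2.2.2.2.2.2.2.2.2.2.2.2.2.2.2.2.2.2.2.2.2.2.2.2.2.2.1
    q4F4_1.2.2.2.2.2.2.2.2.2.2.2.2.2.2.2.2.2.2.2.2.2.2.2.2.2.2.2.2.2.2.2.2.2.2.2.2.2.2.2.2.2.2.2.2.2.2.2.1)))))))

theorem s4F4_61_0 : oF4.t4 61 0 83 = true :=
  (t4_two oF4 61 0 29 54 29 83 rfl rfl
    q4F4_1.2.2.2.2.2.2.2.2.2.2.2.2.2.2.2.2.2.2.2.2.2.2.2.2.2.2.2.2.2.2.2.2.2.2.2.2.2.2.2.2.2.2.2.2.2.2.2.2.1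
    (t4_two oF4 61 29 13 41 42 54 rfl rfl
    q4F4_1.2.2.2.2.2.2.2.2.2.2.2.2.2.2.2.2.2.2.2.2.2.2.2.2.2.2.2.2.2.2.2.2.2.2.2.2.2.2.2.2.2.2.2.2.2.2.2.2.2.1
    (t4_two oF4 61 42 9 32 51 41 rfl rfl
    q4F4_1.2.2.2.2.2.2.2.2.2.2.2.2.2.2.2.2.2.2.2.2.2.2.2.2.2.2.2.2.2.2.2.2.2.2.2.2.2.2.2.2.2.2.2.2.2.2.2.2.2.2.1
    (t4_two oF4 61 51 8 24 59 32 rfl rfl
    q4F4_1.2.2.2.2.2.2.2.2.2.2.2.2.2.2.2.2.2.2.2.2.2.2.2.2.2.2.2.2.2.2.2.2.2.2.2.2.2.2.2.2.2.2.2.2.2.2.2.2.2.2.2.1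
    (t4_two oF4 61 59 7 17 66 24 rfl rfl
    q4F4_1.2.2.2.2.2.2.2.2.2.2.2.2.2.2.2.2.2.2.2.2.2.2.2.2.2.2.2.2.2.2.2.2.2.2.2.2.2.2.2.2.2.2.2.2.2.2.2.2.2.2.2.2.1
    (t4_two oF4 61 66 6 11 72 17 rfl rfl
    q4F4_1.2.2.2.2.2.2.2.2.2.2.2.2.2.2.2.2.2.2.2.2.2.2.2.2.2.2.2.2.2.2.2.2.2.2.2.2.2.2.2.2.2.2.2.2.2.2.2.2.2.2.2.2.2.1
    (t4_two oF4 61 72 6 5 78 11 rfl rfl
    q4F4_1.2.2.2.2.2.2.2.2.2.2.2.2.2.2.2.2.2.2.2.2.2.2.2.2.2.2.2.2.2.2.2.2.2.2.2.2.2.2.2.2.2.2.2.2.2.2.2.2.2.2.2.2.2.2.1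
    q4F4_1.2.2.2.2.2.2.2.2.2.2.2.2.2.2.2.2.2.2.2.2.2.2.2.2.2.2.2.2.2.2.2.2.2.2.2.2.2.2.2.2.2.2.2.2.2.2.2.2.2.2.2.2.2.2.2.1)))))))

theorem s4F4_61_83 : oF4.t4 61 83 12 = true :=
  (t4_two oF4 61 83 2 10 85 12 rfl rfl
    q4F4_1.2.2.2.2.2.2.2.2.2.2.2.2.2.2.2.2.2.2.2.2.2.2.2.2.2.2.2.2.2.2.2.2.2.2.2.2.2.2.2.2.2.2.2.2.2.2.2.2.2.2.2.2.2.2.2.2.1
    (t4_two oF4 61 85 1 9 86 10 rfl rfl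
    q4F4_1.2.2.2.2.2.2.2.2.2.2.2.2.2.2.2.2.2.2.2.2.2.2.2.2.2.2.2.2.2.2.2.2.2.2.2.2.2.2.2.2.2.2.2.2.2.2.2.2.2.2.2.2.2.2.2.2.2.1
    (t4_two oF4 61 86 1 8 87 9 rfl rfl
    q4F4_1.2.2.2.2.2.2.2.2.2.2.2.2.2.2.2.2.2.2.2.2.2.2.2.2.2.2.2.2.2.2.2.2.2.2.2.2.2.2.2.2.2.2.2.2.2.2.2.2.2.2.2.2.2.2.2.2.2.2.1
    (t4_two oF4 61 87 2 6 89 8 rfl rfl
    q4F4_1.2.2.2.2.2.2.2.2.2.2.2.2.2.2.2.2.2.2.2.2.2.2.2.2.2.2.2.2.2.2.2.2.2.2.2.2.2.2.2.2.2.2.2.2.2.2.2.2.2.2.2.2.2.2.2.2.2.2.2.1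
    (t4_two oF4 61 89 2 4 91 6 rfl rfl
    q4F4_1.2.2.2.2.2.2.2.2.2.2.2.2.2.2.2.2.2.2.2.2.2.2.2.2.2.2.2.2.2.2.2.2.2.2.2.2.2.2.2.2.2.2.2.2.2.2.2.2.2.2.2.2.2.2.2.2.2.2.2.2.1
    (t4_two oF4 61 91 1 3 92 4 rfl rfl
    q4F4_1.2.2.2.2.2.2.2.2.2.2.2.2.2.2.2.2.2.2.2.2.2.2.2.2.2.2.2.2.2.2.2.2.2.2.2.2.2.2.2.2.2.2.2.2.2.2.2.2.2.2.2.2.2.2.2.2.2.2.2.2.2.1
    (t4_two oF4 61 92 1 2 93 3 rfl rfl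
    q4F4_1.2.2.2.2.2.2.2.2.2.2.2.2.2.2.2.2.2.2.2.2.2.2.2.2.2.2.2.2.2.2.2.2.2.2.2.2.2.2.2.2.2.2.2.2.2.2.2.2.2.2.2.2.2.2.2.2.2.2.2.2.2.2.1
    q4F4_1.2.2.2.2.2.2.2.2.2.2.2.2.2.2.2.2.2.2.2.2.2.2.2.2.2.2.2.2.2.2.2.2.2.2.2.2.2.2.2.2.2.2.2.2.2.2.2.2.2.2.2.2.2.2.2.2.2.2.2.2.2.2.2.1)))))))

theorem s4F4_61_95 : oF4.t4 61 95 8 = true :=
  (t4_two oF4 61 95 1 7 96 8 rfl rfl
    q4F4_1.2.2.2.2.2.2.2.2.2.2.2.2.2.2.2.2.2.2.2.2.2.2.2.2.2.2.2.2.2.2.2.2.2.2.2.2.2.2.2.2.2.2.2.2.2.2.2.2.2.2.2.2.2.2.2.2.2.2.2.2.2.2.2.2.1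
    (t4_two oF4 61 96 1 6 97 7 rfl rfl
    q4F4_1.2.2.2.2.2.2.2.2.2.2.2.2.2.2.2.2.2.2.2.2.2.2.2.2.2.2.2.2.2.2.2.2.2.2.2.2.2.2.2.2.2.2.2.2.2.2.2.2.2.2.2.2.2.2.2.2.2.2.2.2.2.2.2.2.2.1
    (t4_two oF4 61 97 1 5 98 6 rfl rfl
    q4F4_1.2.2.2.2.2.2.2.2.2.2.2.2.2.2.2.2.2.2.2.2.2.2.2.2.2.2.2.2.2.2.2.2.2.2.2.2.2.2.2.2.2.2.2.2.2.2.2.2.2.2.2.2.2.2.2.2.2.2.2.2.2.2.2.2.2.2.1
    (t4_two oF4 61 98 1 4 99 5 rfl rfl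
    q4F4_1.2.2.2.2.2.2.2.2.2.2.2.2.2.2.2.2.2.2.2.2.2.2.2.2.2.2.2.2.2.2.2.2.2.2.2.2.2.2.2.2.2.2.2.2.2.2.2.2.2.2.2.2.2.2.2.2.2.2.2.2.2.2.2.2.2.2.2.1
    (t4_two oF4 61 99 1 3 100 4 rfl rfl
    q4F4_1.2.2.2.2.2.2.2.2.2.2.2.2.2.2.2.2.2.2.2.2.2.2.2.2.2.2.2.2.2.2.2.2.2.2.2.2.2.2.2.2.2.2.2.2.2.2.2.2.2.2.2.2.2.2.2.2.2.2.2.2.2.2.2.2.2.2.2.2.1
    (t4_two oF4 61 100 1 2 101 3 rfl rfl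
    q4F4_1.2.2.2.2.2.2.2.2.2.2.2.2.2.2.2.2.2.2.2.2.2.2.2.2.2.2.2.2.2.2.2.2.2.2.2.2.2.2.2.2.2.2.2.2.2.2.2.2.2.2.2.2.2.2.2.2.2.2.2.2.2.2.2.2.2.2.2.2.2.1
    (t4_two oF4 61 101 1 1 102 2 rfl rfl
    q4F4_1.2.2.2.2.2.2.2.2.2.2.2.2.2.2.2.2.2.2.2.2.2.2.2.2.2.2.2.2.2.2.2.2.2.2.2.2.2.2.2.2.2.2.2.2.2.2.2.2.2.2.2.2.2.2.2.2.2.2.2.2.2.2.2.2.2.2.2.2.2.2.1
    q4F4_1.2.2.2.2.2.2.2.2.2.2.2.2.2.2.2.2.2.2.2.2.2.2.2.2.2.2.2.2.2.2.2.2.2.2.2.2.2.2.2.2.2.2.2.2.2.2.2.2.2.2.2.2.2.2.2.2.2.2.2.2.2.2.2.2.2.2.2.2.2.2.2.1)))))))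

theorem s4F4_67_0 : oF4.t4 67 0 88 = true :=
  (t4_two oF4 67 0 31 57 31 88 rfl rfl
    q4F4_1.2.2.2.2.2.2.2.2.2.2.2.2.2.2.2.2.2.2.2.2.2.2.2.2.2.2.2.2.2.2.2.2.2.2.2.2.2.2.2.2.2.2.2.2.2.2.2.2.2.2.2.2.2.2.2.2.2.2.2.2.2.2.2.2.2.2.2.2.2.2.2.2.1
    (t4_two oF4 67 31 13 44 44 57 rfl rfl
    q4F4_1.2.2.2.2.2.2.2.2.2.2.2.2.2.2.2.2.2.2.2.2.2.2.2.2.2.2.2.2.2.2.2.2.2.2.2.2.2.2.2.2.2.2.2.2.2.2.2.2.2.2.2.2.2.2.2.2.2.2.2.2.2.2.2.2.2.2.2.2.2.2.2.2.2.1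
    (t4_two oF4 67 44 10 34 54 44 rfl rfl
    q4F4_1.2.2.2.2.2.2.2.2.2.2.2.2.2.2.2.2.2.2.2.2.2.2.2.2.2.2.2.2.2.2.2.2.2.2.2.2.2.2.2.2.2.2.2.2.2.2.2.2.2.2.2.2.2.2.2.2.2.2.2.2.2.2.2.2.2.2.2.2.2.2.2.2.2.2.1
    (t4_two oF4 67 54 8 26 62 34 rfl rfl
    q4F4_1.2.2.2.2.2.2.2.2.2.2.2.2.2.2.2.2.2.2.2.2.2.2.2.2.2.2.2.2.2.2.2.2.2.2.2.2.2.2.2.2.2.2.2.2.2.2.2.2.2.2.2.2.2.2.2.2.2.2.2.2.2.2.2.2.2.2.2.2.2.2.2.2.2.2.2.1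
    (t4_two oF4 67 62 8 18 70 26 rfl rfl
    q4F4_1.2.2.2.2.2.2.2.2.2.2.2.2.2.2.2.2.2.2.2.2.2.2.2.2.2.2.2.2.2.2.2.2.2.2.2.2.2.2.2.2.2.2.2.2.2.2.2.2.2.2.2.2.2.2.2.2.2.2.2.2.2.2.2.2.2.2.2.2.2.2.2.2.2.2.2.2.1
    (t4_two oF4 67 70 6 12 76 18 rfl rfl
    q4F4_1.2.2.2.2.2.2.2.2.2.2.2.2.2.2.2.2.2.2.2.2.2.2.2.2.2.2.2.2.2.2.2.2.2.2.2.2.2.2.2.2.2.2.2.2.2.2.2.2.2.2.2.2.2.2.2.2.2.2.2.2.2.2.2.2.2.2.2.2.2.2.2.2.2.2.2.2.2.1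
    (t4_two oF4 67 76 6 6 82 12 rfl rfl
    q4F4_1.2.2.2.2.2.2.2.2.2.2.2.2.2.2.2.2.2.2.2.2.2.2.2.2.2.2.2.2.2.2.2.2.2.2.2.2.2.2.2.2.2.2.2.2.2.2.2.2.2.2.2.2.2.2.2.2.2.2.2.2.2.2.2.2.2.2.2.2.2.2.2.2.2.2.2.2.2.2.1
    q4F4_1.2.2.2.2.2.2.2.2.2.2.2.2.2.2.2.2.2.2.2.2.2.2.2.2.2.2.2.2.2.2.2.2.2.2.2.2.2.2.2.2.2.2.2.2.2.2.2.2.2.2.2.2.2.2.2.2.2.2.2.2.2.2.2.2.2.2.2.2.2.2.2.2.2.2.2.2.2.2.2)))))))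

end Pool.Agent.H54.RG
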