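import Pool.Agent.H54.RG.AsmL
import Pool.Agent.H54.RG.TstG
import Pool.Agent.H54.RG.CaF4
import Pool.Agent.H54.RG.CbF4
import Pool.Agent.H54.RG.CkF4
import Pool.Agent.H54.RG.S3F4_0
import Pool.Agent.H54.RG.S4F4_0
import Pool.Agent.H54.RG.S4F4_1
import Pool.Agent.H54.RG.S4F4_2

/-!
# Project RG (MP_35eb49): result of type F4
-/

set_option autoImplicit false
set_option maxHeartbeats 0
set_option maxRecDepth 100000

namespace Pool.Agent.H54.RG

open Pool.Agent.H54.RF

theorem ck3F4 : Ck3 oF4 rF4 := by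
  intro X0 hX X1 h1 h2
  have h3 : X1 < 104 := h2
  simp only [rF4, List.mem_cons, List.not_mem_nil, or_false] at hX
  rcases hX with rfl | rfl | rfl | rfl | rfl | rfl | rfl | rfl | rfl | rfl | rfl | rfl | rfl | rfl | rfl | rfl | rfl | rfl | rfl
  · rcases Nat.lt_or_ge 85 X1 with h5 | h5
    swap
    · exact Ops.t3_spec _ s3F4_1_0 X1 (by omega) (by omega)
    exact Ops.t3_spec _ s3F4_1_85 X1 (by omega) (by omega)
  · exact Ops.t3_spec _ s3F4_7_0 X1 (by omega) (by omega)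
  · exact Ops.t3_spec _ s3F4_13_0 X1 (by omega) (by omega)
  · rcases Nat.lt_or_ge 87 X1 with h5 | h5
    swap
    · exact Ops.t3_spec _ s3F4_19_0 X1 (by omega) (by omega)
    exact Ops.t3_spec _ s3F4_19_87 X1 (by omega) (by omega)
  · exact Ops.t3_spec _ s3F4_25_0 X1 (by omega) (by omega)
  · exact Ops.t3_spec _ s3F4_31_0 X1 (by omega) (by omega)
  · exact Ops.t3_spec _ s3F4_37_0 X1 (by omega) (by omega)
  · exact Ops.t3_spec _ s3F4_43_0 X1 (by omega) (by omega)
  · exact Ops.t3_spec _ s3F4_49_0 X1 (by omega) (by omega)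
  · exact Ops.t3_spec _ s3F4_55_0 X1 (by omega) (by omega)
  · exact Ops.t3_spec _ s3F4_61_0 X1 (by omega) (by omega)
  · exact Ops.t3_spec _ s3F4_67_0 X1 (by omega) (by omega)
  · exact Ops.t3_spec _ s3F4_73_0 X1 (by omega) (by omega)
  · exact Ops.t3_spec _ s3F4_79_0 X1 (by omega) (by omega)
  · exact Ops.t3_spec _ s3F4_85_0 X1 (by omega) (by omega)
  · exact Ops.t3_spec _ s3F4_91_0 X1 (by omega) (by omega)
  · exact Ops.t3_spec _ s3F4_97_0 X1 (by omega) (by omega)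
  · exact Ops.t3_spec _ s3F4_99_0 X1 (by omega) (by omega)
  · exact Ops.t3_spec _ s3F4_102_0 X1 (by omega) (by omega)

theorem ck4F4 : Ck4 oF4 rF4 := by
  intro X0 hX X1 h1 h2 h4
  have h3 : X1 < 104 := h2
  simp only [rF4, List.mem_cons, List.not_mem_nil, or_false] at hX
  rcases hX with rfl | rfl | rfl | rfl | rfl | rfl | rfl | rfl | rfl | rfl | rfl | rfl | rfl | rfl | rfl | rfl | rfl | rfl | rfl
  · exact Ops.t4_spec _ s4F4_1_0 X1 (by omega) (by omega) h4
  · exact Ops.t4_spec _ s4F4_7_0 X1 (by omega) (by omega) h4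
  · exact Ops.t4_spec _ s4F4_13_0 X1 (by omega) (by omega) h4
  · exact Ops.t4_spec _ s4F4_19_0 X1 (by omega) (by omega) h4
  · rcases Nat.lt_or_ge 61 X1 with h5 | h5
    swap
    · exact Ops.t4_spec _ s4F4_25_0 X1 (by omega) (by omega) h4
    rcases Nat.lt_or_ge 90 X1 with h5 | h5
    swap
    · exact Ops.t4_spec _ s4F4_25_61 X1 (by omega) (by omega) h4
    exact Ops.t4_spec _ s4F4_25_90 X1 (by omega) (by omega) h4
  · rcases Nat.lt_or_ge 87 X1 with h5 | h5
    swap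
    · exact Ops.t4_spec _ s4F4_31_0 X1 (by omega) (by omega) h4
    exact Ops.t4_spec _ s4F4_31_87 X1 (by omega) (by omega) h4
  · rcases Nat.lt_or_ge 88 X1 with h5 | h5
    swap
    · exact Ops.t4_spec _ s4F4_37_0 X1 (by omega) (by omega) h4
    exact Ops.t4_spec _ s4F4_37_88 X1 (by omega) (by omega) h4
  · rcases Nat.lt_or_ge 88 X1 with h5 | h5
    swap
    · exact Ops.t4_spec _ s4F4_43_0 X1 (by omega) (by omega) h4
    exact Ops.t4_spec _ s4F4_43_88 X1 (by omega) (by omega) h4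
  · rcases Nat.lt_or_ge 88 X1 with h5 | h5
    swap
    · exact Ops.t4_spec _ s4F4_49_0 X1 (by omega) (by omega) h4
    exact Ops.t4_spec _ s4F4_49_88 X1 (by omega) (by omega) h4
  · rcases Nat.lt_or_ge 74 X1 with h5 | h5
    swap
    · exact Ops.t4_spec _ s4F4_55_0 X1 (by omega) (by omega) h4
    rcases Nat.lt_or_ge 87 X1 with h5 | h5
    swap
    · exact Ops.t4_spec _ s4F4_55_74 X1 (by omega) (by omega) h4
    exact Ops.t4_spec _ s4F4_55_87 X1 (by omega) (by omega) h4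
  · rcases Nat.lt_or_ge 83 X1 with h5 | h5
    swap
    · exact Ops.t4_spec _ s4F4_61_0 X1 (by omega) (by omega) h4
    rcases Nat.lt_or_ge 95 X1 with h5 | h5
    swap
    · exact Ops.t4_spec _ s4F4_61_83 X1 (by omega) (by omega) h4
    exact Ops.t4_spec _ s4F4_61_95 X1 (by omega) (by omega) h4
  · rcases Nat.lt_or_ge 88 X1 with h5 | h5
    swap
    · exact Ops.t4_spec _ s4F4_67_0 X1 (by omega) (by omega) h4
    exact Ops.t4_spec _ s4F4_67_88 X1 (by omega) (by omega) h4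
  · rcases Nat.lt_or_ge 91 X1 with h5 | h5
    swap
    · exact Ops.t4_spec _ s4F4_73_0 X1 (by omega) (by omega) h4
    exact Ops.t4_spec _ s4F4_73_91 X1 (by omega) (by omega) h4
  · rcases Nat.lt_or_ge 89 X1 with h5 | h5
    swap
    · exact Ops.t4_spec _ s4F4_79_0 X1 (by omega) (by omega) h4
    exact Ops.t4_spec _ s4F4_79_89 X1 (by omega) (by omega) h4
  · rcases Nat.lt_or_ge 92 X1 with h5 | h5
    swap
    · exact Ops.t4_spec _ s4F4_85_0 X1 (by omega) (by omega) h4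
    exact Ops.t4_spec _ s4F4_85_92 X1 (by omega) (by omega) h4
  · exact Ops.t4_spec _ s4F4_91_0 X1 (by omega) (by omega) h4
  · exact Ops.t4_spec _ s4F4_97_0 X1 (by omega) (by omega) h4
  · exact Ops.t4_spec _ s4F4_99_0 X1 (by omega) (by omega) h4
  · exact Ops.t4_spec _ s4F4_102_0 X1 (by omega) (by omega) h4

theorem conclF4 (hL : SpLine3) (hcone : SpCone) : Concl CoxeterMatrix.F₄ :=
  asmDL hcone CoxeterMatrix.F₄ (by decide) dF4 dcF4 xF4 xcF4 rfl
    (by intro i j; fin_cases i <;> fin_cases j <;> rfl) orF4 oF4 eF4 rF4 oaF4 obF4 ocF4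
    opF4 24 onF4
    (fun S _ ix sf F D h1 h2 h3 => hL S oF4 rF4 ix sf F D h1 h2 h3 ck3F4 ck4F4)
    kkF4 atF4 ogF4 xxF4

end Pool.Agent.H54.RG
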