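import Pool.Agent.H54.RG.AsmL
import Pool.Agent.H54.RG.TstG
import Pool.Agent.H54.RG.CaH3
import Pool.Agent.H54.RG.CbH3
import Pool.Agent.H54.RG.CkH3
import Pool.Agent.H54.RG.S3H3_0
import Pool.Agent.H54.RG.S4H3_0

/-!
# Project RG (MP_35eb49): result of type H3
-/

set_option autoImplicit false
set_option maxHeartbeats 0
set_option maxRecDepth 100000

namespace Pool.Agent.H54.RG

open Pool.Agent.H54.RF

theorem ck3H3 : Ck3 oH3 rH3 := by
  intro X0 hX X1 h1 h2
  have h3 : X1 < 31 := h2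
  simp only [rH3, List.mem_cons, List.not_mem_nil, or_false] at hX
  rcases hX with rfl | rfl | rfl | rfl | rfl | rfl
  · exact Ops.t3_spec _ s3H3_1_0 X1 (by omega) (by omega)
  · exact Ops.t3_spec _ s3H3_6_0 X1 (by omega) (by omega)
  · exact Ops.t3_spec _ s3H3_11_0 X1 (by omega) (by omega)
  · exact Ops.t3_spec _ s3H3_16_0 X1 (by omega) (by omega)
  · exact Ops.t3_spec _ s3H3_21_0 X1 (by omega) (by omega)
  · exact Ops.t3_spec _ s3H3_26_0 X1 (by omega) (by omega)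

theorem ck4H3 : Ck4 oH3 rH3 := by
  intro X0 hX X1 h1 h2 h4
  have h3 : X1 < 31 := h2
  simp only [rH3, List.mem_cons, List.not_mem_nil, or_false] at hX
  rcases hX with rfl | rfl | rfl | rfl | rfl | rfl
  · exact Ops.t4_spec _ s4H3_1_0 X1 (by omega) (by omega) h4
  · exact Ops.t4_spec _ s4H3_6_0 X1 (by omega) (by omega) h4
  · exact Ops.t4_spec _ s4H3_11_0 X1 (by omega) (by omega) h4
  · exact Ops.t4_spec _ s4H3_16_0 X1 (by omega) (by omega) h4
  · exact Ops.t4_spec _ s4H3_21_0 X1 (by omega) (by omega) h4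
  · exact Ops.t4_spec _ s4H3_26_0 X1 (by omega) (by omega) h4

theorem conclH3 (hL : SpLine3) (hcone : SpCone) : Concl CoxeterMatrix.H₃ :=
  asmDL hcone CoxeterMatrix.H₃ (by decide) dH3 dcH3 xH3 xcH3 rfl
    (by intro i j; fin_cases i <;> fin_cases j <;> rfl) orH3 oH3 eH3 rH3 oaH3 obH3 ocH3
    opH3 15 onH3
    (fun S _ ix sf F D h1 h2 h3 => hL S oH3 rH3 ix sf F D h1 h2 h3 ck3H3 ck4H3)
    kkH3 atH3 ogH3 xxH3

end Pool.Agent.H54.RG
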