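import Pool.Agent.H54.RG.OpsH4
import Pool.Agent.H54.RG.Spl

/-!
# Project RG (MP_35eb49): checks of the strips of type H4
-/

set_option autoImplicit false
set_option maxRecDepth 100000
set_option maxHeartbeats 0

namespace Pool.Agent.H54.RG

open Pool.Agent.H54.RF

/-- The checks of this file. They are in one theorem, so that they are done one after the other. -/
theorem q3H4_0 :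
    oH4.t3 1 0 68 = true ∧
    oH4.t3 1 68 28 = true ∧
    oH4.t3 1 96 22 = true ∧
    oH4.t3 1 118 18 = true ∧
    oH4.t3 1 136 16 = true ∧
    oH4.t3 1 152 14 = true ∧
    oH4.t3 1 166 14 = true ∧
    oH4.t3 1 180 12 = true ∧
    oH4.t3 1 192 8 = true ∧
    oH4.t3 1 200 7 = true ∧
    oH4.t3 1 207 7 = true ∧
    oH4.t3 1 214 8 = true ∧
    oH4.t3 1 222 8 = true ∧
    oH4.t3 1 230 7 = true ∧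
    oH4.t3 1 237 7 = true ∧
    oH4.t3 1 244 8 = true ∧
    oH4.t3 1 252 3 = true ∧
    oH4.t3 1 255 3 = true ∧
    oH4.t3 1 258 4 = true ∧
    oH4.t3 1 262 3 = true ∧
    oH4.t3 1 265 3 = true ∧
    oH4.t3 1 268 4 = true ∧
    oH4.t3 1 272 3 = true ∧
    oH4.t3 1 275 3 = true ∧
    oH4.t3 16 0 68 = true ∧
    oH4.t3 16 68 28 = true ∧
    oH4.t3 16 96 22 = true ∧
    oH4.t3 16 118 18 = true ∧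
    oH4.t3 16 136 17 = true ∧
    oH4.t3 16 153 14 = true ∧
    oH4.t3 16 167 14 = true ∧
    oH4.t3 16 181 12 = true ∧
    oH4.t3 16 193 11 = true ∧
    oH4.t3 16 204 10 = true ∧
    oH4.t3 16 214 11 = true ∧
    oH4.t3 16 225 10 = true ∧
    oH4.t3 16 235 11 = true ∧
    oH4.t3 16 246 11 = true ∧
    oH4.t3 16 257 10 = true ∧
    oH4.t3 16 267 11 = true ∧
    oH4.t3 31 0 58 = true ∧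
    oH4.t3 31 58 24 = true ∧
    oH4.t3 31 82 18 = true ∧
    oH4.t3 31 100 16 = true ∧
    oH4.t3 31 116 14 = true ∧
    oH4.t3 31 130 12 = true ∧
    oH4.t3 31 142 11 = true ∧
    oH4.t3 31 153 11 = true ∧
    oH4.t3 31 164 5 = true ∧
    oH4.t3 31 169 6 = true ∧
    oH4.t3 31 175 5 = true ∧
    oH4.t3 31 180 6 = true ∧
    oH4.t3 31 186 5 = true ∧
    oH4.t3 31 191 5 = true ∧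
    oH4.t3 31 196 6 = true ∧
    oH4.t3 31 202 5 = true ∧
    oH4.t3 31 207 8 = true ∧
    oH4.t3 31 215 7 = true ∧
    oH4.t3 31 222 7 = true ∧
    oH4.t3 31 229 8 = true ∧
    oH4.t3 31 237 8 = true ∧
    oH4.t3 31 245 7 = true ∧
    oH4.t3 31 252 7 = true ∧
    oH4.t3 31 259 8 = true ∧
    oH4.t3 31 267 1 = true ∧
    oH4.t3 31 268 2 = true ∧
    oH4.t3 31 270 1 = true ∧
    oH4.t3 31 271 2 = true ∧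
    oH4.t3 31 273 1 = true ∧
    oH4.t3 31 274 1 = true ∧
    oH4.t3 31 275 2 = true ∧
    oH4.t3 31 277 1 = true := by
  refine ⟨?_, ?_, ?_, ?_, ?_, ?_, ?_, ?_, ?_, ?_, ?_, ?_, ?_, ?_, ?_, ?_, ?_, ?_, ?_, ?_,
    ?_, ?_, ?_, ?_, ?_, ?_, ?_, ?_, ?_, ?_, ?_, ?_, ?_, ?_, ?_, ?_, ?_, ?_, ?_, ?_,
    ?_, ?_, ?_, ?_, ?_, ?_, ?_, ?_, ?_, ?_, ?_, ?_, ?_, ?_, ?_, ?_, ?_, ?_, ?_, ?_,
    ?_, ?_, ?_, ?_, ?_, ?_, ?_, ?_, ?_, ?_, ?_, ?_⟩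
  · decide +kernel
  · decide +kernel
  · decide +kernel
  · decide +kernel
  · decide +kernel
  · decide +kernel
  · decide +kernel
  · decide +kernel
  · decide +kernel
  · decide +kernel
  · decide +kernel
  · decide +kernel
  · decide +kernel
  · decide +kernel
  · decide +kernel
  · decide +kernel
  · decide +kernel
  · decide +kernel
  · decide +kernel
  · decide +kernel
  · decide +kernel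
  · decide +kernel
  · decide +kernel
  · decide +kernel
  · decide +kernel
  · decide +kernel
  · decide +kernel
  · decide +kernel
  · decide +kernel
  · decide +kernel
  · decide +kernel
  · decide +kernel
  · decide +kernel
  · decide +kernel
  · decide +kernel
  · decide +kernel
  · decide +kernel
  · decide +kernel
  · decide +kernel
  · decide +kernel
  · decide +kernel
  · decide +kernel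
  · decide +kernel
  · decide +kernel
  · decide +kernel
  · decide +kernel
  · decide +kernel
  · decide +kernel
  · decide +kernel
  · decide +kernel
  · decide +kernel
  · decide +kernel
  · decide +kernel
  · decide +kernel
  · decide +kernel
  · decide +kernel
  · decide +kernel
  · decide +kernel
  · decide +kernel
  · decide +kernel
  · decide +kernel
  · decide +kernel
  · decide +kernel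
  · decide +kernel
  · decide +kernel
  · decide +kernel
  · decide +kernel
  · decide +kernel
  · decide +kernel
  · decide +kernel
  · decide +kernel
  · decide +kernel

theorem s3H4_1_0 : oH4.t3 1 0 192 = true :=
  (t3_two oH4 1 0 68 124 68 192 rfl rfl
    q3H4_0.1
    (t3_two oH4 1 68 28 96 96 124 rfl rfl
    q3H4_0.2.1
    (t3_two oH4 1 96 22 74 118 96 rfl rfl
    q3H4_0.2.2.1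
    (t3_two oH4 1 118 18 56 136 74 rfl rfl
    q3H4_0.2.2.2.1
    (t3_two oH4 1 136 16 40 152 56 rfl rfl
    q3H4_0.2.2.2.2.1
    (t3_two oH4 1 152 14 26 166 40 rfl rfl
    q3H4_0.2.2.2.2.2.1
    (t3_two oH4 1 166 14 12 180 26 rfl rfl
    q3H4_0.2.2.2.2.2.2.1
    q3H4_0.2.2.2.2.2.2.2.1)))))))

theorem s3H4_1_192 : oH4.t3 1 192 60 = true :=
  (t3_two oH4 1 192 8 52 200 60 rfl rfl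
    q3H4_0.2.2.2.2.2.2.2.2.1
    (t3_two oH4 1 200 7 45 207 52 rfl rfl
    q3H4_0.2.2.2.2.2.2.2.2.2.1
    (t3_two oH4 1 207 7 38 214 45 rfl rfl
    q3H4_0.2.2.2.2.2.2.2.2.2.2.1
    (t3_two oH4 1 214 8 30 222 38 rfl rfl
    q3H4_0.2.2.2.2.2.2.2.2.2.2.2.1
    (t3_two oH4 1 222 8 22 230 30 rfl rfl
    q3H4_0.2.2.2.2.2.2.2.2.2.2.2.2.1
    (t3_two oH4 1 230 7 15 237 22 rfl rfl
    q3H4_0.2.2.2.2.2.2.2.2.2.2.2.2.2.1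
    (t3_two oH4 1 237 7 8 244 15 rfl rfl
    q3H4_0.2.2.2.2.2.2.2.2.2.2.2.2.2.2.1
    q3H4_0.2.2.2.2.2.2.2.2.2.2.2.2.2.2.2.1)))))))

theorem s3H4_1_252 : oH4.t3 1 252 26 = true :=
  (t3_two oH4 1 252 3 23 255 26 rfl rfl
    q3H4_0.2.2.2.2.2.2.2.2.2.2.2.2.2.2.2.2.1
    (t3_two oH4 1 255 3 20 258 23 rfl rfl
    q3H4_0.2.2.2.2.2.2.2.2.2.2.2.2.2.2.2.2.2.1
    (t3_two oH4 1 258 4 16 262 20 rfl rfl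
    q3H4_0.2.2.2.2.2.2.2.2.2.2.2.2.2.2.2.2.2.2.1
    (t3_two oH4 1 262 3 13 265 16 rfl rfl
    q3H4_0.2.2.2.2.2.2.2.2.2.2.2.2.2.2.2.2.2.2.2.1
    (t3_two oH4 1 265 3 10 268 13 rfl rfl
    q3H4_0.2.2.2.2.2.2.2.2.2.2.2.2.2.2.2.2.2.2.2.2.1
    (t3_two oH4 1 268 4 6 272 10 rfl rfl
    q3H4_0.2.2.2.2.2.2.2.2.2.2.2.2.2.2.2.2.2.2.2.2.2.1
    (t3_two oH4 1 272 3 3 275 6 rfl rfl
    q3H4_0.2.2.2.2.2.2.2.2.2.2.2.2.2.2.2.2.2.2.2.2.2.2.1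
    q3H4_0.2.2.2.2.2.2.2.2.2.2.2.2.2.2.2.2.2.2.2.2.2.2.2.1)))))))

theorem s3H4_16_0 : oH4.t3 16 0 193 = true :=
  (t3_two oH4 16 0 68 125 68 193 rfl rfl
    q3H4_0.2.2.2.2.2.2.2.2.2.2.2.2.2.2.2.2.2.2.2.2.2.2.2.2.1
    (t3_two oH4 16 68 28 97 96 125 rfl rfl
    q3H4_0.2.2.2.2.2.2.2.2.2.2.2.2.2.2.2.2.2.2.2.2.2.2.2.2.2.1
    (t3_two oH4 16 96 22 75 118 97 rfl rfl
    q3H4_0.2.2.2.2.2.2.2.2.2.2.2.2.2.2.2.2.2.2.2.2.2.2.2.2.2.2.1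
    (t3_two oH4 16 118 18 57 136 75 rfl rfl
    q3H4_0.2.2.2.2.2.2.2.2.2.2.2.2.2.2.2.2.2.2.2.2.2.2.2.2.2.2.2.1
    (t3_two oH4 16 136 17 40 153 57 rfl rfl
    q3H4_0.2.2.2.2.2.2.2.2.2.2.2.2.2.2.2.2.2.2.2.2.2.2.2.2.2.2.2.2.1
    (t3_two oH4 16 153 14 26 167 40 rfl rfl
    q3H4_0.2.2.2.2.2.2.2.2.2.2.2.2.2.2.2.2.2.2.2.2.2.2.2.2.2.2.2.2.2.1
    (t3_two oH4 16 167 14 12 181 26 rfl rfl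
    q3H4_0.2.2.2.2.2.2.2.2.2.2.2.2.2.2.2.2.2.2.2.2.2.2.2.2.2.2.2.2.2.2.1
    q3H4_0.2.2.2.2.2.2.2.2.2.2.2.2.2.2.2.2.2.2.2.2.2.2.2.2.2.2.2.2.2.2.2.1)))))))

theorem s3H4_16_193 : oH4.t3 16 193 85 = true :=
  (t3_two oH4 16 193 11 74 204 85 rfl rfl
    q3H4_0.2.2.2.2.2.2.2.2.2.2.2.2.2.2.2.2.2.2.2.2.2.2.2.2.2.2.2.2.2.2.2.2.1
    (t3_two oH4 16 204 10 64 214 74 rfl rfl
    q3H4_0.2.2.2.2.2.2.2.2.2.2.2.2.2.2.2.2.2.2.2.2.2.2.2.2.2.2.2.2.2.2.2.2.2.1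
    (t3_two oH4 16 214 11 53 225 64 rfl rfl
    q3H4_0.2.2.2.2.2.2.2.2.2.2.2.2.2.2.2.2.2.2.2.2.2.2.2.2.2.2.2.2.2.2.2.2.2.2.1
    (t3_two oH4 16 225 10 43 235 53 rfl rfl
    q3H4_0.2.2.2.2.2.2.2.2.2.2.2.2.2.2.2.2.2.2.2.2.2.2.2.2.2.2.2.2.2.2.2.2.2.2.2.1
    (t3_two oH4 16 235 11 32 246 43 rfl rfl
    q3H4_0.2.2.2.2.2.2.2.2.2.2.2.2.2.2.2.2.2.2.2.2.2.2.2.2.2.2.2.2.2.2.2.2.2.2.2.2.1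
    (t3_two oH4 16 246 11 21 257 32 rfl rfl
    q3H4_0.2.2.2.2.2.2.2.2.2.2.2.2.2.2.2.2.2.2.2.2.2.2.2.2.2.2.2.2.2.2.2.2.2.2.2.2.2.1
    (t3_two oH4 16 257 10 11 267 21 rfl rfl
    q3H4_0.2.2.2.2.2.2.2.2.2.2.2.2.2.2.2.2.2.2.2.2.2.2.2.2.2.2.2.2.2.2.2.2.2.2.2.2.2.2.1
    q3H4_0.2.2.2.2.2.2.2.2.2.2.2.2.2.2.2.2.2.2.2.2.2.2.2.2.2.2.2.2.2.2.2.2.2.2.2.2.2.2.2.1)))))))

theorem s3H4_31_0 : oH4.t3 31 0 164 = true :=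
  (t3_two oH4 31 0 58 106 58 164 rfl rfl
    q3H4_0.2.2.2.2.2.2.2.2.2.2.2.2.2.2.2.2.2.2.2.2.2.2.2.2.2.2.2.2.2.2.2.2.2.2.2.2.2.2.2.2.1
    (t3_two oH4 31 58 24 82 82 106 rfl rfl
    q3H4_0.2.2.2.2.2.2.2.2.2.2.2.2.2.2.2.2.2.2.2.2.2.2.2.2.2.2.2.2.2.2.2.2.2.2.2.2.2.2.2.2.2.1
    (t3_two oH4 31 82 18 64 100 82 rfl rfl
    q3H4_0.2.2.2.2.2.2.2.2.2.2.2.2.2.2.2.2.2.2.2.2.2.2.2.2.2.2.2.2.2.2.2.2.2.2.2.2.2.2.2.2.2.2.1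
    (t3_two oH4 31 100 16 48 116 64 rfl rfl
    q3H4_0.2.2.2.2.2.2.2.2.2.2.2.2.2.2.2.2.2.2.2.2.2.2.2.2.2.2.2.2.2.2.2.2.2.2.2.2.2.2.2.2.2.2.2.1
    (t3_two oH4 31 116 14 34 130 48 rfl rfl
    q3H4_0.2.2.2.2.2.2.2.2.2.2.2.2.2.2.2.2.2.2.2.2.2.2.2.2.2.2.2.2.2.2.2.2.2.2.2.2.2.2.2.2.2.2.2.2.1
    (t3_two oH4 31 130 12 22 142 34 rfl rfl
    q3H4_0.2.2.2.2.2.2.2.2.2.2.2.2.2.2.2.2.2.2.2.2.2.2.2.2.2.2.2.2.2.2.2.2.2.2.2.2.2.2.2.2.2.2.2.2.2.1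
    (t3_two oH4 31 142 11 11 153 22 rfl rfl
    q3H4_0.2.2.2.2.2.2.2.2.2.2.2.2.2.2.2.2.2.2.2.2.2.2.2.2.2.2.2.2.2.2.2.2.2.2.2.2.2.2.2.2.2.2.2.2.2.2.1
    q3H4_0.2.2.2.2.2.2.2.2.2.2.2.2.2.2.2.2.2.2.2.2.2.2.2.2.2.2.2.2.2.2.2.2.2.2.2.2.2.2.2.2.2.2.2.2.2.2.2.1)))))))

theorem s3H4_31_164 : oH4.t3 31 164 43 = true :=
  (t3_two oH4 31 164 5 38 169 43 rfl rfl
    q3H4_0.2.2.2.2.2.2.2.2.2.2.2.2.2.2.2.2.2.2.2.2.2.2.2.2.2.2.2.2.2.2.2.2.2.2.2.2.2.2.2.2.2.2.2.2.2.2.2.2.1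
    (t3_two oH4 31 169 6 32 175 38 rfl rfl
    q3H4_0.2.2.2.2.2.2.2.2.2.2.2.2.2.2.2.2.2.2.2.2.2.2.2.2.2.2.2.2.2.2.2.2.2.2.2.2.2.2.2.2.2.2.2.2.2.2.2.2.2.1
    (t3_two oH4 31 175 5 27 180 32 rfl rfl
    q3H4_0.2.2.2.2.2.2.2.2.2.2.2.2.2.2.2.2.2.2.2.2.2.2.2.2.2.2.2.2.2.2.2.2.2.2.2.2.2.2.2.2.2.2.2.2.2.2.2.2.2.2.1
    (t3_two oH4 31 180 6 21 186 27 rfl rfl
    q3H4_0.2.2.2.2.2.2.2.2.2.2.2.2.2.2.2.2.2.2.2.2.2.2.2.2.2.2.2.2.2.2.2.2.2.2.2.2.2.2.2.2.2.2.2.2.2.2.2.2.2.2.2.1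
    (t3_two oH4 31 186 5 16 191 21 rfl rfl
    q3H4_0.2.2.2.2.2.2.2.2.2.2.2.2.2.2.2.2.2.2.2.2.2.2.2.2.2.2.2.2.2.2.2.2.2.2.2.2.2.2.2.2.2.2.2.2.2.2.2.2.2.2.2.2.1
    (t3_two oH4 31 191 5 11 196 16 rfl rfl
    q3H4_0.2.2.2.2.2.2.2.2.2.2.2.2.2.2.2.2.2.2.2.2.2.2.2.2.2.2.2.2.2.2.2.2.2.2.2.2.2.2.2.2.2.2.2.2.2.2.2.2.2.2.2.2.2.1
    (t3_two oH4 31 196 6 5 202 11 rfl rfl
    q3H4_0.2.2.2.2.2.2.2.2.2.2.2.2.2.2.2.2.2.2.2.2.2.2.2.2.2.2.2.2.2.2.2.2.2.2.2.2.2.2.2.2.2.2.2.2.2.2.2.2.2.2.2.2.2.2.1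
    q3H4_0.2.2.2.2.2.2.2.2.2.2.2.2.2.2.2.2.2.2.2.2.2.2.2.2.2.2.2.2.2.2.2.2.2.2.2.2.2.2.2.2.2.2.2.2.2.2.2.2.2.2.2.2.2.2.2.1)))))))

theorem s3H4_31_207 : oH4.t3 31 207 60 = true :=
  (t3_two oH4 31 207 8 52 215 60 rfl rfl
    q3H4_0.2.2.2.2.2.2.2.2.2.2.2.2.2.2.2.2.2.2.2.2.2.2.2.2.2.2.2.2.2.2.2.2.2.2.2.2.2.2.2.2.2.2.2.2.2.2.2.2.2.2.2.2.2.2.2.2.1
    (t3_two oH4 31 215 7 45 222 52 rfl rfl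
    q3H4_0.2.2.2.2.2.2.2.2.2.2.2.2.2.2.2.2.2.2.2.2.2.2.2.2.2.2.2.2.2.2.2.2.2.2.2.2.2.2.2.2.2.2.2.2.2.2.2.2.2.2.2.2.2.2.2.2.2.1
    (t3_two oH4 31 222 7 38 229 45 rfl rfl
    q3H4_0.2.2.2.2.2.2.2.2.2.2.2.2.2.2.2.2.2.2.2.2.2.2.2.2.2.2.2.2.2.2.2.2.2.2.2.2.2.2.2.2.2.2.2.2.2.2.2.2.2.2.2.2.2.2.2.2.2.2.1
    (t3_two oH4 31 229 8 30 237 38 rfl rfl
    q3H4_0.2.2.2.2.2.2.2.2.2.2.2.2.2.2.2.2.2.2.2.2.2.2.2.2.2.2.2.2.2.2.2.2.2.2.2.2.2.2.2.2.2.2.2.2.2.2.2.2.2.2.2.2.2.2.2.2.2.2.2.1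
    (t3_two oH4 31 237 8 22 245 30 rfl rfl
    q3H4_0.2.2.2.2.2.2.2.2.2.2.2.2.2.2.2.2.2.2.2.2.2.2.2.2.2.2.2.2.2.2.2.2.2.2.2.2.2.2.2.2.2.2.2.2.2.2.2.2.2.2.2.2.2.2.2.2.2.2.2.2.1
    (t3_two oH4 31 245 7 15 252 22 rfl rfl
    q3H4_0.2.2.2.2.2.2.2.2.2.2.2.2.2.2.2.2.2.2.2.2.2.2.2.2.2.2.2.2.2.2.2.2.2.2.2.2.2.2.2.2.2.2.2.2.2.2.2.2.2.2.2.2.2.2.2.2.2.2.2.2.2.1
    (t3_two oH4 31 252 7 8 259 15 rfl rfl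
    q3H4_0.2.2.2.2.2.2.2.2.2.2.2.2.2.2.2.2.2.2.2.2.2.2.2.2.2.2.2.2.2.2.2.2.2.2.2.2.2.2.2.2.2.2.2.2.2.2.2.2.2.2.2.2.2.2.2.2.2.2.2.2.2.2.1
    q3H4_0.2.2.2.2.2.2.2.2.2.2.2.2.2.2.2.2.2.2.2.2.2.2.2.2.2.2.2.2.2.2.2.2.2.2.2.2.2.2.2.2.2.2.2.2.2.2.2.2.2.2.2.2.2.2.2.2.2.2.2.2.2.2.2.1)))))))

theorem s3H4_31_267 : oH4.t3 31 267 11 = true :=
  (t3_two oH4 31 267 1 10 268 11 rfl rfl
    q3H4_0.2.2.2.2.2.2.2.2.2.2.2.2.2.2.2.2.2.2.2.2.2.2.2.2.2.2.2.2.2.2.2.2.2.2.2.2.2.2.2.2.2.2.2.2.2.2.2.2.2.2.2.2.2.2.2.2.2.2.2.2.2.2.2.2.1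
    (t3_two oH4 31 268 2 8 270 10 rfl rfl
    q3H4_0.2.2.2.2.2.2.2.2.2.2.2.2.2.2.2.2.2.2.2.2.2.2.2.2.2.2.2.2.2.2.2.2.2.2.2.2.2.2.2.2.2.2.2.2.2.2.2.2.2.2.2.2.2.2.2.2.2.2.2.2.2.2.2.2.2.1
    (t3_two oH4 31 270 1 7 271 8 rfl rfl
    q3H4_0.2.2.2.2.2.2.2.2.2.2.2.2.2.2.2.2.2.2.2.2.2.2.2.2.2.2.2.2.2.2.2.2.2.2.2.2.2.2.2.2.2.2.2.2.2.2.2.2.2.2.2.2.2.2.2.2.2.2.2.2.2.2.2.2.2.2.1
    (t3_two oH4 31 271 2 5 273 7 rfl rfl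
    q3H4_0.2.2.2.2.2.2.2.2.2.2.2.2.2.2.2.2.2.2.2.2.2.2.2.2.2.2.2.2.2.2.2.2.2.2.2.2.2.2.2.2.2.2.2.2.2.2.2.2.2.2.2.2.2.2.2.2.2.2.2.2.2.2.2.2.2.2.2.1
    (t3_two oH4 31 273 1 4 274 5 rfl rfl
    q3H4_0.2.2.2.2.2.2.2.2.2.2.2.2.2.2.2.2.2.2.2.2.2.2.2.2.2.2.2.2.2.2.2.2.2.2.2.2.2.2.2.2.2.2.2.2.2.2.2.2.2.2.2.2.2.2.2.2.2.2.2.2.2.2.2.2.2.2.2.2.1
    (t3_two oH4 31 274 1 3 275 4 rfl rfl
    q3H4_0.2.2.2.2.2.2.2.2.2.2.2.2.2.2.2.2.2.2.2.2.2.2.2.2.2.2.2.2.2.2.2.2.2.2.2.2.2.2.2.2.2.2.2.2.2.2.2.2.2.2.2.2.2.2.2.2.2.2.2.2.2.2.2.2.2.2.2.2.2.1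
    (t3_two oH4 31 275 2 1 277 3 rfl rfl
    q3H4_0.2.2.2.2.2.2.2.2.2.2.2.2.2.2.2.2.2.2.2.2.2.2.2.2.2.2.2.2.2.2.2.2.2.2.2.2.2.2.2.2.2.2.2.2.2.2.2.2.2.2.2.2.2.2.2.2.2.2.2.2.2.2.2.2.2.2.2.2.2.2.1
    q3H4_0.2.2.2.2.2.2.2.2.2.2.2.2.2.2.2.2.2.2.2.2.2.2.2.2.2.2.2.2.2.2.2.2.2.2.2.2.2.2.2.2.2.2.2.2.2.2.2.2.2.2.2.2.2.2.2.2.2.2.2.2.2.2.2.2.2.2.2.2.2.2.2)))))))

end Pool.Agent.H54.RG
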