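import Pool.Agent.H54.RG.OpsH4
import Pool.Agent.H54.RG.Spl

/-!
# Project RG (MP_35eb49): checks of the strips of type H4
-/

set_option autoImplicit false
set_option maxRecDepth 100000
set_option maxHeartbeats 0

namespace Pool.Agent.H54.RG

open Pool.Agent.H54.RF

/-- The checks of this file. They are in one theorem, so that they are done one after the other. -/
theorem q3H4_1 :
    oH4.t3 46 0 42 = true ∧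
    oH4.t3 46 42 18 = true ∧
    oH4.t3 46 60 13 = true ∧
    oH4.t3 46 73 12 = true ∧
    oH4.t3 46 85 10 = true ∧
    oH4.t3 46 95 9 = true ∧
    oH4.t3 46 104 8 = true ∧
    oH4.t3 46 112 8 = true ∧
    oH4.t3 46 120 6 = true ∧
    oH4.t3 46 126 5 = true ∧
    oH4.t3 46 131 5 = true ∧
    oH4.t3 46 136 6 = true ∧
    oH4.t3 46 142 6 = true ∧
    oH4.t3 46 148 5 = true ∧
    oH4.t3 46 153 5 = true ∧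
    oH4.t3 46 158 6 = true ∧
    oH4.t3 46 164 2 = true ∧
    oH4.t3 46 166 2 = true ∧
    oH4.t3 46 168 1 = true ∧
    oH4.t3 46 169 2 = true ∧
    oH4.t3 46 171 2 = true ∧
    oH4.t3 46 173 1 = true ∧
    oH4.t3 46 174 2 = true ∧
    oH4.t3 46 176 2 = true ∧
    oH4.t3 46 178 1 = true ∧
    oH4.t3 46 179 1 = true ∧
    oH4.t3 46 180 2 = true ∧
    oH4.t3 46 182 2 = true ∧
    oH4.t3 46 184 2 = true ∧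
    oH4.t3 46 186 2 = true ∧
    oH4.t3 46 188 1 = true ∧
    oH4.t3 46 189 2 = true ∧
    oH4.t3 46 191 2 = true ∧
    oH4.t3 46 193 2 = true ∧
    oH4.t3 46 195 1 = true ∧
    oH4.t3 46 196 1 = true ∧
    oH4.t3 46 197 1 = true ∧
    oH4.t3 46 198 1 = true ∧
    oH4.t3 46 199 1 = true ∧
    oH4.t3 46 200 1 = true ∧
    oH4.t3 46 201 1 = true ∧
    oH4.t3 46 202 1 = true ∧
    oH4.t3 46 203 3 = true ∧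
    oH4.t3 46 206 2 = true ∧
    oH4.t3 46 208 3 = true ∧
    oH4.t3 46 211 2 = true ∧
    oH4.t3 46 213 3 = true ∧
    oH4.t3 46 216 3 = true ∧
    oH4.t3 46 219 2 = true ∧
    oH4.t3 46 221 3 = true ∧
    oH4.t3 46 224 2 = true ∧
    oH4.t3 46 226 2 = true ∧
    oH4.t3 46 228 2 = true ∧
    oH4.t3 46 230 2 = true ∧
    oH4.t3 46 232 1 = true ∧
    oH4.t3 46 233 2 = true ∧
    oH4.t3 46 235 2 = true ∧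
    oH4.t3 46 237 2 = true := by
  refine ⟨?_, ?_, ?_, ?_, ?_, ?_, ?_, ?_, ?_, ?_, ?_, ?_, ?_, ?_, ?_, ?_, ?_, ?_, ?_, ?_,
    ?_, ?_, ?_, ?_, ?_, ?_, ?_, ?_, ?_, ?_, ?_, ?_, ?_, ?_, ?_, ?_, ?_, ?_, ?_, ?_,
    ?_, ?_, ?_, ?_, ?_, ?_, ?_, ?_, ?_, ?_, ?_, ?_, ?_, ?_, ?_, ?_, ?_, ?_⟩
  · decide +kernel
  · decide +kernel
  · decide +kernel
  · decide +kernel
  · decide +kernel
  · decide +kernel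
  · decide +kernel
  · decide +kernel
  · decide +kernel
  · decide +kernel
  · decide +kernel
  · decide +kernel
  · decide +kernel
  · decide +kernel
  · decide +kernel
  · decide +kernel
  · decide +kernel
  · decide +kernel
  · decide +kernel
  · decide +kernel
  · decide +kernel
  · decide +kernel
  · decide +kernel
  · decide +kernel
  · decide +kernel
  · decide +kernel
  · decide +kernel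
  · decide +kernel
  · decide +kernel
  · decide +kernel
  · decide +kernel
  · decide +kernel
  · decide +kernel
  · decide +kernel
  · decide +kernel
  · decide +kernel
  · decide +kernel
  · decide +kernel
  · decide +kernel
  · decide +kernel
  · decide +kernel
  · decide +kernel
  · decide +kernel
  · decide +kernel
  · decide +kernel
  · decide +kernel
  · decide +kernel
  · decide +kernel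
  · decide +kernel
  · decide +kernel
  · decide +kernel
  · decide +kernel
  · decide +kernel
  · decide +kernel
  · decide +kernel
  · decide +kernel
  · decide +kernel
  · decide +kernel

theorem s3H4_46_0 : oH4.t3 46 0 120 = true :=
  (t3_two oH4 46 0 42 78 42 120 rfl rfl
    q3H4_1.1
    (t3_two oH4 46 42 18 60 60 78 rfl rfl
    q3H4_1.2.1
    (t3_two oH4 46 60 13 47 73 60 rfl rfl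
    q3H4_1.2.2.1
    (t3_two oH4 46 73 12 35 85 47 rfl rfl
    q3H4_1.2.2.2.1
    (t3_two oH4 46 85 10 25 95 35 rfl rfl
    q3H4_1.2.2.2.2.1
    (t3_two oH4 46 95 9 16 104 25 rfl rfl
    q3H4_1.2.2.2.2.2.1
    (t3_two oH4 46 104 8 8 112 16 rfl rfl
    q3H4_1.2.2.2.2.2.2.1
    q3H4_1.2.2.2.2.2.2.2.1)))))))

theorem s3H4_46_120 : oH4.t3 46 120 44 = true :=
  (t3_two oH4 46 120 6 38 126 44 rfl rfl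
    q3H4_1.2.2.2.2.2.2.2.2.1
    (t3_two oH4 46 126 5 33 131 38 rfl rfl
    q3H4_1.2.2.2.2.2.2.2.2.2.1
    (t3_two oH4 46 131 5 28 136 33 rfl rfl
    q3H4_1.2.2.2.2.2.2.2.2.2.2.1
    (t3_two oH4 46 136 6 22 142 28 rfl rfl
    q3H4_1.2.2.2.2.2.2.2.2.2.2.2.1
    (t3_two oH4 46 142 6 16 148 22 rfl rfl
    q3H4_1.2.2.2.2.2.2.2.2.2.2.2.2.1
    (t3_two oH4 46 148 5 11 153 16 rfl rfl
    q3H4_1.2.2.2.2.2.2.2.2.2.2.2.2.2.1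
    (t3_two oH4 46 153 5 6 158 11 rfl rfl
    q3H4_1.2.2.2.2.2.2.2.2.2.2.2.2.2.2.1
    q3H4_1.2.2.2.2.2.2.2.2.2.2.2.2.2.2.2.1)))))))

theorem s3H4_46_164 : oH4.t3 46 164 14 = true :=
  (t3_two oH4 46 164 2 12 166 14 rfl rfl
    q3H4_1.2.2.2.2.2.2.2.2.2.2.2.2.2.2.2.2.1
    (t3_two oH4 46 166 2 10 168 12 rfl rfl
    q3H4_1.2.2.2.2.2.2.2.2.2.2.2.2.2.2.2.2.2.1
    (t3_two oH4 46 168 1 9 169 10 rfl rfl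
    q3H4_1.2.2.2.2.2.2.2.2.2.2.2.2.2.2.2.2.2.2.1
    (t3_two oH4 46 169 2 7 171 9 rfl rfl
    q3H4_1.2.2.2.2.2.2.2.2.2.2.2.2.2.2.2.2.2.2.2.1
    (t3_two oH4 46 171 2 5 173 7 rfl rfl
    q3H4_1.2.2.2.2.2.2.2.2.2.2.2.2.2.2.2.2.2.2.2.2.1
    (t3_two oH4 46 173 1 4 174 5 rfl rfl
    q3H4_1.2.2.2.2.2.2.2.2.2.2.2.2.2.2.2.2.2.2.2.2.2.1
    (t3_two oH4 46 174 2 2 176 4 rfl rfl
    q3H4_1.2.2.2.2.2.2.2.2.2.2.2.2.2.2.2.2.2.2.2.2.2.2.1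
    q3H4_1.2.2.2.2.2.2.2.2.2.2.2.2.2.2.2.2.2.2.2.2.2.2.2.1)))))))

theorem s3H4_46_178 : oH4.t3 46 178 2 = true :=
  (t3_two oH4 46 178 1 1 179 2 rfl rfl
    q3H4_1.2.2.2.2.2.2.2.2.2.2.2.2.2.2.2.2.2.2.2.2.2.2.2.2.1
    q3H4_1.2.2.2.2.2.2.2.2.2.2.2.2.2.2.2.2.2.2.2.2.2.2.2.2.2.1)

theorem s3H4_46_180 : oH4.t3 46 180 15 = true :=
  (t3_two oH4 46 180 2 13 182 15 rfl rfl
    q3H4_1.2.2.2.2.2.2.2.2.2.2.2.2.2.2.2.2.2.2.2.2.2.2.2.2.2.2.1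
    (t3_two oH4 46 182 2 11 184 13 rfl rfl
    q3H4_1.2.2.2.2.2.2.2.2.2.2.2.2.2.2.2.2.2.2.2.2.2.2.2.2.2.2.2.1
    (t3_two oH4 46 184 2 9 186 11 rfl rfl
    q3H4_1.2.2.2.2.2.2.2.2.2.2.2.2.2.2.2.2.2.2.2.2.2.2.2.2.2.2.2.2.1
    (t3_two oH4 46 186 2 7 188 9 rfl rfl
    q3H4_1.2.2.2.2.2.2.2.2.2.2.2.2.2.2.2.2.2.2.2.2.2.2.2.2.2.2.2.2.2.1
    (t3_two oH4 46 188 1 6 189 7 rfl rfl
    q3H4_1.2.2.2.2.2.2.2.2.2.2.2.2.2.2.2.2.2.2.2.2.2.2.2.2.2.2.2.2.2.2.1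
    (t3_two oH4 46 189 2 4 191 6 rfl rfl
    q3H4_1.2.2.2.2.2.2.2.2.2.2.2.2.2.2.2.2.2.2.2.2.2.2.2.2.2.2.2.2.2.2.2.1
    (t3_two oH4 46 191 2 2 193 4 rfl rfl
    q3H4_1.2.2.2.2.2.2.2.2.2.2.2.2.2.2.2.2.2.2.2.2.2.2.2.2.2.2.2.2.2.2.2.2.1
    q3H4_1.2.2.2.2.2.2.2.2.2.2.2.2.2.2.2.2.2.2.2.2.2.2.2.2.2.2.2.2.2.2.2.2.2.1)))))))

theorem s3H4_46_195 : oH4.t3 46 195 8 = true :=
  (t3_two oH4 46 195 1 7 196 8 rfl rfl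
    q3H4_1.2.2.2.2.2.2.2.2.2.2.2.2.2.2.2.2.2.2.2.2.2.2.2.2.2.2.2.2.2.2.2.2.2.2.1
    (t3_two oH4 46 196 1 6 197 7 rfl rfl
    q3H4_1.2.2.2.2.2.2.2.2.2.2.2.2.2.2.2.2.2.2.2.2.2.2.2.2.2.2.2.2.2.2.2.2.2.2.2.1
    (t3_two oH4 46 197 1 5 198 6 rfl rfl
    q3H4_1.2.2.2.2.2.2.2.2.2.2.2.2.2.2.2.2.2.2.2.2.2.2.2.2.2.2.2.2.2.2.2.2.2.2.2.2.1
    (t3_two oH4 46 198 1 4 199 5 rfl rfl
    q3H4_1.2.2.2.2.2.2.2.2.2.2.2.2.2.2.2.2.2.2.2.2.2.2.2.2.2.2.2.2.2.2.2.2.2.2.2.2.2.1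
    (t3_two oH4 46 199 1 3 200 4 rfl rfl
    q3H4_1.2.2.2.2.2.2.2.2.2.2.2.2.2.2.2.2.2.2.2.2.2.2.2.2.2.2.2.2.2.2.2.2.2.2.2.2.2.2.1
    (t3_two oH4 46 200 1 2 201 3 rfl rfl
    q3H4_1.2.2.2.2.2.2.2.2.2.2.2.2.2.2.2.2.2.2.2.2.2.2.2.2.2.2.2.2.2.2.2.2.2.2.2.2.2.2.2.1
    (t3_two oH4 46 201 1 1 202 2 rfl rfl
    q3H4_1.2.2.2.2.2.2.2.2.2.2.2.2.2.2.2.2.2.2.2.2.2.2.2.2.2.2.2.2.2.2.2.2.2.2.2.2.2.2.2.2.1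
    q3H4_1.2.2.2.2.2.2.2.2.2.2.2.2.2.2.2.2.2.2.2.2.2.2.2.2.2.2.2.2.2.2.2.2.2.2.2.2.2.2.2.2.2.1)))))))

theorem s3H4_46_203 : oH4.t3 46 203 21 = true :=
  (t3_two oH4 46 203 3 18 206 21 rfl rfl
    q3H4_1.2.2.2.2.2.2.2.2.2.2.2.2.2.2.2.2.2.2.2.2.2.2.2.2.2.2.2.2.2.2.2.2.2.2.2.2.2.2.2.2.2.2.1
    (t3_two oH4 46 206 2 16 208 18 rfl rfl
    q3H4_1.2.2.2.2.2.2.2.2.2.2.2.2.2.2.2.2.2.2.2.2.2.2.2.2.2.2.2.2.2.2.2.2.2.2.2.2.2.2.2.2.2.2.2.1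
    (t3_two oH4 46 208 3 13 211 16 rfl rfl
    q3H4_1.2.2.2.2.2.2.2.2.2.2.2.2.2.2.2.2.2.2.2.2.2.2.2.2.2.2.2.2.2.2.2.2.2.2.2.2.2.2.2.2.2.2.2.2.1
    (t3_two oH4 46 211 2 11 213 13 rfl rfl
    q3H4_1.2.2.2.2.2.2.2.2.2.2.2.2.2.2.2.2.2.2.2.2.2.2.2.2.2.2.2.2.2.2.2.2.2.2.2.2.2.2.2.2.2.2.2.2.2.1
    (t3_two oH4 46 213 3 8 216 11 rfl rfl
    q3H4_1.2.2.2.2.2.2.2.2.2.2.2.2.2.2.2.2.2.2.2.2.2.2.2.2.2.2.2.2.2.2.2.2.2.2.2.2.2.2.2.2.2.2.2.2.2.2.1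
    (t3_two oH4 46 216 3 5 219 8 rfl rfl
    q3H4_1.2.2.2.2.2.2.2.2.2.2.2.2.2.2.2.2.2.2.2.2.2.2.2.2.2.2.2.2.2.2.2.2.2.2.2.2.2.2.2.2.2.2.2.2.2.2.2.1
    (t3_two oH4 46 219 2 3 221 5 rfl rfl
    q3H4_1.2.2.2.2.2.2.2.2.2.2.2.2.2.2.2.2.2.2.2.2.2.2.2.2.2.2.2.2.2.2.2.2.2.2.2.2.2.2.2.2.2.2.2.2.2.2.2.2.1
    q3H4_1.2.2.2.2.2.2.2.2.2.2.2.2.2.2.2.2.2.2.2.2.2.2.2.2.2.2.2.2.2.2.2.2.2.2.2.2.2.2.2.2.2.2.2.2.2.2.2.2.2.1)))))))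

theorem s3H4_46_224 : oH4.t3 46 224 15 = true :=
  (t3_two oH4 46 224 2 13 226 15 rfl rfl
    q3H4_1.2.2.2.2.2.2.2.2.2.2.2.2.2.2.2.2.2.2.2.2.2.2.2.2.2.2.2.2.2.2.2.2.2.2.2.2.2.2.2.2.2.2.2.2.2.2.2.2.2.2.1
    (t3_two oH4 46 226 2 11 228 13 rfl rfl
    q3H4_1.2.2.2.2.2.2.2.2.2.2.2.2.2.2.2.2.2.2.2.2.2.2.2.2.2.2.2.2.2.2.2.2.2.2.2.2.2.2.2.2.2.2.2.2.2.2.2.2.2.2.2.1
    (t3_two oH4 46 228 2 9 230 11 rfl rfl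
    q3H4_1.2.2.2.2.2.2.2.2.2.2.2.2.2.2.2.2.2.2.2.2.2.2.2.2.2.2.2.2.2.2.2.2.2.2.2.2.2.2.2.2.2.2.2.2.2.2.2.2.2.2.2.2.1
    (t3_two oH4 46 230 2 7 232 9 rfl rfl
    q3H4_1.2.2.2.2.2.2.2.2.2.2.2.2.2.2.2.2.2.2.2.2.2.2.2.2.2.2.2.2.2.2.2.2.2.2.2.2.2.2.2.2.2.2.2.2.2.2.2.2.2.2.2.2.2.1
    (t3_two oH4 46 232 1 6 233 7 rfl rfl
    q3H4_1.2.2.2.2.2.2.2.2.2.2.2.2.2.2.2.2.2.2.2.2.2.2.2.2.2.2.2.2.2.2.2.2.2.2.2.2.2.2.2.2.2.2.2.2.2.2.2.2.2.2.2.2.2.2.1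
    (t3_two oH4 46 233 2 4 235 6 rfl rfl
    q3H4_1.2.2.2.2.2.2.2.2.2.2.2.2.2.2.2.2.2.2.2.2.2.2.2.2.2.2.2.2.2.2.2.2.2.2.2.2.2.2.2.2.2.2.2.2.2.2.2.2.2.2.2.2.2.2.2.1
    (t3_two oH4 46 235 2 2 237 4 rfl rfl
    q3H4_1.2.2.2.2.2.2.2.2.2.2.2.2.2.2.2.2.2.2.2.2.2.2.2.2.2.2.2.2.2.2.2.2.2.2.2.2.2.2.2.2.2.2.2.2.2.2.2.2.2.2.2.2.2.2.2.2.1
    q3H4_1.2.2.2.2.2.2.2.2.2.2.2.2.2.2.2.2.2.2.2.2.2.2.2.2.2.2.2.2.2.2.2.2.2.2.2.2.2.2.2.2.2.2.2.2.2.2.2.2.2.2.2.2.2.2.2.2.2)))))))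

end Pool.Agent.H54.RG
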