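import Pool.Agent.H54.RG.OpsH4
import Pool.Agent.H54.RG.Spl

/-!
# Project RG (MP_35eb49): checks of the strips of type H4
-/

set_option autoImplicit false
set_option maxRecDepth 100000
set_option maxHeartbeats 0

namespace Pool.Agent.H54.RG

open Pool.Agent.H54.RF

/-- The checks of this file. They are in one theorem, so that they are done one after the other. -/
theorem q3H4_2 :
    oH4.t3 46 239 2 = true ∧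
    oH4.t3 46 241 1 = true ∧
    oH4.t3 46 242 1 = true ∧
    oH4.t3 46 243 2 = true ∧
    oH4.t3 46 245 2 = true ∧
    oH4.t3 46 247 1 = true ∧
    oH4.t3 46 248 1 = true ∧
    oH4.t3 46 249 2 = true ∧
    oH4.t3 46 251 1 = true ∧
    oH4.t3 46 252 1 = true ∧
    oH4.t3 46 253 1 = true ∧
    oH4.t3 46 254 1 = true ∧
    oH4.t3 46 255 1 = true ∧
    oH4.t3 46 256 1 = true ∧
    oH4.t3 46 257 1 = true ∧
    oH4.t3 46 258 1 = true ∧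
    oH4.t3 46 259 1 = true ∧
    oH4.t3 46 260 1 = true ∧
    oH4.t3 46 261 1 = true ∧
    oH4.t3 46 262 1 = true ∧
    oH4.t3 46 263 1 = true ∧
    oH4.t3 46 264 1 = true ∧
    oH4.t3 46 265 1 = true ∧
    oH4.t3 46 266 1 = true ∧
    oH4.t3 46 267 1 = true ∧
    oH4.t3 46 268 1 = true ∧
    oH4.t3 46 269 1 = true ∧
    oH4.t3 46 270 1 = true ∧
    oH4.t3 46 271 1 = true ∧
    oH4.t3 46 272 1 = true ∧
    oH4.t3 46 273 1 = true ∧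
    oH4.t3 46 274 1 = true ∧
    oH4.t3 46 275 1 = true ∧
    oH4.t3 46 276 1 = true ∧
    oH4.t3 46 277 1 = true := by
  refine ⟨?_, ?_, ?_, ?_, ?_, ?_, ?_, ?_, ?_, ?_, ?_, ?_, ?_, ?_, ?_, ?_, ?_, ?_, ?_, ?_,
    ?_, ?_, ?_, ?_, ?_, ?_, ?_, ?_, ?_, ?_, ?_, ?_, ?_, ?_, ?_⟩
  · decide +kernel
  · decide +kernel
  · decide +kernel
  · decide +kernel
  · decide +kernel
  · decide +kernel
  · decide +kernel
  · decide +kernel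
  · decide +kernel
  · decide +kernel
  · decide +kernel
  · decide +kernel
  · decide +kernel
  · decide +kernel
  · decide +kernel
  · decide +kernel
  · decide +kernel
  · decide +kernel
  · decide +kernel
  · decide +kernel
  · decide +kernel
  · decide +kernel
  · decide +kernel
  · decide +kernel
  · decide +kernel
  · decide +kernel
  · decide +kernel
  · decide +kernel
  · decide +kernel
  · decide +kernel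
  · decide +kernel
  · decide +kernel
  · decide +kernel
  · decide +kernel
  · decide +kernel

theorem s3H4_46_239 : oH4.t3 46 239 12 = true :=
  (t3_two oH4 46 239 2 10 241 12 rfl rfl
    q3H4_2.1
    (t3_two oH4 46 241 1 9 242 10 rfl rfl
    q3H4_2.2.1
    (t3_two oH4 46 242 1 8 243 9 rfl rfl
    q3H4_2.2.2.1
    (t3_two oH4 46 243 2 6 245 8 rfl rfl
    q3H4_2.2.2.2.1
    (t3_two oH4 46 245 2 4 247 6 rfl rfl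
    q3H4_2.2.2.2.2.1
    (t3_two oH4 46 247 1 3 248 4 rfl rfl
    q3H4_2.2.2.2.2.2.1
    (t3_two oH4 46 248 1 2 249 3 rfl rfl
    q3H4_2.2.2.2.2.2.2.1
    q3H4_2.2.2.2.2.2.2.2.1)))))))

theorem s3H4_46_251 : oH4.t3 46 251 4 = true :=
  (t3_two oH4 46 251 1 3 252 4 rfl rfl
    q3H4_2.2.2.2.2.2.2.2.2.1
    (t3_two oH4 46 252 1 2 253 3 rfl rfl
    q3H4_2.2.2.2.2.2.2.2.2.2.1
    (t3_two oH4 46 253 1 1 254 2 rfl rfl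
    q3H4_2.2.2.2.2.2.2.2.2.2.2.1
    q3H4_2.2.2.2.2.2.2.2.2.2.2.2.1)))

theorem s3H4_46_255 : oH4.t3 46 255 3 = true :=
  (t3_two oH4 46 255 1 2 256 3 rfl rfl
    q3H4_2.2.2.2.2.2.2.2.2.2.2.2.2.1
    (t3_two oH4 46 256 1 1 257 2 rfl rfl
    q3H4_2.2.2.2.2.2.2.2.2.2.2.2.2.2.1
    q3H4_2.2.2.2.2.2.2.2.2.2.2.2.2.2.2.1))

theorem s3H4_46_258 : oH4.t3 46 258 3 = true :=
  (t3_two oH4 46 258 1 2 259 3 rfl rfl
    q3H4_2.2.2.2.2.2.2.2.2.2.2.2.2.2.2.2.1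
    (t3_two oH4 46 259 1 1 260 2 rfl rfl
    q3H4_2.2.2.2.2.2.2.2.2.2.2.2.2.2.2.2.2.1
    q3H4_2.2.2.2.2.2.2.2.2.2.2.2.2.2.2.2.2.2.1))

theorem s3H4_46_261 : oH4.t3 46 261 2 = true :=
  (t3_two oH4 46 261 1 1 262 2 rfl rfl
    q3H4_2.2.2.2.2.2.2.2.2.2.2.2.2.2.2.2.2.2.2.1
    q3H4_2.2.2.2.2.2.2.2.2.2.2.2.2.2.2.2.2.2.2.2.1)

theorem s3H4_46_263 : oH4.t3 46 263 4 = true :=
  (t3_two oH4 46 263 1 3 264 4 rfl rfl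
    q3H4_2.2.2.2.2.2.2.2.2.2.2.2.2.2.2.2.2.2.2.2.2.1
    (t3_two oH4 46 264 1 2 265 3 rfl rfl
    q3H4_2.2.2.2.2.2.2.2.2.2.2.2.2.2.2.2.2.2.2.2.2.2.1
    (t3_two oH4 46 265 1 1 266 2 rfl rfl
    q3H4_2.2.2.2.2.2.2.2.2.2.2.2.2.2.2.2.2.2.2.2.2.2.2.1
    q3H4_2.2.2.2.2.2.2.2.2.2.2.2.2.2.2.2.2.2.2.2.2.2.2.2.1)))

theorem s3H4_46_267 : oH4.t3 46 267 3 = true :=
  (t3_two oH4 46 267 1 2 268 3 rfl rfl
    q3H4_2.2.2.2.2.2.2.2.2.2.2.2.2.2.2.2.2.2.2.2.2.2.2.2.2.1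
    (t3_two oH4 46 268 1 1 269 2 rfl rfl
    q3H4_2.2.2.2.2.2.2.2.2.2.2.2.2.2.2.2.2.2.2.2.2.2.2.2.2.2.1
    q3H4_2.2.2.2.2.2.2.2.2.2.2.2.2.2.2.2.2.2.2.2.2.2.2.2.2.2.2.1))

theorem s3H4_46_270 : oH4.t3 46 270 1 = true :=
  q3H4_2.2.2.2.2.2.2.2.2.2.2.2.2.2.2.2.2.2.2.2.2.2.2.2.2.2.2.2.1

theorem s3H4_46_271 : oH4.t3 46 271 7 = true :=
  (t3_two oH4 46 271 1 6 272 7 rfl rfl
    q3H4_2.2.2.2.2.2.2.2.2.2.2.2.2.2.2.2.2.2.2.2.2.2.2.2.2.2.2.2.2.1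
    (t3_two oH4 46 272 1 5 273 6 rfl rfl
    q3H4_2.2.2.2.2.2.2.2.2.2.2.2.2.2.2.2.2.2.2.2.2.2.2.2.2.2.2.2.2.2.1
    (t3_two oH4 46 273 1 4 274 5 rfl rfl
    q3H4_2.2.2.2.2.2.2.2.2.2.2.2.2.2.2.2.2.2.2.2.2.2.2.2.2.2.2.2.2.2.2.1
    (t3_two oH4 46 274 1 3 275 4 rfl rfl
    q3H4_2.2.2.2.2.2.2.2.2.2.2.2.2.2.2.2.2.2.2.2.2.2.2.2.2.2.2.2.2.2.2.2.1
    (t3_two oH4 46 275 1 2 276 3 rfl rfl
    q3H4_2.2.2.2.2.2.2.2.2.2.2.2.2.2.2.2.2.2.2.2.2.2.2.2.2.2.2.2.2.2.2.2.2.1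
    (t3_two oH4 46 276 1 1 277 2 rfl rfl
    q3H4_2.2.2.2.2.2.2.2.2.2.2.2.2.2.2.2.2.2.2.2.2.2.2.2.2.2.2.2.2.2.2.2.2.2.1
    q3H4_2.2.2.2.2.2.2.2.2.2.2.2.2.2.2.2.2.2.2.2.2.2.2.2.2.2.2.2.2.2.2.2.2.2.2))))))

end Pool.Agent.H54.RG
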