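import Pool.Agent.H54.RG.OpsH4
import Pool.Agent.H54.RG.Spl

/-!
# Project RG (MP_35eb49): checks of the cubes of type H4
-/

set_option autoImplicit false
set_option maxRecDepth 100000
set_option maxHeartbeats 0

namespace Pool.Agent.H54.RG

open Pool.Agent.H54.RF

/-- The checks of this file. They are in one theorem, so that they are done one after the other. -/
theorem q4H4_1 :
    oH4.t4 76 252 2 = true ∧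
    oH4.t4 76 254 1 = true ∧
    oH4.t4 76 255 2 = true ∧
    oH4.t4 76 257 1 = true ∧
    oH4.t4 76 258 2 = true ∧
    oH4.t4 76 260 2 = true ∧
    oH4.t4 76 262 1 = true ∧
    oH4.t4 76 263 2 = true ∧
    oH4.t4 76 265 2 = true ∧
    oH4.t4 76 267 1 = true ∧
    oH4.t4 76 268 2 = true ∧
    oH4.t4 76 270 1 = true ∧
    oH4.t4 76 271 2 = true ∧
    oH4.t4 76 273 2 = true ∧
    oH4.t4 76 275 1 = true ∧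
    oH4.t4 76 276 2 = true ∧
    oH4.t4 91 0 58 = true ∧
    oH4.t4 91 58 24 = true ∧
    oH4.t4 91 82 19 = true ∧
    oH4.t4 91 101 16 = true ∧
    oH4.t4 91 117 13 = true ∧
    oH4.t4 91 130 13 = true ∧
    oH4.t4 91 143 11 = true ∧
    oH4.t4 91 154 11 = true ∧
    oH4.t4 91 165 4 = true ∧
    oH4.t4 91 169 3 = true ∧
    oH4.t4 91 172 3 = true ∧
    oH4.t4 91 175 4 = true ∧
    oH4.t4 91 179 4 = true ∧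
    oH4.t4 91 183 3 = true ∧
    oH4.t4 91 186 3 = true ∧
    oH4.t4 91 189 4 = true ∧
    oH4.t4 91 193 4 = true ∧
    oH4.t4 91 197 4 = true ∧
    oH4.t4 91 201 4 = true ∧
    oH4.t4 91 205 4 = true ∧
    oH4.t4 91 209 4 = true ∧
    oH4.t4 91 213 4 = true ∧
    oH4.t4 91 217 4 = true ∧
    oH4.t4 91 221 4 = true ∧
    oH4.t4 91 225 2 = true ∧
    oH4.t4 91 227 2 = true ∧
    oH4.t4 91 229 1 = true ∧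
    oH4.t4 91 230 2 = true ∧
    oH4.t4 91 232 2 = true ∧
    oH4.t4 91 234 1 = true ∧
    oH4.t4 91 235 2 = true ∧
    oH4.t4 91 237 2 = true ∧
    oH4.t4 91 239 2 = true ∧
    oH4.t4 91 241 2 = true ∧
    oH4.t4 91 243 2 = true ∧
    oH4.t4 91 245 2 = true ∧
    oH4.t4 91 247 1 = true ∧
    oH4.t4 91 248 2 = true ∧
    oH4.t4 91 250 2 = true ∧
    oH4.t4 91 252 2 = true ∧
    oH4.t4 91 254 1 = true ∧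
    oH4.t4 91 255 1 = true ∧
    oH4.t4 91 256 1 = true ∧
    oH4.t4 91 257 1 = true ∧
    oH4.t4 91 258 2 = true ∧
    oH4.t4 91 260 1 = true ∧
    oH4.t4 91 261 1 = true ∧
    oH4.t4 91 262 1 = true := by
  refine ⟨?_, ?_, ?_, ?_, ?_, ?_, ?_, ?_, ?_, ?_, ?_, ?_, ?_, ?_, ?_, ?_, ?_, ?_, ?_, ?_,
    ?_, ?_, ?_, ?_, ?_, ?_, ?_, ?_, ?_, ?_, ?_, ?_, ?_, ?_, ?_, ?_, ?_, ?_, ?_, ?_,
    ?_, ?_, ?_, ?_, ?_, ?_, ?_, ?_, ?_, ?_, ?_, ?_, ?_, ?_, ?_, ?_, ?_, ?_, ?_, ?_,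
    ?_, ?_, ?_, ?_⟩
  · decide +kernel
  · decide +kernel
  · decide +kernel
  · decide +kernel
  · decide +kernel
  · decide +kernel
  · decide +kernel
  · decide +kernel
  · decide +kernel
  · decide +kernel
  · decide +kernel
  · decide +kernel
  · decide +kernel
  · decide +kernel
  · decide +kernel
  · decide +kernel
  · decide +kernel
  · decide +kernel
  · decide +kernel
  · decide +kernel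
  · decide +kernel
  · decide +kernel
  · decide +kernel
  · decide +kernel
  · decide +kernel
  · decide +kernel
  · decide +kernel
  · decide +kernel
  · decide +kernel
  · decide +kernel
  · decide +kernel
  · decide +kernel
  · decide +kernel
  · decide +kernel
  · decide +kernel
  · decide +kernel
  · decide +kernel
  · decide +kernel
  · decide +kernel
  · decide +kernel
  · decide +kernel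
  · decide +kernel
  · decide +kernel
  · decide +kernel
  · decide +kernel
  · decide +kernel
  · decide +kernel
  · decide +kernel
  · decide +kernel
  · decide +kernel
  · decide +kernel
  · decide +kernel
  · decide +kernel
  · decide +kernel
  · decide +kernel
  · decide +kernel
  · decide +kernel
  · decide +kernel
  · decide +kernel
  · decide +kernel
  · decide +kernel
  · decide +kernel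
  · decide +kernel
  · decide +kernel

theorem s4H4_76_252 : oH4.t4 76 252 13 = true :=
  (t4_two oH4 76 252 2 11 254 13 rfl rfl
    q4H4_1.1
    (t4_two oH4 76 254 1 10 255 11 rfl rfl
    q4H4_1.2.1
    (t4_two oH4 76 255 2 8 257 10 rfl rfl
    q4H4_1.2.2.1
    (t4_two oH4 76 257 1 7 258 8 rfl rfl
    q4H4_1.2.2.2.1
    (t4_two oH4 76 258 2 5 260 7 rfl rfl
    q4H4_1.2.2.2.2.1
    (t4_two oH4 76 260 2 3 262 5 rfl rfl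
    q4H4_1.2.2.2.2.2.1
    (t4_two oH4 76 262 1 2 263 3 rfl rfl
    q4H4_1.2.2.2.2.2.2.1
    q4H4_1.2.2.2.2.2.2.2.1)))))))

theorem s4H4_76_265 : oH4.t4 76 265 13 = true :=
  (t4_two oH4 76 265 2 11 267 13 rfl rfl
    q4H4_1.2.2.2.2.2.2.2.2.1
    (t4_two oH4 76 267 1 10 268 11 rfl rfl
    q4H4_1.2.2.2.2.2.2.2.2.2.1
    (t4_two oH4 76 268 2 8 270 10 rfl rfl
    q4H4_1.2.2.2.2.2.2.2.2.2.2.1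
    (t4_two oH4 76 270 1 7 271 8 rfl rfl
    q4H4_1.2.2.2.2.2.2.2.2.2.2.2.1
    (t4_two oH4 76 271 2 5 273 7 rfl rfl
    q4H4_1.2.2.2.2.2.2.2.2.2.2.2.2.1
    (t4_two oH4 76 273 2 3 275 5 rfl rfl
    q4H4_1.2.2.2.2.2.2.2.2.2.2.2.2.2.1
    (t4_two oH4 76 275 1 2 276 3 rfl rfl
    q4H4_1.2.2.2.2.2.2.2.2.2.2.2.2.2.2.1
    q4H4_1.2.2.2.2.2.2.2.2.2.2.2.2.2.2.2.1)))))))

theorem s4H4_91_0 : oH4.t4 91 0 165 = true :=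
  (t4_two oH4 91 0 58 107 58 165 rfl rfl
    q4H4_1.2.2.2.2.2.2.2.2.2.2.2.2.2.2.2.2.1
    (t4_two oH4 91 58 24 83 82 107 rfl rfl
    q4H4_1.2.2.2.2.2.2.2.2.2.2.2.2.2.2.2.2.2.1
    (t4_two oH4 91 82 19 64 101 83 rfl rfl
    q4H4_1.2.2.2.2.2.2.2.2.2.2.2.2.2.2.2.2.2.2.1
    (t4_two oH4 91 101 16 48 117 64 rfl rfl
    q4H4_1.2.2.2.2.2.2.2.2.2.2.2.2.2.2.2.2.2.2.2.1
    (t4_two oH4 91 117 13 35 130 48 rfl rfl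
    q4H4_1.2.2.2.2.2.2.2.2.2.2.2.2.2.2.2.2.2.2.2.2.1
    (t4_two oH4 91 130 13 22 143 35 rfl rfl
    q4H4_1.2.2.2.2.2.2.2.2.2.2.2.2.2.2.2.2.2.2.2.2.2.1
    (t4_two oH4 91 143 11 11 154 22 rfl rfl
    q4H4_1.2.2.2.2.2.2.2.2.2.2.2.2.2.2.2.2.2.2.2.2.2.2.1
    q4H4_1.2.2.2.2.2.2.2.2.2.2.2.2.2.2.2.2.2.2.2.2.2.2.2.1)))))))

theorem s4H4_91_165 : oH4.t4 91 165 28 = true :=
  (t4_two oH4 91 165 4 24 169 28 rfl rfl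
    q4H4_1.2.2.2.2.2.2.2.2.2.2.2.2.2.2.2.2.2.2.2.2.2.2.2.2.1
    (t4_two oH4 91 169 3 21 172 24 rfl rfl
    q4H4_1.2.2.2.2.2.2.2.2.2.2.2.2.2.2.2.2.2.2.2.2.2.2.2.2.2.1
    (t4_two oH4 91 172 3 18 175 21 rfl rfl
    q4H4_1.2.2.2.2.2.2.2.2.2.2.2.2.2.2.2.2.2.2.2.2.2.2.2.2.2.2.1
    (t4_two oH4 91 175 4 14 179 18 rfl rfl
    q4H4_1.2.2.2.2.2.2.2.2.2.2.2.2.2.2.2.2.2.2.2.2.2.2.2.2.2.2.2.1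
    (t4_two oH4 91 179 4 10 183 14 rfl rfl
    q4H4_1.2.2.2.2.2.2.2.2.2.2.2.2.2.2.2.2.2.2.2.2.2.2.2.2.2.2.2.2.1
    (t4_two oH4 91 183 3 7 186 10 rfl rfl
    q4H4_1.2.2.2.2.2.2.2.2.2.2.2.2.2.2.2.2.2.2.2.2.2.2.2.2.2.2.2.2.2.1
    (t4_two oH4 91 186 3 4 189 7 rfl rfl
    q4H4_1.2.2.2.2.2.2.2.2.2.2.2.2.2.2.2.2.2.2.2.2.2.2.2.2.2.2.2.2.2.2.1
    q4H4_1.2.2.2.2.2.2.2.2.2.2.2.2.2.2.2.2.2.2.2.2.2.2.2.2.2.2.2.2.2.2.2.1)))))))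

theorem s4H4_91_193 : oH4.t4 91 193 32 = true :=
  (t4_two oH4 91 193 4 28 197 32 rfl rfl
    q4H4_1.2.2.2.2.2.2.2.2.2.2.2.2.2.2.2.2.2.2.2.2.2.2.2.2.2.2.2.2.2.2.2.2.1
    (t4_two oH4 91 197 4 24 201 28 rfl rfl
    q4H4_1.2.2.2.2.2.2.2.2.2.2.2.2.2.2.2.2.2.2.2.2.2.2.2.2.2.2.2.2.2.2.2.2.2.1
    (t4_two oH4 91 201 4 20 205 24 rfl rfl
    q4H4_1.2.2.2.2.2.2.2.2.2.2.2.2.2.2.2.2.2.2.2.2.2.2.2.2.2.2.2.2.2.2.2.2.2.2.1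
    (t4_two oH4 91 205 4 16 209 20 rfl rfl
    q4H4_1.2.2.2.2.2.2.2.2.2.2.2.2.2.2.2.2.2.2.2.2.2.2.2.2.2.2.2.2.2.2.2.2.2.2.2.1
    (t4_two oH4 91 209 4 12 213 16 rfl rfl
    q4H4_1.2.2.2.2.2.2.2.2.2.2.2.2.2.2.2.2.2.2.2.2.2.2.2.2.2.2.2.2.2.2.2.2.2.2.2.2.1
    (t4_two oH4 91 213 4 8 217 12 rfl rfl
    q4H4_1.2.2.2.2.2.2.2.2.2.2.2.2.2.2.2.2.2.2.2.2.2.2.2.2.2.2.2.2.2.2.2.2.2.2.2.2.2.1
    (t4_two oH4 91 217 4 4 221 8 rfl rfl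
    q4H4_1.2.2.2.2.2.2.2.2.2.2.2.2.2.2.2.2.2.2.2.2.2.2.2.2.2.2.2.2.2.2.2.2.2.2.2.2.2.2.1
    q4H4_1.2.2.2.2.2.2.2.2.2.2.2.2.2.2.2.2.2.2.2.2.2.2.2.2.2.2.2.2.2.2.2.2.2.2.2.2.2.2.2.1)))))))

theorem s4H4_91_225 : oH4.t4 91 225 14 = true :=
  (t4_two oH4 91 225 2 12 227 14 rfl rfl
    q4H4_1.2.2.2.2.2.2.2.2.2.2.2.2.2.2.2.2.2.2.2.2.2.2.2.2.2.2.2.2.2.2.2.2.2.2.2.2.2.2.2.2.1
    (t4_two oH4 91 227 2 10 229 12 rfl rfl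
    q4H4_1.2.2.2.2.2.2.2.2.2.2.2.2.2.2.2.2.2.2.2.2.2.2.2.2.2.2.2.2.2.2.2.2.2.2.2.2.2.2.2.2.2.1
    (t4_two oH4 91 229 1 9 230 10 rfl rfl
    q4H4_1.2.2.2.2.2.2.2.2.2.2.2.2.2.2.2.2.2.2.2.2.2.2.2.2.2.2.2.2.2.2.2.2.2.2.2.2.2.2.2.2.2.2.1
    (t4_two oH4 91 230 2 7 232 9 rfl rfl
    q4H4_1.2.2.2.2.2.2.2.2.2.2.2.2.2.2.2.2.2.2.2.2.2.2.2.2.2.2.2.2.2.2.2.2.2.2.2.2.2.2.2.2.2.2.2.1
    (t4_two oH4 91 232 2 5 234 7 rfl rfl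
    q4H4_1.2.2.2.2.2.2.2.2.2.2.2.2.2.2.2.2.2.2.2.2.2.2.2.2.2.2.2.2.2.2.2.2.2.2.2.2.2.2.2.2.2.2.2.2.1
    (t4_two oH4 91 234 1 4 235 5 rfl rfl
    q4H4_1.2.2.2.2.2.2.2.2.2.2.2.2.2.2.2.2.2.2.2.2.2.2.2.2.2.2.2.2.2.2.2.2.2.2.2.2.2.2.2.2.2.2.2.2.2.1
    (t4_two oH4 91 235 2 2 237 4 rfl rfl
    q4H4_1.2.2.2.2.2.2.2.2.2.2.2.2.2.2.2.2.2.2.2.2.2.2.2.2.2.2.2.2.2.2.2.2.2.2.2.2.2.2.2.2.2.2.2.2.2.2.1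
    q4H4_1.2.2.2.2.2.2.2.2.2.2.2.2.2.2.2.2.2.2.2.2.2.2.2.2.2.2.2.2.2.2.2.2.2.2.2.2.2.2.2.2.2.2.2.2.2.2.2.1)))))))

theorem s4H4_91_239 : oH4.t4 91 239 15 = true :=
  (t4_two oH4 91 239 2 13 241 15 rfl rfl
    q4H4_1.2.2.2.2.2.2.2.2.2.2.2.2.2.2.2.2.2.2.2.2.2.2.2.2.2.2.2.2.2.2.2.2.2.2.2.2.2.2.2.2.2.2.2.2.2.2.2.2.1
    (t4_two oH4 91 241 2 11 243 13 rfl rfl
    q4H4_1.2.2.2.2.2.2.2.2.2.2.2.2.2.2.2.2.2.2.2.2.2.2.2.2.2.2.2.2.2.2.2.2.2.2.2.2.2.2.2.2.2.2.2.2.2.2.2.2.2.1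
    (t4_two oH4 91 243 2 9 245 11 rfl rfl
    q4H4_1.2.2.2.2.2.2.2.2.2.2.2.2.2.2.2.2.2.2.2.2.2.2.2.2.2.2.2.2.2.2.2.2.2.2.2.2.2.2.2.2.2.2.2.2.2.2.2.2.2.2.1
    (t4_two oH4 91 245 2 7 247 9 rfl rfl
    q4H4_1.2.2.2.2.2.2.2.2.2.2.2.2.2.2.2.2.2.2.2.2.2.2.2.2.2.2.2.2.2.2.2.2.2.2.2.2.2.2.2.2.2.2.2.2.2.2.2.2.2.2.2.1
    (t4_two oH4 91 247 1 6 248 7 rfl rfl
    q4H4_1.2.2.2.2.2.2.2.2.2.2.2.2.2.2.2.2.2.2.2.2.2.2.2.2.2.2.2.2.2.2.2.2.2.2.2.2.2.2.2.2.2.2.2.2.2.2.2.2.2.2.2.2.1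
    (t4_two oH4 91 248 2 4 250 6 rfl rfl
    q4H4_1.2.2.2.2.2.2.2.2.2.2.2.2.2.2.2.2.2.2.2.2.2.2.2.2.2.2.2.2.2.2.2.2.2.2.2.2.2.2.2.2.2.2.2.2.2.2.2.2.2.2.2.2.2.1
    (t4_two oH4 91 250 2 2 252 4 rfl rfl
    q4H4_1.2.2.2.2.2.2.2.2.2.2.2.2.2.2.2.2.2.2.2.2.2.2.2.2.2.2.2.2.2.2.2.2.2.2.2.2.2.2.2.2.2.2.2.2.2.2.2.2.2.2.2.2.2.2.1
    q4H4_1.2.2.2.2.2.2.2.2.2.2.2.2.2.2.2.2.2.2.2.2.2.2.2.2.2.2.2.2.2.2.2.2.2.2.2.2.2.2.2.2.2.2.2.2.2.2.2.2.2.2.2.2.2.2.2.1)))))))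

theorem s4H4_91_254 : oH4.t4 91 254 9 = true :=
  (t4_two oH4 91 254 1 8 255 9 rfl rfl
    q4H4_1.2.2.2.2.2.2.2.2.2.2.2.2.2.2.2.2.2.2.2.2.2.2.2.2.2.2.2.2.2.2.2.2.2.2.2.2.2.2.2.2.2.2.2.2.2.2.2.2.2.2.2.2.2.2.2.2.1
    (t4_two oH4 91 255 1 7 256 8 rfl rfl
    q4H4_1.2.2.2.2.2.2.2.2.2.2.2.2.2.2.2.2.2.2.2.2.2.2.2.2.2.2.2.2.2.2.2.2.2.2.2.2.2.2.2.2.2.2.2.2.2.2.2.2.2.2.2.2.2.2.2.2.2.1
    (t4_two oH4 91 256 1 6 257 7 rfl rfl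
    q4H4_1.2.2.2.2.2.2.2.2.2.2.2.2.2.2.2.2.2.2.2.2.2.2.2.2.2.2.2.2.2.2.2.2.2.2.2.2.2.2.2.2.2.2.2.2.2.2.2.2.2.2.2.2.2.2.2.2.2.2.1
    (t4_two oH4 91 257 1 5 258 6 rfl rfl
    q4H4_1.2.2.2.2.2.2.2.2.2.2.2.2.2.2.2.2.2.2.2.2.2.2.2.2.2.2.2.2.2.2.2.2.2.2.2.2.2.2.2.2.2.2.2.2.2.2.2.2.2.2.2.2.2.2.2.2.2.2.2.1
    (t4_two oH4 91 258 2 3 260 5 rfl rfl
    q4H4_1.2.2.2.2.2.2.2.2.2.2.2.2.2.2.2.2.2.2.2.2.2.2.2.2.2.2.2.2.2.2.2.2.2.2.2.2.2.2.2.2.2.2.2.2.2.2.2.2.2.2.2.2.2.2.2.2.2.2.2.2.1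
    (t4_two oH4 91 260 1 2 261 3 rfl rfl
    q4H4_1.2.2.2.2.2.2.2.2.2.2.2.2.2.2.2.2.2.2.2.2.2.2.2.2.2.2.2.2.2.2.2.2.2.2.2.2.2.2.2.2.2.2.2.2.2.2.2.2.2.2.2.2.2.2.2.2.2.2.2.2.2.1
    (t4_two oH4 91 261 1 1 262 2 rfl rfl
    q4H4_1.2.2.2.2.2.2.2.2.2.2.2.2.2.2.2.2.2.2.2.2.2.2.2.2.2.2.2.2.2.2.2.2.2.2.2.2.2.2.2.2.2.2.2.2.2.2.2.2.2.2.2.2.2.2.2.2.2.2.2.2.2.2.1
    q4H4_1.2.2.2.2.2.2.2.2.2.2.2.2.2.2.2.2.2.2.2.2.2.2.2.2.2.2.2.2.2.2.2.2.2.2.2.2.2.2.2.2.2.2.2.2.2.2.2.2.2.2.2.2.2.2.2.2.2.2.2.2.2.2.2)))))))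

end Pool.Agent.H54.RG
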