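import Pool.Agent.H54.RG.OpsH4
import Pool.Agent.H54.RG.Spl

/-!
# Project RG (MP_35eb49): checks of the cubes of type H4
-/

set_option autoImplicit false
set_option maxRecDepth 100000
set_option maxHeartbeats 0

namespace Pool.Agent.H54.RG

open Pool.Agent.H54.RF

/-- The checks of this file. They are in one theorem, so that they are done one after the other. -/
theorem q4H4_10 :
    oH4.t4 211 226 2 = true ∧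
    oH4.t4 211 228 2 = true ∧
    oH4.t4 211 230 2 = true ∧
    oH4.t4 211 232 2 = true ∧
    oH4.t4 211 234 1 = true ∧
    oH4.t4 211 235 2 = true ∧
    oH4.t4 211 237 2 = true ∧
    oH4.t4 211 239 2 = true ∧
    oH4.t4 211 241 2 = true ∧
    oH4.t4 211 243 2 = true ∧
    oH4.t4 211 245 1 = true ∧
    oH4.t4 211 246 2 = true ∧
    oH4.t4 211 248 2 = true ∧
    oH4.t4 211 250 1 = true ∧
    oH4.t4 211 251 2 = true ∧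
    oH4.t4 211 253 2 = true ∧
    oH4.t4 211 255 1 = true ∧
    oH4.t4 211 256 1 = true ∧
    oH4.t4 211 257 1 = true ∧
    oH4.t4 211 258 1 = true ∧
    oH4.t4 211 259 1 = true ∧
    oH4.t4 211 260 1 = true ∧
    oH4.t4 211 261 1 = true ∧
    oH4.t4 211 262 1 = true ∧
    oH4.t4 211 263 1 = true ∧
    oH4.t4 211 264 1 = true ∧
    oH4.t4 211 265 1 = true ∧
    oH4.t4 211 266 2 = true ∧
    oH4.t4 211 268 1 = true ∧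
    oH4.t4 211 269 1 = true ∧
    oH4.t4 211 270 2 = true ∧
    oH4.t4 211 272 2 = true ∧
    oH4.t4 211 274 1 = true ∧
    oH4.t4 211 275 1 = true ∧
    oH4.t4 211 276 2 = true ∧
    oH4.t4 226 0 85 = true ∧
    oH4.t4 226 85 35 = true ∧
    oH4.t4 226 120 28 = true ∧
    oH4.t4 226 148 22 = true ∧
    oH4.t4 226 170 21 = true ∧
    oH4.t4 226 191 18 = true ∧
    oH4.t4 226 209 16 = true ∧
    oH4.t4 226 225 16 = true ∧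
    oH4.t4 226 241 1 = true ∧
    oH4.t4 226 242 2 = true ∧
    oH4.t4 226 244 1 = true ∧
    oH4.t4 226 245 2 = true ∧
    oH4.t4 226 247 1 = true ∧
    oH4.t4 226 248 1 = true ∧
    oH4.t4 226 249 2 = true ∧
    oH4.t4 226 251 1 = true := by
  refine ⟨?_, ?_, ?_, ?_, ?_, ?_, ?_, ?_, ?_, ?_, ?_, ?_, ?_, ?_, ?_, ?_, ?_, ?_, ?_, ?_,
    ?_, ?_, ?_, ?_, ?_, ?_, ?_, ?_, ?_, ?_, ?_, ?_, ?_, ?_, ?_, ?_, ?_, ?_, ?_, ?_,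
    ?_, ?_, ?_, ?_, ?_, ?_, ?_, ?_, ?_, ?_, ?_⟩
  · decide +kernel
  · decide +kernel
  · decide +kernel
  · decide +kernel
  · decide +kernel
  · decide +kernel
  · decide +kernel
  · decide +kernel
  · decide +kernel
  · decide +kernel
  · decide +kernel
  · decide +kernel
  · decide +kernel
  · decide +kernel
  · decide +kernel
  · decide +kernel
  · decide +kernel
  · decide +kernel
  · decide +kernel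
  · decide +kernel
  · decide +kernel
  · decide +kernel
  · decide +kernel
  · decide +kernel
  · decide +kernel
  · decide +kernel
  · decide +kernel
  · decide +kernel
  · decide +kernel
  · decide +kernel
  · decide +kernel
  · decide +kernel
  · decide +kernel
  · decide +kernel
  · decide +kernel
  · decide +kernel
  · decide +kernel
  · decide +kernel
  · decide +kernel
  · decide +kernel
  · decide +kernel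
  · decide +kernel
  · decide +kernel
  · decide +kernel
  · decide +kernel
  · decide +kernel
  · decide +kernel
  · decide +kernel
  · decide +kernel
  · decide +kernel
  · decide +kernel

theorem s4H4_211_226 : oH4.t4 211 226 15 = true :=
  (t4_two oH4 211 226 2 13 228 15 rfl rfl
    q4H4_10.1
    (t4_two oH4 211 228 2 11 230 13 rfl rfl
    q4H4_10.2.1
    (t4_two oH4 211 230 2 9 232 11 rfl rfl
    q4H4_10.2.2.1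
    (t4_two oH4 211 232 2 7 234 9 rfl rfl
    q4H4_10.2.2.2.1
    (t4_two oH4 211 234 1 6 235 7 rfl rfl
    q4H4_10.2.2.2.2.1
    (t4_two oH4 211 235 2 4 237 6 rfl rfl
    q4H4_10.2.2.2.2.2.1
    (t4_two oH4 211 237 2 2 239 4 rfl rfl
    q4H4_10.2.2.2.2.2.2.1
    q4H4_10.2.2.2.2.2.2.2.1)))))))

theorem s4H4_211_241 : oH4.t4 211 241 14 = true :=
  (t4_two oH4 211 241 2 12 243 14 rfl rfl
    q4H4_10.2.2.2.2.2.2.2.2.1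
    (t4_two oH4 211 243 2 10 245 12 rfl rfl
    q4H4_10.2.2.2.2.2.2.2.2.2.1
    (t4_two oH4 211 245 1 9 246 10 rfl rfl
    q4H4_10.2.2.2.2.2.2.2.2.2.2.1
    (t4_two oH4 211 246 2 7 248 9 rfl rfl
    q4H4_10.2.2.2.2.2.2.2.2.2.2.2.1
    (t4_two oH4 211 248 2 5 250 7 rfl rfl
    q4H4_10.2.2.2.2.2.2.2.2.2.2.2.2.1
    (t4_two oH4 211 250 1 4 251 5 rfl rfl
    q4H4_10.2.2.2.2.2.2.2.2.2.2.2.2.2.1
    (t4_two oH4 211 251 2 2 253 4 rfl rfl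
    q4H4_10.2.2.2.2.2.2.2.2.2.2.2.2.2.2.1
    q4H4_10.2.2.2.2.2.2.2.2.2.2.2.2.2.2.2.1)))))))

theorem s4H4_211_255 : oH4.t4 211 255 6 = true :=
  (t4_two oH4 211 255 1 5 256 6 rfl rfl
    q4H4_10.2.2.2.2.2.2.2.2.2.2.2.2.2.2.2.2.1
    (t4_two oH4 211 256 1 4 257 5 rfl rfl
    q4H4_10.2.2.2.2.2.2.2.2.2.2.2.2.2.2.2.2.2.1
    (t4_two oH4 211 257 1 3 258 4 rfl rfl
    q4H4_10.2.2.2.2.2.2.2.2.2.2.2.2.2.2.2.2.2.2.1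
    (t4_two oH4 211 258 1 2 259 3 rfl rfl
    q4H4_10.2.2.2.2.2.2.2.2.2.2.2.2.2.2.2.2.2.2.2.1
    (t4_two oH4 211 259 1 1 260 2 rfl rfl
    q4H4_10.2.2.2.2.2.2.2.2.2.2.2.2.2.2.2.2.2.2.2.2.1
    q4H4_10.2.2.2.2.2.2.2.2.2.2.2.2.2.2.2.2.2.2.2.2.2.1)))))

theorem s4H4_211_261 : oH4.t4 211 261 2 = true :=
  (t4_two oH4 211 261 1 1 262 2 rfl rfl
    q4H4_10.2.2.2.2.2.2.2.2.2.2.2.2.2.2.2.2.2.2.2.2.2.2.1
    q4H4_10.2.2.2.2.2.2.2.2.2.2.2.2.2.2.2.2.2.2.2.2.2.2.2.1)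

theorem s4H4_211_263 : oH4.t4 211 263 3 = true :=
  (t4_two oH4 211 263 1 2 264 3 rfl rfl
    q4H4_10.2.2.2.2.2.2.2.2.2.2.2.2.2.2.2.2.2.2.2.2.2.2.2.2.1
    (t4_two oH4 211 264 1 1 265 2 rfl rfl
    q4H4_10.2.2.2.2.2.2.2.2.2.2.2.2.2.2.2.2.2.2.2.2.2.2.2.2.2.1
    q4H4_10.2.2.2.2.2.2.2.2.2.2.2.2.2.2.2.2.2.2.2.2.2.2.2.2.2.2.1))

theorem s4H4_211_266 : oH4.t4 211 266 12 = true :=
  (t4_two oH4 211 266 2 10 268 12 rfl rfl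
    q4H4_10.2.2.2.2.2.2.2.2.2.2.2.2.2.2.2.2.2.2.2.2.2.2.2.2.2.2.2.1
    (t4_two oH4 211 268 1 9 269 10 rfl rfl
    q4H4_10.2.2.2.2.2.2.2.2.2.2.2.2.2.2.2.2.2.2.2.2.2.2.2.2.2.2.2.2.1
    (t4_two oH4 211 269 1 8 270 9 rfl rfl
    q4H4_10.2.2.2.2.2.2.2.2.2.2.2.2.2.2.2.2.2.2.2.2.2.2.2.2.2.2.2.2.2.1
    (t4_two oH4 211 270 2 6 272 8 rfl rfl
    q4H4_10.2.2.2.2.2.2.2.2.2.2.2.2.2.2.2.2.2.2.2.2.2.2.2.2.2.2.2.2.2.2.1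
    (t4_two oH4 211 272 2 4 274 6 rfl rfl
    q4H4_10.2.2.2.2.2.2.2.2.2.2.2.2.2.2.2.2.2.2.2.2.2.2.2.2.2.2.2.2.2.2.2.1
    (t4_two oH4 211 274 1 3 275 4 rfl rfl
    q4H4_10.2.2.2.2.2.2.2.2.2.2.2.2.2.2.2.2.2.2.2.2.2.2.2.2.2.2.2.2.2.2.2.2.1
    (t4_two oH4 211 275 1 2 276 3 rfl rfl
    q4H4_10.2.2.2.2.2.2.2.2.2.2.2.2.2.2.2.2.2.2.2.2.2.2.2.2.2.2.2.2.2.2.2.2.2.1
    q4H4_10.2.2.2.2.2.2.2.2.2.2.2.2.2.2.2.2.2.2.2.2.2.2.2.2.2.2.2.2.2.2.2.2.2.2.1)))))))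

theorem s4H4_226_0 : oH4.t4 226 0 241 = true :=
  (t4_two oH4 226 0 85 156 85 241 rfl rfl
    q4H4_10.2.2.2.2.2.2.2.2.2.2.2.2.2.2.2.2.2.2.2.2.2.2.2.2.2.2.2.2.2.2.2.2.2.2.2.1
    (t4_two oH4 226 85 35 121 120 156 rfl rfl
    q4H4_10.2.2.2.2.2.2.2.2.2.2.2.2.2.2.2.2.2.2.2.2.2.2.2.2.2.2.2.2.2.2.2.2.2.2.2.2.1
    (t4_two oH4 226 120 28 93 148 121 rfl rfl
    q4H4_10.2.2.2.2.2.2.2.2.2.2.2.2.2.2.2.2.2.2.2.2.2.2.2.2.2.2.2.2.2.2.2.2.2.2.2.2.2.1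
    (t4_two oH4 226 148 22 71 170 93 rfl rfl
    q4H4_10.2.2.2.2.2.2.2.2.2.2.2.2.2.2.2.2.2.2.2.2.2.2.2.2.2.2.2.2.2.2.2.2.2.2.2.2.2.2.1
    (t4_two oH4 226 170 21 50 191 71 rfl rfl
    q4H4_10.2.2.2.2.2.2.2.2.2.2.2.2.2.2.2.2.2.2.2.2.2.2.2.2.2.2.2.2.2.2.2.2.2.2.2.2.2.2.2.1
    (t4_two oH4 226 191 18 32 209 50 rfl rfl
    q4H4_10.2.2.2.2.2.2.2.2.2.2.2.2.2.2.2.2.2.2.2.2.2.2.2.2.2.2.2.2.2.2.2.2.2.2.2.2.2.2.2.2.1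
    (t4_two oH4 226 209 16 16 225 32 rfl rfl
    q4H4_10.2.2.2.2.2.2.2.2.2.2.2.2.2.2.2.2.2.2.2.2.2.2.2.2.2.2.2.2.2.2.2.2.2.2.2.2.2.2.2.2.2.1
    q4H4_10.2.2.2.2.2.2.2.2.2.2.2.2.2.2.2.2.2.2.2.2.2.2.2.2.2.2.2.2.2.2.2.2.2.2.2.2.2.2.2.2.2.2.1)))))))

theorem s4H4_226_241 : oH4.t4 226 241 11 = true :=
  (t4_two oH4 226 241 1 10 242 11 rfl rfl
    q4H4_10.2.2.2.2.2.2.2.2.2.2.2.2.2.2.2.2.2.2.2.2.2.2.2.2.2.2.2.2.2.2.2.2.2.2.2.2.2.2.2.2.2.2.2.1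
    (t4_two oH4 226 242 2 8 244 10 rfl rfl
    q4H4_10.2.2.2.2.2.2.2.2.2.2.2.2.2.2.2.2.2.2.2.2.2.2.2.2.2.2.2.2.2.2.2.2.2.2.2.2.2.2.2.2.2.2.2.2.1
    (t4_two oH4 226 244 1 7 245 8 rfl rfl
    q4H4_10.2.2.2.2.2.2.2.2.2.2.2.2.2.2.2.2.2.2.2.2.2.2.2.2.2.2.2.2.2.2.2.2.2.2.2.2.2.2.2.2.2.2.2.2.2.1
    (t4_two oH4 226 245 2 5 247 7 rfl rfl
    q4H4_10.2.2.2.2.2.2.2.2.2.2.2.2.2.2.2.2.2.2.2.2.2.2.2.2.2.2.2.2.2.2.2.2.2.2.2.2.2.2.2.2.2.2.2.2.2.2.1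
    (t4_two oH4 226 247 1 4 248 5 rfl rfl
    q4H4_10.2.2.2.2.2.2.2.2.2.2.2.2.2.2.2.2.2.2.2.2.2.2.2.2.2.2.2.2.2.2.2.2.2.2.2.2.2.2.2.2.2.2.2.2.2.2.2.1
    (t4_two oH4 226 248 1 3 249 4 rfl rfl
    q4H4_10.2.2.2.2.2.2.2.2.2.2.2.2.2.2.2.2.2.2.2.2.2.2.2.2.2.2.2.2.2.2.2.2.2.2.2.2.2.2.2.2.2.2.2.2.2.2.2.2.1
    (t4_two oH4 226 249 2 1 251 3 rfl rfl
    q4H4_10.2.2.2.2.2.2.2.2.2.2.2.2.2.2.2.2.2.2.2.2.2.2.2.2.2.2.2.2.2.2.2.2.2.2.2.2.2.2.2.2.2.2.2.2.2.2.2.2.2.1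
    q4H4_10.2.2.2.2.2.2.2.2.2.2.2.2.2.2.2.2.2.2.2.2.2.2.2.2.2.2.2.2.2.2.2.2.2.2.2.2.2.2.2.2.2.2.2.2.2.2.2.2.2.2)))))))

end Pool.Agent.H54.RG
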