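import Pool.Agent.H54.RG.OpsH4
import Pool.Agent.H54.RG.Spl

/-!
# Project RG (MP_35eb49): checks of the cubes of type H4
-/

set_option autoImplicit false
set_option maxRecDepth 100000
set_option maxHeartbeats 0

namespace Pool.Agent.H54.RG

open Pool.Agent.H54.RF

/-- The checks of this file. They are in one theorem, so that they are done one after the other. -/
theorem q4H4_11 :
    oH4.t4 226 252 1 = true ∧
    oH4.t4 226 253 1 = true ∧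
    oH4.t4 226 254 1 = true ∧
    oH4.t4 226 255 1 = true ∧
    oH4.t4 226 256 1 = true ∧
    oH4.t4 226 257 1 = true ∧
    oH4.t4 226 258 1 = true ∧
    oH4.t4 226 259 1 = true ∧
    oH4.t4 226 260 1 = true ∧
    oH4.t4 226 261 1 = true ∧
    oH4.t4 226 262 1 = true ∧
    oH4.t4 226 263 1 = true ∧
    oH4.t4 226 264 1 = true ∧
    oH4.t4 226 265 1 = true ∧
    oH4.t4 226 266 2 = true ∧
    oH4.t4 226 268 1 = true ∧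
    oH4.t4 226 269 1 = true ∧
    oH4.t4 226 270 2 = true ∧
    oH4.t4 226 272 2 = true ∧
    oH4.t4 226 274 1 = true ∧
    oH4.t4 226 275 1 = true ∧
    oH4.t4 226 276 2 = true ∧
    oH4.t4 241 0 91 = true ∧
    oH4.t4 241 91 37 = true ∧
    oH4.t4 241 128 29 = true ∧
    oH4.t4 241 157 24 = true ∧
    oH4.t4 241 181 21 = true ∧
    oH4.t4 241 202 20 = true ∧
    oH4.t4 241 222 17 = true ∧
    oH4.t4 241 239 17 = true ∧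
    oH4.t4 241 256 1 = true ∧
    oH4.t4 241 257 1 = true ∧
    oH4.t4 241 258 1 = true ∧
    oH4.t4 241 259 1 = true ∧
    oH4.t4 241 260 1 = true ∧
    oH4.t4 241 261 1 = true := by
  refine ⟨?_, ?_, ?_, ?_, ?_, ?_, ?_, ?_, ?_, ?_, ?_, ?_, ?_, ?_, ?_, ?_, ?_, ?_, ?_, ?_,
    ?_, ?_, ?_, ?_, ?_, ?_, ?_, ?_, ?_, ?_, ?_, ?_, ?_, ?_, ?_, ?_⟩
  · decide +kernel
  · decide +kernel
  · decide +kernel
  · decide +kernel
  · decide +kernel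
  · decide +kernel
  · decide +kernel
  · decide +kernel
  · decide +kernel
  · decide +kernel
  · decide +kernel
  · decide +kernel
  · decide +kernel
  · decide +kernel
  · decide +kernel
  · decide +kernel
  · decide +kernel
  · decide +kernel
  · decide +kernel
  · decide +kernel
  · decide +kernel
  · decide +kernel
  · decide +kernel
  · decide +kernel
  · decide +kernel
  · decide +kernel
  · decide +kernel
  · decide +kernel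
  · decide +kernel
  · decide +kernel
  · decide +kernel
  · decide +kernel
  · decide +kernel
  · decide +kernel
  · decide +kernel
  · decide +kernel

theorem s4H4_226_252 : oH4.t4 226 252 5 = true :=
  (t4_two oH4 226 252 1 4 253 5 rfl rfl
    q4H4_11.1
    (t4_two oH4 226 253 1 3 254 4 rfl rfl
    q4H4_11.2.1
    (t4_two oH4 226 254 1 2 255 3 rfl rfl
    q4H4_11.2.2.1
    (t4_two oH4 226 255 1 1 256 2 rfl rfl
    q4H4_11.2.2.2.1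
    q4H4_11.2.2.2.2.1))))

theorem s4H4_226_257 : oH4.t4 226 257 3 = true :=
  (t4_two oH4 226 257 1 2 258 3 rfl rfl
    q4H4_11.2.2.2.2.2.1
    (t4_two oH4 226 258 1 1 259 2 rfl rfl
    q4H4_11.2.2.2.2.2.2.1
    q4H4_11.2.2.2.2.2.2.2.1))

theorem s4H4_226_260 : oH4.t4 226 260 2 = true :=
  (t4_two oH4 226 260 1 1 261 2 rfl rfl
    q4H4_11.2.2.2.2.2.2.2.2.1
    q4H4_11.2.2.2.2.2.2.2.2.2.1)

theorem s4H4_226_262 : oH4.t4 226 262 4 = true :=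
  (t4_two oH4 226 262 1 3 263 4 rfl rfl
    q4H4_11.2.2.2.2.2.2.2.2.2.2.1
    (t4_two oH4 226 263 1 2 264 3 rfl rfl
    q4H4_11.2.2.2.2.2.2.2.2.2.2.2.1
    (t4_two oH4 226 264 1 1 265 2 rfl rfl
    q4H4_11.2.2.2.2.2.2.2.2.2.2.2.2.1
    q4H4_11.2.2.2.2.2.2.2.2.2.2.2.2.2.1)))

theorem s4H4_226_266 : oH4.t4 226 266 12 = true :=
  (t4_two oH4 226 266 2 10 268 12 rfl rfl
    q4H4_11.2.2.2.2.2.2.2.2.2.2.2.2.2.2.1
    (t4_two oH4 226 268 1 9 269 10 rfl rfl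
    q4H4_11.2.2.2.2.2.2.2.2.2.2.2.2.2.2.2.1
    (t4_two oH4 226 269 1 8 270 9 rfl rfl
    q4H4_11.2.2.2.2.2.2.2.2.2.2.2.2.2.2.2.2.1
    (t4_two oH4 226 270 2 6 272 8 rfl rfl
    q4H4_11.2.2.2.2.2.2.2.2.2.2.2.2.2.2.2.2.2.1
    (t4_two oH4 226 272 2 4 274 6 rfl rfl
    q4H4_11.2.2.2.2.2.2.2.2.2.2.2.2.2.2.2.2.2.2.1
    (t4_two oH4 226 274 1 3 275 4 rfl rfl
    q4H4_11.2.2.2.2.2.2.2.2.2.2.2.2.2.2.2.2.2.2.2.1
    (t4_two oH4 226 275 1 2 276 3 rfl rfl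
    q4H4_11.2.2.2.2.2.2.2.2.2.2.2.2.2.2.2.2.2.2.2.2.1
    q4H4_11.2.2.2.2.2.2.2.2.2.2.2.2.2.2.2.2.2.2.2.2.2.1)))))))

theorem s4H4_241_0 : oH4.t4 241 0 256 = true :=
  (t4_two oH4 241 0 91 165 91 256 rfl rfl
    q4H4_11.2.2.2.2.2.2.2.2.2.2.2.2.2.2.2.2.2.2.2.2.2.2.1
    (t4_two oH4 241 91 37 128 128 165 rfl rfl
    q4H4_11.2.2.2.2.2.2.2.2.2.2.2.2.2.2.2.2.2.2.2.2.2.2.2.1
    (t4_two oH4 241 128 29 99 157 128 rfl rfl
    q4H4_11.2.2.2.2.2.2.2.2.2.2.2.2.2.2.2.2.2.2.2.2.2.2.2.2.1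
    (t4_two oH4 241 157 24 75 181 99 rfl rfl
    q4H4_11.2.2.2.2.2.2.2.2.2.2.2.2.2.2.2.2.2.2.2.2.2.2.2.2.2.1
    (t4_two oH4 241 181 21 54 202 75 rfl rfl
    q4H4_11.2.2.2.2.2.2.2.2.2.2.2.2.2.2.2.2.2.2.2.2.2.2.2.2.2.2.1
    (t4_two oH4 241 202 20 34 222 54 rfl rfl
    q4H4_11.2.2.2.2.2.2.2.2.2.2.2.2.2.2.2.2.2.2.2.2.2.2.2.2.2.2.2.1
    (t4_two oH4 241 222 17 17 239 34 rfl rfl
    q4H4_11.2.2.2.2.2.2.2.2.2.2.2.2.2.2.2.2.2.2.2.2.2.2.2.2.2.2.2.2.1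
    q4H4_11.2.2.2.2.2.2.2.2.2.2.2.2.2.2.2.2.2.2.2.2.2.2.2.2.2.2.2.2.2.1)))))))

theorem s4H4_241_256 : oH4.t4 241 256 4 = true :=
  (t4_two oH4 241 256 1 3 257 4 rfl rfl
    q4H4_11.2.2.2.2.2.2.2.2.2.2.2.2.2.2.2.2.2.2.2.2.2.2.2.2.2.2.2.2.2.2.1
    (t4_two oH4 241 257 1 2 258 3 rfl rfl
    q4H4_11.2.2.2.2.2.2.2.2.2.2.2.2.2.2.2.2.2.2.2.2.2.2.2.2.2.2.2.2.2.2.2.1
    (t4_two oH4 241 258 1 1 259 2 rfl rfl
    q4H4_11.2.2.2.2.2.2.2.2.2.2.2.2.2.2.2.2.2.2.2.2.2.2.2.2.2.2.2.2.2.2.2.2.1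
    q4H4_11.2.2.2.2.2.2.2.2.2.2.2.2.2.2.2.2.2.2.2.2.2.2.2.2.2.2.2.2.2.2.2.2.2.1)))

theorem s4H4_241_260 : oH4.t4 241 260 2 = true :=
  (t4_two oH4 241 260 1 1 261 2 rfl rfl
    q4H4_11.2.2.2.2.2.2.2.2.2.2.2.2.2.2.2.2.2.2.2.2.2.2.2.2.2.2.2.2.2.2.2.2.2.2.1
    q4H4_11.2.2.2.2.2.2.2.2.2.2.2.2.2.2.2.2.2.2.2.2.2.2.2.2.2.2.2.2.2.2.2.2.2.2.2)

end Pool.Agent.H54.RG
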