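import Pool.Agent.H54.RG.OpsH4
import Pool.Agent.H54.RG.Spl

/-!
# Project RG (MP_35eb49): checks of the cubes of type H4
-/

set_option autoImplicit false
set_option maxRecDepth 100000
set_option maxHeartbeats 0

namespace Pool.Agent.H54.RG

open Pool.Agent.H54.RF

/-- The checks of this file. They are in one theorem, so that they are done one after the other. -/
theorem q4H4_12 :
    oH4.t4 241 262 1 = true ∧
    oH4.t4 241 263 1 = true ∧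
    oH4.t4 241 264 1 = true ∧
    oH4.t4 241 265 1 = true ∧
    oH4.t4 241 266 1 = true ∧
    oH4.t4 241 267 1 = true ∧
    oH4.t4 241 268 1 = true ∧
    oH4.t4 241 269 1 = true ∧
    oH4.t4 241 270 1 = true ∧
    oH4.t4 241 271 1 = true ∧
    oH4.t4 241 272 1 = true ∧
    oH4.t4 241 273 1 = true ∧
    oH4.t4 241 274 1 = true ∧
    oH4.t4 241 275 1 = true ∧
    oH4.t4 241 276 1 = true ∧
    oH4.t4 241 277 1 = true ∧
    oH4.t4 256 0 91 = true ∧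
    oH4.t4 256 91 37 = true ∧
    oH4.t4 256 128 29 = true ∧
    oH4.t4 256 157 25 = true ∧
    oH4.t4 256 182 21 = true ∧
    oH4.t4 256 203 20 = true ∧
    oH4.t4 256 223 17 = true ∧
    oH4.t4 256 240 17 = true ∧
    oH4.t4 256 257 1 = true ∧
    oH4.t4 256 258 1 = true ∧
    oH4.t4 256 259 1 = true ∧
    oH4.t4 256 260 1 = true ∧
    oH4.t4 256 261 1 = true ∧
    oH4.t4 256 262 1 = true ∧
    oH4.t4 256 263 1 = true ∧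
    oH4.t4 256 264 1 = true ∧
    oH4.t4 256 265 1 = true ∧
    oH4.t4 256 266 1 = true ∧
    oH4.t4 256 267 1 = true := by
  refine ⟨?_, ?_, ?_, ?_, ?_, ?_, ?_, ?_, ?_, ?_, ?_, ?_, ?_, ?_, ?_, ?_, ?_, ?_, ?_, ?_,
    ?_, ?_, ?_, ?_, ?_, ?_, ?_, ?_, ?_, ?_, ?_, ?_, ?_, ?_, ?_⟩
  · decide +kernel
  · decide +kernel
  · decide +kernel
  · decide +kernel
  · decide +kernel
  · decide +kernel
  · decide +kernel
  · decide +kernel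
  · decide +kernel
  · decide +kernel
  · decide +kernel
  · decide +kernel
  · decide +kernel
  · decide +kernel
  · decide +kernel
  · decide +kernel
  · decide +kernel
  · decide +kernel
  · decide +kernel
  · decide +kernel
  · decide +kernel
  · decide +kernel
  · decide +kernel
  · decide +kernel
  · decide +kernel
  · decide +kernel
  · decide +kernel
  · decide +kernel
  · decide +kernel
  · decide +kernel
  · decide +kernel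
  · decide +kernel
  · decide +kernel
  · decide +kernel
  · decide +kernel

theorem s4H4_241_262 : oH4.t4 241 262 4 = true :=
  (t4_two oH4 241 262 1 3 263 4 rfl rfl
    q4H4_12.1
    (t4_two oH4 241 263 1 2 264 3 rfl rfl
    q4H4_12.2.1
    (t4_two oH4 241 264 1 1 265 2 rfl rfl
    q4H4_12.2.2.1
    q4H4_12.2.2.2.1)))

theorem s4H4_241_266 : oH4.t4 241 266 4 = true :=
  (t4_two oH4 241 266 1 3 267 4 rfl rfl
    q4H4_12.2.2.2.2.1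
    (t4_two oH4 241 267 1 2 268 3 rfl rfl
    q4H4_12.2.2.2.2.2.1
    (t4_two oH4 241 268 1 1 269 2 rfl rfl
    q4H4_12.2.2.2.2.2.2.1
    q4H4_12.2.2.2.2.2.2.2.1)))

theorem s4H4_241_270 : oH4.t4 241 270 8 = true :=
  (t4_two oH4 241 270 1 7 271 8 rfl rfl
    q4H4_12.2.2.2.2.2.2.2.2.1
    (t4_two oH4 241 271 1 6 272 7 rfl rfl
    q4H4_12.2.2.2.2.2.2.2.2.2.1
    (t4_two oH4 241 272 1 5 273 6 rfl rfl
    q4H4_12.2.2.2.2.2.2.2.2.2.2.1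
    (t4_two oH4 241 273 1 4 274 5 rfl rfl
    q4H4_12.2.2.2.2.2.2.2.2.2.2.2.1
    (t4_two oH4 241 274 1 3 275 4 rfl rfl
    q4H4_12.2.2.2.2.2.2.2.2.2.2.2.2.1
    (t4_two oH4 241 275 1 2 276 3 rfl rfl
    q4H4_12.2.2.2.2.2.2.2.2.2.2.2.2.2.1
    (t4_two oH4 241 276 1 1 277 2 rfl rfl
    q4H4_12.2.2.2.2.2.2.2.2.2.2.2.2.2.2.1
    q4H4_12.2.2.2.2.2.2.2.2.2.2.2.2.2.2.2.1)))))))

theorem s4H4_256_0 : oH4.t4 256 0 257 = true :=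
  (t4_two oH4 256 0 91 166 91 257 rfl rfl
    q4H4_12.2.2.2.2.2.2.2.2.2.2.2.2.2.2.2.2.1
    (t4_two oH4 256 91 37 129 128 166 rfl rfl
    q4H4_12.2.2.2.2.2.2.2.2.2.2.2.2.2.2.2.2.2.1
    (t4_two oH4 256 128 29 100 157 129 rfl rfl
    q4H4_12.2.2.2.2.2.2.2.2.2.2.2.2.2.2.2.2.2.2.1
    (t4_two oH4 256 157 25 75 182 100 rfl rfl
    q4H4_12.2.2.2.2.2.2.2.2.2.2.2.2.2.2.2.2.2.2.2.1
    (t4_two oH4 256 182 21 54 203 75 rfl rfl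
    q4H4_12.2.2.2.2.2.2.2.2.2.2.2.2.2.2.2.2.2.2.2.2.1
    (t4_two oH4 256 203 20 34 223 54 rfl rfl
    q4H4_12.2.2.2.2.2.2.2.2.2.2.2.2.2.2.2.2.2.2.2.2.2.1
    (t4_two oH4 256 223 17 17 240 34 rfl rfl
    q4H4_12.2.2.2.2.2.2.2.2.2.2.2.2.2.2.2.2.2.2.2.2.2.2.1
    q4H4_12.2.2.2.2.2.2.2.2.2.2.2.2.2.2.2.2.2.2.2.2.2.2.2.1)))))))

theorem s4H4_256_257 : oH4.t4 256 257 1 = true :=
  q4H4_12.2.2.2.2.2.2.2.2.2.2.2.2.2.2.2.2.2.2.2.2.2.2.2.2.1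

theorem s4H4_256_258 : oH4.t4 256 258 2 = true :=
  (t4_two oH4 256 258 1 1 259 2 rfl rfl
    q4H4_12.2.2.2.2.2.2.2.2.2.2.2.2.2.2.2.2.2.2.2.2.2.2.2.2.2.1
    q4H4_12.2.2.2.2.2.2.2.2.2.2.2.2.2.2.2.2.2.2.2.2.2.2.2.2.2.2.1)

theorem s4H4_256_260 : oH4.t4 256 260 3 = true :=
  (t4_two oH4 256 260 1 2 261 3 rfl rfl
    q4H4_12.2.2.2.2.2.2.2.2.2.2.2.2.2.2.2.2.2.2.2.2.2.2.2.2.2.2.2.1
    (t4_two oH4 256 261 1 1 262 2 rfl rfl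
    q4H4_12.2.2.2.2.2.2.2.2.2.2.2.2.2.2.2.2.2.2.2.2.2.2.2.2.2.2.2.2.1
    q4H4_12.2.2.2.2.2.2.2.2.2.2.2.2.2.2.2.2.2.2.2.2.2.2.2.2.2.2.2.2.2.1))

theorem s4H4_256_263 : oH4.t4 256 263 3 = true :=
  (t4_two oH4 256 263 1 2 264 3 rfl rfl
    q4H4_12.2.2.2.2.2.2.2.2.2.2.2.2.2.2.2.2.2.2.2.2.2.2.2.2.2.2.2.2.2.2.1
    (t4_two oH4 256 264 1 1 265 2 rfl rfl
    q4H4_12.2.2.2.2.2.2.2.2.2.2.2.2.2.2.2.2.2.2.2.2.2.2.2.2.2.2.2.2.2.2.2.1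
    q4H4_12.2.2.2.2.2.2.2.2.2.2.2.2.2.2.2.2.2.2.2.2.2.2.2.2.2.2.2.2.2.2.2.2.1))

theorem s4H4_256_266 : oH4.t4 256 266 2 = true :=
  (t4_two oH4 256 266 1 1 267 2 rfl rfl
    q4H4_12.2.2.2.2.2.2.2.2.2.2.2.2.2.2.2.2.2.2.2.2.2.2.2.2.2.2.2.2.2.2.2.2.2.1
    q4H4_12.2.2.2.2.2.2.2.2.2.2.2.2.2.2.2.2.2.2.2.2.2.2.2.2.2.2.2.2.2.2.2.2.2.2)

end Pool.Agent.H54.RG
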