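import Pool.Agent.H54.RG.OpsH4
import Pool.Agent.H54.RG.Spl

/-!
# Project RG (MP_35eb49): checks of the cubes of type H4
-/

set_option autoImplicit false
set_option maxRecDepth 100000
set_option maxHeartbeats 0

namespace Pool.Agent.H54.RG

open Pool.Agent.H54.RF

/-- The checks of this file. They are in one theorem, so that they are done one after the other. -/
theorem q4H4_13 :
    oH4.t4 256 268 1 = true ∧
    oH4.t4 256 269 1 = true ∧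
    oH4.t4 256 270 1 = true ∧
    oH4.t4 256 271 1 = true ∧
    oH4.t4 256 272 1 = true ∧
    oH4.t4 256 273 1 = true ∧
    oH4.t4 256 274 1 = true ∧
    oH4.t4 256 275 1 = true ∧
    oH4.t4 256 276 1 = true ∧
    oH4.t4 256 277 1 = true ∧
    oH4.t4 271 0 98 = true ∧
    oH4.t4 271 98 41 = true ∧
    oH4.t4 271 139 31 = true ∧
    oH4.t4 271 170 27 = true ∧
    oH4.t4 271 197 23 = true ∧
    oH4.t4 271 220 21 = true ∧
    oH4.t4 271 241 19 = true ∧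
    oH4.t4 271 260 18 = true ∧
    oH4.t4 276 0 98 = true ∧
    oH4.t4 276 98 41 = true ∧
    oH4.t4 276 139 31 = true ∧
    oH4.t4 276 170 27 = true ∧
    oH4.t4 276 197 23 = true ∧
    oH4.t4 276 220 21 = true ∧
    oH4.t4 276 241 19 = true ∧
    oH4.t4 276 260 18 = true := by
  refine ⟨?_, ?_, ?_, ?_, ?_, ?_, ?_, ?_, ?_, ?_, ?_, ?_, ?_, ?_, ?_, ?_, ?_, ?_, ?_, ?_,
    ?_, ?_, ?_, ?_, ?_, ?_⟩
  · decide +kernel
  · decide +kernel
  · decide +kernel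
  · decide +kernel
  · decide +kernel
  · decide +kernel
  · decide +kernel
  · decide +kernel
  · decide +kernel
  · decide +kernel
  · decide +kernel
  · decide +kernel
  · decide +kernel
  · decide +kernel
  · decide +kernel
  · decide +kernel
  · decide +kernel
  · decide +kernel
  · decide +kernel
  · decide +kernel
  · decide +kernel
  · decide +kernel
  · decide +kernel
  · decide +kernel
  · decide +kernel
  · decide +kernel

theorem s4H4_256_268 : oH4.t4 256 268 2 = true :=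
  (t4_two oH4 256 268 1 1 269 2 rfl rfl
    q4H4_13.1
    q4H4_13.2.1)

theorem s4H4_256_270 : oH4.t4 256 270 8 = true :=
  (t4_two oH4 256 270 1 7 271 8 rfl rfl
    q4H4_13.2.2.1
    (t4_two oH4 256 271 1 6 272 7 rfl rfl
    q4H4_13.2.2.2.1
    (t4_two oH4 256 272 1 5 273 6 rfl rfl
    q4H4_13.2.2.2.2.1
    (t4_two oH4 256 273 1 4 274 5 rfl rfl
    q4H4_13.2.2.2.2.2.1
    (t4_two oH4 256 274 1 3 275 4 rfl rfl
    q4H4_13.2.2.2.2.2.2.1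
    (t4_two oH4 256 275 1 2 276 3 rfl rfl
    q4H4_13.2.2.2.2.2.2.2.1
    (t4_two oH4 256 276 1 1 277 2 rfl rfl
    q4H4_13.2.2.2.2.2.2.2.2.1
    q4H4_13.2.2.2.2.2.2.2.2.2.1)))))))

theorem s4H4_271_0 : oH4.t4 271 0 278 = true :=
  (t4_two oH4 271 0 98 180 98 278 rfl rfl
    q4H4_13.2.2.2.2.2.2.2.2.2.2.1
    (t4_two oH4 271 98 41 139 139 180 rfl rfl
    q4H4_13.2.2.2.2.2.2.2.2.2.2.2.1
    (t4_two oH4 271 139 31 108 170 139 rfl rfl
    q4H4_13.2.2.2.2.2.2.2.2.2.2.2.2.1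
    (t4_two oH4 271 170 27 81 197 108 rfl rfl
    q4H4_13.2.2.2.2.2.2.2.2.2.2.2.2.2.1
    (t4_two oH4 271 197 23 58 220 81 rfl rfl
    q4H4_13.2.2.2.2.2.2.2.2.2.2.2.2.2.2.1
    (t4_two oH4 271 220 21 37 241 58 rfl rfl
    q4H4_13.2.2.2.2.2.2.2.2.2.2.2.2.2.2.2.1
    (t4_two oH4 271 241 19 18 260 37 rfl rfl
    q4H4_13.2.2.2.2.2.2.2.2.2.2.2.2.2.2.2.2.1
    q4H4_13.2.2.2.2.2.2.2.2.2.2.2.2.2.2.2.2.2.1)))))))

theorem s4H4_276_0 : oH4.t4 276 0 278 = true :=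
  (t4_two oH4 276 0 98 180 98 278 rfl rfl
    q4H4_13.2.2.2.2.2.2.2.2.2.2.2.2.2.2.2.2.2.2.1
    (t4_two oH4 276 98 41 139 139 180 rfl rfl
    q4H4_13.2.2.2.2.2.2.2.2.2.2.2.2.2.2.2.2.2.2.2.1
    (t4_two oH4 276 139 31 108 170 139 rfl rfl
    q4H4_13.2.2.2.2.2.2.2.2.2.2.2.2.2.2.2.2.2.2.2.2.1
    (t4_two oH4 276 170 27 81 197 108 rfl rfl
    q4H4_13.2.2.2.2.2.2.2.2.2.2.2.2.2.2.2.2.2.2.2.2.2.1
    (t4_two oH4 276 197 23 58 220 81 rfl rfl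
    q4H4_13.2.2.2.2.2.2.2.2.2.2.2.2.2.2.2.2.2.2.2.2.2.2.1
    (t4_two oH4 276 220 21 37 241 58 rfl rfl
    q4H4_13.2.2.2.2.2.2.2.2.2.2.2.2.2.2.2.2.2.2.2.2.2.2.2.1
    (t4_two oH4 276 241 19 18 260 37 rfl rfl
    q4H4_13.2.2.2.2.2.2.2.2.2.2.2.2.2.2.2.2.2.2.2.2.2.2.2.2.1
    q4H4_13.2.2.2.2.2.2.2.2.2.2.2.2.2.2.2.2.2.2.2.2.2.2.2.2.2)))))))

end Pool.Agent.H54.RG
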