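import Pool.Agent.H54.RG.OpsH4
import Pool.Agent.H54.RG.Spl

/-!
# Project RG (MP_35eb49): checks of the cubes of type H4
-/

set_option autoImplicit false
set_option maxRecDepth 100000
set_option maxHeartbeats 0

namespace Pool.Agent.H54.RG

open Pool.Agent.H54.RF

/-- The checks of this file. They are in one theorem, so that they are done one after the other. -/
theorem q4H4_2 :
    oH4.t4 91 263 1 = true ∧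
    oH4.t4 91 264 1 = true ∧
    oH4.t4 91 265 2 = true ∧
    oH4.t4 91 267 1 = true ∧
    oH4.t4 91 268 2 = true ∧
    oH4.t4 91 270 1 = true ∧
    oH4.t4 91 271 2 = true ∧
    oH4.t4 91 273 2 = true ∧
    oH4.t4 91 275 1 = true ∧
    oH4.t4 91 276 2 = true ∧
    oH4.t4 106 0 58 = true ∧
    oH4.t4 106 58 24 = true ∧
    oH4.t4 106 82 19 = true ∧
    oH4.t4 106 101 16 = true ∧
    oH4.t4 106 117 13 = true ∧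
    oH4.t4 106 130 13 = true ∧
    oH4.t4 106 143 11 = true ∧
    oH4.t4 106 154 11 = true ∧
    oH4.t4 106 165 6 = true ∧
    oH4.t4 106 171 5 = true ∧
    oH4.t4 106 176 6 = true ∧
    oH4.t4 106 182 5 = true ∧
    oH4.t4 106 187 6 = true ∧
    oH4.t4 106 193 6 = true ∧
    oH4.t4 106 199 5 = true ∧
    oH4.t4 106 204 6 = true ∧
    oH4.t4 106 210 2 = true ∧
    oH4.t4 106 212 2 = true ∧
    oH4.t4 106 214 2 = true ∧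
    oH4.t4 106 216 2 = true ∧
    oH4.t4 106 218 1 = true ∧
    oH4.t4 106 219 2 = true ∧
    oH4.t4 106 221 2 = true ∧
    oH4.t4 106 223 2 = true ∧
    oH4.t4 106 225 3 = true ∧
    oH4.t4 106 228 3 = true ∧
    oH4.t4 106 231 4 = true ∧
    oH4.t4 106 235 3 = true ∧
    oH4.t4 106 238 3 = true ∧
    oH4.t4 106 241 4 = true ∧
    oH4.t4 106 245 3 = true ∧
    oH4.t4 106 248 3 = true ∧
    oH4.t4 106 251 2 = true ∧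
    oH4.t4 106 253 1 = true ∧
    oH4.t4 106 254 1 = true ∧
    oH4.t4 106 255 2 = true ∧
    oH4.t4 106 257 2 = true ∧
    oH4.t4 106 259 1 = true ∧
    oH4.t4 106 260 1 = true ∧
    oH4.t4 106 261 2 = true ∧
    oH4.t4 106 263 1 = true ∧
    oH4.t4 106 264 1 = true := by
  refine ⟨?_, ?_, ?_, ?_, ?_, ?_, ?_, ?_, ?_, ?_, ?_, ?_, ?_, ?_, ?_, ?_, ?_, ?_, ?_, ?_,
    ?_, ?_, ?_, ?_, ?_, ?_, ?_, ?_, ?_, ?_, ?_, ?_, ?_, ?_, ?_, ?_, ?_, ?_, ?_, ?_,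
    ?_, ?_, ?_, ?_, ?_, ?_, ?_, ?_, ?_, ?_, ?_, ?_⟩
  · decide +kernel
  · decide +kernel
  · decide +kernel
  · decide +kernel
  · decide +kernel
  · decide +kernel
  · decide +kernel
  · decide +kernel
  · decide +kernel
  · decide +kernel
  · decide +kernel
  · decide +kernel
  · decide +kernel
  · decide +kernel
  · decide +kernel
  · decide +kernel
  · decide +kernel
  · decide +kernel
  · decide +kernel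
  · decide +kernel
  · decide +kernel
  · decide +kernel
  · decide +kernel
  · decide +kernel
  · decide +kernel
  · decide +kernel
  · decide +kernel
  · decide +kernel
  · decide +kernel
  · decide +kernel
  · decide +kernel
  · decide +kernel
  · decide +kernel
  · decide +kernel
  · decide +kernel
  · decide +kernel
  · decide +kernel
  · decide +kernel
  · decide +kernel
  · decide +kernel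
  · decide +kernel
  · decide +kernel
  · decide +kernel
  · decide +kernel
  · decide +kernel
  · decide +kernel
  · decide +kernel
  · decide +kernel
  · decide +kernel
  · decide +kernel
  · decide +kernel
  · decide +kernel

theorem s4H4_91_263 : oH4.t4 91 263 2 = true :=
  (t4_two oH4 91 263 1 1 264 2 rfl rfl
    q4H4_2.1
    q4H4_2.2.1)

theorem s4H4_91_265 : oH4.t4 91 265 13 = true :=
  (t4_two oH4 91 265 2 11 267 13 rfl rfl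
    q4H4_2.2.2.1
    (t4_two oH4 91 267 1 10 268 11 rfl rfl
    q4H4_2.2.2.2.1
    (t4_two oH4 91 268 2 8 270 10 rfl rfl
    q4H4_2.2.2.2.2.1
    (t4_two oH4 91 270 1 7 271 8 rfl rfl
    q4H4_2.2.2.2.2.2.1
    (t4_two oH4 91 271 2 5 273 7 rfl rfl
    q4H4_2.2.2.2.2.2.2.1
    (t4_two oH4 91 273 2 3 275 5 rfl rfl
    q4H4_2.2.2.2.2.2.2.2.1
    (t4_two oH4 91 275 1 2 276 3 rfl rfl
    q4H4_2.2.2.2.2.2.2.2.2.1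
    q4H4_2.2.2.2.2.2.2.2.2.2.1)))))))

theorem s4H4_106_0 : oH4.t4 106 0 165 = true :=
  (t4_two oH4 106 0 58 107 58 165 rfl rfl
    q4H4_2.2.2.2.2.2.2.2.2.2.2.1
    (t4_two oH4 106 58 24 83 82 107 rfl rfl
    q4H4_2.2.2.2.2.2.2.2.2.2.2.2.1
    (t4_two oH4 106 82 19 64 101 83 rfl rfl
    q4H4_2.2.2.2.2.2.2.2.2.2.2.2.2.1
    (t4_two oH4 106 101 16 48 117 64 rfl rfl
    q4H4_2.2.2.2.2.2.2.2.2.2.2.2.2.2.1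
    (t4_two oH4 106 117 13 35 130 48 rfl rfl
    q4H4_2.2.2.2.2.2.2.2.2.2.2.2.2.2.2.1
    (t4_two oH4 106 130 13 22 143 35 rfl rfl
    q4H4_2.2.2.2.2.2.2.2.2.2.2.2.2.2.2.2.1
    (t4_two oH4 106 143 11 11 154 22 rfl rfl
    q4H4_2.2.2.2.2.2.2.2.2.2.2.2.2.2.2.2.2.1
    q4H4_2.2.2.2.2.2.2.2.2.2.2.2.2.2.2.2.2.2.1)))))))

theorem s4H4_106_165 : oH4.t4 106 165 45 = true :=
  (t4_two oH4 106 165 6 39 171 45 rfl rfl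
    q4H4_2.2.2.2.2.2.2.2.2.2.2.2.2.2.2.2.2.2.2.1
    (t4_two oH4 106 171 5 34 176 39 rfl rfl
    q4H4_2.2.2.2.2.2.2.2.2.2.2.2.2.2.2.2.2.2.2.2.1
    (t4_two oH4 106 176 6 28 182 34 rfl rfl
    q4H4_2.2.2.2.2.2.2.2.2.2.2.2.2.2.2.2.2.2.2.2.2.1
    (t4_two oH4 106 182 5 23 187 28 rfl rfl
    q4H4_2.2.2.2.2.2.2.2.2.2.2.2.2.2.2.2.2.2.2.2.2.2.1
    (t4_two oH4 106 187 6 17 193 23 rfl rfl
    q4H4_2.2.2.2.2.2.2.2.2.2.2.2.2.2.2.2.2.2.2.2.2.2.2.1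
    (t4_two oH4 106 193 6 11 199 17 rfl rfl
    q4H4_2.2.2.2.2.2.2.2.2.2.2.2.2.2.2.2.2.2.2.2.2.2.2.2.1
    (t4_two oH4 106 199 5 6 204 11 rfl rfl
    q4H4_2.2.2.2.2.2.2.2.2.2.2.2.2.2.2.2.2.2.2.2.2.2.2.2.2.1
    q4H4_2.2.2.2.2.2.2.2.2.2.2.2.2.2.2.2.2.2.2.2.2.2.2.2.2.2.1)))))))

theorem s4H4_106_210 : oH4.t4 106 210 15 = true :=
  (t4_two oH4 106 210 2 13 212 15 rfl rfl
    q4H4_2.2.2.2.2.2.2.2.2.2.2.2.2.2.2.2.2.2.2.2.2.2.2.2.2.2.2.1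
    (t4_two oH4 106 212 2 11 214 13 rfl rfl
    q4H4_2.2.2.2.2.2.2.2.2.2.2.2.2.2.2.2.2.2.2.2.2.2.2.2.2.2.2.2.1
    (t4_two oH4 106 214 2 9 216 11 rfl rfl
    q4H4_2.2.2.2.2.2.2.2.2.2.2.2.2.2.2.2.2.2.2.2.2.2.2.2.2.2.2.2.2.1
    (t4_two oH4 106 216 2 7 218 9 rfl rfl
    q4H4_2.2.2.2.2.2.2.2.2.2.2.2.2.2.2.2.2.2.2.2.2.2.2.2.2.2.2.2.2.2.1
    (t4_two oH4 106 218 1 6 219 7 rfl rfl
    q4H4_2.2.2.2.2.2.2.2.2.2.2.2.2.2.2.2.2.2.2.2.2.2.2.2.2.2.2.2.2.2.2.1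
    (t4_two oH4 106 219 2 4 221 6 rfl rfl
    q4H4_2.2.2.2.2.2.2.2.2.2.2.2.2.2.2.2.2.2.2.2.2.2.2.2.2.2.2.2.2.2.2.2.1
    (t4_two oH4 106 221 2 2 223 4 rfl rfl
    q4H4_2.2.2.2.2.2.2.2.2.2.2.2.2.2.2.2.2.2.2.2.2.2.2.2.2.2.2.2.2.2.2.2.2.1
    q4H4_2.2.2.2.2.2.2.2.2.2.2.2.2.2.2.2.2.2.2.2.2.2.2.2.2.2.2.2.2.2.2.2.2.2.1)))))))

theorem s4H4_106_225 : oH4.t4 106 225 26 = true :=
  (t4_two oH4 106 225 3 23 228 26 rfl rfl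
    q4H4_2.2.2.2.2.2.2.2.2.2.2.2.2.2.2.2.2.2.2.2.2.2.2.2.2.2.2.2.2.2.2.2.2.2.2.1
    (t4_two oH4 106 228 3 20 231 23 rfl rfl
    q4H4_2.2.2.2.2.2.2.2.2.2.2.2.2.2.2.2.2.2.2.2.2.2.2.2.2.2.2.2.2.2.2.2.2.2.2.2.1
    (t4_two oH4 106 231 4 16 235 20 rfl rfl
    q4H4_2.2.2.2.2.2.2.2.2.2.2.2.2.2.2.2.2.2.2.2.2.2.2.2.2.2.2.2.2.2.2.2.2.2.2.2.2.1
    (t4_two oH4 106 235 3 13 238 16 rfl rfl
    q4H4_2.2.2.2.2.2.2.2.2.2.2.2.2.2.2.2.2.2.2.2.2.2.2.2.2.2.2.2.2.2.2.2.2.2.2.2.2.2.1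
    (t4_two oH4 106 238 3 10 241 13 rfl rfl
    q4H4_2.2.2.2.2.2.2.2.2.2.2.2.2.2.2.2.2.2.2.2.2.2.2.2.2.2.2.2.2.2.2.2.2.2.2.2.2.2.2.1
    (t4_two oH4 106 241 4 6 245 10 rfl rfl
    q4H4_2.2.2.2.2.2.2.2.2.2.2.2.2.2.2.2.2.2.2.2.2.2.2.2.2.2.2.2.2.2.2.2.2.2.2.2.2.2.2.2.1
    (t4_two oH4 106 245 3 3 248 6 rfl rfl
    q4H4_2.2.2.2.2.2.2.2.2.2.2.2.2.2.2.2.2.2.2.2.2.2.2.2.2.2.2.2.2.2.2.2.2.2.2.2.2.2.2.2.2.1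
    q4H4_2.2.2.2.2.2.2.2.2.2.2.2.2.2.2.2.2.2.2.2.2.2.2.2.2.2.2.2.2.2.2.2.2.2.2.2.2.2.2.2.2.2.1)))))))

theorem s4H4_106_251 : oH4.t4 106 251 12 = true :=
  (t4_two oH4 106 251 2 10 253 12 rfl rfl
    q4H4_2.2.2.2.2.2.2.2.2.2.2.2.2.2.2.2.2.2.2.2.2.2.2.2.2.2.2.2.2.2.2.2.2.2.2.2.2.2.2.2.2.2.2.1
    (t4_two oH4 106 253 1 9 254 10 rfl rfl
    q4H4_2.2.2.2.2.2.2.2.2.2.2.2.2.2.2.2.2.2.2.2.2.2.2.2.2.2.2.2.2.2.2.2.2.2.2.2.2.2.2.2.2.2.2.2.1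
    (t4_two oH4 106 254 1 8 255 9 rfl rfl
    q4H4_2.2.2.2.2.2.2.2.2.2.2.2.2.2.2.2.2.2.2.2.2.2.2.2.2.2.2.2.2.2.2.2.2.2.2.2.2.2.2.2.2.2.2.2.2.1
    (t4_two oH4 106 255 2 6 257 8 rfl rfl
    q4H4_2.2.2.2.2.2.2.2.2.2.2.2.2.2.2.2.2.2.2.2.2.2.2.2.2.2.2.2.2.2.2.2.2.2.2.2.2.2.2.2.2.2.2.2.2.2.1
    (t4_two oH4 106 257 2 4 259 6 rfl rfl
    q4H4_2.2.2.2.2.2.2.2.2.2.2.2.2.2.2.2.2.2.2.2.2.2.2.2.2.2.2.2.2.2.2.2.2.2.2.2.2.2.2.2.2.2.2.2.2.2.2.1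
    (t4_two oH4 106 259 1 3 260 4 rfl rfl
    q4H4_2.2.2.2.2.2.2.2.2.2.2.2.2.2.2.2.2.2.2.2.2.2.2.2.2.2.2.2.2.2.2.2.2.2.2.2.2.2.2.2.2.2.2.2.2.2.2.2.1
    (t4_two oH4 106 260 1 2 261 3 rfl rfl
    q4H4_2.2.2.2.2.2.2.2.2.2.2.2.2.2.2.2.2.2.2.2.2.2.2.2.2.2.2.2.2.2.2.2.2.2.2.2.2.2.2.2.2.2.2.2.2.2.2.2.2.1
    q4H4_2.2.2.2.2.2.2.2.2.2.2.2.2.2.2.2.2.2.2.2.2.2.2.2.2.2.2.2.2.2.2.2.2.2.2.2.2.2.2.2.2.2.2.2.2.2.2.2.2.2.1)))))))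

theorem s4H4_106_263 : oH4.t4 106 263 2 = true :=
  (t4_two oH4 106 263 1 1 264 2 rfl rfl
    q4H4_2.2.2.2.2.2.2.2.2.2.2.2.2.2.2.2.2.2.2.2.2.2.2.2.2.2.2.2.2.2.2.2.2.2.2.2.2.2.2.2.2.2.2.2.2.2.2.2.2.2.2.1
    q4H4_2.2.2.2.2.2.2.2.2.2.2.2.2.2.2.2.2.2.2.2.2.2.2.2.2.2.2.2.2.2.2.2.2.2.2.2.2.2.2.2.2.2.2.2.2.2.2.2.2.2.2.2)

end Pool.Agent.H54.RG
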