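import Pool.Agent.H54.RG.OpsH4
import Pool.Agent.H54.RG.Spl

/-!
# Project RG (MP_35eb49): checks of the cubes of type H4
-/

set_option autoImplicit false
set_option maxRecDepth 100000
set_option maxHeartbeats 0

namespace Pool.Agent.H54.RG

open Pool.Agent.H54.RF

/-- The checks of this file. They are in one theorem, so that they are done one after the other. -/
theorem q4H4_3 :
    oH4.t4 106 265 2 = true ∧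
    oH4.t4 106 267 1 = true ∧
    oH4.t4 106 268 2 = true ∧
    oH4.t4 106 270 1 = true ∧
    oH4.t4 106 271 2 = true ∧
    oH4.t4 106 273 2 = true ∧
    oH4.t4 106 275 1 = true ∧
    oH4.t4 106 276 2 = true ∧
    oH4.t4 121 0 53 = true ∧
    oH4.t4 121 53 23 = true ∧
    oH4.t4 121 76 16 = true ∧
    oH4.t4 121 92 15 = true ∧
    oH4.t4 121 107 12 = true ∧
    oH4.t4 121 119 12 = true ∧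
    oH4.t4 121 131 10 = true ∧
    oH4.t4 121 141 10 = true ∧
    oH4.t4 121 151 5 = true ∧
    oH4.t4 121 156 5 = true ∧
    oH4.t4 121 161 5 = true ∧
    oH4.t4 121 166 5 = true ∧
    oH4.t4 121 171 5 = true ∧
    oH4.t4 121 176 5 = true ∧
    oH4.t4 121 181 5 = true ∧
    oH4.t4 121 186 5 = true ∧
    oH4.t4 121 191 2 = true ∧
    oH4.t4 121 193 3 = true ∧
    oH4.t4 121 196 3 = true ∧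
    oH4.t4 121 199 2 = true ∧
    oH4.t4 121 201 2 = true ∧
    oH4.t4 121 203 3 = true ∧
    oH4.t4 121 206 3 = true ∧
    oH4.t4 121 209 2 = true ∧
    oH4.t4 121 211 4 = true ∧
    oH4.t4 121 215 3 = true ∧
    oH4.t4 121 218 3 = true ∧
    oH4.t4 121 221 4 = true ∧
    oH4.t4 121 225 4 = true ∧
    oH4.t4 121 229 3 = true ∧
    oH4.t4 121 232 3 = true ∧
    oH4.t4 121 235 4 = true ∧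
    oH4.t4 121 239 2 = true ∧
    oH4.t4 121 241 2 = true ∧
    oH4.t4 121 243 1 = true ∧
    oH4.t4 121 244 2 = true ∧
    oH4.t4 121 246 2 = true ∧
    oH4.t4 121 248 1 = true ∧
    oH4.t4 121 249 2 = true ∧
    oH4.t4 121 251 2 = true ∧
    oH4.t4 121 253 1 = true ∧
    oH4.t4 121 254 1 = true ∧
    oH4.t4 121 255 1 = true ∧
    oH4.t4 121 256 1 = true ∧
    oH4.t4 121 257 1 = true ∧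
    oH4.t4 121 258 1 = true ∧
    oH4.t4 121 259 1 = true ∧
    oH4.t4 121 260 1 = true ∧
    oH4.t4 121 261 1 = true ∧
    oH4.t4 121 262 1 = true ∧
    oH4.t4 121 263 1 = true ∧
    oH4.t4 121 264 1 = true ∧
    oH4.t4 121 265 1 = true ∧
    oH4.t4 121 266 2 = true ∧
    oH4.t4 121 268 1 = true ∧
    oH4.t4 121 269 1 = true ∧
    oH4.t4 121 270 2 = true ∧
    oH4.t4 121 272 2 = true ∧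
    oH4.t4 121 274 1 = true ∧
    oH4.t4 121 275 1 = true ∧
    oH4.t4 121 276 2 = true := by
  refine ⟨?_, ?_, ?_, ?_, ?_, ?_, ?_, ?_, ?_, ?_, ?_, ?_, ?_, ?_, ?_, ?_, ?_, ?_, ?_, ?_,
    ?_, ?_, ?_, ?_, ?_, ?_, ?_, ?_, ?_, ?_, ?_, ?_, ?_, ?_, ?_, ?_, ?_, ?_, ?_, ?_,
    ?_, ?_, ?_, ?_, ?_, ?_, ?_, ?_, ?_, ?_, ?_, ?_, ?_, ?_, ?_, ?_, ?_, ?_, ?_, ?_,
    ?_, ?_, ?_, ?_, ?_, ?_, ?_, ?_, ?_⟩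
  · decide +kernel
  · decide +kernel
  · decide +kernel
  · decide +kernel
  · decide +kernel
  · decide +kernel
  · decide +kernel
  · decide +kernel
  · decide +kernel
  · decide +kernel
  · decide +kernel
  · decide +kernel
  · decide +kernel
  · decide +kernel
  · decide +kernel
  · decide +kernel
  · decide +kernel
  · decide +kernel
  · decide +kernel
  · decide +kernel
  · decide +kernel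
  · decide +kernel
  · decide +kernel
  · decide +kernel
  · decide +kernel
  · decide +kernel
  · decide +kernel
  · decide +kernel
  · decide +kernel
  · decide +kernel
  · decide +kernel
  · decide +kernel
  · decide +kernel
  · decide +kernel
  · decide +kernel
  · decide +kernel
  · decide +kernel
  · decide +kernel
  · decide +kernel
  · decide +kernel
  · decide +kernel
  · decide +kernel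
  · decide +kernel
  · decide +kernel
  · decide +kernel
  · decide +kernel
  · decide +kernel
  · decide +kernel
  · decide +kernel
  · decide +kernel
  · decide +kernel
  · decide +kernel
  · decide +kernel
  · decide +kernel
  · decide +kernel
  · decide +kernel
  · decide +kernel
  · decide +kernel
  · decide +kernel
  · decide +kernel
  · decide +kernel
  · decide +kernel
  · decide +kernel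
  · decide +kernel
  · decide +kernel
  · decide +kernel
  · decide +kernel
  · decide +kernel
  · decide +kernel

theorem s4H4_106_265 : oH4.t4 106 265 13 = true :=
  (t4_two oH4 106 265 2 11 267 13 rfl rfl
    q4H4_3.1
    (t4_two oH4 106 267 1 10 268 11 rfl rfl
    q4H4_3.2.1
    (t4_two oH4 106 268 2 8 270 10 rfl rfl
    q4H4_3.2.2.1
    (t4_two oH4 106 270 1 7 271 8 rfl rfl
    q4H4_3.2.2.2.1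
    (t4_two oH4 106 271 2 5 273 7 rfl rfl
    q4H4_3.2.2.2.2.1
    (t4_two oH4 106 273 2 3 275 5 rfl rfl
    q4H4_3.2.2.2.2.2.1
    (t4_two oH4 106 275 1 2 276 3 rfl rfl
    q4H4_3.2.2.2.2.2.2.1
    q4H4_3.2.2.2.2.2.2.2.1)))))))

theorem s4H4_121_0 : oH4.t4 121 0 151 = true :=
  (t4_two oH4 121 0 53 98 53 151 rfl rfl
    q4H4_3.2.2.2.2.2.2.2.2.1
    (t4_two oH4 121 53 23 75 76 98 rfl rfl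
    q4H4_3.2.2.2.2.2.2.2.2.2.1
    (t4_two oH4 121 76 16 59 92 75 rfl rfl
    q4H4_3.2.2.2.2.2.2.2.2.2.2.1
    (t4_two oH4 121 92 15 44 107 59 rfl rfl
    q4H4_3.2.2.2.2.2.2.2.2.2.2.2.1
    (t4_two oH4 121 107 12 32 119 44 rfl rfl
    q4H4_3.2.2.2.2.2.2.2.2.2.2.2.2.1
    (t4_two oH4 121 119 12 20 131 32 rfl rfl
    q4H4_3.2.2.2.2.2.2.2.2.2.2.2.2.2.1
    (t4_two oH4 121 131 10 10 141 20 rfl rfl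
    q4H4_3.2.2.2.2.2.2.2.2.2.2.2.2.2.2.1
    q4H4_3.2.2.2.2.2.2.2.2.2.2.2.2.2.2.2.1)))))))

theorem s4H4_121_151 : oH4.t4 121 151 40 = true :=
  (t4_two oH4 121 151 5 35 156 40 rfl rfl
    q4H4_3.2.2.2.2.2.2.2.2.2.2.2.2.2.2.2.2.1
    (t4_two oH4 121 156 5 30 161 35 rfl rfl
    q4H4_3.2.2.2.2.2.2.2.2.2.2.2.2.2.2.2.2.2.1
    (t4_two oH4 121 161 5 25 166 30 rfl rfl
    q4H4_3.2.2.2.2.2.2.2.2.2.2.2.2.2.2.2.2.2.2.1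
    (t4_two oH4 121 166 5 20 171 25 rfl rfl
    q4H4_3.2.2.2.2.2.2.2.2.2.2.2.2.2.2.2.2.2.2.2.1
    (t4_two oH4 121 171 5 15 176 20 rfl rfl
    q4H4_3.2.2.2.2.2.2.2.2.2.2.2.2.2.2.2.2.2.2.2.2.1
    (t4_two oH4 121 176 5 10 181 15 rfl rfl
    q4H4_3.2.2.2.2.2.2.2.2.2.2.2.2.2.2.2.2.2.2.2.2.2.1
    (t4_two oH4 121 181 5 5 186 10 rfl rfl
    q4H4_3.2.2.2.2.2.2.2.2.2.2.2.2.2.2.2.2.2.2.2.2.2.2.1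
    q4H4_3.2.2.2.2.2.2.2.2.2.2.2.2.2.2.2.2.2.2.2.2.2.2.2.1)))))))

theorem s4H4_121_191 : oH4.t4 121 191 20 = true :=
  (t4_two oH4 121 191 2 18 193 20 rfl rfl
    q4H4_3.2.2.2.2.2.2.2.2.2.2.2.2.2.2.2.2.2.2.2.2.2.2.2.2.1
    (t4_two oH4 121 193 3 15 196 18 rfl rfl
    q4H4_3.2.2.2.2.2.2.2.2.2.2.2.2.2.2.2.2.2.2.2.2.2.2.2.2.2.1
    (t4_two oH4 121 196 3 12 199 15 rfl rfl
    q4H4_3.2.2.2.2.2.2.2.2.2.2.2.2.2.2.2.2.2.2.2.2.2.2.2.2.2.2.1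
    (t4_two oH4 121 199 2 10 201 12 rfl rfl
    q4H4_3.2.2.2.2.2.2.2.2.2.2.2.2.2.2.2.2.2.2.2.2.2.2.2.2.2.2.2.1
    (t4_two oH4 121 201 2 8 203 10 rfl rfl
    q4H4_3.2.2.2.2.2.2.2.2.2.2.2.2.2.2.2.2.2.2.2.2.2.2.2.2.2.2.2.2.1
    (t4_two oH4 121 203 3 5 206 8 rfl rfl
    q4H4_3.2.2.2.2.2.2.2.2.2.2.2.2.2.2.2.2.2.2.2.2.2.2.2.2.2.2.2.2.2.1
    (t4_two oH4 121 206 3 2 209 5 rfl rfl
    q4H4_3.2.2.2.2.2.2.2.2.2.2.2.2.2.2.2.2.2.2.2.2.2.2.2.2.2.2.2.2.2.2.1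
    q4H4_3.2.2.2.2.2.2.2.2.2.2.2.2.2.2.2.2.2.2.2.2.2.2.2.2.2.2.2.2.2.2.2.1)))))))

theorem s4H4_121_211 : oH4.t4 121 211 28 = true :=
  (t4_two oH4 121 211 4 24 215 28 rfl rfl
    q4H4_3.2.2.2.2.2.2.2.2.2.2.2.2.2.2.2.2.2.2.2.2.2.2.2.2.2.2.2.2.2.2.2.2.1
    (t4_two oH4 121 215 3 21 218 24 rfl rfl
    q4H4_3.2.2.2.2.2.2.2.2.2.2.2.2.2.2.2.2.2.2.2.2.2.2.2.2.2.2.2.2.2.2.2.2.2.1
    (t4_two oH4 121 218 3 18 221 21 rfl rfl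
    q4H4_3.2.2.2.2.2.2.2.2.2.2.2.2.2.2.2.2.2.2.2.2.2.2.2.2.2.2.2.2.2.2.2.2.2.2.1
    (t4_two oH4 121 221 4 14 225 18 rfl rfl
    q4H4_3.2.2.2.2.2.2.2.2.2.2.2.2.2.2.2.2.2.2.2.2.2.2.2.2.2.2.2.2.2.2.2.2.2.2.2.1
    (t4_two oH4 121 225 4 10 229 14 rfl rfl
    q4H4_3.2.2.2.2.2.2.2.2.2.2.2.2.2.2.2.2.2.2.2.2.2.2.2.2.2.2.2.2.2.2.2.2.2.2.2.2.1
    (t4_two oH4 121 229 3 7 232 10 rfl rfl
    q4H4_3.2.2.2.2.2.2.2.2.2.2.2.2.2.2.2.2.2.2.2.2.2.2.2.2.2.2.2.2.2.2.2.2.2.2.2.2.2.1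
    (t4_two oH4 121 232 3 4 235 7 rfl rfl
    q4H4_3.2.2.2.2.2.2.2.2.2.2.2.2.2.2.2.2.2.2.2.2.2.2.2.2.2.2.2.2.2.2.2.2.2.2.2.2.2.2.1
    q4H4_3.2.2.2.2.2.2.2.2.2.2.2.2.2.2.2.2.2.2.2.2.2.2.2.2.2.2.2.2.2.2.2.2.2.2.2.2.2.2.2.1)))))))

theorem s4H4_121_239 : oH4.t4 121 239 14 = true :=
  (t4_two oH4 121 239 2 12 241 14 rfl rfl
    q4H4_3.2.2.2.2.2.2.2.2.2.2.2.2.2.2.2.2.2.2.2.2.2.2.2.2.2.2.2.2.2.2.2.2.2.2.2.2.2.2.2.2.1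
    (t4_two oH4 121 241 2 10 243 12 rfl rfl
    q4H4_3.2.2.2.2.2.2.2.2.2.2.2.2.2.2.2.2.2.2.2.2.2.2.2.2.2.2.2.2.2.2.2.2.2.2.2.2.2.2.2.2.2.1
    (t4_two oH4 121 243 1 9 244 10 rfl rfl
    q4H4_3.2.2.2.2.2.2.2.2.2.2.2.2.2.2.2.2.2.2.2.2.2.2.2.2.2.2.2.2.2.2.2.2.2.2.2.2.2.2.2.2.2.2.1
    (t4_two oH4 121 244 2 7 246 9 rfl rfl
    q4H4_3.2.2.2.2.2.2.2.2.2.2.2.2.2.2.2.2.2.2.2.2.2.2.2.2.2.2.2.2.2.2.2.2.2.2.2.2.2.2.2.2.2.2.2.1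
    (t4_two oH4 121 246 2 5 248 7 rfl rfl
    q4H4_3.2.2.2.2.2.2.2.2.2.2.2.2.2.2.2.2.2.2.2.2.2.2.2.2.2.2.2.2.2.2.2.2.2.2.2.2.2.2.2.2.2.2.2.2.1
    (t4_two oH4 121 248 1 4 249 5 rfl rfl
    q4H4_3.2.2.2.2.2.2.2.2.2.2.2.2.2.2.2.2.2.2.2.2.2.2.2.2.2.2.2.2.2.2.2.2.2.2.2.2.2.2.2.2.2.2.2.2.2.1
    (t4_two oH4 121 249 2 2 251 4 rfl rfl
    q4H4_3.2.2.2.2.2.2.2.2.2.2.2.2.2.2.2.2.2.2.2.2.2.2.2.2.2.2.2.2.2.2.2.2.2.2.2.2.2.2.2.2.2.2.2.2.2.2.1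
    q4H4_3.2.2.2.2.2.2.2.2.2.2.2.2.2.2.2.2.2.2.2.2.2.2.2.2.2.2.2.2.2.2.2.2.2.2.2.2.2.2.2.2.2.2.2.2.2.2.2.1)))))))

theorem s4H4_121_253 : oH4.t4 121 253 8 = true :=
  (t4_two oH4 121 253 1 7 254 8 rfl rfl
    q4H4_3.2.2.2.2.2.2.2.2.2.2.2.2.2.2.2.2.2.2.2.2.2.2.2.2.2.2.2.2.2.2.2.2.2.2.2.2.2.2.2.2.2.2.2.2.2.2.2.2.1
    (t4_two oH4 121 254 1 6 255 7 rfl rfl
    q4H4_3.2.2.2.2.2.2.2.2.2.2.2.2.2.2.2.2.2.2.2.2.2.2.2.2.2.2.2.2.2.2.2.2.2.2.2.2.2.2.2.2.2.2.2.2.2.2.2.2.2.1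
    (t4_two oH4 121 255 1 5 256 6 rfl rfl
    q4H4_3.2.2.2.2.2.2.2.2.2.2.2.2.2.2.2.2.2.2.2.2.2.2.2.2.2.2.2.2.2.2.2.2.2.2.2.2.2.2.2.2.2.2.2.2.2.2.2.2.2.2.1
    (t4_two oH4 121 256 1 4 257 5 rfl rfl
    q4H4_3.2.2.2.2.2.2.2.2.2.2.2.2.2.2.2.2.2.2.2.2.2.2.2.2.2.2.2.2.2.2.2.2.2.2.2.2.2.2.2.2.2.2.2.2.2.2.2.2.2.2.2.1
    (t4_two oH4 121 257 1 3 258 4 rfl rfl
    q4H4_3.2.2.2.2.2.2.2.2.2.2.2.2.2.2.2.2.2.2.2.2.2.2.2.2.2.2.2.2.2.2.2.2.2.2.2.2.2.2.2.2.2.2.2.2.2.2.2.2.2.2.2.2.1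
    (t4_two oH4 121 258 1 2 259 3 rfl rfl
    q4H4_3.2.2.2.2.2.2.2.2.2.2.2.2.2.2.2.2.2.2.2.2.2.2.2.2.2.2.2.2.2.2.2.2.2.2.2.2.2.2.2.2.2.2.2.2.2.2.2.2.2.2.2.2.2.1
    (t4_two oH4 121 259 1 1 260 2 rfl rfl
    q4H4_3.2.2.2.2.2.2.2.2.2.2.2.2.2.2.2.2.2.2.2.2.2.2.2.2.2.2.2.2.2.2.2.2.2.2.2.2.2.2.2.2.2.2.2.2.2.2.2.2.2.2.2.2.2.2.1
    q4H4_3.2.2.2.2.2.2.2.2.2.2.2.2.2.2.2.2.2.2.2.2.2.2.2.2.2.2.2.2.2.2.2.2.2.2.2.2.2.2.2.2.2.2.2.2.2.2.2.2.2.2.2.2.2.2.2.1)))))))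

theorem s4H4_121_261 : oH4.t4 121 261 5 = true :=
  (t4_two oH4 121 261 1 4 262 5 rfl rfl
    q4H4_3.2.2.2.2.2.2.2.2.2.2.2.2.2.2.2.2.2.2.2.2.2.2.2.2.2.2.2.2.2.2.2.2.2.2.2.2.2.2.2.2.2.2.2.2.2.2.2.2.2.2.2.2.2.2.2.2.1
    (t4_two oH4 121 262 1 3 263 4 rfl rfl
    q4H4_3.2.2.2.2.2.2.2.2.2.2.2.2.2.2.2.2.2.2.2.2.2.2.2.2.2.2.2.2.2.2.2.2.2.2.2.2.2.2.2.2.2.2.2.2.2.2.2.2.2.2.2.2.2.2.2.2.2.1
    (t4_two oH4 121 263 1 2 264 3 rfl rfl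
    q4H4_3.2.2.2.2.2.2.2.2.2.2.2.2.2.2.2.2.2.2.2.2.2.2.2.2.2.2.2.2.2.2.2.2.2.2.2.2.2.2.2.2.2.2.2.2.2.2.2.2.2.2.2.2.2.2.2.2.2.2.1
    (t4_two oH4 121 264 1 1 265 2 rfl rfl
    q4H4_3.2.2.2.2.2.2.2.2.2.2.2.2.2.2.2.2.2.2.2.2.2.2.2.2.2.2.2.2.2.2.2.2.2.2.2.2.2.2.2.2.2.2.2.2.2.2.2.2.2.2.2.2.2.2.2.2.2.2.2.1
    q4H4_3.2.2.2.2.2.2.2.2.2.2.2.2.2.2.2.2.2.2.2.2.2.2.2.2.2.2.2.2.2.2.2.2.2.2.2.2.2.2.2.2.2.2.2.2.2.2.2.2.2.2.2.2.2.2.2.2.2.2.2.2.1))))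

theorem s4H4_121_266 : oH4.t4 121 266 12 = true :=
  (t4_two oH4 121 266 2 10 268 12 rfl rfl
    q4H4_3.2.2.2.2.2.2.2.2.2.2.2.2.2.2.2.2.2.2.2.2.2.2.2.2.2.2.2.2.2.2.2.2.2.2.2.2.2.2.2.2.2.2.2.2.2.2.2.2.2.2.2.2.2.2.2.2.2.2.2.2.2.1
    (t4_two oH4 121 268 1 9 269 10 rfl rfl
    q4H4_3.2.2.2.2.2.2.2.2.2.2.2.2.2.2.2.2.2.2.2.2.2.2.2.2.2.2.2.2.2.2.2.2.2.2.2.2.2.2.2.2.2.2.2.2.2.2.2.2.2.2.2.2.2.2.2.2.2.2.2.2.2.2.1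
    (t4_two oH4 121 269 1 8 270 9 rfl rfl
    q4H4_3.2.2.2.2.2.2.2.2.2.2.2.2.2.2.2.2.2.2.2.2.2.2.2.2.2.2.2.2.2.2.2.2.2.2.2.2.2.2.2.2.2.2.2.2.2.2.2.2.2.2.2.2.2.2.2.2.2.2.2.2.2.2.2.1
    (t4_two oH4 121 270 2 6 272 8 rfl rfl
    q4H4_3.2.2.2.2.2.2.2.2.2.2.2.2.2.2.2.2.2.2.2.2.2.2.2.2.2.2.2.2.2.2.2.2.2.2.2.2.2.2.2.2.2.2.2.2.2.2.2.2.2.2.2.2.2.2.2.2.2.2.2.2.2.2.2.2.1
    (t4_two oH4 121 272 2 4 274 6 rfl rfl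
    q4H4_3.2.2.2.2.2.2.2.2.2.2.2.2.2.2.2.2.2.2.2.2.2.2.2.2.2.2.2.2.2.2.2.2.2.2.2.2.2.2.2.2.2.2.2.2.2.2.2.2.2.2.2.2.2.2.2.2.2.2.2.2.2.2.2.2.2.1
    (t4_two oH4 121 274 1 3 275 4 rfl rfl
    q4H4_3.2.2.2.2.2.2.2.2.2.2.2.2.2.2.2.2.2.2.2.2.2.2.2.2.2.2.2.2.2.2.2.2.2.2.2.2.2.2.2.2.2.2.2.2.2.2.2.2.2.2.2.2.2.2.2.2.2.2.2.2.2.2.2.2.2.2.1
    (t4_two oH4 121 275 1 2 276 3 rfl rfl
    q4H4_3.2.2.2.2.2.2.2.2.2.2.2.2.2.2.2.2.2.2.2.2.2.2.2.2.2.2.2.2.2.2.2.2.2.2.2.2.2.2.2.2.2.2.2.2.2.2.2.2.2.2.2.2.2.2.2.2.2.2.2.2.2.2.2.2.2.2.2.1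
    q4H4_3.2.2.2.2.2.2.2.2.2.2.2.2.2.2.2.2.2.2.2.2.2.2.2.2.2.2.2.2.2.2.2.2.2.2.2.2.2.2.2.2.2.2.2.2.2.2.2.2.2.2.2.2.2.2.2.2.2.2.2.2.2.2.2.2.2.2.2.2)))))))

end Pool.Agent.H54.RG
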