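import Pool.Agent.H54.RG.OpsH4
import Pool.Agent.H54.RG.Spl

/-!
# Project RG (MP_35eb49): checks of the cubes of type H4
-/

set_option autoImplicit false
set_option maxRecDepth 100000
set_option maxHeartbeats 0

namespace Pool.Agent.H54.RG

open Pool.Agent.H54.RF

/-- The checks of this file. They are in one theorem, so that they are done one after the other. -/
theorem q4H4_4 :
    oH4.t4 136 0 68 = true ∧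
    oH4.t4 136 68 28 = true ∧
    oH4.t4 136 96 22 = true ∧
    oH4.t4 136 118 18 = true ∧
    oH4.t4 136 136 16 = true ∧
    oH4.t4 136 152 14 = true ∧
    oH4.t4 136 166 14 = true ∧
    oH4.t4 136 180 12 = true ∧
    oH4.t4 136 192 4 = true ∧
    oH4.t4 136 196 4 = true ∧
    oH4.t4 136 200 4 = true ∧
    oH4.t4 136 204 4 = true ∧
    oH4.t4 136 208 3 = true ∧
    oH4.t4 136 211 4 = true ∧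
    oH4.t4 136 215 4 = true ∧
    oH4.t4 136 219 4 = true ∧
    oH4.t4 136 223 2 = true ∧
    oH4.t4 136 225 2 = true ∧
    oH4.t4 136 227 2 = true ∧
    oH4.t4 136 229 2 = true ∧
    oH4.t4 136 231 2 = true ∧
    oH4.t4 136 233 2 = true ∧
    oH4.t4 136 235 2 = true ∧
    oH4.t4 136 237 2 = true ∧
    oH4.t4 136 239 2 = true ∧
    oH4.t4 136 241 2 = true ∧
    oH4.t4 136 243 1 = true ∧
    oH4.t4 136 244 2 = true ∧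
    oH4.t4 136 246 2 = true ∧
    oH4.t4 136 248 1 = true ∧
    oH4.t4 136 249 2 = true ∧
    oH4.t4 136 251 2 = true ∧
    oH4.t4 136 253 2 = true ∧
    oH4.t4 136 255 1 = true ∧
    oH4.t4 136 256 1 = true ∧
    oH4.t4 136 257 2 = true ∧
    oH4.t4 136 259 2 = true ∧
    oH4.t4 136 261 1 = true ∧
    oH4.t4 136 262 1 = true ∧
    oH4.t4 136 263 2 = true ∧
    oH4.t4 136 265 2 = true ∧
    oH4.t4 136 267 1 = true ∧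
    oH4.t4 136 268 2 = true ∧
    oH4.t4 136 270 1 = true ∧
    oH4.t4 136 271 2 = true ∧
    oH4.t4 136 273 2 = true ∧
    oH4.t4 136 275 1 = true ∧
    oH4.t4 136 276 2 = true ∧
    oH4.t4 151 0 64 = true ∧
    oH4.t4 151 64 26 = true ∧
    oH4.t4 151 90 20 = true ∧
    oH4.t4 151 110 17 = true ∧
    oH4.t4 151 127 15 = true ∧
    oH4.t4 151 142 14 = true ∧
    oH4.t4 151 156 12 = true ∧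
    oH4.t4 151 168 12 = true ∧
    oH4.t4 151 180 3 = true ∧
    oH4.t4 151 183 3 = true ∧
    oH4.t4 151 186 3 = true ∧
    oH4.t4 151 189 3 = true ∧
    oH4.t4 151 192 3 = true ∧
    oH4.t4 151 195 3 = true ∧
    oH4.t4 151 198 3 = true ∧
    oH4.t4 151 201 3 = true := by
  refine ⟨?_, ?_, ?_, ?_, ?_, ?_, ?_, ?_, ?_, ?_, ?_, ?_, ?_, ?_, ?_, ?_, ?_, ?_, ?_, ?_,
    ?_, ?_, ?_, ?_, ?_, ?_, ?_, ?_, ?_, ?_, ?_, ?_, ?_, ?_, ?_, ?_, ?_, ?_, ?_, ?_,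
    ?_, ?_, ?_, ?_, ?_, ?_, ?_, ?_, ?_, ?_, ?_, ?_, ?_, ?_, ?_, ?_, ?_, ?_, ?_, ?_,
    ?_, ?_, ?_, ?_⟩
  · decide +kernel
  · decide +kernel
  · decide +kernel
  · decide +kernel
  · decide +kernel
  · decide +kernel
  · decide +kernel
  · decide +kernel
  · decide +kernel
  · decide +kernel
  · decide +kernel
  · decide +kernel
  · decide +kernel
  · decide +kernel
  · decide +kernel
  · decide +kernel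
  · decide +kernel
  · decide +kernel
  · decide +kernel
  · decide +kernel
  · decide +kernel
  · decide +kernel
  · decide +kernel
  · decide +kernel
  · decide +kernel
  · decide +kernel
  · decide +kernel
  · decide +kernel
  · decide +kernel
  · decide +kernel
  · decide +kernel
  · decide +kernel
  · decide +kernel
  · decide +kernel
  · decide +kernel
  · decide +kernel
  · decide +kernel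
  · decide +kernel
  · decide +kernel
  · decide +kernel
  · decide +kernel
  · decide +kernel
  · decide +kernel
  · decide +kernel
  · decide +kernel
  · decide +kernel
  · decide +kernel
  · decide +kernel
  · decide +kernel
  · decide +kernel
  · decide +kernel
  · decide +kernel
  · decide +kernel
  · decide +kernel
  · decide +kernel
  · decide +kernel
  · decide +kernel
  · decide +kernel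
  · decide +kernel
  · decide +kernel
  · decide +kernel
  · decide +kernel
  · decide +kernel
  · decide +kernel

theorem s4H4_136_0 : oH4.t4 136 0 192 = true :=
  (t4_two oH4 136 0 68 124 68 192 rfl rfl
    q4H4_4.1
    (t4_two oH4 136 68 28 96 96 124 rfl rfl
    q4H4_4.2.1
    (t4_two oH4 136 96 22 74 118 96 rfl rfl
    q4H4_4.2.2.1
    (t4_two oH4 136 118 18 56 136 74 rfl rfl
    q4H4_4.2.2.2.1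
    (t4_two oH4 136 136 16 40 152 56 rfl rfl
    q4H4_4.2.2.2.2.1
    (t4_two oH4 136 152 14 26 166 40 rfl rfl
    q4H4_4.2.2.2.2.2.1
    (t4_two oH4 136 166 14 12 180 26 rfl rfl
    q4H4_4.2.2.2.2.2.2.1
    q4H4_4.2.2.2.2.2.2.2.1)))))))

theorem s4H4_136_192 : oH4.t4 136 192 31 = true :=
  (t4_two oH4 136 192 4 27 196 31 rfl rfl
    q4H4_4.2.2.2.2.2.2.2.2.1
    (t4_two oH4 136 196 4 23 200 27 rfl rfl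
    q4H4_4.2.2.2.2.2.2.2.2.2.1
    (t4_two oH4 136 200 4 19 204 23 rfl rfl
    q4H4_4.2.2.2.2.2.2.2.2.2.2.1
    (t4_two oH4 136 204 4 15 208 19 rfl rfl
    q4H4_4.2.2.2.2.2.2.2.2.2.2.2.1
    (t4_two oH4 136 208 3 12 211 15 rfl rfl
    q4H4_4.2.2.2.2.2.2.2.2.2.2.2.2.1
    (t4_two oH4 136 211 4 8 215 12 rfl rfl
    q4H4_4.2.2.2.2.2.2.2.2.2.2.2.2.2.1
    (t4_two oH4 136 215 4 4 219 8 rfl rfl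
    q4H4_4.2.2.2.2.2.2.2.2.2.2.2.2.2.2.1
    q4H4_4.2.2.2.2.2.2.2.2.2.2.2.2.2.2.2.1)))))))

theorem s4H4_136_223 : oH4.t4 136 223 16 = true :=
  (t4_two oH4 136 223 2 14 225 16 rfl rfl
    q4H4_4.2.2.2.2.2.2.2.2.2.2.2.2.2.2.2.2.1
    (t4_two oH4 136 225 2 12 227 14 rfl rfl
    q4H4_4.2.2.2.2.2.2.2.2.2.2.2.2.2.2.2.2.2.1
    (t4_two oH4 136 227 2 10 229 12 rfl rfl
    q4H4_4.2.2.2.2.2.2.2.2.2.2.2.2.2.2.2.2.2.2.1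
    (t4_two oH4 136 229 2 8 231 10 rfl rfl
    q4H4_4.2.2.2.2.2.2.2.2.2.2.2.2.2.2.2.2.2.2.2.1
    (t4_two oH4 136 231 2 6 233 8 rfl rfl
    q4H4_4.2.2.2.2.2.2.2.2.2.2.2.2.2.2.2.2.2.2.2.2.1
    (t4_two oH4 136 233 2 4 235 6 rfl rfl
    q4H4_4.2.2.2.2.2.2.2.2.2.2.2.2.2.2.2.2.2.2.2.2.2.1
    (t4_two oH4 136 235 2 2 237 4 rfl rfl
    q4H4_4.2.2.2.2.2.2.2.2.2.2.2.2.2.2.2.2.2.2.2.2.2.2.1
    q4H4_4.2.2.2.2.2.2.2.2.2.2.2.2.2.2.2.2.2.2.2.2.2.2.2.1)))))))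

theorem s4H4_136_239 : oH4.t4 136 239 14 = true :=
  (t4_two oH4 136 239 2 12 241 14 rfl rfl
    q4H4_4.2.2.2.2.2.2.2.2.2.2.2.2.2.2.2.2.2.2.2.2.2.2.2.2.1
    (t4_two oH4 136 241 2 10 243 12 rfl rfl
    q4H4_4.2.2.2.2.2.2.2.2.2.2.2.2.2.2.2.2.2.2.2.2.2.2.2.2.2.1
    (t4_two oH4 136 243 1 9 244 10 rfl rfl
    q4H4_4.2.2.2.2.2.2.2.2.2.2.2.2.2.2.2.2.2.2.2.2.2.2.2.2.2.2.1
    (t4_two oH4 136 244 2 7 246 9 rfl rfl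
    q4H4_4.2.2.2.2.2.2.2.2.2.2.2.2.2.2.2.2.2.2.2.2.2.2.2.2.2.2.2.1
    (t4_two oH4 136 246 2 5 248 7 rfl rfl
    q4H4_4.2.2.2.2.2.2.2.2.2.2.2.2.2.2.2.2.2.2.2.2.2.2.2.2.2.2.2.2.1
    (t4_two oH4 136 248 1 4 249 5 rfl rfl
    q4H4_4.2.2.2.2.2.2.2.2.2.2.2.2.2.2.2.2.2.2.2.2.2.2.2.2.2.2.2.2.2.1
    (t4_two oH4 136 249 2 2 251 4 rfl rfl
    q4H4_4.2.2.2.2.2.2.2.2.2.2.2.2.2.2.2.2.2.2.2.2.2.2.2.2.2.2.2.2.2.2.1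
    q4H4_4.2.2.2.2.2.2.2.2.2.2.2.2.2.2.2.2.2.2.2.2.2.2.2.2.2.2.2.2.2.2.2.1)))))))

theorem s4H4_136_253 : oH4.t4 136 253 12 = true :=
  (t4_two oH4 136 253 2 10 255 12 rfl rfl
    q4H4_4.2.2.2.2.2.2.2.2.2.2.2.2.2.2.2.2.2.2.2.2.2.2.2.2.2.2.2.2.2.2.2.2.1
    (t4_two oH4 136 255 1 9 256 10 rfl rfl
    q4H4_4.2.2.2.2.2.2.2.2.2.2.2.2.2.2.2.2.2.2.2.2.2.2.2.2.2.2.2.2.2.2.2.2.2.1
    (t4_two oH4 136 256 1 8 257 9 rfl rfl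
    q4H4_4.2.2.2.2.2.2.2.2.2.2.2.2.2.2.2.2.2.2.2.2.2.2.2.2.2.2.2.2.2.2.2.2.2.2.1
    (t4_two oH4 136 257 2 6 259 8 rfl rfl
    q4H4_4.2.2.2.2.2.2.2.2.2.2.2.2.2.2.2.2.2.2.2.2.2.2.2.2.2.2.2.2.2.2.2.2.2.2.2.1
    (t4_two oH4 136 259 2 4 261 6 rfl rfl
    q4H4_4.2.2.2.2.2.2.2.2.2.2.2.2.2.2.2.2.2.2.2.2.2.2.2.2.2.2.2.2.2.2.2.2.2.2.2.2.1
    (t4_two oH4 136 261 1 3 262 4 rfl rfl
    q4H4_4.2.2.2.2.2.2.2.2.2.2.2.2.2.2.2.2.2.2.2.2.2.2.2.2.2.2.2.2.2.2.2.2.2.2.2.2.2.1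
    (t4_two oH4 136 262 1 2 263 3 rfl rfl
    q4H4_4.2.2.2.2.2.2.2.2.2.2.2.2.2.2.2.2.2.2.2.2.2.2.2.2.2.2.2.2.2.2.2.2.2.2.2.2.2.2.1
    q4H4_4.2.2.2.2.2.2.2.2.2.2.2.2.2.2.2.2.2.2.2.2.2.2.2.2.2.2.2.2.2.2.2.2.2.2.2.2.2.2.2.1)))))))

theorem s4H4_136_265 : oH4.t4 136 265 13 = true :=
  (t4_two oH4 136 265 2 11 267 13 rfl rfl
    q4H4_4.2.2.2.2.2.2.2.2.2.2.2.2.2.2.2.2.2.2.2.2.2.2.2.2.2.2.2.2.2.2.2.2.2.2.2.2.2.2.2.2.1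
    (t4_two oH4 136 267 1 10 268 11 rfl rfl
    q4H4_4.2.2.2.2.2.2.2.2.2.2.2.2.2.2.2.2.2.2.2.2.2.2.2.2.2.2.2.2.2.2.2.2.2.2.2.2.2.2.2.2.2.1
    (t4_two oH4 136 268 2 8 270 10 rfl rfl
    q4H4_4.2.2.2.2.2.2.2.2.2.2.2.2.2.2.2.2.2.2.2.2.2.2.2.2.2.2.2.2.2.2.2.2.2.2.2.2.2.2.2.2.2.2.1
    (t4_two oH4 136 270 1 7 271 8 rfl rfl
    q4H4_4.2.2.2.2.2.2.2.2.2.2.2.2.2.2.2.2.2.2.2.2.2.2.2.2.2.2.2.2.2.2.2.2.2.2.2.2.2.2.2.2.2.2.2.1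
    (t4_two oH4 136 271 2 5 273 7 rfl rfl
    q4H4_4.2.2.2.2.2.2.2.2.2.2.2.2.2.2.2.2.2.2.2.2.2.2.2.2.2.2.2.2.2.2.2.2.2.2.2.2.2.2.2.2.2.2.2.2.1
    (t4_two oH4 136 273 2 3 275 5 rfl rfl
    q4H4_4.2.2.2.2.2.2.2.2.2.2.2.2.2.2.2.2.2.2.2.2.2.2.2.2.2.2.2.2.2.2.2.2.2.2.2.2.2.2.2.2.2.2.2.2.2.1
    (t4_two oH4 136 275 1 2 276 3 rfl rfl
    q4H4_4.2.2.2.2.2.2.2.2.2.2.2.2.2.2.2.2.2.2.2.2.2.2.2.2.2.2.2.2.2.2.2.2.2.2.2.2.2.2.2.2.2.2.2.2.2.2.1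
    q4H4_4.2.2.2.2.2.2.2.2.2.2.2.2.2.2.2.2.2.2.2.2.2.2.2.2.2.2.2.2.2.2.2.2.2.2.2.2.2.2.2.2.2.2.2.2.2.2.2.1)))))))

theorem s4H4_151_0 : oH4.t4 151 0 180 = true :=
  (t4_two oH4 151 0 64 116 64 180 rfl rfl
    q4H4_4.2.2.2.2.2.2.2.2.2.2.2.2.2.2.2.2.2.2.2.2.2.2.2.2.2.2.2.2.2.2.2.2.2.2.2.2.2.2.2.2.2.2.2.2.2.2.2.2.1
    (t4_two oH4 151 64 26 90 90 116 rfl rfl
    q4H4_4.2.2.2.2.2.2.2.2.2.2.2.2.2.2.2.2.2.2.2.2.2.2.2.2.2.2.2.2.2.2.2.2.2.2.2.2.2.2.2.2.2.2.2.2.2.2.2.2.2.1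
    (t4_two oH4 151 90 20 70 110 90 rfl rfl
    q4H4_4.2.2.2.2.2.2.2.2.2.2.2.2.2.2.2.2.2.2.2.2.2.2.2.2.2.2.2.2.2.2.2.2.2.2.2.2.2.2.2.2.2.2.2.2.2.2.2.2.2.2.1
    (t4_two oH4 151 110 17 53 127 70 rfl rfl
    q4H4_4.2.2.2.2.2.2.2.2.2.2.2.2.2.2.2.2.2.2.2.2.2.2.2.2.2.2.2.2.2.2.2.2.2.2.2.2.2.2.2.2.2.2.2.2.2.2.2.2.2.2.2.1
    (t4_two oH4 151 127 15 38 142 53 rfl rfl
    q4H4_4.2.2.2.2.2.2.2.2.2.2.2.2.2.2.2.2.2.2.2.2.2.2.2.2.2.2.2.2.2.2.2.2.2.2.2.2.2.2.2.2.2.2.2.2.2.2.2.2.2.2.2.2.1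
    (t4_two oH4 151 142 14 24 156 38 rfl rfl
    q4H4_4.2.2.2.2.2.2.2.2.2.2.2.2.2.2.2.2.2.2.2.2.2.2.2.2.2.2.2.2.2.2.2.2.2.2.2.2.2.2.2.2.2.2.2.2.2.2.2.2.2.2.2.2.2.1
    (t4_two oH4 151 156 12 12 168 24 rfl rfl
    q4H4_4.2.2.2.2.2.2.2.2.2.2.2.2.2.2.2.2.2.2.2.2.2.2.2.2.2.2.2.2.2.2.2.2.2.2.2.2.2.2.2.2.2.2.2.2.2.2.2.2.2.2.2.2.2.2.1
    q4H4_4.2.2.2.2.2.2.2.2.2.2.2.2.2.2.2.2.2.2.2.2.2.2.2.2.2.2.2.2.2.2.2.2.2.2.2.2.2.2.2.2.2.2.2.2.2.2.2.2.2.2.2.2.2.2.2.1)))))))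

theorem s4H4_151_180 : oH4.t4 151 180 24 = true :=
  (t4_two oH4 151 180 3 21 183 24 rfl rfl
    q4H4_4.2.2.2.2.2.2.2.2.2.2.2.2.2.2.2.2.2.2.2.2.2.2.2.2.2.2.2.2.2.2.2.2.2.2.2.2.2.2.2.2.2.2.2.2.2.2.2.2.2.2.2.2.2.2.2.2.1
    (t4_two oH4 151 183 3 18 186 21 rfl rfl
    q4H4_4.2.2.2.2.2.2.2.2.2.2.2.2.2.2.2.2.2.2.2.2.2.2.2.2.2.2.2.2.2.2.2.2.2.2.2.2.2.2.2.2.2.2.2.2.2.2.2.2.2.2.2.2.2.2.2.2.2.1
    (t4_two oH4 151 186 3 15 189 18 rfl rfl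
    q4H4_4.2.2.2.2.2.2.2.2.2.2.2.2.2.2.2.2.2.2.2.2.2.2.2.2.2.2.2.2.2.2.2.2.2.2.2.2.2.2.2.2.2.2.2.2.2.2.2.2.2.2.2.2.2.2.2.2.2.2.1
    (t4_two oH4 151 189 3 12 192 15 rfl rfl
    q4H4_4.2.2.2.2.2.2.2.2.2.2.2.2.2.2.2.2.2.2.2.2.2.2.2.2.2.2.2.2.2.2.2.2.2.2.2.2.2.2.2.2.2.2.2.2.2.2.2.2.2.2.2.2.2.2.2.2.2.2.2.1
    (t4_two oH4 151 192 3 9 195 12 rfl rfl
    q4H4_4.2.2.2.2.2.2.2.2.2.2.2.2.2.2.2.2.2.2.2.2.2.2.2.2.2.2.2.2.2.2.2.2.2.2.2.2.2.2.2.2.2.2.2.2.2.2.2.2.2.2.2.2.2.2.2.2.2.2.2.2.1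
    (t4_two oH4 151 195 3 6 198 9 rfl rfl
    q4H4_4.2.2.2.2.2.2.2.2.2.2.2.2.2.2.2.2.2.2.2.2.2.2.2.2.2.2.2.2.2.2.2.2.2.2.2.2.2.2.2.2.2.2.2.2.2.2.2.2.2.2.2.2.2.2.2.2.2.2.2.2.2.1
    (t4_two oH4 151 198 3 3 201 6 rfl rfl
    q4H4_4.2.2.2.2.2.2.2.2.2.2.2.2.2.2.2.2.2.2.2.2.2.2.2.2.2.2.2.2.2.2.2.2.2.2.2.2.2.2.2.2.2.2.2.2.2.2.2.2.2.2.2.2.2.2.2.2.2.2.2.2.2.2.1
    q4H4_4.2.2.2.2.2.2.2.2.2.2.2.2.2.2.2.2.2.2.2.2.2.2.2.2.2.2.2.2.2.2.2.2.2.2.2.2.2.2.2.2.2.2.2.2.2.2.2.2.2.2.2.2.2.2.2.2.2.2.2.2.2.2.2)))))))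

end Pool.Agent.H54.RG
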