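import Pool.Agent.H54.RG.OpsH4
import Pool.Agent.H54.RG.Spl

/-!
# Project RG (MP_35eb49): checks of the cubes of type H4
-/

set_option autoImplicit false
set_option maxRecDepth 100000
set_option maxHeartbeats 0

namespace Pool.Agent.H54.RG

open Pool.Agent.H54.RF

/-- The checks of this file. They are in one theorem, so that they are done one after the other. -/
theorem q4H4_6 :
    oH4.t4 166 191 2 = true ∧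
    oH4.t4 166 193 1 = true ∧
    oH4.t4 166 194 1 = true ∧
    oH4.t4 166 195 2 = true ∧
    oH4.t4 166 197 2 = true ∧
    oH4.t4 166 199 1 = true ∧
    oH4.t4 166 200 1 = true ∧
    oH4.t4 166 201 2 = true ∧
    oH4.t4 166 203 1 = true ∧
    oH4.t4 166 204 1 = true ∧
    oH4.t4 166 205 1 = true ∧
    oH4.t4 166 206 1 = true ∧
    oH4.t4 166 207 1 = true ∧
    oH4.t4 166 208 1 = true ∧
    oH4.t4 166 209 1 = true ∧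
    oH4.t4 166 210 2 = true ∧
    oH4.t4 166 212 2 = true ∧
    oH4.t4 166 214 1 = true ∧
    oH4.t4 166 215 2 = true ∧
    oH4.t4 166 217 2 = true ∧
    oH4.t4 166 219 1 = true ∧
    oH4.t4 166 220 2 = true ∧
    oH4.t4 166 222 2 = true ∧
    oH4.t4 166 224 2 = true ∧
    oH4.t4 166 226 2 = true ∧
    oH4.t4 166 228 1 = true ∧
    oH4.t4 166 229 2 = true ∧
    oH4.t4 166 231 2 = true ∧
    oH4.t4 166 233 1 = true ∧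
    oH4.t4 166 234 2 = true ∧
    oH4.t4 166 236 2 = true ∧
    oH4.t4 166 238 2 = true ∧
    oH4.t4 166 240 1 = true ∧
    oH4.t4 166 241 2 = true ∧
    oH4.t4 166 243 1 = true ∧
    oH4.t4 166 244 2 = true ∧
    oH4.t4 166 246 2 = true ∧
    oH4.t4 166 248 1 = true ∧
    oH4.t4 166 249 2 = true ∧
    oH4.t4 166 251 1 = true ∧
    oH4.t4 166 252 1 = true ∧
    oH4.t4 166 253 1 = true ∧
    oH4.t4 166 254 1 = true ∧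
    oH4.t4 166 255 1 = true ∧
    oH4.t4 166 256 1 = true ∧
    oH4.t4 166 257 1 = true ∧
    oH4.t4 166 258 1 = true ∧
    oH4.t4 166 259 1 = true ∧
    oH4.t4 166 260 1 = true ∧
    oH4.t4 166 261 1 = true ∧
    oH4.t4 166 262 1 = true ∧
    oH4.t4 166 263 1 = true ∧
    oH4.t4 166 264 1 = true := by
  refine ⟨?_, ?_, ?_, ?_, ?_, ?_, ?_, ?_, ?_, ?_, ?_, ?_, ?_, ?_, ?_, ?_, ?_, ?_, ?_, ?_,
    ?_, ?_, ?_, ?_, ?_, ?_, ?_, ?_, ?_, ?_, ?_, ?_, ?_, ?_, ?_, ?_, ?_, ?_, ?_, ?_,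
    ?_, ?_, ?_, ?_, ?_, ?_, ?_, ?_, ?_, ?_, ?_, ?_, ?_⟩
  · decide +kernel
  · decide +kernel
  · decide +kernel
  · decide +kernel
  · decide +kernel
  · decide +kernel
  · decide +kernel
  · decide +kernel
  · decide +kernel
  · decide +kernel
  · decide +kernel
  · decide +kernel
  · decide +kernel
  · decide +kernel
  · decide +kernel
  · decide +kernel
  · decide +kernel
  · decide +kernel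
  · decide +kernel
  · decide +kernel
  · decide +kernel
  · decide +kernel
  · decide +kernel
  · decide +kernel
  · decide +kernel
  · decide +kernel
  · decide +kernel
  · decide +kernel
  · decide +kernel
  · decide +kernel
  · decide +kernel
  · decide +kernel
  · decide +kernel
  · decide +kernel
  · decide +kernel
  · decide +kernel
  · decide +kernel
  · decide +kernel
  · decide +kernel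
  · decide +kernel
  · decide +kernel
  · decide +kernel
  · decide +kernel
  · decide +kernel
  · decide +kernel
  · decide +kernel
  · decide +kernel
  · decide +kernel
  · decide +kernel
  · decide +kernel
  · decide +kernel
  · decide +kernel
  · decide +kernel

theorem s4H4_166_191 : oH4.t4 166 191 12 = true :=
  (t4_two oH4 166 191 2 10 193 12 rfl rfl
    q4H4_6.1
    (t4_two oH4 166 193 1 9 194 10 rfl rfl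
    q4H4_6.2.1
    (t4_two oH4 166 194 1 8 195 9 rfl rfl
    q4H4_6.2.2.1
    (t4_two oH4 166 195 2 6 197 8 rfl rfl
    q4H4_6.2.2.2.1
    (t4_two oH4 166 197 2 4 199 6 rfl rfl
    q4H4_6.2.2.2.2.1
    (t4_two oH4 166 199 1 3 200 4 rfl rfl
    q4H4_6.2.2.2.2.2.1
    (t4_two oH4 166 200 1 2 201 3 rfl rfl
    q4H4_6.2.2.2.2.2.2.1
    q4H4_6.2.2.2.2.2.2.2.1)))))))

theorem s4H4_166_203 : oH4.t4 166 203 7 = true :=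
  (t4_two oH4 166 203 1 6 204 7 rfl rfl
    q4H4_6.2.2.2.2.2.2.2.2.1
    (t4_two oH4 166 204 1 5 205 6 rfl rfl
    q4H4_6.2.2.2.2.2.2.2.2.2.1
    (t4_two oH4 166 205 1 4 206 5 rfl rfl
    q4H4_6.2.2.2.2.2.2.2.2.2.2.1
    (t4_two oH4 166 206 1 3 207 4 rfl rfl
    q4H4_6.2.2.2.2.2.2.2.2.2.2.2.1
    (t4_two oH4 166 207 1 2 208 3 rfl rfl
    q4H4_6.2.2.2.2.2.2.2.2.2.2.2.2.1
    (t4_two oH4 166 208 1 1 209 2 rfl rfl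
    q4H4_6.2.2.2.2.2.2.2.2.2.2.2.2.2.1
    q4H4_6.2.2.2.2.2.2.2.2.2.2.2.2.2.2.1))))))

theorem s4H4_166_210 : oH4.t4 166 210 14 = true :=
  (t4_two oH4 166 210 2 12 212 14 rfl rfl
    q4H4_6.2.2.2.2.2.2.2.2.2.2.2.2.2.2.2.1
    (t4_two oH4 166 212 2 10 214 12 rfl rfl
    q4H4_6.2.2.2.2.2.2.2.2.2.2.2.2.2.2.2.2.1
    (t4_two oH4 166 214 1 9 215 10 rfl rfl
    q4H4_6.2.2.2.2.2.2.2.2.2.2.2.2.2.2.2.2.2.1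
    (t4_two oH4 166 215 2 7 217 9 rfl rfl
    q4H4_6.2.2.2.2.2.2.2.2.2.2.2.2.2.2.2.2.2.2.1
    (t4_two oH4 166 217 2 5 219 7 rfl rfl
    q4H4_6.2.2.2.2.2.2.2.2.2.2.2.2.2.2.2.2.2.2.2.1
    (t4_two oH4 166 219 1 4 220 5 rfl rfl
    q4H4_6.2.2.2.2.2.2.2.2.2.2.2.2.2.2.2.2.2.2.2.2.1
    (t4_two oH4 166 220 2 2 222 4 rfl rfl
    q4H4_6.2.2.2.2.2.2.2.2.2.2.2.2.2.2.2.2.2.2.2.2.2.1
    q4H4_6.2.2.2.2.2.2.2.2.2.2.2.2.2.2.2.2.2.2.2.2.2.2.1)))))))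

theorem s4H4_166_224 : oH4.t4 166 224 14 = true :=
  (t4_two oH4 166 224 2 12 226 14 rfl rfl
    q4H4_6.2.2.2.2.2.2.2.2.2.2.2.2.2.2.2.2.2.2.2.2.2.2.2.1
    (t4_two oH4 166 226 2 10 228 12 rfl rfl
    q4H4_6.2.2.2.2.2.2.2.2.2.2.2.2.2.2.2.2.2.2.2.2.2.2.2.2.1
    (t4_two oH4 166 228 1 9 229 10 rfl rfl
    q4H4_6.2.2.2.2.2.2.2.2.2.2.2.2.2.2.2.2.2.2.2.2.2.2.2.2.2.1
    (t4_two oH4 166 229 2 7 231 9 rfl rfl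
    q4H4_6.2.2.2.2.2.2.2.2.2.2.2.2.2.2.2.2.2.2.2.2.2.2.2.2.2.2.1
    (t4_two oH4 166 231 2 5 233 7 rfl rfl
    q4H4_6.2.2.2.2.2.2.2.2.2.2.2.2.2.2.2.2.2.2.2.2.2.2.2.2.2.2.2.1
    (t4_two oH4 166 233 1 4 234 5 rfl rfl
    q4H4_6.2.2.2.2.2.2.2.2.2.2.2.2.2.2.2.2.2.2.2.2.2.2.2.2.2.2.2.2.1
    (t4_two oH4 166 234 2 2 236 4 rfl rfl
    q4H4_6.2.2.2.2.2.2.2.2.2.2.2.2.2.2.2.2.2.2.2.2.2.2.2.2.2.2.2.2.2.1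
    q4H4_6.2.2.2.2.2.2.2.2.2.2.2.2.2.2.2.2.2.2.2.2.2.2.2.2.2.2.2.2.2.2.1)))))))

theorem s4H4_166_238 : oH4.t4 166 238 13 = true :=
  (t4_two oH4 166 238 2 11 240 13 rfl rfl
    q4H4_6.2.2.2.2.2.2.2.2.2.2.2.2.2.2.2.2.2.2.2.2.2.2.2.2.2.2.2.2.2.2.2.1
    (t4_two oH4 166 240 1 10 241 11 rfl rfl
    q4H4_6.2.2.2.2.2.2.2.2.2.2.2.2.2.2.2.2.2.2.2.2.2.2.2.2.2.2.2.2.2.2.2.2.1
    (t4_two oH4 166 241 2 8 243 10 rfl rfl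
    q4H4_6.2.2.2.2.2.2.2.2.2.2.2.2.2.2.2.2.2.2.2.2.2.2.2.2.2.2.2.2.2.2.2.2.2.1
    (t4_two oH4 166 243 1 7 244 8 rfl rfl
    q4H4_6.2.2.2.2.2.2.2.2.2.2.2.2.2.2.2.2.2.2.2.2.2.2.2.2.2.2.2.2.2.2.2.2.2.2.1
    (t4_two oH4 166 244 2 5 246 7 rfl rfl
    q4H4_6.2.2.2.2.2.2.2.2.2.2.2.2.2.2.2.2.2.2.2.2.2.2.2.2.2.2.2.2.2.2.2.2.2.2.2.1
    (t4_two oH4 166 246 2 3 248 5 rfl rfl
    q4H4_6.2.2.2.2.2.2.2.2.2.2.2.2.2.2.2.2.2.2.2.2.2.2.2.2.2.2.2.2.2.2.2.2.2.2.2.2.1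
    (t4_two oH4 166 248 1 2 249 3 rfl rfl
    q4H4_6.2.2.2.2.2.2.2.2.2.2.2.2.2.2.2.2.2.2.2.2.2.2.2.2.2.2.2.2.2.2.2.2.2.2.2.2.2.1
    q4H4_6.2.2.2.2.2.2.2.2.2.2.2.2.2.2.2.2.2.2.2.2.2.2.2.2.2.2.2.2.2.2.2.2.2.2.2.2.2.2.1)))))))

theorem s4H4_166_251 : oH4.t4 166 251 7 = true :=
  (t4_two oH4 166 251 1 6 252 7 rfl rfl
    q4H4_6.2.2.2.2.2.2.2.2.2.2.2.2.2.2.2.2.2.2.2.2.2.2.2.2.2.2.2.2.2.2.2.2.2.2.2.2.2.2.2.1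
    (t4_two oH4 166 252 1 5 253 6 rfl rfl
    q4H4_6.2.2.2.2.2.2.2.2.2.2.2.2.2.2.2.2.2.2.2.2.2.2.2.2.2.2.2.2.2.2.2.2.2.2.2.2.2.2.2.2.1
    (t4_two oH4 166 253 1 4 254 5 rfl rfl
    q4H4_6.2.2.2.2.2.2.2.2.2.2.2.2.2.2.2.2.2.2.2.2.2.2.2.2.2.2.2.2.2.2.2.2.2.2.2.2.2.2.2.2.2.1
    (t4_two oH4 166 254 1 3 255 4 rfl rfl
    q4H4_6.2.2.2.2.2.2.2.2.2.2.2.2.2.2.2.2.2.2.2.2.2.2.2.2.2.2.2.2.2.2.2.2.2.2.2.2.2.2.2.2.2.2.1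
    (t4_two oH4 166 255 1 2 256 3 rfl rfl
    q4H4_6.2.2.2.2.2.2.2.2.2.2.2.2.2.2.2.2.2.2.2.2.2.2.2.2.2.2.2.2.2.2.2.2.2.2.2.2.2.2.2.2.2.2.2.1
    (t4_two oH4 166 256 1 1 257 2 rfl rfl
    q4H4_6.2.2.2.2.2.2.2.2.2.2.2.2.2.2.2.2.2.2.2.2.2.2.2.2.2.2.2.2.2.2.2.2.2.2.2.2.2.2.2.2.2.2.2.2.1
    q4H4_6.2.2.2.2.2.2.2.2.2.2.2.2.2.2.2.2.2.2.2.2.2.2.2.2.2.2.2.2.2.2.2.2.2.2.2.2.2.2.2.2.2.2.2.2.2.1))))))

theorem s4H4_166_258 : oH4.t4 166 258 2 = true :=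
  (t4_two oH4 166 258 1 1 259 2 rfl rfl
    q4H4_6.2.2.2.2.2.2.2.2.2.2.2.2.2.2.2.2.2.2.2.2.2.2.2.2.2.2.2.2.2.2.2.2.2.2.2.2.2.2.2.2.2.2.2.2.2.2.1
    q4H4_6.2.2.2.2.2.2.2.2.2.2.2.2.2.2.2.2.2.2.2.2.2.2.2.2.2.2.2.2.2.2.2.2.2.2.2.2.2.2.2.2.2.2.2.2.2.2.2.1)

theorem s4H4_166_260 : oH4.t4 166 260 4 = true :=
  (t4_two oH4 166 260 1 3 261 4 rfl rfl
    q4H4_6.2.2.2.2.2.2.2.2.2.2.2.2.2.2.2.2.2.2.2.2.2.2.2.2.2.2.2.2.2.2.2.2.2.2.2.2.2.2.2.2.2.2.2.2.2.2.2.2.1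
    (t4_two oH4 166 261 1 2 262 3 rfl rfl
    q4H4_6.2.2.2.2.2.2.2.2.2.2.2.2.2.2.2.2.2.2.2.2.2.2.2.2.2.2.2.2.2.2.2.2.2.2.2.2.2.2.2.2.2.2.2.2.2.2.2.2.2.1
    (t4_two oH4 166 262 1 1 263 2 rfl rfl
    q4H4_6.2.2.2.2.2.2.2.2.2.2.2.2.2.2.2.2.2.2.2.2.2.2.2.2.2.2.2.2.2.2.2.2.2.2.2.2.2.2.2.2.2.2.2.2.2.2.2.2.2.2.1
    q4H4_6.2.2.2.2.2.2.2.2.2.2.2.2.2.2.2.2.2.2.2.2.2.2.2.2.2.2.2.2.2.2.2.2.2.2.2.2.2.2.2.2.2.2.2.2.2.2.2.2.2.2.2.1)))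

theorem s4H4_166_264 : oH4.t4 166 264 1 = true :=
  q4H4_6.2.2.2.2.2.2.2.2.2.2.2.2.2.2.2.2.2.2.2.2.2.2.2.2.2.2.2.2.2.2.2.2.2.2.2.2.2.2.2.2.2.2.2.2.2.2.2.2.2.2.2.2

end Pool.Agent.H54.RG
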