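import Pool.Agent.H54.RG.OpsH4
import Pool.Agent.H54.RG.Spl

/-!
# Project RG (MP_35eb49): checks of the cubes of type H4
-/

set_option autoImplicit false
set_option maxRecDepth 100000
set_option maxHeartbeats 0

namespace Pool.Agent.H54.RG

open Pool.Agent.H54.RF

/-- The checks of this file. They are in one theorem, so that they are done one after the other. -/
theorem q4H4_7 :
    oH4.t4 166 265 1 = true ∧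
    oH4.t4 166 266 1 = true ∧
    oH4.t4 166 267 1 = true ∧
    oH4.t4 166 268 2 = true ∧
    oH4.t4 166 270 1 = true ∧
    oH4.t4 166 271 2 = true ∧
    oH4.t4 166 273 1 = true ∧
    oH4.t4 166 274 1 = true ∧
    oH4.t4 166 275 2 = true ∧
    oH4.t4 166 277 1 = true ∧
    oH4.t4 181 0 74 = true ∧
    oH4.t4 181 74 30 = true ∧
    oH4.t4 181 104 23 = true ∧
    oH4.t4 181 127 20 = true ∧
    oH4.t4 181 147 17 = true ∧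
    oH4.t4 181 164 16 = true ∧
    oH4.t4 181 180 15 = true ∧
    oH4.t4 181 195 13 = true ∧
    oH4.t4 181 208 1 = true ∧
    oH4.t4 181 209 1 = true ∧
    oH4.t4 181 210 1 = true ∧
    oH4.t4 181 211 1 = true ∧
    oH4.t4 181 212 2 = true ∧
    oH4.t4 181 214 1 = true ∧
    oH4.t4 181 215 2 = true ∧
    oH4.t4 181 217 1 = true ∧
    oH4.t4 181 218 2 = true ∧
    oH4.t4 181 220 2 = true ∧
    oH4.t4 181 222 1 = true ∧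
    oH4.t4 181 223 2 = true ∧
    oH4.t4 181 225 1 = true ∧
    oH4.t4 181 226 1 = true ∧
    oH4.t4 181 227 2 = true ∧
    oH4.t4 181 229 1 = true ∧
    oH4.t4 181 230 1 = true ∧
    oH4.t4 181 231 2 = true ∧
    oH4.t4 181 233 2 = true ∧
    oH4.t4 181 235 1 = true ∧
    oH4.t4 181 236 1 = true ∧
    oH4.t4 181 237 2 = true := by
  refine ⟨?_, ?_, ?_, ?_, ?_, ?_, ?_, ?_, ?_, ?_, ?_, ?_, ?_, ?_, ?_, ?_, ?_, ?_, ?_, ?_,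
    ?_, ?_, ?_, ?_, ?_, ?_, ?_, ?_, ?_, ?_, ?_, ?_, ?_, ?_, ?_, ?_, ?_, ?_, ?_, ?_⟩
  · decide +kernel
  · decide +kernel
  · decide +kernel
  · decide +kernel
  · decide +kernel
  · decide +kernel
  · decide +kernel
  · decide +kernel
  · decide +kernel
  · decide +kernel
  · decide +kernel
  · decide +kernel
  · decide +kernel
  · decide +kernel
  · decide +kernel
  · decide +kernel
  · decide +kernel
  · decide +kernel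
  · decide +kernel
  · decide +kernel
  · decide +kernel
  · decide +kernel
  · decide +kernel
  · decide +kernel
  · decide +kernel
  · decide +kernel
  · decide +kernel
  · decide +kernel
  · decide +kernel
  · decide +kernel
  · decide +kernel
  · decide +kernel
  · decide +kernel
  · decide +kernel
  · decide +kernel
  · decide +kernel
  · decide +kernel
  · decide +kernel
  · decide +kernel
  · decide +kernel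

theorem s4H4_166_265 : oH4.t4 166 265 1 = true :=
  q4H4_7.1

theorem s4H4_166_266 : oH4.t4 166 266 1 = true :=
  q4H4_7.2.1

theorem s4H4_166_267 : oH4.t4 166 267 11 = true :=
  (t4_two oH4 166 267 1 10 268 11 rfl rfl
    q4H4_7.2.2.1
    (t4_two oH4 166 268 2 8 270 10 rfl rfl
    q4H4_7.2.2.2.1
    (t4_two oH4 166 270 1 7 271 8 rfl rfl
    q4H4_7.2.2.2.2.1
    (t4_two oH4 166 271 2 5 273 7 rfl rfl
    q4H4_7.2.2.2.2.2.1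
    (t4_two oH4 166 273 1 4 274 5 rfl rfl
    q4H4_7.2.2.2.2.2.2.1
    (t4_two oH4 166 274 1 3 275 4 rfl rfl
    q4H4_7.2.2.2.2.2.2.2.1
    (t4_two oH4 166 275 2 1 277 3 rfl rfl
    q4H4_7.2.2.2.2.2.2.2.2.1
    q4H4_7.2.2.2.2.2.2.2.2.2.1)))))))

theorem s4H4_181_0 : oH4.t4 181 0 208 = true :=
  (t4_two oH4 181 0 74 134 74 208 rfl rfl
    q4H4_7.2.2.2.2.2.2.2.2.2.2.1
    (t4_two oH4 181 74 30 104 104 134 rfl rfl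
    q4H4_7.2.2.2.2.2.2.2.2.2.2.2.1
    (t4_two oH4 181 104 23 81 127 104 rfl rfl
    q4H4_7.2.2.2.2.2.2.2.2.2.2.2.2.1
    (t4_two oH4 181 127 20 61 147 81 rfl rfl
    q4H4_7.2.2.2.2.2.2.2.2.2.2.2.2.2.1
    (t4_two oH4 181 147 17 44 164 61 rfl rfl
    q4H4_7.2.2.2.2.2.2.2.2.2.2.2.2.2.2.1
    (t4_two oH4 181 164 16 28 180 44 rfl rfl
    q4H4_7.2.2.2.2.2.2.2.2.2.2.2.2.2.2.2.1
    (t4_two oH4 181 180 15 13 195 28 rfl rfl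
    q4H4_7.2.2.2.2.2.2.2.2.2.2.2.2.2.2.2.2.1
    q4H4_7.2.2.2.2.2.2.2.2.2.2.2.2.2.2.2.2.2.1)))))))

theorem s4H4_181_208 : oH4.t4 181 208 4 = true :=
  (t4_two oH4 181 208 1 3 209 4 rfl rfl
    q4H4_7.2.2.2.2.2.2.2.2.2.2.2.2.2.2.2.2.2.2.1
    (t4_two oH4 181 209 1 2 210 3 rfl rfl
    q4H4_7.2.2.2.2.2.2.2.2.2.2.2.2.2.2.2.2.2.2.2.1
    (t4_two oH4 181 210 1 1 211 2 rfl rfl
    q4H4_7.2.2.2.2.2.2.2.2.2.2.2.2.2.2.2.2.2.2.2.2.1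
    q4H4_7.2.2.2.2.2.2.2.2.2.2.2.2.2.2.2.2.2.2.2.2.2.1)))

theorem s4H4_181_212 : oH4.t4 181 212 13 = true :=
  (t4_two oH4 181 212 2 11 214 13 rfl rfl
    q4H4_7.2.2.2.2.2.2.2.2.2.2.2.2.2.2.2.2.2.2.2.2.2.2.1
    (t4_two oH4 181 214 1 10 215 11 rfl rfl
    q4H4_7.2.2.2.2.2.2.2.2.2.2.2.2.2.2.2.2.2.2.2.2.2.2.2.1
    (t4_two oH4 181 215 2 8 217 10 rfl rfl
    q4H4_7.2.2.2.2.2.2.2.2.2.2.2.2.2.2.2.2.2.2.2.2.2.2.2.2.1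
    (t4_two oH4 181 217 1 7 218 8 rfl rfl
    q4H4_7.2.2.2.2.2.2.2.2.2.2.2.2.2.2.2.2.2.2.2.2.2.2.2.2.2.1
    (t4_two oH4 181 218 2 5 220 7 rfl rfl
    q4H4_7.2.2.2.2.2.2.2.2.2.2.2.2.2.2.2.2.2.2.2.2.2.2.2.2.2.2.1
    (t4_two oH4 181 220 2 3 222 5 rfl rfl
    q4H4_7.2.2.2.2.2.2.2.2.2.2.2.2.2.2.2.2.2.2.2.2.2.2.2.2.2.2.2.1
    (t4_two oH4 181 222 1 2 223 3 rfl rfl
    q4H4_7.2.2.2.2.2.2.2.2.2.2.2.2.2.2.2.2.2.2.2.2.2.2.2.2.2.2.2.2.1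
    q4H4_7.2.2.2.2.2.2.2.2.2.2.2.2.2.2.2.2.2.2.2.2.2.2.2.2.2.2.2.2.2.1)))))))

theorem s4H4_181_225 : oH4.t4 181 225 2 = true :=
  (t4_two oH4 181 225 1 1 226 2 rfl rfl
    q4H4_7.2.2.2.2.2.2.2.2.2.2.2.2.2.2.2.2.2.2.2.2.2.2.2.2.2.2.2.2.2.2.1
    q4H4_7.2.2.2.2.2.2.2.2.2.2.2.2.2.2.2.2.2.2.2.2.2.2.2.2.2.2.2.2.2.2.2.1)

theorem s4H4_181_227 : oH4.t4 181 227 12 = true :=
  (t4_two oH4 181 227 2 10 229 12 rfl rfl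
    q4H4_7.2.2.2.2.2.2.2.2.2.2.2.2.2.2.2.2.2.2.2.2.2.2.2.2.2.2.2.2.2.2.2.2.1
    (t4_two oH4 181 229 1 9 230 10 rfl rfl
    q4H4_7.2.2.2.2.2.2.2.2.2.2.2.2.2.2.2.2.2.2.2.2.2.2.2.2.2.2.2.2.2.2.2.2.2.1
    (t4_two oH4 181 230 1 8 231 9 rfl rfl
    q4H4_7.2.2.2.2.2.2.2.2.2.2.2.2.2.2.2.2.2.2.2.2.2.2.2.2.2.2.2.2.2.2.2.2.2.2.1
    (t4_two oH4 181 231 2 6 233 8 rfl rfl
    q4H4_7.2.2.2.2.2.2.2.2.2.2.2.2.2.2.2.2.2.2.2.2.2.2.2.2.2.2.2.2.2.2.2.2.2.2.2.1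
    (t4_two oH4 181 233 2 4 235 6 rfl rfl
    q4H4_7.2.2.2.2.2.2.2.2.2.2.2.2.2.2.2.2.2.2.2.2.2.2.2.2.2.2.2.2.2.2.2.2.2.2.2.2.1
    (t4_two oH4 181 235 1 3 236 4 rfl rfl
    q4H4_7.2.2.2.2.2.2.2.2.2.2.2.2.2.2.2.2.2.2.2.2.2.2.2.2.2.2.2.2.2.2.2.2.2.2.2.2.2.1
    (t4_two oH4 181 236 1 2 237 3 rfl rfl
    q4H4_7.2.2.2.2.2.2.2.2.2.2.2.2.2.2.2.2.2.2.2.2.2.2.2.2.2.2.2.2.2.2.2.2.2.2.2.2.2.2.1
    q4H4_7.2.2.2.2.2.2.2.2.2.2.2.2.2.2.2.2.2.2.2.2.2.2.2.2.2.2.2.2.2.2.2.2.2.2.2.2.2.2.2)))))))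

end Pool.Agent.H54.RG
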