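import Pool.Agent.H54.RG.OpsH4
import Pool.Agent.H54.RG.Spl

/-!
# Project RG (MP_35eb49): checks of the cubes of type H4
-/

set_option autoImplicit false
set_option maxRecDepth 100000
set_option maxHeartbeats 0

namespace Pool.Agent.H54.RG

open Pool.Agent.H54.RF

/-- The checks of this file. They are in one theorem, so that they are done one after the other. -/
theorem q4H4_8 :
    oH4.t4 181 239 2 = true ∧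
    oH4.t4 181 241 2 = true ∧
    oH4.t4 181 243 2 = true ∧
    oH4.t4 181 245 2 = true ∧
    oH4.t4 181 247 2 = true ∧
    oH4.t4 181 249 2 = true ∧
    oH4.t4 181 251 2 = true ∧
    oH4.t4 181 253 2 = true ∧
    oH4.t4 181 255 1 = true ∧
    oH4.t4 181 256 1 = true ∧
    oH4.t4 181 257 1 = true ∧
    oH4.t4 181 258 1 = true ∧
    oH4.t4 181 259 1 = true ∧
    oH4.t4 181 260 1 = true ∧
    oH4.t4 181 261 1 = true ∧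
    oH4.t4 181 262 1 = true ∧
    oH4.t4 181 263 1 = true ∧
    oH4.t4 181 264 2 = true ∧
    oH4.t4 181 266 2 = true ∧
    oH4.t4 181 268 1 = true ∧
    oH4.t4 181 269 2 = true ∧
    oH4.t4 181 271 2 = true ∧
    oH4.t4 181 273 1 = true ∧
    oH4.t4 181 274 2 = true ∧
    oH4.t4 181 276 2 = true ∧
    oH4.t4 196 0 75 = true ∧
    oH4.t4 196 75 31 = true ∧
    oH4.t4 196 106 24 = true ∧
    oH4.t4 196 130 21 = true ∧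
    oH4.t4 196 151 17 = true ∧
    oH4.t4 196 168 16 = true ∧
    oH4.t4 196 184 15 = true ∧
    oH4.t4 196 199 14 = true ∧
    oH4.t4 196 213 2 = true ∧
    oH4.t4 196 215 1 = true ∧
    oH4.t4 196 216 1 = true ∧
    oH4.t4 196 217 2 = true ∧
    oH4.t4 196 219 2 = true ∧
    oH4.t4 196 221 1 = true ∧
    oH4.t4 196 222 1 = true ∧
    oH4.t4 196 223 2 = true ∧
    oH4.t4 196 225 1 = true ∧
    oH4.t4 196 226 1 = true ∧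
    oH4.t4 196 227 1 = true ∧
    oH4.t4 196 228 1 = true := by
  refine ⟨?_, ?_, ?_, ?_, ?_, ?_, ?_, ?_, ?_, ?_, ?_, ?_, ?_, ?_, ?_, ?_, ?_, ?_, ?_, ?_,
    ?_, ?_, ?_, ?_, ?_, ?_, ?_, ?_, ?_, ?_, ?_, ?_, ?_, ?_, ?_, ?_, ?_, ?_, ?_, ?_,
    ?_, ?_, ?_, ?_, ?_⟩
  · decide +kernel
  · decide +kernel
  · decide +kernel
  · decide +kernel
  · decide +kernel
  · decide +kernel
  · decide +kernel
  · decide +kernel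
  · decide +kernel
  · decide +kernel
  · decide +kernel
  · decide +kernel
  · decide +kernel
  · decide +kernel
  · decide +kernel
  · decide +kernel
  · decide +kernel
  · decide +kernel
  · decide +kernel
  · decide +kernel
  · decide +kernel
  · decide +kernel
  · decide +kernel
  · decide +kernel
  · decide +kernel
  · decide +kernel
  · decide +kernel
  · decide +kernel
  · decide +kernel
  · decide +kernel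
  · decide +kernel
  · decide +kernel
  · decide +kernel
  · decide +kernel
  · decide +kernel
  · decide +kernel
  · decide +kernel
  · decide +kernel
  · decide +kernel
  · decide +kernel
  · decide +kernel
  · decide +kernel
  · decide +kernel
  · decide +kernel
  · decide +kernel

theorem s4H4_181_239 : oH4.t4 181 239 16 = true :=
  (t4_two oH4 181 239 2 14 241 16 rfl rfl
    q4H4_8.1
    (t4_two oH4 181 241 2 12 243 14 rfl rfl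
    q4H4_8.2.1
    (t4_two oH4 181 243 2 10 245 12 rfl rfl
    q4H4_8.2.2.1
    (t4_two oH4 181 245 2 8 247 10 rfl rfl
    q4H4_8.2.2.2.1
    (t4_two oH4 181 247 2 6 249 8 rfl rfl
    q4H4_8.2.2.2.2.1
    (t4_two oH4 181 249 2 4 251 6 rfl rfl
    q4H4_8.2.2.2.2.2.1
    (t4_two oH4 181 251 2 2 253 4 rfl rfl
    q4H4_8.2.2.2.2.2.2.1
    q4H4_8.2.2.2.2.2.2.2.1)))))))

theorem s4H4_181_255 : oH4.t4 181 255 3 = true :=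
  (t4_two oH4 181 255 1 2 256 3 rfl rfl
    q4H4_8.2.2.2.2.2.2.2.2.1
    (t4_two oH4 181 256 1 1 257 2 rfl rfl
    q4H4_8.2.2.2.2.2.2.2.2.2.1
    q4H4_8.2.2.2.2.2.2.2.2.2.2.1))

theorem s4H4_181_258 : oH4.t4 181 258 6 = true :=
  (t4_two oH4 181 258 1 5 259 6 rfl rfl
    q4H4_8.2.2.2.2.2.2.2.2.2.2.2.1
    (t4_two oH4 181 259 1 4 260 5 rfl rfl
    q4H4_8.2.2.2.2.2.2.2.2.2.2.2.2.1
    (t4_two oH4 181 260 1 3 261 4 rfl rfl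
    q4H4_8.2.2.2.2.2.2.2.2.2.2.2.2.2.1
    (t4_two oH4 181 261 1 2 262 3 rfl rfl
    q4H4_8.2.2.2.2.2.2.2.2.2.2.2.2.2.2.1
    (t4_two oH4 181 262 1 1 263 2 rfl rfl
    q4H4_8.2.2.2.2.2.2.2.2.2.2.2.2.2.2.2.1
    q4H4_8.2.2.2.2.2.2.2.2.2.2.2.2.2.2.2.2.1)))))

theorem s4H4_181_264 : oH4.t4 181 264 14 = true :=
  (t4_two oH4 181 264 2 12 266 14 rfl rfl
    q4H4_8.2.2.2.2.2.2.2.2.2.2.2.2.2.2.2.2.2.1
    (t4_two oH4 181 266 2 10 268 12 rfl rfl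
    q4H4_8.2.2.2.2.2.2.2.2.2.2.2.2.2.2.2.2.2.2.1
    (t4_two oH4 181 268 1 9 269 10 rfl rfl
    q4H4_8.2.2.2.2.2.2.2.2.2.2.2.2.2.2.2.2.2.2.2.1
    (t4_two oH4 181 269 2 7 271 9 rfl rfl
    q4H4_8.2.2.2.2.2.2.2.2.2.2.2.2.2.2.2.2.2.2.2.2.1
    (t4_two oH4 181 271 2 5 273 7 rfl rfl
    q4H4_8.2.2.2.2.2.2.2.2.2.2.2.2.2.2.2.2.2.2.2.2.2.1
    (t4_two oH4 181 273 1 4 274 5 rfl rfl
    q4H4_8.2.2.2.2.2.2.2.2.2.2.2.2.2.2.2.2.2.2.2.2.2.2.1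
    (t4_two oH4 181 274 2 2 276 4 rfl rfl
    q4H4_8.2.2.2.2.2.2.2.2.2.2.2.2.2.2.2.2.2.2.2.2.2.2.2.1
    q4H4_8.2.2.2.2.2.2.2.2.2.2.2.2.2.2.2.2.2.2.2.2.2.2.2.2.1)))))))

theorem s4H4_196_0 : oH4.t4 196 0 213 = true :=
  (t4_two oH4 196 0 75 138 75 213 rfl rfl
    q4H4_8.2.2.2.2.2.2.2.2.2.2.2.2.2.2.2.2.2.2.2.2.2.2.2.2.2.1
    (t4_two oH4 196 75 31 107 106 138 rfl rfl
    q4H4_8.2.2.2.2.2.2.2.2.2.2.2.2.2.2.2.2.2.2.2.2.2.2.2.2.2.2.1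
    (t4_two oH4 196 106 24 83 130 107 rfl rfl
    q4H4_8.2.2.2.2.2.2.2.2.2.2.2.2.2.2.2.2.2.2.2.2.2.2.2.2.2.2.2.1
    (t4_two oH4 196 130 21 62 151 83 rfl rfl
    q4H4_8.2.2.2.2.2.2.2.2.2.2.2.2.2.2.2.2.2.2.2.2.2.2.2.2.2.2.2.2.1
    (t4_two oH4 196 151 17 45 168 62 rfl rfl
    q4H4_8.2.2.2.2.2.2.2.2.2.2.2.2.2.2.2.2.2.2.2.2.2.2.2.2.2.2.2.2.2.1
    (t4_two oH4 196 168 16 29 184 45 rfl rfl
    q4H4_8.2.2.2.2.2.2.2.2.2.2.2.2.2.2.2.2.2.2.2.2.2.2.2.2.2.2.2.2.2.2.1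
    (t4_two oH4 196 184 15 14 199 29 rfl rfl
    q4H4_8.2.2.2.2.2.2.2.2.2.2.2.2.2.2.2.2.2.2.2.2.2.2.2.2.2.2.2.2.2.2.2.1
    q4H4_8.2.2.2.2.2.2.2.2.2.2.2.2.2.2.2.2.2.2.2.2.2.2.2.2.2.2.2.2.2.2.2.2.1)))))))

theorem s4H4_196_213 : oH4.t4 196 213 12 = true :=
  (t4_two oH4 196 213 2 10 215 12 rfl rfl
    q4H4_8.2.2.2.2.2.2.2.2.2.2.2.2.2.2.2.2.2.2.2.2.2.2.2.2.2.2.2.2.2.2.2.2.2.1
    (t4_two oH4 196 215 1 9 216 10 rfl rfl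
    q4H4_8.2.2.2.2.2.2.2.2.2.2.2.2.2.2.2.2.2.2.2.2.2.2.2.2.2.2.2.2.2.2.2.2.2.2.1
    (t4_two oH4 196 216 1 8 217 9 rfl rfl
    q4H4_8.2.2.2.2.2.2.2.2.2.2.2.2.2.2.2.2.2.2.2.2.2.2.2.2.2.2.2.2.2.2.2.2.2.2.2.1
    (t4_two oH4 196 217 2 6 219 8 rfl rfl
    q4H4_8.2.2.2.2.2.2.2.2.2.2.2.2.2.2.2.2.2.2.2.2.2.2.2.2.2.2.2.2.2.2.2.2.2.2.2.2.1
    (t4_two oH4 196 219 2 4 221 6 rfl rfl
    q4H4_8.2.2.2.2.2.2.2.2.2.2.2.2.2.2.2.2.2.2.2.2.2.2.2.2.2.2.2.2.2.2.2.2.2.2.2.2.2.1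
    (t4_two oH4 196 221 1 3 222 4 rfl rfl
    q4H4_8.2.2.2.2.2.2.2.2.2.2.2.2.2.2.2.2.2.2.2.2.2.2.2.2.2.2.2.2.2.2.2.2.2.2.2.2.2.2.1
    (t4_two oH4 196 222 1 2 223 3 rfl rfl
    q4H4_8.2.2.2.2.2.2.2.2.2.2.2.2.2.2.2.2.2.2.2.2.2.2.2.2.2.2.2.2.2.2.2.2.2.2.2.2.2.2.2.1
    q4H4_8.2.2.2.2.2.2.2.2.2.2.2.2.2.2.2.2.2.2.2.2.2.2.2.2.2.2.2.2.2.2.2.2.2.2.2.2.2.2.2.2.1)))))))

theorem s4H4_196_225 : oH4.t4 196 225 3 = true :=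
  (t4_two oH4 196 225 1 2 226 3 rfl rfl
    q4H4_8.2.2.2.2.2.2.2.2.2.2.2.2.2.2.2.2.2.2.2.2.2.2.2.2.2.2.2.2.2.2.2.2.2.2.2.2.2.2.2.2.2.1
    (t4_two oH4 196 226 1 1 227 2 rfl rfl
    q4H4_8.2.2.2.2.2.2.2.2.2.2.2.2.2.2.2.2.2.2.2.2.2.2.2.2.2.2.2.2.2.2.2.2.2.2.2.2.2.2.2.2.2.2.1
    q4H4_8.2.2.2.2.2.2.2.2.2.2.2.2.2.2.2.2.2.2.2.2.2.2.2.2.2.2.2.2.2.2.2.2.2.2.2.2.2.2.2.2.2.2.2.1))

theorem s4H4_196_228 : oH4.t4 196 228 1 = true :=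
  q4H4_8.2.2.2.2.2.2.2.2.2.2.2.2.2.2.2.2.2.2.2.2.2.2.2.2.2.2.2.2.2.2.2.2.2.2.2.2.2.2.2.2.2.2.2.2

end Pool.Agent.H54.RG
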