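import Pool.Agent.H54.RG.OpsH4
import Pool.Agent.H54.RG.Spl

/-!
# Project RG (MP_35eb49): checks of the cubes of type H4
-/

set_option autoImplicit false
set_option maxRecDepth 100000
set_option maxHeartbeats 0

namespace Pool.Agent.H54.RG

open Pool.Agent.H54.RF

/-- The checks of this file. They are in one theorem, so that they are done one after the other. -/
theorem q4H4_9 :
    oH4.t4 196 229 1 = true ∧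
    oH4.t4 196 230 2 = true ∧
    oH4.t4 196 232 1 = true ∧
    oH4.t4 196 233 2 = true ∧
    oH4.t4 196 235 1 = true ∧
    oH4.t4 196 236 1 = true ∧
    oH4.t4 196 237 2 = true ∧
    oH4.t4 196 239 1 = true ∧
    oH4.t4 196 240 1 = true ∧
    oH4.t4 196 241 1 = true ∧
    oH4.t4 196 242 1 = true ∧
    oH4.t4 196 243 1 = true ∧
    oH4.t4 196 244 1 = true ∧
    oH4.t4 196 245 2 = true ∧
    oH4.t4 196 247 1 = true ∧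
    oH4.t4 196 248 1 = true ∧
    oH4.t4 196 249 2 = true ∧
    oH4.t4 196 251 1 = true ∧
    oH4.t4 196 252 1 = true ∧
    oH4.t4 196 253 1 = true ∧
    oH4.t4 196 254 1 = true ∧
    oH4.t4 196 255 1 = true ∧
    oH4.t4 196 256 1 = true ∧
    oH4.t4 196 257 1 = true ∧
    oH4.t4 196 258 1 = true ∧
    oH4.t4 196 259 1 = true ∧
    oH4.t4 196 260 1 = true ∧
    oH4.t4 196 261 1 = true ∧
    oH4.t4 196 262 1 = true ∧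
    oH4.t4 196 263 1 = true ∧
    oH4.t4 196 264 1 = true ∧
    oH4.t4 196 265 2 = true ∧
    oH4.t4 196 267 1 = true ∧
    oH4.t4 196 268 2 = true ∧
    oH4.t4 196 270 1 = true ∧
    oH4.t4 196 271 2 = true ∧
    oH4.t4 196 273 2 = true ∧
    oH4.t4 196 275 1 = true ∧
    oH4.t4 196 276 2 = true ∧
    oH4.t4 211 0 80 = true ∧
    oH4.t4 211 80 33 = true ∧
    oH4.t4 211 113 25 = true ∧
    oH4.t4 211 138 22 = true ∧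
    oH4.t4 211 160 19 = true ∧
    oH4.t4 211 179 17 = true ∧
    oH4.t4 211 196 15 = true ∧
    oH4.t4 211 211 15 = true := by
  refine ⟨?_, ?_, ?_, ?_, ?_, ?_, ?_, ?_, ?_, ?_, ?_, ?_, ?_, ?_, ?_, ?_, ?_, ?_, ?_, ?_,
    ?_, ?_, ?_, ?_, ?_, ?_, ?_, ?_, ?_, ?_, ?_, ?_, ?_, ?_, ?_, ?_, ?_, ?_, ?_, ?_,
    ?_, ?_, ?_, ?_, ?_, ?_, ?_⟩
  · decide +kernel
  · decide +kernel
  · decide +kernel
  · decide +kernel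
  · decide +kernel
  · decide +kernel
  · decide +kernel
  · decide +kernel
  · decide +kernel
  · decide +kernel
  · decide +kernel
  · decide +kernel
  · decide +kernel
  · decide +kernel
  · decide +kernel
  · decide +kernel
  · decide +kernel
  · decide +kernel
  · decide +kernel
  · decide +kernel
  · decide +kernel
  · decide +kernel
  · decide +kernel
  · decide +kernel
  · decide +kernel
  · decide +kernel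
  · decide +kernel
  · decide +kernel
  · decide +kernel
  · decide +kernel
  · decide +kernel
  · decide +kernel
  · decide +kernel
  · decide +kernel
  · decide +kernel
  · decide +kernel
  · decide +kernel
  · decide +kernel
  · decide +kernel
  · decide +kernel
  · decide +kernel
  · decide +kernel
  · decide +kernel
  · decide +kernel
  · decide +kernel
  · decide +kernel
  · decide +kernel

theorem s4H4_196_229 : oH4.t4 196 229 11 = true :=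
  (t4_two oH4 196 229 1 10 230 11 rfl rfl
    q4H4_9.1
    (t4_two oH4 196 230 2 8 232 10 rfl rfl
    q4H4_9.2.1
    (t4_two oH4 196 232 1 7 233 8 rfl rfl
    q4H4_9.2.2.1
    (t4_two oH4 196 233 2 5 235 7 rfl rfl
    q4H4_9.2.2.2.1
    (t4_two oH4 196 235 1 4 236 5 rfl rfl
    q4H4_9.2.2.2.2.1
    (t4_two oH4 196 236 1 3 237 4 rfl rfl
    q4H4_9.2.2.2.2.2.1
    (t4_two oH4 196 237 2 1 239 3 rfl rfl
    q4H4_9.2.2.2.2.2.2.1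
    q4H4_9.2.2.2.2.2.2.2.1)))))))

theorem s4H4_196_240 : oH4.t4 196 240 3 = true :=
  (t4_two oH4 196 240 1 2 241 3 rfl rfl
    q4H4_9.2.2.2.2.2.2.2.2.1
    (t4_two oH4 196 241 1 1 242 2 rfl rfl
    q4H4_9.2.2.2.2.2.2.2.2.2.1
    q4H4_9.2.2.2.2.2.2.2.2.2.2.1))

theorem s4H4_196_243 : oH4.t4 196 243 10 = true :=
  (t4_two oH4 196 243 1 9 244 10 rfl rfl
    q4H4_9.2.2.2.2.2.2.2.2.2.2.2.1
    (t4_two oH4 196 244 1 8 245 9 rfl rfl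
    q4H4_9.2.2.2.2.2.2.2.2.2.2.2.2.1
    (t4_two oH4 196 245 2 6 247 8 rfl rfl
    q4H4_9.2.2.2.2.2.2.2.2.2.2.2.2.2.1
    (t4_two oH4 196 247 1 5 248 6 rfl rfl
    q4H4_9.2.2.2.2.2.2.2.2.2.2.2.2.2.2.1
    (t4_two oH4 196 248 1 4 249 5 rfl rfl
    q4H4_9.2.2.2.2.2.2.2.2.2.2.2.2.2.2.2.1
    (t4_two oH4 196 249 2 2 251 4 rfl rfl
    q4H4_9.2.2.2.2.2.2.2.2.2.2.2.2.2.2.2.2.1
    (t4_two oH4 196 251 1 1 252 2 rfl rfl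
    q4H4_9.2.2.2.2.2.2.2.2.2.2.2.2.2.2.2.2.2.1
    q4H4_9.2.2.2.2.2.2.2.2.2.2.2.2.2.2.2.2.2.2.1)))))))

theorem s4H4_196_253 : oH4.t4 196 253 4 = true :=
  (t4_two oH4 196 253 1 3 254 4 rfl rfl
    q4H4_9.2.2.2.2.2.2.2.2.2.2.2.2.2.2.2.2.2.2.2.1
    (t4_two oH4 196 254 1 2 255 3 rfl rfl
    q4H4_9.2.2.2.2.2.2.2.2.2.2.2.2.2.2.2.2.2.2.2.2.1
    (t4_two oH4 196 255 1 1 256 2 rfl rfl
    q4H4_9.2.2.2.2.2.2.2.2.2.2.2.2.2.2.2.2.2.2.2.2.2.1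
    q4H4_9.2.2.2.2.2.2.2.2.2.2.2.2.2.2.2.2.2.2.2.2.2.2.1)))

theorem s4H4_196_257 : oH4.t4 196 257 1 = true :=
  q4H4_9.2.2.2.2.2.2.2.2.2.2.2.2.2.2.2.2.2.2.2.2.2.2.2.1

theorem s4H4_196_258 : oH4.t4 196 258 3 = true :=
  (t4_two oH4 196 258 1 2 259 3 rfl rfl
    q4H4_9.2.2.2.2.2.2.2.2.2.2.2.2.2.2.2.2.2.2.2.2.2.2.2.2.1
    (t4_two oH4 196 259 1 1 260 2 rfl rfl
    q4H4_9.2.2.2.2.2.2.2.2.2.2.2.2.2.2.2.2.2.2.2.2.2.2.2.2.2.1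
    q4H4_9.2.2.2.2.2.2.2.2.2.2.2.2.2.2.2.2.2.2.2.2.2.2.2.2.2.2.1))

theorem s4H4_196_261 : oH4.t4 196 261 4 = true :=
  (t4_two oH4 196 261 1 3 262 4 rfl rfl
    q4H4_9.2.2.2.2.2.2.2.2.2.2.2.2.2.2.2.2.2.2.2.2.2.2.2.2.2.2.2.1
    (t4_two oH4 196 262 1 2 263 3 rfl rfl
    q4H4_9.2.2.2.2.2.2.2.2.2.2.2.2.2.2.2.2.2.2.2.2.2.2.2.2.2.2.2.2.1
    (t4_two oH4 196 263 1 1 264 2 rfl rfl
    q4H4_9.2.2.2.2.2.2.2.2.2.2.2.2.2.2.2.2.2.2.2.2.2.2.2.2.2.2.2.2.2.1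
    q4H4_9.2.2.2.2.2.2.2.2.2.2.2.2.2.2.2.2.2.2.2.2.2.2.2.2.2.2.2.2.2.2.1)))

theorem s4H4_196_265 : oH4.t4 196 265 13 = true :=
  (t4_two oH4 196 265 2 11 267 13 rfl rfl
    q4H4_9.2.2.2.2.2.2.2.2.2.2.2.2.2.2.2.2.2.2.2.2.2.2.2.2.2.2.2.2.2.2.2.1
    (t4_two oH4 196 267 1 10 268 11 rfl rfl
    q4H4_9.2.2.2.2.2.2.2.2.2.2.2.2.2.2.2.2.2.2.2.2.2.2.2.2.2.2.2.2.2.2.2.2.1
    (t4_two oH4 196 268 2 8 270 10 rfl rfl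
    q4H4_9.2.2.2.2.2.2.2.2.2.2.2.2.2.2.2.2.2.2.2.2.2.2.2.2.2.2.2.2.2.2.2.2.2.1
    (t4_two oH4 196 270 1 7 271 8 rfl rfl
    q4H4_9.2.2.2.2.2.2.2.2.2.2.2.2.2.2.2.2.2.2.2.2.2.2.2.2.2.2.2.2.2.2.2.2.2.2.1
    (t4_two oH4 196 271 2 5 273 7 rfl rfl
    q4H4_9.2.2.2.2.2.2.2.2.2.2.2.2.2.2.2.2.2.2.2.2.2.2.2.2.2.2.2.2.2.2.2.2.2.2.2.1
    (t4_two oH4 196 273 2 3 275 5 rfl rfl
    q4H4_9.2.2.2.2.2.2.2.2.2.2.2.2.2.2.2.2.2.2.2.2.2.2.2.2.2.2.2.2.2.2.2.2.2.2.2.2.1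
    (t4_two oH4 196 275 1 2 276 3 rfl rfl
    q4H4_9.2.2.2.2.2.2.2.2.2.2.2.2.2.2.2.2.2.2.2.2.2.2.2.2.2.2.2.2.2.2.2.2.2.2.2.2.2.1
    q4H4_9.2.2.2.2.2.2.2.2.2.2.2.2.2.2.2.2.2.2.2.2.2.2.2.2.2.2.2.2.2.2.2.2.2.2.2.2.2.2.1)))))))

theorem s4H4_211_0 : oH4.t4 211 0 226 = true :=
  (t4_two oH4 211 0 80 146 80 226 rfl rfl
    q4H4_9.2.2.2.2.2.2.2.2.2.2.2.2.2.2.2.2.2.2.2.2.2.2.2.2.2.2.2.2.2.2.2.2.2.2.2.2.2.2.2.1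
    (t4_two oH4 211 80 33 113 113 146 rfl rfl
    q4H4_9.2.2.2.2.2.2.2.2.2.2.2.2.2.2.2.2.2.2.2.2.2.2.2.2.2.2.2.2.2.2.2.2.2.2.2.2.2.2.2.2.1
    (t4_two oH4 211 113 25 88 138 113 rfl rfl
    q4H4_9.2.2.2.2.2.2.2.2.2.2.2.2.2.2.2.2.2.2.2.2.2.2.2.2.2.2.2.2.2.2.2.2.2.2.2.2.2.2.2.2.2.1
    (t4_two oH4 211 138 22 66 160 88 rfl rfl
    q4H4_9.2.2.2.2.2.2.2.2.2.2.2.2.2.2.2.2.2.2.2.2.2.2.2.2.2.2.2.2.2.2.2.2.2.2.2.2.2.2.2.2.2.2.1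
    (t4_two oH4 211 160 19 47 179 66 rfl rfl
    q4H4_9.2.2.2.2.2.2.2.2.2.2.2.2.2.2.2.2.2.2.2.2.2.2.2.2.2.2.2.2.2.2.2.2.2.2.2.2.2.2.2.2.2.2.2.1
    (t4_two oH4 211 179 17 30 196 47 rfl rfl
    q4H4_9.2.2.2.2.2.2.2.2.2.2.2.2.2.2.2.2.2.2.2.2.2.2.2.2.2.2.2.2.2.2.2.2.2.2.2.2.2.2.2.2.2.2.2.2.1
    (t4_two oH4 211 196 15 15 211 30 rfl rfl
    q4H4_9.2.2.2.2.2.2.2.2.2.2.2.2.2.2.2.2.2.2.2.2.2.2.2.2.2.2.2.2.2.2.2.2.2.2.2.2.2.2.2.2.2.2.2.2.2.1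
    q4H4_9.2.2.2.2.2.2.2.2.2.2.2.2.2.2.2.2.2.2.2.2.2.2.2.2.2.2.2.2.2.2.2.2.2.2.2.2.2.2.2.2.2.2.2.2.2.2)))))))

end Pool.Agent.H54.RG
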