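import Pool.Agent.H54.RG.AsmL
import Pool.Agent.H54.RG.TstG
import Pool.Agent.H54.RG.CaH4
import Pool.Agent.H54.RG.CbH4
import Pool.Agent.H54.RG.CkH4
import Pool.Agent.H54.RG.S3H4_0
import Pool.Agent.H54.RG.S3H4_1
import Pool.Agent.H54.RG.S3H4_2
import Pool.Agent.H54.RG.S3H4_3
import Pool.Agent.H54.RG.S3H4_4
import Pool.Agent.H54.RG.S4H4_0
import Pool.Agent.H54.RG.S4H4_1
import Pool.Agent.H54.RG.S4H4_2
import Pool.Agent.H54.RG.S4H4_3
import Pool.Agent.H54.RG.S4H4_4
import Pool.Agent.H54.RG.S4H4_5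
import Pool.Agent.H54.RG.S4H4_6
import Pool.Agent.H54.RG.S4H4_7
import Pool.Agent.H54.RG.S4H4_8
import Pool.Agent.H54.RG.S4H4_9
import Pool.Agent.H54.RG.S4H4_10
import Pool.Agent.H54.RG.S4H4_11
import Pool.Agent.H54.RG.S4H4_12
import Pool.Agent.H54.RG.S4H4_13

/-!
# Project RG (MP_35eb49): result of type H4
-/

set_option autoImplicit false
set_option maxHeartbeats 0
set_option maxRecDepth 100000

namespace Pool.Agent.H54.RG

open Pool.Agent.H54.RF

theorem ck3H4 : Ck3 oH4 rH4 := by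
  intro X0 hX X1 h1 h2
  have h3 : X1 < 279 := h2
  simp only [rH4, List.mem_cons, List.not_mem_nil, or_false] at hX
  rcases hX with rfl | rfl | rfl | rfl | rfl | rfl | rfl | rfl | rfl | rfl | rfl | rfl | rfl | rfl | rfl | rfl | rfl | rfl | rfl | rfl
  · rcases Nat.lt_or_ge 192 X1 with h5 | h5
    swap
    · exact Ops.t3_spec _ s3H4_1_0 X1 (by omega) (by omega)
    rcases Nat.lt_or_ge 252 X1 with h5 | h5
    swap
    · exact Ops.t3_spec _ s3H4_1_192 X1 (by omega) (by omega)
    exact Ops.t3_spec _ s3H4_1_252 X1 (by omega) (by omega)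
  · rcases Nat.lt_or_ge 193 X1 with h5 | h5
    swap
    · exact Ops.t3_spec _ s3H4_16_0 X1 (by omega) (by omega)
    exact Ops.t3_spec _ s3H4_16_193 X1 (by omega) (by omega)
  · rcases Nat.lt_or_ge 164 X1 with h5 | h5
    swap
    · exact Ops.t3_spec _ s3H4_31_0 X1 (by omega) (by omega)
    rcases Nat.lt_or_ge 207 X1 with h5 | h5
    swap
    · exact Ops.t3_spec _ s3H4_31_164 X1 (by omega) (by omega)
    rcases Nat.lt_or_ge 267 X1 with h5 | h5
    swap
    · exact Ops.t3_spec _ s3H4_31_207 X1 (by omega) (by omega)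
    exact Ops.t3_spec _ s3H4_31_267 X1 (by omega) (by omega)
  · rcases Nat.lt_or_ge 120 X1 with h5 | h5
    swap
    · exact Ops.t3_spec _ s3H4_46_0 X1 (by omega) (by omega)
    rcases Nat.lt_or_ge 164 X1 with h5 | h5
    swap
    · exact Ops.t3_spec _ s3H4_46_120 X1 (by omega) (by omega)
    rcases Nat.lt_or_ge 178 X1 with h5 | h5
    swap
    · exact Ops.t3_spec _ s3H4_46_164 X1 (by omega) (by omega)
    rcases Nat.lt_or_ge 180 X1 with h5 | h5
    swap
    · exact Ops.t3_spec _ s3H4_46_178 X1 (by omega) (by omega)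
    rcases Nat.lt_or_ge 195 X1 with h5 | h5
    swap
    · exact Ops.t3_spec _ s3H4_46_180 X1 (by omega) (by omega)
    rcases Nat.lt_or_ge 203 X1 with h5 | h5
    swap
    · exact Ops.t3_spec _ s3H4_46_195 X1 (by omega) (by omega)
    rcases Nat.lt_or_ge 224 X1 with h5 | h5
    swap
    · exact Ops.t3_spec _ s3H4_46_203 X1 (by omega) (by omega)
    rcases Nat.lt_or_ge 239 X1 with h5 | h5
    swap
    · exact Ops.t3_spec _ s3H4_46_224 X1 (by omega) (by omega)
    rcases Nat.lt_or_ge 251 X1 with h5 | h5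
    swap
    · exact Ops.t3_spec _ s3H4_46_239 X1 (by omega) (by omega)
    rcases Nat.lt_or_ge 255 X1 with h5 | h5
    swap
    · exact Ops.t3_spec _ s3H4_46_251 X1 (by omega) (by omega)
    rcases Nat.lt_or_ge 258 X1 with h5 | h5
    swap
    · exact Ops.t3_spec _ s3H4_46_255 X1 (by omega) (by omega)
    rcases Nat.lt_or_ge 261 X1 with h5 | h5
    swap
    · exact Ops.t3_spec _ s3H4_46_258 X1 (by omega) (by omega)
    rcases Nat.lt_or_ge 263 X1 with h5 | h5
    swap
    · exact Ops.t3_spec _ s3H4_46_261 X1 (by omega) (by omega)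
    rcases Nat.lt_or_ge 267 X1 with h5 | h5
    swap
    · exact Ops.t3_spec _ s3H4_46_263 X1 (by omega) (by omega)
    rcases Nat.lt_or_ge 270 X1 with h5 | h5
    swap
    · exact Ops.t3_spec _ s3H4_46_267 X1 (by omega) (by omega)
    rcases Nat.lt_or_ge 271 X1 with h5 | h5
    swap
    · exact Ops.t3_spec _ s3H4_46_270 X1 (by omega) (by omega)
    exact Ops.t3_spec _ s3H4_46_271 X1 (by omega) (by omega)
  · exact Ops.t3_spec _ s3H4_61_0 X1 (by omega) (by omega)
  · exact Ops.t3_spec _ s3H4_76_0 X1 (by omega) (by omega)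
  · exact Ops.t3_spec _ s3H4_91_0 X1 (by omega) (by omega)
  · exact Ops.t3_spec _ s3H4_106_0 X1 (by omega) (by omega)
  · exact Ops.t3_spec _ s3H4_121_0 X1 (by omega) (by omega)
  · exact Ops.t3_spec _ s3H4_136_0 X1 (by omega) (by omega)
  · rcases Nat.lt_or_ge 264 X1 with h5 | h5
    swap
    · exact Ops.t3_spec _ s3H4_151_0 X1 (by omega) (by omega)
    exact Ops.t3_spec _ s3H4_151_264 X1 (by omega) (by omega)
  · rcases Nat.lt_or_ge 255 X1 with h5 | h5
    swap
    · exact Ops.t3_spec _ s3H4_166_0 X1 (by omega) (by omega)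
    exact Ops.t3_spec _ s3H4_166_255 X1 (by omega) (by omega)
  · exact Ops.t3_spec _ s3H4_181_0 X1 (by omega) (by omega)
  · exact Ops.t3_spec _ s3H4_196_0 X1 (by omega) (by omega)
  · exact Ops.t3_spec _ s3H4_211_0 X1 (by omega) (by omega)
  · exact Ops.t3_spec _ s3H4_226_0 X1 (by omega) (by omega)
  · exact Ops.t3_spec _ s3H4_241_0 X1 (by omega) (by omega)
  · exact Ops.t3_spec _ s3H4_256_0 X1 (by omega) (by omega)
  · rcases Nat.lt_or_ge 270 X1 with h5 | h5
    swap
    · exact Ops.t3_spec _ s3H4_271_0 X1 (by omega) (by omega)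
    exact Ops.t3_spec _ s3H4_271_270 X1 (by omega) (by omega)
  · rcases Nat.lt_or_ge 264 X1 with h5 | h5
    swap
    · exact Ops.t3_spec _ s3H4_276_0 X1 (by omega) (by omega)
    exact Ops.t3_spec _ s3H4_276_264 X1 (by omega) (by omega)

theorem ck4H4 : Ck4 oH4 rH4 := by
  intro X0 hX X1 h1 h2 h4
  have h3 : X1 < 279 := h2
  simp only [rH4, List.mem_cons, List.not_mem_nil, or_false] at hX
  rcases hX with rfl | rfl | rfl | rfl | rfl | rfl | rfl | rfl | rfl | rfl | rfl | rfl | rfl | rfl | rfl | rfl | rfl | rfl | rfl | rfl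
  · exact Ops.t4_spec _ s4H4_1_0 X1 (by omega) (by omega) h4
  · exact Ops.t4_spec _ s4H4_16_0 X1 (by omega) (by omega) h4
  · exact Ops.t4_spec _ s4H4_31_0 X1 (by omega) (by omega) h4
  · exact Ops.t4_spec _ s4H4_46_0 X1 (by omega) (by omega) h4
  · rcases Nat.lt_or_ge 207 X1 with h5 | h5
    swap
    · exact Ops.t4_spec _ s4H4_61_0 X1 (by omega) (by omega) h4
    rcases Nat.lt_or_ge 263 X1 with h5 | h5
    swap
    · exact Ops.t4_spec _ s4H4_61_207 X1 (by omega) (by omega) h4
    exact Ops.t4_spec _ s4H4_61_263 X1 (by omega) (by omega) h4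
  · rcases Nat.lt_or_ge 150 X1 with h5 | h5
    swap
    · exact Ops.t4_spec _ s4H4_76_0 X1 (by omega) (by omega) h4
    rcases Nat.lt_or_ge 193 X1 with h5 | h5
    swap
    · exact Ops.t4_spec _ s4H4_76_150 X1 (by omega) (by omega) h4
    rcases Nat.lt_or_ge 225 X1 with h5 | h5
    swap
    · exact Ops.t4_spec _ s4H4_76_193 X1 (by omega) (by omega) h4
    rcases Nat.lt_or_ge 239 X1 with h5 | h5
    swap
    · exact Ops.t4_spec _ s4H4_76_225 X1 (by omega) (by omega) h4
    rcases Nat.lt_or_ge 252 X1 with h5 | h5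
    swap
    · exact Ops.t4_spec _ s4H4_76_239 X1 (by omega) (by omega) h4
    rcases Nat.lt_or_ge 265 X1 with h5 | h5
    swap
    · exact Ops.t4_spec _ s4H4_76_252 X1 (by omega) (by omega) h4
    exact Ops.t4_spec _ s4H4_76_265 X1 (by omega) (by omega) h4
  · rcases Nat.lt_or_ge 165 X1 with h5 | h5
    swap
    · exact Ops.t4_spec _ s4H4_91_0 X1 (by omega) (by omega) h4
    rcases Nat.lt_or_ge 193 X1 with h5 | h5
    swap
    · exact Ops.t4_spec _ s4H4_91_165 X1 (by omega) (by omega) h4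
    rcases Nat.lt_or_ge 225 X1 with h5 | h5
    swap
    · exact Ops.t4_spec _ s4H4_91_193 X1 (by omega) (by omega) h4
    rcases Nat.lt_or_ge 239 X1 with h5 | h5
    swap
    · exact Ops.t4_spec _ s4H4_91_225 X1 (by omega) (by omega) h4
    rcases Nat.lt_or_ge 254 X1 with h5 | h5
    swap
    · exact Ops.t4_spec _ s4H4_91_239 X1 (by omega) (by omega) h4
    rcases Nat.lt_or_ge 263 X1 with h5 | h5
    swap
    · exact Ops.t4_spec _ s4H4_91_254 X1 (by omega) (by omega) h4
    rcases Nat.lt_or_ge 265 X1 with h5 | h5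
    swap
    · exact Ops.t4_spec _ s4H4_91_263 X1 (by omega) (by omega) h4
    exact Ops.t4_spec _ s4H4_91_265 X1 (by omega) (by omega) h4
  · rcases Nat.lt_or_ge 165 X1 with h5 | h5
    swap
    · exact Ops.t4_spec _ s4H4_106_0 X1 (by omega) (by omega) h4
    rcases Nat.lt_or_ge 210 X1 with h5 | h5
    swap
    · exact Ops.t4_spec _ s4H4_106_165 X1 (by omega) (by omega) h4
    rcases Nat.lt_or_ge 225 X1 with h5 | h5
    swap
    · exact Ops.t4_spec _ s4H4_106_210 X1 (by omega) (by omega) h4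
    rcases Nat.lt_or_ge 251 X1 with h5 | h5
    swap
    · exact Ops.t4_spec _ s4H4_106_225 X1 (by omega) (by omega) h4
    rcases Nat.lt_or_ge 263 X1 with h5 | h5
    swap
    · exact Ops.t4_spec _ s4H4_106_251 X1 (by omega) (by omega) h4
    rcases Nat.lt_or_ge 265 X1 with h5 | h5
    swap
    · exact Ops.t4_spec _ s4H4_106_263 X1 (by omega) (by omega) h4
    exact Ops.t4_spec _ s4H4_106_265 X1 (by omega) (by omega) h4
  · rcases Nat.lt_or_ge 151 X1 with h5 | h5
    swap
    · exact Ops.t4_spec _ s4H4_121_0 X1 (by omega) (by omega) h4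
    rcases Nat.lt_or_ge 191 X1 with h5 | h5
    swap
    · exact Ops.t4_spec _ s4H4_121_151 X1 (by omega) (by omega) h4
    rcases Nat.lt_or_ge 211 X1 with h5 | h5
    swap
    · exact Ops.t4_spec _ s4H4_121_191 X1 (by omega) (by omega) h4
    rcases Nat.lt_or_ge 239 X1 with h5 | h5
    swap
    · exact Ops.t4_spec _ s4H4_121_211 X1 (by omega) (by omega) h4
    rcases Nat.lt_or_ge 253 X1 with h5 | h5
    swap
    · exact Ops.t4_spec _ s4H4_121_239 X1 (by omega) (by omega) h4
    rcases Nat.lt_or_ge 261 X1 with h5 | h5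
    swap
    · exact Ops.t4_spec _ s4H4_121_253 X1 (by omega) (by omega) h4
    rcases Nat.lt_or_ge 266 X1 with h5 | h5
    swap
    · exact Ops.t4_spec _ s4H4_121_261 X1 (by omega) (by omega) h4
    exact Ops.t4_spec _ s4H4_121_266 X1 (by omega) (by omega) h4
  · rcases Nat.lt_or_ge 192 X1 with h5 | h5
    swap
    · exact Ops.t4_spec _ s4H4_136_0 X1 (by omega) (by omega) h4
    rcases Nat.lt_or_ge 223 X1 with h5 | h5
    swap
    · exact Ops.t4_spec _ s4H4_136_192 X1 (by omega) (by omega) h4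
    rcases Nat.lt_or_ge 239 X1 with h5 | h5
    swap
    · exact Ops.t4_spec _ s4H4_136_223 X1 (by omega) (by omega) h4
    rcases Nat.lt_or_ge 253 X1 with h5 | h5
    swap
    · exact Ops.t4_spec _ s4H4_136_239 X1 (by omega) (by omega) h4
    rcases Nat.lt_or_ge 265 X1 with h5 | h5
    swap
    · exact Ops.t4_spec _ s4H4_136_253 X1 (by omega) (by omega) h4
    exact Ops.t4_spec _ s4H4_136_265 X1 (by omega) (by omega) h4
  · rcases Nat.lt_or_ge 180 X1 with h5 | h5
    swap
    · exact Ops.t4_spec _ s4H4_151_0 X1 (by omega) (by omega) h4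
    rcases Nat.lt_or_ge 204 X1 with h5 | h5
    swap
    · exact Ops.t4_spec _ s4H4_151_180 X1 (by omega) (by omega) h4
    rcases Nat.lt_or_ge 211 X1 with h5 | h5
    swap
    · exact Ops.t4_spec _ s4H4_151_204 X1 (by omega) (by omega) h4
    rcases Nat.lt_or_ge 241 X1 with h5 | h5
    swap
    · exact Ops.t4_spec _ s4H4_151_211 X1 (by omega) (by omega) h4
    rcases Nat.lt_or_ge 254 X1 with h5 | h5
    swap
    · exact Ops.t4_spec _ s4H4_151_241 X1 (by omega) (by omega) h4
    rcases Nat.lt_or_ge 258 X1 with h5 | h5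
    swap
    · exact Ops.t4_spec _ s4H4_151_254 X1 (by omega) (by omega) h4
    rcases Nat.lt_or_ge 265 X1 with h5 | h5
    swap
    · exact Ops.t4_spec _ s4H4_151_258 X1 (by omega) (by omega) h4
    rcases Nat.lt_or_ge 270 X1 with h5 | h5
    swap
    · exact Ops.t4_spec _ s4H4_151_265 X1 (by omega) (by omega) h4
    exact Ops.t4_spec _ s4H4_151_270 X1 (by omega) (by omega) h4
  · rcases Nat.lt_or_ge 191 X1 with h5 | h5
    swap
    · exact Ops.t4_spec _ s4H4_166_0 X1 (by omega) (by omega) h4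
    rcases Nat.lt_or_ge 203 X1 with h5 | h5
    swap
    · exact Ops.t4_spec _ s4H4_166_191 X1 (by omega) (by omega) h4
    rcases Nat.lt_or_ge 210 X1 with h5 | h5
    swap
    · exact Ops.t4_spec _ s4H4_166_203 X1 (by omega) (by omega) h4
    rcases Nat.lt_or_ge 224 X1 with h5 | h5
    swap
    · exact Ops.t4_spec _ s4H4_166_210 X1 (by omega) (by omega) h4
    rcases Nat.lt_or_ge 238 X1 with h5 | h5
    swap
    · exact Ops.t4_spec _ s4H4_166_224 X1 (by omega) (by omega) h4
    rcases Nat.lt_or_ge 251 X1 with h5 | h5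
    swap
    · exact Ops.t4_spec _ s4H4_166_238 X1 (by omega) (by omega) h4
    rcases Nat.lt_or_ge 258 X1 with h5 | h5
    swap
    · exact Ops.t4_spec _ s4H4_166_251 X1 (by omega) (by omega) h4
    rcases Nat.lt_or_ge 260 X1 with h5 | h5
    swap
    · exact Ops.t4_spec _ s4H4_166_258 X1 (by omega) (by omega) h4
    rcases Nat.lt_or_ge 264 X1 with h5 | h5
    swap
    · exact Ops.t4_spec _ s4H4_166_260 X1 (by omega) (by omega) h4
    rcases Nat.lt_or_ge 265 X1 with h5 | h5
    swap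
    · exact Ops.t4_spec _ s4H4_166_264 X1 (by omega) (by omega) h4
    rcases Nat.lt_or_ge 266 X1 with h5 | h5
    swap
    · exact Ops.t4_spec _ s4H4_166_265 X1 (by omega) (by omega) h4
    rcases Nat.lt_or_ge 267 X1 with h5 | h5
    swap
    · exact Ops.t4_spec _ s4H4_166_266 X1 (by omega) (by omega) h4
    exact Ops.t4_spec _ s4H4_166_267 X1 (by omega) (by omega) h4
  · rcases Nat.lt_or_ge 208 X1 with h5 | h5
    swap
    · exact Ops.t4_spec _ s4H4_181_0 X1 (by omega) (by omega) h4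
    rcases Nat.lt_or_ge 212 X1 with h5 | h5
    swap
    · exact Ops.t4_spec _ s4H4_181_208 X1 (by omega) (by omega) h4
    rcases Nat.lt_or_ge 225 X1 with h5 | h5
    swap
    · exact Ops.t4_spec _ s4H4_181_212 X1 (by omega) (by omega) h4
    rcases Nat.lt_or_ge 227 X1 with h5 | h5
    swap
    · exact Ops.t4_spec _ s4H4_181_225 X1 (by omega) (by omega) h4
    rcases Nat.lt_or_ge 239 X1 with h5 | h5
    swap
    · exact Ops.t4_spec _ s4H4_181_227 X1 (by omega) (by omega) h4
    rcases Nat.lt_or_ge 255 X1 with h5 | h5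
    swap
    · exact Ops.t4_spec _ s4H4_181_239 X1 (by omega) (by omega) h4
    rcases Nat.lt_or_ge 258 X1 with h5 | h5
    swap
    · exact Ops.t4_spec _ s4H4_181_255 X1 (by omega) (by omega) h4
    rcases Nat.lt_or_ge 264 X1 with h5 | h5
    swap
    · exact Ops.t4_spec _ s4H4_181_258 X1 (by omega) (by omega) h4
    exact Ops.t4_spec _ s4H4_181_264 X1 (by omega) (by omega) h4
  · rcases Nat.lt_or_ge 213 X1 with h5 | h5
    swap
    · exact Ops.t4_spec _ s4H4_196_0 X1 (by omega) (by omega) h4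
    rcases Nat.lt_or_ge 225 X1 with h5 | h5
    swap
    · exact Ops.t4_spec _ s4H4_196_213 X1 (by omega) (by omega) h4
    rcases Nat.lt_or_ge 228 X1 with h5 | h5
    swap
    · exact Ops.t4_spec _ s4H4_196_225 X1 (by omega) (by omega) h4
    rcases Nat.lt_or_ge 229 X1 with h5 | h5
    swap
    · exact Ops.t4_spec _ s4H4_196_228 X1 (by omega) (by omega) h4
    rcases Nat.lt_or_ge 240 X1 with h5 | h5
    swap
    · exact Ops.t4_spec _ s4H4_196_229 X1 (by omega) (by omega) h4
    rcases Nat.lt_or_ge 243 X1 with h5 | h5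
    swap
    · exact Ops.t4_spec _ s4H4_196_240 X1 (by omega) (by omega) h4
    rcases Nat.lt_or_ge 253 X1 with h5 | h5
    swap
    · exact Ops.t4_spec _ s4H4_196_243 X1 (by omega) (by omega) h4
    rcases Nat.lt_or_ge 257 X1 with h5 | h5
    swap
    · exact Ops.t4_spec _ s4H4_196_253 X1 (by omega) (by omega) h4
    rcases Nat.lt_or_ge 258 X1 with h5 | h5
    swap
    · exact Ops.t4_spec _ s4H4_196_257 X1 (by omega) (by omega) h4
    rcases Nat.lt_or_ge 261 X1 with h5 | h5
    swap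
    · exact Ops.t4_spec _ s4H4_196_258 X1 (by omega) (by omega) h4
    rcases Nat.lt_or_ge 265 X1 with h5 | h5
    swap
    · exact Ops.t4_spec _ s4H4_196_261 X1 (by omega) (by omega) h4
    exact Ops.t4_spec _ s4H4_196_265 X1 (by omega) (by omega) h4
  · rcases Nat.lt_or_ge 226 X1 with h5 | h5
    swap
    · exact Ops.t4_spec _ s4H4_211_0 X1 (by omega) (by omega) h4
    rcases Nat.lt_or_ge 241 X1 with h5 | h5
    swap
    · exact Ops.t4_spec _ s4H4_211_226 X1 (by omega) (by omega) h4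
    rcases Nat.lt_or_ge 255 X1 with h5 | h5
    swap
    · exact Ops.t4_spec _ s4H4_211_241 X1 (by omega) (by omega) h4
    rcases Nat.lt_or_ge 261 X1 with h5 | h5
    swap
    · exact Ops.t4_spec _ s4H4_211_255 X1 (by omega) (by omega) h4
    rcases Nat.lt_or_ge 263 X1 with h5 | h5
    swap
    · exact Ops.t4_spec _ s4H4_211_261 X1 (by omega) (by omega) h4
    rcases Nat.lt_or_ge 266 X1 with h5 | h5
    swap
    · exact Ops.t4_spec _ s4H4_211_263 X1 (by omega) (by omega) h4
    exact Ops.t4_spec _ s4H4_211_266 X1 (by omega) (by omega) h4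
  · rcases Nat.lt_or_ge 241 X1 with h5 | h5
    swap
    · exact Ops.t4_spec _ s4H4_226_0 X1 (by omega) (by omega) h4
    rcases Nat.lt_or_ge 252 X1 with h5 | h5
    swap
    · exact Ops.t4_spec _ s4H4_226_241 X1 (by omega) (by omega) h4
    rcases Nat.lt_or_ge 257 X1 with h5 | h5
    swap
    · exact Ops.t4_spec _ s4H4_226_252 X1 (by omega) (by omega) h4
    rcases Nat.lt_or_ge 260 X1 with h5 | h5
    swap
    · exact Ops.t4_spec _ s4H4_226_257 X1 (by omega) (by omega) h4
    rcases Nat.lt_or_ge 262 X1 with h5 | h5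
    swap
    · exact Ops.t4_spec _ s4H4_226_260 X1 (by omega) (by omega) h4
    rcases Nat.lt_or_ge 266 X1 with h5 | h5
    swap
    · exact Ops.t4_spec _ s4H4_226_262 X1 (by omega) (by omega) h4
    exact Ops.t4_spec _ s4H4_226_266 X1 (by omega) (by omega) h4
  · rcases Nat.lt_or_ge 256 X1 with h5 | h5
    swap
    · exact Ops.t4_spec _ s4H4_241_0 X1 (by omega) (by omega) h4
    rcases Nat.lt_or_ge 260 X1 with h5 | h5
    swap
    · exact Ops.t4_spec _ s4H4_241_256 X1 (by omega) (by omega) h4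
    rcases Nat.lt_or_ge 262 X1 with h5 | h5
    swap
    · exact Ops.t4_spec _ s4H4_241_260 X1 (by omega) (by omega) h4
    rcases Nat.lt_or_ge 266 X1 with h5 | h5
    swap
    · exact Ops.t4_spec _ s4H4_241_262 X1 (by omega) (by omega) h4
    rcases Nat.lt_or_ge 270 X1 with h5 | h5
    swap
    · exact Ops.t4_spec _ s4H4_241_266 X1 (by omega) (by omega) h4
    exact Ops.t4_spec _ s4H4_241_270 X1 (by omega) (by omega) h4
  · rcases Nat.lt_or_ge 257 X1 with h5 | h5
    swap
    · exact Ops.t4_spec _ s4H4_256_0 X1 (by omega) (by omega) h4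
    rcases Nat.lt_or_ge 258 X1 with h5 | h5
    swap
    · exact Ops.t4_spec _ s4H4_256_257 X1 (by omega) (by omega) h4
    rcases Nat.lt_or_ge 260 X1 with h5 | h5
    swap
    · exact Ops.t4_spec _ s4H4_256_258 X1 (by omega) (by omega) h4
    rcases Nat.lt_or_ge 263 X1 with h5 | h5
    swap
    · exact Ops.t4_spec _ s4H4_256_260 X1 (by omega) (by omega) h4
    rcases Nat.lt_or_ge 266 X1 with h5 | h5
    swap
    · exact Ops.t4_spec _ s4H4_256_263 X1 (by omega) (by omega) h4
    rcases Nat.lt_or_ge 268 X1 with h5 | h5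
    swap
    · exact Ops.t4_spec _ s4H4_256_266 X1 (by omega) (by omega) h4
    rcases Nat.lt_or_ge 270 X1 with h5 | h5
    swap
    · exact Ops.t4_spec _ s4H4_256_268 X1 (by omega) (by omega) h4
    exact Ops.t4_spec _ s4H4_256_270 X1 (by omega) (by omega) h4
  · exact Ops.t4_spec _ s4H4_271_0 X1 (by omega) (by omega) h4
  · exact Ops.t4_spec _ s4H4_276_0 X1 (by omega) (by omega) h4

theorem conclH4 (hL : SpLine3) (hcone : SpCone) : Concl CoxeterMatrix.H₄ :=
  asmDL hcone CoxeterMatrix.H₄ (by decide) dH4 dcH4 xH4 xcH4 rfl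
    (by intro i j; fin_cases i <;> fin_cases j <;> rfl) orH4 oH4 eH4 rH4 oaH4 obH4 ocH4
    opH4 60 onH4
    (fun S _ ix sf F D h1 h2 h3 => hL S oH4 rH4 ix sf F D h1 h2 h3 ck3H4 ck4H4)
    kkH4 atH4 ogH4 xxH4

end Pool.Agent.H54.RG
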