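import Pool.Agent.H54.RF.Pk

/-!
# Project RG (MP_35eb49): tables of type A3
-/

set_option autoImplicit false
set_option maxRecDepth 100000
set_option maxHeartbeats 0

namespace Pool.Agent.H54.RG

open Pool.Agent.H54.RF

/-- meets, part 0 -/
noncomputable def mtA3_0 : ℕ := 0xd0c0b0a090807060504030201000c0c0000000404020204000200000b000b00000103030100030001000a00000a000a000a00000000000009000000090009000900000000000804010a0008040a01040000010007040300090407030904030000000602030a000a0306020003020000050201000901090205000002010004040000000404000004000000000300030000000303000003000000020200000000000202000002000001000100000100000100000001000000000000000000000000000000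
/-- meets -/
noncomputable def mtA3 : ℕ := mtA3_0

/-- complements, part 0 -/
noncomputable def ktA3_0 : ℕ := 0xa090b0c03020104060508070d
/-- complements -/
noncomputable def ktA3 : ℕ := ktA3_0

/-- rotations, part 0 -/
noncomputable def ttA3_0 : ℕ := 0xd0b0c090a0706050803020104000d0c0b0a090605080702010403000d0b0c090a0508070601040302000d0c0b0a09080706050403020100
/-- rotations -/
noncomputable def ttA3 : ℕ := ttA3_0

/-- products, part 0 -/
noncomputable def ptA3_0 : ℕ := 0xd00000d000d000d0000000000000d0000000d000d000d00000000000d000d00000806060800060008000d0d0000000707050507000500000d000d0000000d0d00000d0000000d0d00000000000d0d00000d00000d000d00000d00000d0000000d000d0d0000000d0d00000d000000000d0c07080008070d0c00070c00000d060b00070b07060d0000060b000d0c0506000d0c06050c000005000d080b0005080d0b05080b0000000d0c0b0a09080706050403020100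
/-- products -/
noncomputable def ptA3 : ℕ := ptA3_0

/-- orbits, part 0 -/
noncomputable def otA3_0 : ℕ := 0x504040303020202020101010100
/-- orbits -/
noncomputable def otA3 : ℕ := otA3_0

/-- masks, part 0 -/
noncomputable def elA3_0 : ℕ := 0x3f000000000000000a0000000000000005000000000000002000000000000000100000000000000029000000000000001c0000000000000026000000000000001300000000000000080000000000000004000000000000000200000000000000010000000000000000
/-- masks -/
noncomputable def elA3 : ℕ := elA3_0

/-- displacements for strips, part 0 -/
noncomputable def daA3_0 : ℕ := 0x900090000001100020001000000000002000000080000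
/-- displacements for strips -/
noncomputable def daA3 : ℕ := daA3_0

/-- potentials of strips, part 0 -/
noncomputable def vaA3_0 : ℕ := 0x800000004030004080000080404080004040404040407040804040004000404000000000004000404
/-- potentials of strips -/
noncomputable def vaA3 : ℕ := vaA3_0

/-- displacements for tubes, part 0 -/
noncomputable def dbA3_0 : ℕ := 0x3500540024000300010050000000050005003e0053003700120027000f000500040000000000180001005d0003
/-- displacements for tubes -/
noncomputable def dbA3 : ℕ := dbA3_0

/-- values of tubes, part 0 -/
noncomputable def vbA3_0 : ℕ := 0x14200e0012200a100a10000006200a100820082000000e000420062012200a100a1012201220161014201200080000000a10062000000a100e000a1000000a100e000a1016100a100a100a10062006200a1006200e0006200e00062014200e000a100a100a100a10062006200a10062000000a100a10120018100000022008200a1008000a100a100a1002200a10080016100620161016100e000a100a100600142006200600042008000a100a1006000a100620000000000a1012200a1000000a10060008200000000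
/-- values of tubes -/
noncomputable def vbA3 : ℕ := vbA3_0

/-- operations -/
noncomputable def oA3 : Ops where
  m := 14
  h := 4
  top := 13
  nf := 8
  mt := fun i j => Ops.g8 (Ops.rw_ mtA3 112 i) j
  kk := fun i => Ops.g8 ktA3 i
  tt := fun k i => Ops.g8 (Ops.rw_ ttA3 112 k) i
  pr := fun i j => Ops.g8 (Ops.rw_ ptA3 112 i) j
  orb := fun i => Ops.g8 otA3 i
  f1 := fun k => Ops.hs1 daA3 vaA3 13 41 k
  f2 := fun k => Ops.hs2 dbA3 vbA3 23 101 k

/-- representatives of the orbits -/
def rA3 : List ℕ := [1, 5, 9, 11]

/-- masks of the indices -/
noncomputable def eA3 (i : ℕ) : ℕ := Ops.g64 elA3 i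

end Pool.Agent.H54.RG
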