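import Pool.Agent.H54.RG.OpsH4
import Pool.Agent.H54.RG.Spl

/-!
# Project RG (MP_35eb49): checks of the cubes of type H4
-/

set_option autoImplicit false
set_option maxRecDepth 100000
set_option maxHeartbeats 0

namespace Pool.Agent.H54.RG

open Pool.Agent.H54.RF

/-- The checks of this file. They are in one theorem, so that they are done one after the other. -/
theorem q4H4_5 :
    oH4.t4 151 204 1 = true ∧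
    oH4.t4 151 205 1 = true ∧
    oH4.t4 151 206 1 = true ∧
    oH4.t4 151 207 1 = true ∧
    oH4.t4 151 208 1 = true ∧
    oH4.t4 151 209 1 = true ∧
    oH4.t4 151 210 1 = true ∧
    oH4.t4 151 211 4 = true ∧
    oH4.t4 151 215 4 = true ∧
    oH4.t4 151 219 3 = true ∧
    oH4.t4 151 222 4 = true ∧
    oH4.t4 151 226 4 = true ∧
    oH4.t4 151 230 3 = true ∧
    oH4.t4 151 233 4 = true ∧
    oH4.t4 151 237 4 = true ∧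
    oH4.t4 151 241 2 = true ∧
    oH4.t4 151 243 1 = true ∧
    oH4.t4 151 244 2 = true ∧
    oH4.t4 151 246 1 = true ∧
    oH4.t4 151 247 2 = true ∧
    oH4.t4 151 249 2 = true ∧
    oH4.t4 151 251 1 = true ∧
    oH4.t4 151 252 2 = true ∧
    oH4.t4 151 254 1 = true ∧
    oH4.t4 151 255 1 = true ∧
    oH4.t4 151 256 1 = true ∧
    oH4.t4 151 257 1 = true ∧
    oH4.t4 151 258 1 = true ∧
    oH4.t4 151 259 1 = true ∧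
    oH4.t4 151 260 1 = true ∧
    oH4.t4 151 261 1 = true ∧
    oH4.t4 151 262 1 = true ∧
    oH4.t4 151 263 1 = true ∧
    oH4.t4 151 264 1 = true ∧
    oH4.t4 151 265 1 = true ∧
    oH4.t4 151 266 1 = true ∧
    oH4.t4 151 267 1 = true ∧
    oH4.t4 151 268 1 = true ∧
    oH4.t4 151 269 1 = true ∧
    oH4.t4 151 270 1 = true ∧
    oH4.t4 151 271 1 = true ∧
    oH4.t4 151 272 1 = true ∧
    oH4.t4 151 273 1 = true ∧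
    oH4.t4 151 274 1 = true ∧
    oH4.t4 151 275 1 = true ∧
    oH4.t4 151 276 1 = true ∧
    oH4.t4 151 277 1 = true ∧
    oH4.t4 166 0 68 = true ∧
    oH4.t4 166 68 28 = true ∧
    oH4.t4 166 96 21 = true ∧
    oH4.t4 166 117 18 = true ∧
    oH4.t4 166 135 16 = true ∧
    oH4.t4 166 151 14 = true ∧
    oH4.t4 166 165 14 = true ∧
    oH4.t4 166 179 12 = true := by
  refine ⟨?_, ?_, ?_, ?_, ?_, ?_, ?_, ?_, ?_, ?_, ?_, ?_, ?_, ?_, ?_, ?_, ?_, ?_, ?_, ?_,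
    ?_, ?_, ?_, ?_, ?_, ?_, ?_, ?_, ?_, ?_, ?_, ?_, ?_, ?_, ?_, ?_, ?_, ?_, ?_, ?_,
    ?_, ?_, ?_, ?_, ?_, ?_, ?_, ?_, ?_, ?_, ?_, ?_, ?_, ?_, ?_⟩
  · decide +kernel
  · decide +kernel
  · decide +kernel
  · decide +kernel
  · decide +kernel
  · decide +kernel
  · decide +kernel
  · decide +kernel
  · decide +kernel
  · decide +kernel
  · decide +kernel
  · decide +kernel
  · decide +kernel
  · decide +kernel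
  · decide +kernel
  · decide +kernel
  · decide +kernel
  · decide +kernel
  · decide +kernel
  · decide +kernel
  · decide +kernel
  · decide +kernel
  · decide +kernel
  · decide +kernel
  · decide +kernel
  · decide +kernel
  · decide +kernel
  · decide +kernel
  · decide +kernel
  · decide +kernel
  · decide +kernel
  · decide +kernel
  · decide +kernel
  · decide +kernel
  · decide +kernel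
  · decide +kernel
  · decide +kernel
  · decide +kernel
  · decide +kernel
  · decide +kernel
  · decide +kernel
  · decide +kernel
  · decide +kernel
  · decide +kernel
  · decide +kernel
  · decide +kernel
  · decide +kernel
  · decide +kernel
  · decide +kernel
  · decide +kernel
  · decide +kernel
  · decide +kernel
  · decide +kernel
  · decide +kernel
  · decide +kernel

theorem s4H4_151_204 : oH4.t4 151 204 7 = true :=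
  (t4_two oH4 151 204 1 6 205 7 rfl rfl
    q4H4_5.1
    (t4_two oH4 151 205 1 5 206 6 rfl rfl
    q4H4_5.2.1
    (t4_two oH4 151 206 1 4 207 5 rfl rfl
    q4H4_5.2.2.1
    (t4_two oH4 151 207 1 3 208 4 rfl rfl
    q4H4_5.2.2.2.1
    (t4_two oH4 151 208 1 2 209 3 rfl rfl
    q4H4_5.2.2.2.2.1
    (t4_two oH4 151 209 1 1 210 2 rfl rfl
    q4H4_5.2.2.2.2.2.1
    q4H4_5.2.2.2.2.2.2.1))))))

theorem s4H4_151_211 : oH4.t4 151 211 30 = true :=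
  (t4_two oH4 151 211 4 26 215 30 rfl rfl
    q4H4_5.2.2.2.2.2.2.2.1
    (t4_two oH4 151 215 4 22 219 26 rfl rfl
    q4H4_5.2.2.2.2.2.2.2.2.1
    (t4_two oH4 151 219 3 19 222 22 rfl rfl
    q4H4_5.2.2.2.2.2.2.2.2.2.1
    (t4_two oH4 151 222 4 15 226 19 rfl rfl
    q4H4_5.2.2.2.2.2.2.2.2.2.2.1
    (t4_two oH4 151 226 4 11 230 15 rfl rfl
    q4H4_5.2.2.2.2.2.2.2.2.2.2.2.1
    (t4_two oH4 151 230 3 8 233 11 rfl rfl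
    q4H4_5.2.2.2.2.2.2.2.2.2.2.2.2.1
    (t4_two oH4 151 233 4 4 237 8 rfl rfl
    q4H4_5.2.2.2.2.2.2.2.2.2.2.2.2.2.1
    q4H4_5.2.2.2.2.2.2.2.2.2.2.2.2.2.2.1)))))))

theorem s4H4_151_241 : oH4.t4 151 241 13 = true :=
  (t4_two oH4 151 241 2 11 243 13 rfl rfl
    q4H4_5.2.2.2.2.2.2.2.2.2.2.2.2.2.2.2.1
    (t4_two oH4 151 243 1 10 244 11 rfl rfl
    q4H4_5.2.2.2.2.2.2.2.2.2.2.2.2.2.2.2.2.1
    (t4_two oH4 151 244 2 8 246 10 rfl rfl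
    q4H4_5.2.2.2.2.2.2.2.2.2.2.2.2.2.2.2.2.2.1
    (t4_two oH4 151 246 1 7 247 8 rfl rfl
    q4H4_5.2.2.2.2.2.2.2.2.2.2.2.2.2.2.2.2.2.2.1
    (t4_two oH4 151 247 2 5 249 7 rfl rfl
    q4H4_5.2.2.2.2.2.2.2.2.2.2.2.2.2.2.2.2.2.2.2.1
    (t4_two oH4 151 249 2 3 251 5 rfl rfl
    q4H4_5.2.2.2.2.2.2.2.2.2.2.2.2.2.2.2.2.2.2.2.2.1
    (t4_two oH4 151 251 1 2 252 3 rfl rfl
    q4H4_5.2.2.2.2.2.2.2.2.2.2.2.2.2.2.2.2.2.2.2.2.2.1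
    q4H4_5.2.2.2.2.2.2.2.2.2.2.2.2.2.2.2.2.2.2.2.2.2.2.1)))))))

theorem s4H4_151_254 : oH4.t4 151 254 4 = true :=
  (t4_two oH4 151 254 1 3 255 4 rfl rfl
    q4H4_5.2.2.2.2.2.2.2.2.2.2.2.2.2.2.2.2.2.2.2.2.2.2.2.1
    (t4_two oH4 151 255 1 2 256 3 rfl rfl
    q4H4_5.2.2.2.2.2.2.2.2.2.2.2.2.2.2.2.2.2.2.2.2.2.2.2.2.1
    (t4_two oH4 151 256 1 1 257 2 rfl rfl
    q4H4_5.2.2.2.2.2.2.2.2.2.2.2.2.2.2.2.2.2.2.2.2.2.2.2.2.2.1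
    q4H4_5.2.2.2.2.2.2.2.2.2.2.2.2.2.2.2.2.2.2.2.2.2.2.2.2.2.2.1)))

theorem s4H4_151_258 : oH4.t4 151 258 7 = true :=
  (t4_two oH4 151 258 1 6 259 7 rfl rfl
    q4H4_5.2.2.2.2.2.2.2.2.2.2.2.2.2.2.2.2.2.2.2.2.2.2.2.2.2.2.2.1
    (t4_two oH4 151 259 1 5 260 6 rfl rfl
    q4H4_5.2.2.2.2.2.2.2.2.2.2.2.2.2.2.2.2.2.2.2.2.2.2.2.2.2.2.2.2.1
    (t4_two oH4 151 260 1 4 261 5 rfl rfl
    q4H4_5.2.2.2.2.2.2.2.2.2.2.2.2.2.2.2.2.2.2.2.2.2.2.2.2.2.2.2.2.2.1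
    (t4_two oH4 151 261 1 3 262 4 rfl rfl
    q4H4_5.2.2.2.2.2.2.2.2.2.2.2.2.2.2.2.2.2.2.2.2.2.2.2.2.2.2.2.2.2.2.1
    (t4_two oH4 151 262 1 2 263 3 rfl rfl
    q4H4_5.2.2.2.2.2.2.2.2.2.2.2.2.2.2.2.2.2.2.2.2.2.2.2.2.2.2.2.2.2.2.2.1
    (t4_two oH4 151 263 1 1 264 2 rfl rfl
    q4H4_5.2.2.2.2.2.2.2.2.2.2.2.2.2.2.2.2.2.2.2.2.2.2.2.2.2.2.2.2.2.2.2.2.1
    q4H4_5.2.2.2.2.2.2.2.2.2.2.2.2.2.2.2.2.2.2.2.2.2.2.2.2.2.2.2.2.2.2.2.2.2.1))))))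

theorem s4H4_151_265 : oH4.t4 151 265 5 = true :=
  (t4_two oH4 151 265 1 4 266 5 rfl rfl
    q4H4_5.2.2.2.2.2.2.2.2.2.2.2.2.2.2.2.2.2.2.2.2.2.2.2.2.2.2.2.2.2.2.2.2.2.2.1
    (t4_two oH4 151 266 1 3 267 4 rfl rfl
    q4H4_5.2.2.2.2.2.2.2.2.2.2.2.2.2.2.2.2.2.2.2.2.2.2.2.2.2.2.2.2.2.2.2.2.2.2.2.1
    (t4_two oH4 151 267 1 2 268 3 rfl rfl
    q4H4_5.2.2.2.2.2.2.2.2.2.2.2.2.2.2.2.2.2.2.2.2.2.2.2.2.2.2.2.2.2.2.2.2.2.2.2.2.1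
    (t4_two oH4 151 268 1 1 269 2 rfl rfl
    q4H4_5.2.2.2.2.2.2.2.2.2.2.2.2.2.2.2.2.2.2.2.2.2.2.2.2.2.2.2.2.2.2.2.2.2.2.2.2.2.1
    q4H4_5.2.2.2.2.2.2.2.2.2.2.2.2.2.2.2.2.2.2.2.2.2.2.2.2.2.2.2.2.2.2.2.2.2.2.2.2.2.2.1))))

theorem s4H4_151_270 : oH4.t4 151 270 8 = true :=
  (t4_two oH4 151 270 1 7 271 8 rfl rfl
    q4H4_5.2.2.2.2.2.2.2.2.2.2.2.2.2.2.2.2.2.2.2.2.2.2.2.2.2.2.2.2.2.2.2.2.2.2.2.2.2.2.2.1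
    (t4_two oH4 151 271 1 6 272 7 rfl rfl
    q4H4_5.2.2.2.2.2.2.2.2.2.2.2.2.2.2.2.2.2.2.2.2.2.2.2.2.2.2.2.2.2.2.2.2.2.2.2.2.2.2.2.2.1
    (t4_two oH4 151 272 1 5 273 6 rfl rfl
    q4H4_5.2.2.2.2.2.2.2.2.2.2.2.2.2.2.2.2.2.2.2.2.2.2.2.2.2.2.2.2.2.2.2.2.2.2.2.2.2.2.2.2.2.1
    (t4_two oH4 151 273 1 4 274 5 rfl rfl
    q4H4_5.2.2.2.2.2.2.2.2.2.2.2.2.2.2.2.2.2.2.2.2.2.2.2.2.2.2.2.2.2.2.2.2.2.2.2.2.2.2.2.2.2.2.1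
    (t4_two oH4 151 274 1 3 275 4 rfl rfl
    q4H4_5.2.2.2.2.2.2.2.2.2.2.2.2.2.2.2.2.2.2.2.2.2.2.2.2.2.2.2.2.2.2.2.2.2.2.2.2.2.2.2.2.2.2.2.1
    (t4_two oH4 151 275 1 2 276 3 rfl rfl
    q4H4_5.2.2.2.2.2.2.2.2.2.2.2.2.2.2.2.2.2.2.2.2.2.2.2.2.2.2.2.2.2.2.2.2.2.2.2.2.2.2.2.2.2.2.2.2.1
    (t4_two oH4 151 276 1 1 277 2 rfl rfl
    q4H4_5.2.2.2.2.2.2.2.2.2.2.2.2.2.2.2.2.2.2.2.2.2.2.2.2.2.2.2.2.2.2.2.2.2.2.2.2.2.2.2.2.2.2.2.2.2.1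
    q4H4_5.2.2.2.2.2.2.2.2.2.2.2.2.2.2.2.2.2.2.2.2.2.2.2.2.2.2.2.2.2.2.2.2.2.2.2.2.2.2.2.2.2.2.2.2.2.2.1)))))))

theorem s4H4_166_0 : oH4.t4 166 0 191 = true :=
  (t4_two oH4 166 0 68 123 68 191 rfl rfl
    q4H4_5.2.2.2.2.2.2.2.2.2.2.2.2.2.2.2.2.2.2.2.2.2.2.2.2.2.2.2.2.2.2.2.2.2.2.2.2.2.2.2.2.2.2.2.2.2.2.2.1
    (t4_two oH4 166 68 28 95 96 123 rfl rfl
    q4H4_5.2.2.2.2.2.2.2.2.2.2.2.2.2.2.2.2.2.2.2.2.2.2.2.2.2.2.2.2.2.2.2.2.2.2.2.2.2.2.2.2.2.2.2.2.2.2.2.2.1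
    (t4_two oH4 166 96 21 74 117 95 rfl rfl
    q4H4_5.2.2.2.2.2.2.2.2.2.2.2.2.2.2.2.2.2.2.2.2.2.2.2.2.2.2.2.2.2.2.2.2.2.2.2.2.2.2.2.2.2.2.2.2.2.2.2.2.2.1
    (t4_two oH4 166 117 18 56 135 74 rfl rfl
    q4H4_5.2.2.2.2.2.2.2.2.2.2.2.2.2.2.2.2.2.2.2.2.2.2.2.2.2.2.2.2.2.2.2.2.2.2.2.2.2.2.2.2.2.2.2.2.2.2.2.2.2.2.1
    (t4_two oH4 166 135 16 40 151 56 rfl rfl
    q4H4_5.2.2.2.2.2.2.2.2.2.2.2.2.2.2.2.2.2.2.2.2.2.2.2.2.2.2.2.2.2.2.2.2.2.2.2.2.2.2.2.2.2.2.2.2.2.2.2.2.2.2.2.1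
    (t4_two oH4 166 151 14 26 165 40 rfl rfl
    q4H4_5.2.2.2.2.2.2.2.2.2.2.2.2.2.2.2.2.2.2.2.2.2.2.2.2.2.2.2.2.2.2.2.2.2.2.2.2.2.2.2.2.2.2.2.2.2.2.2.2.2.2.2.2.1
    (t4_two oH4 166 165 14 12 179 26 rfl rfl
    q4H4_5.2.2.2.2.2.2.2.2.2.2.2.2.2.2.2.2.2.2.2.2.2.2.2.2.2.2.2.2.2.2.2.2.2.2.2.2.2.2.2.2.2.2.2.2.2.2.2.2.2.2.2.2.2.1
    q4H4_5.2.2.2.2.2.2.2.2.2.2.2.2.2.2.2.2.2.2.2.2.2.2.2.2.2.2.2.2.2.2.2.2.2.2.2.2.2.2.2.2.2.2.2.2.2.2.2.2.2.2.2.2.2.2)))))))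

end Pool.Agent.H54.RG
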